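import Mathlib

/-!
Bivariate polynomials over `ℂ`: common zeros of an irreducible polynomial and another polynomial,
and the case in which `(z - z₀) (w - w₀)` is a square modulo an irreducible polynomial.
-/

namespace Pool.Agent.Lib.MP_bc4313_co

open Polynomial Polynomial.Bivariate

/-- Bezout identity for an irreducible polynomial and a polynomial which it does not divide. -/
theorem bezout {G F : ℂ[X][Y]} (hG : Irreducible G) (hd : G.natDegree ≠ 0) (hF : ¬ G ∣ F) :
    ∃ a b : ℂ[X][Y], ∃ c : ℂ[X], c ≠ 0 ∧ a * G + b * F = C c := by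
  classical
  have hp : G.IsPrimitive := hG.isPrimitive hd
  have hG' : Irreducible (G.map (algebraMap ℂ[X] (RatFunc ℂ))) :=
    (hp.irreducible_iff_irreducible_map_fraction_map (K := RatFunc ℂ)).1 hG
  have hF' : ¬ G.map (algebraMap ℂ[X] (RatFunc ℂ)) ∣ F.map (algebraMap ℂ[X] (RatFunc ℂ)) :=
    fun h => hF (hp.dvd_of_fraction_map_dvd_fraction_map h)
  obtain ⟨a, b, hab⟩ := (hG'.coprime_iff_not_dvd).2 hF'
  obtain ⟨a0, ha0, ha1⟩ := IsLocalization.integerNormalization_spec (nonZeroDivisors ℂ[X]) a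
  obtain ⟨b0, hb0, hb1⟩ := IsLocalization.integerNormalization_spec (nonZeroDivisors ℂ[X]) b
  set a' := IsLocalization.integerNormalization (nonZeroDivisors ℂ[X]) a
  set b' := IsLocalization.integerNormalization (nonZeroDivisors ℂ[X]) b
  refine ⟨C b0 * a', C a0 * b', a0 * b0, mul_ne_zero (nonZeroDivisors.ne_zero ha0)
    (nonZeroDivisors.ne_zero hb0), ?_⟩
  apply map_injective (algebraMap ℂ[X] (RatFunc ℂ)) (IsFractionRing.injective _ _)
  simp only [Polynomial.map_add, Polynomial.map_mul, map_C, ha1, hb1]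
  rw [Algebra.smul_def, Algebra.smul_def, Polynomial.algebraMap_apply, Polynomial.algebraMap_apply]
  calc _ = C (algebraMap ℂ[X] (RatFunc ℂ) a0) * C (algebraMap ℂ[X] (RatFunc ℂ) b0) *
        (a * G.map (algebraMap ℂ[X] (RatFunc ℂ)) + b * F.map (algebraMap ℂ[X] (RatFunc ℂ))) := by
        ring
    _ = _ := by rw [hab, mul_one, map_mul, C_mul]

/-- An irreducible polynomial divides each polynomial with which it has infinitely many common
zeros. -/
theorem dvd_of_zeros {G F : ℂ[X][Y]} (hG : Irreducible G) {Z : Set (ℂ × ℂ)} (hZ : Z.Infinite)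
    (hinj : Set.InjOn Prod.fst Z) (h1 : ∀ y ∈ Z, G.evalEval y.1 y.2 = 0)
    (h2 : ∀ y ∈ Z, F.evalEval y.1 y.2 = 0) : G ∣ F := by
  have hZi : (Prod.fst '' Z).Infinite := hZ.image hinj
  by_contra hn
  by_cases hd : G.natDegree = 0
  · obtain ⟨g, rfl⟩ := natDegree_eq_zero.1 hd
    have hg : g ≠ 0 := by
      rintro rfl
      exact hG.ne_zero (by simp)
    refine hZi ((g.rootSet_finite ℂ).subset ?_)
    rintro _ ⟨y, hy, rfl⟩
    rw [mem_rootSet]
    refine ⟨hg, ?_⟩
    have := h1 y hy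
    rwa [evalEval_C] at this
  · obtain ⟨a, b, c, hc, habc⟩ := bezout hG hd hn
    refine hZi ((c.rootSet_finite ℂ).subset ?_)
    rintro _ ⟨y, hy, rfl⟩
    rw [mem_rootSet]
    refine ⟨hc, ?_⟩
    have := congrArg (evalEval y.1 y.2) habc
    rw [evalEval_add, evalEval_mul, evalEval_mul, h1 y hy, h2 y hy, evalEval_C] at this
    simpa using this.symm

/-- If an irreducible polynomial has infinitely many zeros with different first coordinates then its
degree in the second variable is positive. -/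
theorem natDegree_ne_zero_of_zeros {G : ℂ[X][Y]} (hG : Irreducible G) {Z : Set (ℂ × ℂ)}
    (hZ : Z.Infinite) (hinj : Set.InjOn Prod.fst Z) (h1 : ∀ y ∈ Z, G.evalEval y.1 y.2 = 0) :
    G.natDegree ≠ 0 := by
  intro hd
  have hZi : (Prod.fst '' Z).Infinite := hZ.image hinj
  obtain ⟨g, rfl⟩ := natDegree_eq_zero.1 hd
  have hg : g ≠ 0 := by
    rintro rfl
    exact hG.ne_zero (by simp)
  refine hZi ((g.rootSet_finite ℂ).subset ?_)
  rintro _ ⟨y, hy, rfl⟩
  rw [mem_rootSet]
  refine ⟨hg, ?_⟩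
  have := h1 y hy
  rwa [evalEval_C] at this

/-- For all but finitely many `z` the polynomial `G(z, ·)` is separable, of the degree of `G`. -/
theorem finite_bad {G : ℂ[X][Y]} (hG : Irreducible G) (hd : G.natDegree ≠ 0) :
    ∃ s : Set ℂ, s.Finite ∧ ∀ z ∉ s, IsCoprime (G.map (evalRingHom z))
      (derivative (G.map (evalRingHom z))) ∧ (G.map (evalRingHom z)).natDegree = G.natDegree := by
  have hdd : derivative G ≠ 0 := by
    intro h
    exact hd (derivative_eq_zero.1 h)
  have hn : ¬ G ∣ derivative G := by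
    intro h
    have := natDegree_le_of_dvd h hdd
    exact absurd (natDegree_derivative_lt hd) (not_lt.2 this)
  obtain ⟨a, b, c, hc, habc⟩ := bezout hG hd hn
  refine ⟨c.rootSet ℂ ∪ G.leadingCoeff.rootSet ℂ, (c.rootSet_finite ℂ).union
    (G.leadingCoeff.rootSet_finite ℂ), fun z hz => ?_⟩
  have hz1 : c.eval z ≠ 0 := by
    intro h
    exact hz (Or.inl (mem_rootSet.2 ⟨hc, by simpa using h⟩))
  have hz2 : G.leadingCoeff.eval z ≠ 0 := by
    intro h
    exact hz (Or.inr (mem_rootSet.2 ⟨leadingCoeff_ne_zero.2 hG.ne_zero, by simpa using h⟩))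
  refine ⟨?_, natDegree_map_of_leadingCoeff_ne_zero _ (by simpa using hz2)⟩
  rw [derivative_map]
  refine ⟨C (c.eval z)⁻¹ * a.map (evalRingHom z), C (c.eval z)⁻¹ * b.map (evalRingHom z), ?_⟩
  have := congrArg (Polynomial.map (evalRingHom z)) habc
  simp only [Polynomial.map_add, Polynomial.map_mul, map_C, coe_evalRingHom] at this
  rw [mul_assoc, mul_assoc, ← mul_add, this, ← C_mul, inv_mul_cancel₀ hz1, C_1]

/-- splitting off the value at `z` of a polynomial in two variables -/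
theorem exists_lift (z : ℂ) (u : ℂ[X][Y]) :
    ∃ u' : ℂ[X][Y], u = (u.map (evalRingHom z)).map C + C (X - C z) * u' := by
  have h : C (X - C z) ∣ u - (u.map (evalRingHom z)).map C := by
    rw [C_dvd_iff_dvd_coeff]
    intro n
    rw [coeff_sub, coeff_map, coeff_map, dvd_iff_isRoot]
    simp
  obtain ⟨u', hu'⟩ := h
  exact ⟨u', by rw [← hu']; ring⟩

/-- If `(z - z₀) (w - w₀)` is a square modulo `G` and `G(z₀, ·)` is separable then `G(z₀, w)` divides
`w - w₀`. -/
theorem key {G f h : ℂ[X][Y]} {z w : ℂ}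
    (hid : C (X - C z) * (Y - C (C w)) = f ^ 2 + G * h)
    (hsep : IsCoprime (G.map (evalRingHom z)) (derivative (G.map (evalRingHom z))))
    (h0 : G.map (evalRingHom z) ≠ 0) :
    G.map (evalRingHom z) ∣ X - C w := by
  set ev : ℂ[X][Y] →+* ℂ[X] := mapRingHom (evalRingHom z) with hev
  have hev' : ∀ u : ℂ[X][Y], u.map (evalRingHom z) = ev u := fun u => rfl
  obtain ⟨f1, hf⟩ := exists_lift z f
  obtain ⟨G1, hG1⟩ := exists_lift z G
  obtain ⟨h1, hh⟩ := exists_lift z h
  rw [hev'] at hf hG1 hh hsep h0 ⊢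
  set f0 := ev f
  set g := ev G
  set h0' := ev h
  have e1 : ev (C (X - C z)) = 0 := by simp [hev]
  have e2 : ev (Y - C (C w)) = X - C w := by simp [hev]
  have e3 : ∀ u : ℂ[X], ev (u.map C) = u := by
    intro u
    rw [hev, coe_mapRingHom, Polynomial.map_map]
    have : (evalRingHom z).comp C = RingHom.id ℂ := by
      ext x <;> simp
    rw [this, Polynomial.map_id]
  have k0 : f0 ^ 2 + g * h0' = 0 := by
    have := congrArg ev hid
    rw [map_mul, e1, zero_mul, map_add, map_pow, map_mul] at this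
    exact this.symm
  have hsq : Squarefree g := Separable.squarefree hsep
  have hgf : g ∣ f0 := by
    refine (hsq.dvd_pow_iff_dvd two_ne_zero).1 ?_
    exact ⟨-h0', by linear_combination k0⟩
  obtain ⟨e, he⟩ := hgf
  have hh0 : h0' = -(g * e ^ 2) := by
    have : g * (h0' + g * e ^ 2) = 0 := by
      rw [he] at k0
      linear_combination k0
    rcases mul_eq_zero.1 this with h' | h'
    · exact absurd h' h0
    · linear_combination h'
  have hξ : (C (X - C z) : ℂ[X][Y]) ≠ 0 := by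
    rw [Ne, C_eq_zero]
    exact X_sub_C_ne_zero z
  have k1 : C (X - C z) * (Y - C (C w)) = C (X - C z) * (2 * (f0.map C) * f1 + C (X - C z) * f1 ^ 2 +
      g.map C * h1 + G1 * h0'.map C + C (X - C z) * G1 * h1) := by
    have k0' : (f0.map C) ^ 2 + g.map C * h0'.map C = 0 := by
      have := congrArg (Polynomial.map (C : ℂ →+* ℂ[X])) k0
      simpa using this
    rw [hid, hf, hG1, hh]
    linear_combination k0'
  have k2 := mul_left_cancel₀ hξ k1
  have k3 := congrArg ev k2
  rw [e2] at k3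
  simp only [map_add, map_mul, map_pow, e1, e3] at k3
  rw [k3, hh0, he]
  refine ⟨ev 2 * e * ev f1 + ev h1 - ev G1 * e ^ 2, by ring⟩

/-- the product `(z - z₀) (w - w₀)` is a square modulo `G` -/
def Good (G : ℂ[X][Y]) (p : ℂ × ℂ) : Prop :=
  ∃ f h : ℂ[X][Y], C (X - C p.1) * (Y - C (C p.2)) = f ^ 2 + G * h

/-- the degree in the second variable is one -/
theorem deg_one {G : ℂ[X][Y]} (hG : Irreducible G) {Z T : Set (ℂ × ℂ)} (hZ : Z.Infinite)
    (hZ1 : Set.InjOn Prod.fst Z) (hz : ∀ p ∈ Z, G.evalEval p.1 p.2 = 0) (hT : T.Infinite)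
    (hT1 : Set.InjOn Prod.fst T) (hgood : ∀ p ∈ T, Good G p) :
    G.natDegree = 1 ∧ ∃ s : Set ℂ, s.Finite ∧ ∀ p ∈ T, p.1 ∉ s → G.evalEval p.1 p.2 = 0 := by
  have hd := natDegree_ne_zero_of_zeros hG hZ hZ1 hz
  obtain ⟨s, hs, hsep⟩ := finite_bad hG hd
  have hdvd : ∀ p ∈ T, p.1 ∉ s → G.map (evalRingHom p.1) ∣ X - C p.2 := by
    intro p hp hps
    obtain ⟨f, h, hid⟩ := hgood p hp
    refine key hid (hsep _ hps).1 ?_
    intro h0
    have := (hsep _ hps).2
    rw [h0, natDegree_zero] at this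
    exact hd this.symm
  obtain ⟨p0, hp0, hp0s⟩ : ∃ p ∈ T, p.1 ∉ s := by
    by_contra hcon
    push Not at hcon
    exact (hT.image hT1) (hs.subset (by rintro _ ⟨p, hp, rfl⟩; exact hcon p hp))
  have hdeg : G.natDegree = 1 := by
    have h1 := natDegree_le_of_dvd (hdvd p0 hp0 hp0s) (X_sub_C_ne_zero _)
    rw [(hsep _ hp0s).2, natDegree_X_sub_C] at h1
    omega
  refine ⟨hdeg, s, hs, fun p hp hps => ?_⟩
  obtain ⟨u, hu⟩ := hdvd p hp hps
  rw [← map_evalRingHom_eval]
  have hg1 : (G.map (evalRingHom p.1)).natDegree = 1 := by rw [(hsep _ hps).2, hdeg]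
  have hg0 : G.map (evalRingHom p.1) ≠ 0 := by
    intro h0
    rw [h0, natDegree_zero] at hg1
    exact zero_ne_one hg1
  have hu0 : u ≠ 0 := by
    rintro rfl
    rw [mul_zero] at hu
    exact X_sub_C_ne_zero _ hu
  have hud : u.natDegree = 0 := by
    have := congrArg natDegree hu
    rw [natDegree_mul hg0 hu0, natDegree_X_sub_C, hg1] at this
    omega
  obtain ⟨r, rfl⟩ := natDegree_eq_zero.1 hud
  have hr : r ≠ 0 := by
    rintro rfl
    exact hu0 C_0
  have := congrArg (eval p.2) hu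
  rw [eval_mul, eval_C, eval_sub, eval_X, eval_C, sub_self] at this
  exact (mul_eq_zero.1 this.symm).resolve_right hr

theorem evalEval_swap (G : ℂ[X][Y]) (x y : ℂ) : (Bivariate.swap G).evalEval x y = G.evalEval y x := by
  rw [← coe_aevalAeval_eq_evalEval, ← coe_aevalAeval_eq_evalEval]
  exact Bivariate.aevalAeval_swap x y G

theorem coeff_swap (G : ℂ[X][Y]) (i j : ℕ) :
    ((Bivariate.swap G).coeff i).coeff j = (G.coeff j).coeff i := by
  induction G using Polynomial.induction_on' with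
  | add p q hp hq => simp only [map_add, coeff_add, hp, hq]
  | monomial n a =>
    induction a using Polynomial.induction_on' with
    | add p q hp hq => simp only [map_add, coeff_add, hp, hq]
    | monomial m r =>
      rw [Bivariate.swap_monomial_monomial]
      simp only [coeff_monomial]
      by_cases h1 : m = i <;> by_cases h2 : n = j <;> simp [h1, h2, coeff_monomial]

theorem Good.swap {G : ℂ[X][Y]} {p : ℂ × ℂ} (h : Good G p) :
    Good (Bivariate.swap G) p.swap := by
  obtain ⟨f, g, hfg⟩ := h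
  refine ⟨Bivariate.swap f, Bivariate.swap g, ?_⟩
  have e1 : Bivariate.swap (C (X - C p.1)) = Y - C (C p.1) := by
    rw [C_sub, map_sub, Bivariate.swap_X, Bivariate.swap_C_C]
  have e2 : Bivariate.swap (Y - C (C p.2)) = C (X - C p.2) := by
    rw [C_sub, map_sub, Bivariate.swap_Y, Bivariate.swap_C_C]
  have := congrArg Bivariate.swap hfg
  rw [map_add, map_mul, map_mul, map_pow, e1, e2] at this
  rw [← this, Prod.fst_swap, Prod.snd_swap, mul_comm]

/-- the leading coefficient is constant -/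
theorem leading_const {G : ℂ[X][Y]} (hG : Irreducible G) (hd : G.natDegree = 1) {p : ℂ × ℂ}
    (hgood : Good G p) (hzero : G.evalEval p.1 p.2 = 0) (h0 : (G.coeff 0).natDegree ≤ 1)
    (h1 : (G.coeff 1).natDegree ≤ 1) : (G.coeff 1).natDegree = 0 := by
  by_contra hne
  have hd1 : (G.coeff 1).natDegree = 1 := by omega
  set a0 := G.coeff 0 with ha0
  set a1 := G.coeff 1 with ha1
  have ha1ne : a1 ≠ 0 := by
    intro h
    rw [h, natDegree_zero] at hd1
    exact zero_ne_one hd1
  have hGe : G = C a0 + C a1 * Y := by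
    conv_lhs => rw [eq_X_add_C_of_natDegree_le_one hd.le]
    rw [add_comm]
  obtain ⟨f, h, hid⟩ := hgood
  set b : ℂ[X] := a0 + C p.2 * a1 with hb
  have hb0 : b ≠ 0 := by
    intro hb0
    have e : G = C a1 * (Y - C (C p.2)) := by
      have : a0 = -(C p.2 * a1) := by linear_combination hb0
      rw [hGe, this]
      simp only [map_neg, C_mul]
      ring
    rcases hG.isUnit_or_isUnit e with hu | hu
    · rw [isUnit_C] at hu
      have := natDegree_eq_zero_of_isUnit hu
      omega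
    · have := natDegree_eq_zero_of_isUnit hu
      rw [natDegree_X_sub_C] at this
      exact one_ne_zero this
  have hbroot : b.eval p.1 = 0 := by
    have h2 : G.evalEval p.1 p.2 = a0.eval p.1 + a1.eval p.1 * p.2 := by
      conv_lhs => rw [hGe]
      rw [evalEval_add, evalEval_mul, evalEval_C, evalEval_C, evalEval_X]
    rw [hb, eval_add, eval_mul, eval_C, ← hzero, h2]
    ring
  have hbd : b.natDegree = 1 := by
    have h2 : b.natDegree ≤ 1 := by
      refine (natDegree_add_le _ _).trans (max_le h0 ?_)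
      exact (natDegree_C_mul_le _ _).trans h1
    have h3 : b.natDegree ≠ 0 := by
      intro h3
      obtain ⟨r, hr⟩ := natDegree_eq_zero.1 h3
      rw [← hr, eval_C] at hbroot
      rw [hbroot, C_0] at hr
      exact hb0 hr.symm
    omega
  -- evaluation at the rational function
  set A0 : RatFunc ℂ := algebraMap ℂ[X] (RatFunc ℂ) a0 with hA0
  set A1 : RatFunc ℂ := algebraMap ℂ[X] (RatFunc ℂ) a1 with hA1
  have hinj : Function.Injective (algebraMap ℂ[X] (RatFunc ℂ)) := IsFractionRing.injective _ _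
  have hA1ne : A1 ≠ 0 := by
    rw [hA1, Ne, map_eq_zero_iff _ hinj]
    exact ha1ne
  set φ : ℂ[X][Y] →+* RatFunc ℂ := eval₂RingHom (algebraMap ℂ[X] (RatFunc ℂ)) (-A0 / A1) with hφ
  have hφC : ∀ c : ℂ[X], φ (C c) = algebraMap ℂ[X] (RatFunc ℂ) c := fun c => by
    rw [hφ, coe_eval₂RingHom, eval₂_C]
  have hφY : φ Y = -A0 / A1 := by rw [hφ, coe_eval₂RingHom, eval₂_X]
  have hφG : φ G = 0 := by
    rw [hGe, map_add, map_mul, hφC, hφC, hφY, ← hA0, ← hA1]
    field_simp
    ring
  have hmain : algebraMap ℂ[X] (RatFunc ℂ) (X - C p.1) * (-(algebraMap ℂ[X] (RatFunc ℂ) b) / A1) = φ f * φ f := by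
    have := congrArg φ hid
    rw [map_mul, map_add, map_mul φ G, hφG, zero_mul, add_zero, hφC, map_sub φ Y, hφC, hφY,
      map_pow, sq] at this
    rw [← this]
    congr 1
    rw [hb, map_add, map_mul, ← hA0, ← hA1]
    field_simp
    ring
  have hne1 : algebraMap ℂ[X] (RatFunc ℂ) (X - C p.1) ≠ 0 := by
    rw [Ne, map_eq_zero_iff _ hinj]
    exact X_sub_C_ne_zero _
  have hne2 : algebraMap ℂ[X] (RatFunc ℂ) b ≠ 0 := by
    rw [Ne, map_eq_zero_iff _ hinj]
    exact hb0
  have hne3 : -(algebraMap ℂ[X] (RatFunc ℂ) b) / A1 ≠ 0 := div_ne_zero (neg_ne_zero.2 hne2) hA1ne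
  have hf0 : φ f ≠ 0 := by
    intro h
    rw [h, mul_zero] at hmain
    exact mul_ne_zero hne1 hne3 hmain
  have hdeg := congrArg RatFunc.intDegree hmain
  rw [RatFunc.intDegree_mul hne1 hne3, RatFunc.intDegree_mul hf0 hf0,
    RatFunc.intDegree_div (neg_ne_zero.2 hne2) hA1ne, RatFunc.intDegree_neg,
    RatFunc.intDegree_polynomial, RatFunc.intDegree_polynomial, RatFunc.intDegree_polynomial,
    hbd, hd1, natDegree_X_sub_C] at hdeg
  omega

/-- the main algebraic lemma: the polynomial is linear and almost all good points are zeros -/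
theorem alg_main {G : ℂ[X][Y]} (hG : Irreducible G) {Z T : Set (ℂ × ℂ)} (hZ : Z.Infinite)
    (hZ1 : Set.InjOn Prod.fst Z) (hZ2 : Set.InjOn Prod.snd Z)
    (hz : ∀ p ∈ Z, G.evalEval p.1 p.2 = 0) (hT : T.Infinite)
    (hT1 : Set.InjOn Prod.fst T) (hT2 : Set.InjOn Prod.snd T) (hgood : ∀ p ∈ T, Good G p) :
    (∃ a b c : ℂ, c ≠ 0 ∧ ∀ z w : ℂ, G.evalEval z w = a * z + b + c * w) ∧
      ∃ s : Set ℂ, s.Finite ∧ ∀ p ∈ T, p.1 ∉ s → G.evalEval p.1 p.2 = 0 := by
  obtain ⟨hd, s, hs, hsz⟩ := deg_one hG hZ hZ1 hz hT hT1 hgood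
  refine ⟨?_, s, hs, hsz⟩
  have hG' : Irreducible (Bivariate.swap G) := (MulEquiv.irreducible_iff
    (Bivariate.swap (R := ℂ)).toMulEquiv).2 hG
  have hd' : (Bivariate.swap G).natDegree = 1 := by
    refine (deg_one hG' (Z := Prod.swap '' Z) (T := Prod.swap '' T)
      (hZ.image Prod.swap_injective.injOn) ?_ ?_ (hT.image Prod.swap_injective.injOn) ?_ ?_).1
    · rintro _ ⟨p, hp, rfl⟩ _ ⟨q, hq, rfl⟩ h
      rw [hZ2 hp hq h]
    · rintro _ ⟨p, hp, rfl⟩
      rw [evalEval_swap]
      exact hz p hp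
    · rintro _ ⟨p, hp, rfl⟩ _ ⟨q, hq, rfl⟩ h
      rw [hT2 hp hq h]
    · rintro _ ⟨p, hp, rfl⟩
      exact (hgood p hp).swap
  have hcoef : ∀ j, (G.coeff j).natDegree ≤ 1 := by
    intro j
    rw [natDegree_le_iff_coeff_eq_zero]
    intro i hi
    rw [← coeff_swap, coeff_eq_zero_of_natDegree_lt (hd'.trans_lt hi), coeff_zero]
  obtain ⟨p0, hp0, hp0s⟩ : ∃ p ∈ T, p.1 ∉ s := by
    by_contra hcon
    push Not at hcon
    exact (hT.image hT1) (hs.subset (by rintro _ ⟨p, hp, rfl⟩; exact hcon p hp))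
  have hlc := leading_const hG hd (hgood p0 hp0) (hsz p0 hp0 hp0s) (hcoef 0) (hcoef 1)
  obtain ⟨c, hc⟩ := natDegree_eq_zero.1 hlc
  refine ⟨(G.coeff 0).coeff 1, (G.coeff 0).coeff 0, c, ?_, fun z w => ?_⟩
  · rintro rfl
    have : G.leadingCoeff = 0 := by rw [leadingCoeff, hd, ← hc, C_0]
    exact hG.ne_zero (leadingCoeff_eq_zero.1 this)
  · conv_lhs => rw [eq_X_add_C_of_natDegree_le_one hd.le]
    rw [evalEval_add, evalEval_mul, evalEval_C, evalEval_C, evalEval_X, ← hc, eval_C]
    conv_lhs => rw [eq_X_add_C_of_natDegree_le_one (hcoef 0)]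
    rw [eval_add, eval_mul, eval_C, eval_C, eval_X]
    ring

end Pool.Agent.Lib.MP_bc4313_co
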