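import Mathlib

/-!
The `p`-adic part of the counting theorem: auxiliary linear relations between products of distances.
-/

namespace Pool.Agent.Lib.MP_bc4313_co

open Polynomial Polynomial.Bivariate

/-- truncations of the square root of `1 + X` over a ring in which `2` is invertible -/
theorem exists_sqrt_polyR {R : Type*} [CommRing R] {u : R} (hu : 2 * u = 1) (J : ℕ) :
    ∃ T S : R[X], T ^ 2 = 1 + X + X ^ (J + 1) * S ∧ T.eval 0 = 1 := by
  induction J with
  | zero => exact ⟨1, -1, by ring, by simp⟩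
  | succ J ih =>
    obtain ⟨T, S, h1, h2⟩ := ih
    set r : R := S.eval 0 with hr
    have hdvd : X ∣ S - C r * T + C ((r * u) ^ 2) * X ^ (J + 1) := by
      rw [X_dvd_iff, coeff_zero_eq_eval_zero]
      simp [h2, hr]
    obtain ⟨S', hS'⟩ := hdvd
    refine ⟨T - C (r * u) * X ^ (J + 1), S', ?_, ?_⟩
    · have e1 : (C r : R[X]) = 2 * C (r * u) := by
        have : r = 2 * (r * u) := by linear_combination -r * hu
        conv_lhs => rw [this]
        rw [C_mul]
        rfl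
      rw [e1, C_pow] at hS'
      calc (T - C (r * u) * X ^ (J + 1)) ^ 2 = T ^ 2 - 2 * C (r * u) * X ^ (J + 1) * T +
            C (r * u) ^ 2 * X ^ (J + 1) * X ^ (J + 1) := by ring
        _ = 1 + X + X ^ (J + 1) * (S - 2 * C (r * u) * T + C (r * u) ^ 2 * X ^ (J + 1)) := by
          rw [h1]; ring
        _ = _ := by rw [hS']; ring
    · simp [h2]

/-- approximation of a square root in a local ring -/
theorem sqrt_congr {R : Type*} [CommRing R] [IsLocalRing R] {u π : R} (hu : 2 * u = 1)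
    (hπ : ¬ IsUnit π) {J : ℕ} {T S : R[X]} (h1 : T ^ 2 = 1 + X + X ^ (J + 1) * S)
    (h2 : T.eval 0 = 1) {d D t : R} (hd : d ^ 2 = D ^ 2 * (1 + t)) (hD : IsUnit D)
    (ht : π ∣ t) (hdD : π ∣ d - D) : π ^ (J + 1) ∣ d - D * T.eval t := by
  have hT : t ∣ T.eval t - 1 := by
    have := sub_dvd_eval_sub t 0 T
    rwa [sub_zero, h2] at this
  have hunit : IsUnit (d + D * T.eval t) := by
    obtain ⟨a, ha⟩ := hdD
    obtain ⟨b, hb⟩ := ht.trans hT
    have hsum : IsUnit ((d + D * T.eval t) + (-(π * (a + D * b)))) := by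
      have : (d + D * T.eval t) + (-(π * (a + D * b))) = 2 * D := by
        linear_combination ha + D * hb
      rw [this]
      exact (IsUnit.of_mul_eq_one u hu).mul hD
    rcases IsLocalRing.isUnit_or_isUnit_of_isUnit_add hsum with h | h
    · exact h
    · exfalso
      rw [IsUnit.neg_iff] at h
      exact hπ (isUnit_of_mul_isUnit_left h)
  have hprod : (d - D * T.eval t) * (d + D * T.eval t) = -(D ^ 2 * t ^ (J + 1) * S.eval t) := by
    have := congrArg (eval t) h1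
    simp only [eval_pow, eval_add, eval_one, eval_X, eval_mul] at this
    calc _ = d ^ 2 - D ^ 2 * (T.eval t) ^ 2 := by ring
      _ = _ := by rw [this, hd]; ring
  rw [← hunit.dvd_mul_right, hprod, dvd_neg]
  exact ((pow_dvd_pow_of_dvd ht _).mul_left _).mul_right _

/-- the polynomial which approximates a distance -/
theorem exists_approx {R : Type*} [CommRing R] [IsLocalRing R] {u π : R} (hu : 2 * u = 1)
    (hπ : ¬ IsUnit π) (J : ℕ) (κ D : R) (hD : IsUnit D) (v : R × R)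
    (hv : D ^ 2 = v.1 ^ 2 + κ * v.2 ^ 2) :
    ∃ Φ : R[X][Y], ∀ (d : R) (y : R × R), π ∣ y.1 → π ∣ y.2 → π ∣ d - D →
      d ^ 2 = (v.1 + y.1) ^ 2 + κ * (v.2 + y.2) ^ 2 → π ^ (J + 1) ∣ d - Φ.evalEval y.1 y.2 := by
  obtain ⟨T, S, h1, h2⟩ := exists_sqrt_polyR hu J
  obtain ⟨e, he⟩ := hD.exists_right_inv
  set t : R[X][Y] := C (C (e ^ 2)) * (C (C (2 * v.1)) * C X + C (C (2 * κ * v.2)) * Y +
    C X ^ 2 + C (C κ) * Y ^ 2) with ht
  refine ⟨C (C D) * T.eval₂ (C.comp C) t, fun d y hy1 hy2 hdD hd => ?_⟩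
  set s : R := e ^ 2 * (2 * v.1 * y.1 + 2 * κ * v.2 * y.2 + y.1 ^ 2 + κ * y.2 ^ 2) with hs
  have hts : t.evalEval y.1 y.2 = s := by
    rw [ht, hs]
    simp only [evalEval_mul, evalEval_add, evalEval_pow, evalEval_C, evalEval_X, eval_C, eval_X]
  have hev : (C (C D) * T.eval₂ (C.comp C) t : R[X][Y]).evalEval y.1 y.2 = D * T.eval s := by
    rw [evalEval_mul, evalEval_C, eval_C]
    congr 1
    have h3 := hom_eval₂ T (C.comp C) (evalEvalRingHom y.1 y.2) t
    rw [coe_evalEvalRingHom, hts] at h3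
    rw [h3]
    have h4 : (evalEvalRingHom y.1 y.2).comp ((C : R[X] →+* R[X][Y]).comp (C : R →+* R[X])) =
        RingHom.id R := by
      ext x
      simp
    rw [h4, eval₂_id]
  rw [hev]
  refine sqrt_congr hu hπ h1 h2 ?_ hD ?_ hdD
  · have he2 : D ^ 2 * e ^ 2 = 1 := by rw [← mul_pow, he, one_pow]
    rw [hd, hs]
    linear_combination -hv - (2 * v.1 * y.1 + 2 * κ * v.2 * y.2 + y.1 ^ 2 + κ * y.2 ^ 2) * he2
  · rw [hs]
    refine Dvd.dvd.mul_left (dvd_add (dvd_add (dvd_add ?_ ?_) ?_) ?_) _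
    · exact hy1.mul_left _
    · exact hy2.mul_left _
    · exact hy1.trans (dvd_pow_self _ two_ne_zero)
    · exact (hy2.trans (dvd_pow_self _ two_ne_zero)).mul_left _

theorem evalEval_double {R : Type*} [CommRing R] (F : R[X][Y]) (x y : R) :
    F.evalEval x y = ∑ b ∈ Finset.range (F.natDegree + 1),
      ∑ a ∈ Finset.range ((F.coeff b).natDegree + 1), (F.coeff b).coeff a * x ^ a * y ^ b := by
  have h : F.evalEval x y = eval x (∑ b ∈ Finset.range (F.natDegree + 1), F.coeff b * C y ^ b) := by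
    rw [evalEval, ← eval_eq_sum_range]
  rw [h, eval_finsetSum]
  refine Finset.sum_congr rfl fun b _ => ?_
  rw [eval_mul, eval_pow, eval_C, eval_eq_sum_range, Finset.sum_mul]

/-- The pigeonhole step. -/
theorem pigeon (p : ℕ) [hp : Fact p.Prime] (k C' : ℕ) {ι : Type} [Fintype ι]
    (Φ : ι → ℤ_[p][X][Y]) (hcard : p ^ (k * k * k) < (C' + 1) ^ (Fintype.card ι)) :
    ∃ c : ι → ℤ, c ≠ 0 ∧ (∀ i, |c i| ≤ C') ∧ ∀ y : ℤ_[p] × ℤ_[p], (p : ℤ_[p]) ∣ y.1 →
      (p : ℤ_[p]) ∣ y.2 → (p : ℤ_[p]) ^ k ∣ ∑ i, (c i : ℤ_[p]) * (Φ i).evalEval y.1 y.2 := by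
  classical
  have hne : NeZero (p ^ k) := ⟨pow_ne_zero _ hp.out.ne_zero⟩
  set f : (ι → Fin (C' + 1)) → (Fin k → Fin k → ZMod (p ^ k)) := fun c b a =>
    PadicInt.toZModPow k ((p : ℤ_[p]) ^ ((a : ℕ) + b) *
      ∑ i, ((c i : ℕ) : ℤ_[p]) * ((Φ i).coeff b).coeff a) with hf
  have hlt : Fintype.card (Fin k → Fin k → ZMod (p ^ k)) < Fintype.card (ι → Fin (C' + 1)) := by
    rw [Fintype.card_fun, Fintype.card_fun, Fintype.card_fun, ZMod.card, Fintype.card_fin,
      Fintype.card_fin, ← pow_mul, ← pow_mul, ← mul_assoc]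
    exact hcard
  obtain ⟨c, c', hcc, hfc⟩ := Fintype.exists_ne_map_eq_of_card_lt f hlt
  refine ⟨fun i => (c i : ℤ) - (c' i : ℤ), ?_, ?_, ?_⟩
  · intro h
    apply hcc
    ext i
    have := congrFun h i
    simp only [Pi.zero_apply] at this
    omega
  · intro i
    have h1 := (c i).is_lt
    have h2 := (c' i).is_lt
    change |(c i : ℤ) - (c' i : ℤ)| ≤ C'
    rw [abs_le]
    constructor <;> omega
  intro y hy1 hy2
  set Ψ : ℤ_[p][X][Y] := ∑ i, C (C ((((c i : ℤ) - (c' i : ℤ) : ℤ)) : ℤ_[p])) * Φ i with hΨ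
  have hΨe : ∑ i, ((((c i : ℤ) - (c' i : ℤ) : ℤ)) : ℤ_[p]) * (Φ i).evalEval y.1 y.2 =
      Ψ.evalEval y.1 y.2 := by
    rw [hΨ, evalEval_finsetSum]
    refine Finset.sum_congr rfl fun i _ => ?_
    rw [evalEval_mul, evalEval_C, eval_C]
  rw [hΨe]
  have hcoef : ∀ b a : ℕ, (p : ℤ_[p]) ^ k ∣ (p : ℤ_[p]) ^ (a + b) * (Ψ.coeff b).coeff a := by
    intro b a
    by_cases hb : b < k
    · by_cases ha : a < k
      · have h1 := congrFun (congrFun hfc ⟨b, hb⟩) ⟨a, ha⟩
        simp only [hf] at h1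
        rw [← sub_eq_zero, ← map_sub, ← RingHom.mem_ker, PadicInt.ker_toZModPow,
          Ideal.mem_span_singleton] at h1
        convert h1 using 1
        rw [← mul_sub, ← Finset.sum_sub_distrib, hΨ, finsetSum_coeff, finsetSum_coeff]
        congr 1
        refine Finset.sum_congr rfl fun i _ => ?_
        rw [coeff_C_mul, coeff_C_mul]
        push_cast
        ring
      · exact Dvd.dvd.mul_right (pow_dvd_pow _ (by omega)) _
    · exact Dvd.dvd.mul_right (pow_dvd_pow _ (by omega)) _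
  obtain ⟨z1, hz1⟩ := hy1
  obtain ⟨z2, hz2⟩ := hy2
  rw [evalEval_double]
  refine Finset.dvd_sum fun b _ => Finset.dvd_sum fun a _ => ?_
  have : (Ψ.coeff b).coeff a * y.1 ^ a * y.2 ^ b =
      (p : ℤ_[p]) ^ (a + b) * (Ψ.coeff b).coeff a * (z1 ^ a * z2 ^ b) := by
    rw [hz1, hz2]
    ring
  rw [this]
  exact (hcoef b a).mul_right _

end Pool.Agent.Lib.MP_bc4313_co
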