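import Mathlib

/-!
Rational distance sets: the norm form, finite sets of absolute values of `ℚ`, heights, and spaces of
polynomial functions on `ℚ × ℚ`.
-/

namespace Pool.Agent.Lib.MP_bc4313_co

open Finset

/-- the quadratic form `x ^ 2 + κ y ^ 2` -/
def qf (κ : ℚ) (P : ℚ × ℚ) : ℚ := P.1 ^ 2 + κ * P.2 ^ 2

/-- A finite family of absolute values of `ℚ` for which the form `x ^ 2 + κ y ^ 2` is anisotropic,
with a ring of integers. -/
structure Places (κ : ℚ) (ι : Type) [Fintype ι] where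
  w : ι → AbsoluteValue ℚ ℝ
  O : Subring ℚ
  prod_ge : ∀ a ∈ O, a ≠ 0 → 1 ≤ ∏ v, w v a
  root_mem : ∀ a : ℚ, a ^ 2 ∈ O → a ∈ O
  prod_nat : ∀ n : ℕ, ∏ v, w v (n : ℚ) ≤ n
  aniso : ∀ v, ∃ c : ℝ, 0 < c ∧
    ∀ x y : ℚ, c * (max (w v x) (w v y)) ^ 2 ≤ w v (x ^ 2 + κ * y ^ 2)

variable {κ : ℚ} {ι : Type} [Fintype ι]

/-- the local size of a point -/
noncomputable def Places.nv (pl : Places κ ι) (v : ι) (P : ℚ × ℚ) : ℝ :=
  max 1 (max (pl.w v P.1) (pl.w v P.2))

/-- the part at the given places of the height of a point -/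
noncomputable def Places.hv (pl : Places κ ι) (P : ℚ × ℚ) : ℝ := ∏ v, pl.nv v P

theorem Places.one_le_nv (pl : Places κ ι) (v : ι) (P : ℚ × ℚ) : 1 ≤ pl.nv v P := le_max_left _ _

theorem Places.one_le_hv (pl : Places κ ι) (P : ℚ × ℚ) : 1 ≤ pl.hv P := by
  unfold Places.hv
  calc (1 : ℝ) = ∏ _v : ι, 1 := by simp
    _ ≤ _ := prod_le_prod (fun _ _ => zero_le_one) fun v _ => pl.one_le_nv v P

/-- polynomial functions on `ℚ × ℚ` of degree at most `e` in each variable -/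
def W (e : ℕ) : Submodule ℚ (ℚ × ℚ → ℚ) :=
  Submodule.span ℚ {g | ∃ i ≤ e, ∃ j ≤ e, g = fun Q : ℚ × ℚ => Q.1 ^ i * Q.2 ^ j}

theorem W_mono {e e' : ℕ} (h : e ≤ e') : W e ≤ W e' := by
  refine Submodule.span_mono ?_
  rintro g ⟨i, hi, j, hj, rfl⟩
  exact ⟨i, hi.trans h, j, hj.trans h, rfl⟩

theorem W_fg (e : ℕ) : (W e).FG := by
  refine Submodule.fg_span ?_
  refine ((Set.finite_Iic e).prod (Set.finite_Iic e)).image
    (fun p : ℕ × ℕ => fun Q : ℚ × ℚ => Q.1 ^ p.1 * Q.2 ^ p.2) |>.subset ?_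
  rintro g ⟨i, hi, j, hj, rfl⟩
  exact ⟨(i, j), ⟨hi, hj⟩, rfl⟩

theorem monomial_mem_W {e i j : ℕ} (hi : i ≤ e) (hj : j ≤ e) :
    (fun Q : ℚ × ℚ => Q.1 ^ i * Q.2 ^ j) ∈ W e :=
  Submodule.subset_span ⟨i, hi, j, hj, rfl⟩

theorem mul_mem_W {e e' : ℕ} {f g : ℚ × ℚ → ℚ} (hf : f ∈ W e) (hg : g ∈ W e') :
    f * g ∈ W (e + e') := by
  unfold W at hf hg
  induction hf using Submodule.span_induction with
  | mem f hf =>
    obtain ⟨i, hi, j, hj, rfl⟩ := hf
    induction hg using Submodule.span_induction with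
    | mem g hg =>
      obtain ⟨i', hi', j', hj', rfl⟩ := hg
      convert monomial_mem_W (add_le_add hi hi') (add_le_add hj hj') using 1
      ext Q
      simp only [Pi.mul_apply]
      ring
    | zero => simp
    | add x y _ _ hx hy => rw [mul_add]; exact add_mem hx hy
    | smul a x _ hx => rw [mul_smul_comm]; exact Submodule.smul_mem _ _ hx
  | zero => simp
  | add x y _ _ hx hy => rw [add_mul]; exact add_mem hx hy
  | smul a x _ hx => rw [smul_mul_assoc]; exact Submodule.smul_mem _ _ hx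

theorem const_mem_W (c : ℚ) : (fun _ : ℚ × ℚ => c) ∈ W 0 := by
  have h := Submodule.smul_mem (W 0) c (monomial_mem_W (le_refl 0) (le_refl 0))
  convert h using 1
  ext Q
  simp

theorem pow_mem_W {e : ℕ} {f : ℚ × ℚ → ℚ} (hf : f ∈ W e) (n : ℕ) : f ^ n ∈ W (n * e) := by
  induction n with
  | zero =>
    rw [pow_zero, zero_mul]
    exact const_mem_W 1
  | succ n ih =>
    rw [pow_succ, add_mul, one_mul]
    exact mul_mem_W ih hf

/-- composition with a polynomial -/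
theorem comp_mem_W {e : ℕ} {f : ℚ × ℚ → ℚ} (hf : f ∈ W e) (T : Polynomial ℚ) {J : ℕ}
    (hT : T.natDegree ≤ J) : (fun Q => T.eval (f Q)) ∈ W (J * e) := by
  have h : (fun Q => T.eval (f Q)) = ∑ i ∈ range (J + 1), T.coeff i • f ^ i := by
    ext Q
    rw [Polynomial.eval_eq_sum_range' (Nat.lt_succ_of_le hT), Finset.sum_apply]
    simp
  rw [h]
  refine Submodule.sum_mem _ fun i hi => Submodule.smul_mem _ _ ?_
  exact W_mono (Nat.mul_le_mul_right _ (Nat.lt_succ_iff.1 (mem_range.1 hi))) (pow_mem_W hf i)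

/-- the form centred at `P` -/
theorem qf_mem_W (κ : ℚ) (P : ℚ × ℚ) : (fun Q => qf κ (P - Q)) ∈ W 2 := by
  have h : (fun Q => qf κ (P - Q)) = (P.1 ^ 2 + κ * P.2 ^ 2) • (fun Q : ℚ × ℚ => Q.1 ^ 0 * Q.2 ^ 0)
      + (-2 * P.1) • (fun Q : ℚ × ℚ => Q.1 ^ 1 * Q.2 ^ 0)
      + (-2 * κ * P.2) • (fun Q : ℚ × ℚ => Q.1 ^ 0 * Q.2 ^ 1)
      + (fun Q : ℚ × ℚ => Q.1 ^ 2 * Q.2 ^ 0)
      + κ • (fun Q : ℚ × ℚ => Q.1 ^ 0 * Q.2 ^ 2) := by
    ext Q
    simp only [qf, Pi.add_apply, Pi.smul_apply, smul_eq_mul, Prod.fst_sub, Prod.snd_sub]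
    ring
  rw [h]
  refine add_mem (add_mem (add_mem (add_mem ?_ ?_) ?_) ?_) ?_
  · exact Submodule.smul_mem _ _ (monomial_mem_W (by norm_num) (by norm_num))
  · exact Submodule.smul_mem _ _ (monomial_mem_W (by norm_num) (by norm_num))
  · exact Submodule.smul_mem _ _ (monomial_mem_W (by norm_num) (by norm_num))
  · exact monomial_mem_W (by norm_num) (by norm_num)
  · exact Submodule.smul_mem _ _ (monomial_mem_W (by norm_num) (by norm_num))

/-- A finitely generated space of functions: a finite subset of `A` detects the vanishing on `A`. -/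
theorem exists_finset_detect {α : Type} (V : Submodule ℚ (α → ℚ)) (hV : V.FG) (A : Set α) :
    ∃ M : Finset α, ↑M ⊆ A ∧ ∀ g ∈ V, (∀ Q ∈ M, g Q = 0) → ∀ Q ∈ A, g Q = 0 := by
  classical
  have : FiniteDimensional ℚ V := Module.Finite.iff_fg.2 hV
  -- the subspaces of functions vanishing on a finite subset of `A`
  let V0 : Finset α → Submodule ℚ V := fun M =>
    { carrier := {g | ∀ Q ∈ M, g.1 Q = 0}
      add_mem' := fun {a b} ha hb Q hQ => by simp [ha Q hQ, hb Q hQ]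
      zero_mem' := fun Q _ => by simp
      smul_mem' := fun c a ha Q hQ => by simp [ha Q hQ] }
  have hne : {W' : Submodule ℚ V | ∃ M : Finset α, ↑M ⊆ A ∧ W' = V0 M}.Nonempty :=
    ⟨V0 ∅, ∅, by simp, rfl⟩
  obtain ⟨W', ⟨M, hM, rfl⟩, hmin⟩ := IsArtinian.set_has_minimal _ hne
  refine ⟨M, hM, fun g hg hz Q hQ => ?_⟩
  have h1 : V0 (insert Q M) ≤ V0 M := fun g hg Q' hQ' => hg Q' (Finset.mem_insert_of_mem hQ')
  have h2 : V0 (insert Q M) = V0 M := by
    by_contra hne'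
    refine hmin (V0 (insert Q M)) ⟨insert Q M, ?_, rfl⟩ (lt_of_le_of_ne h1 hne')
    rw [Finset.coe_insert]
    exact Set.insert_subset hQ hM
  have h3 : (⟨g, hg⟩ : V) ∈ V0 M := hz
  rw [← h2] at h3
  exact h3 Q (Finset.mem_insert_self _ _)

/-- Finitely many functionals decide whether a vector is the restriction of an element of `V`. -/
theorem exists_functionals {α : Type} (V : Submodule ℚ (α → ℚ)) (M : Finset α) :
    ∃ Φ : Finset (M → ℚ), (∀ c ∈ Φ, ∀ g ∈ V, ∑ Q : M, c Q * g Q.1 = 0) ∧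
      ∀ δ : α → ℚ, (∀ c ∈ Φ, ∑ Q : M, c Q * δ Q.1 = 0) → ∃ g ∈ V, ∀ Q ∈ M, g Q = δ Q := by
  classical
  let res : (α → ℚ) →ₗ[ℚ] (M → ℚ) := LinearMap.funLeft ℚ ℚ (fun Q : M => Q.1)
  let V' : Submodule ℚ (M → ℚ) := V.map res
  have hfg : (V'.dualAnnihilator).FG := IsNoetherian.noetherian _
  obtain ⟨Φ, hΦ⟩ := hfg
  have hsum : ∀ (φ : Module.Dual ℚ (M → ℚ)) (x : M → ℚ),
      φ x = ∑ Q : M, φ (Pi.single Q 1) * x Q := by
    intro φ x
    rw [LinearMap.pi_apply_eq_sum_univ φ x]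
    refine Finset.sum_congr rfl fun Q _ => ?_
    rw [smul_eq_mul, mul_comm]
    congr 2
    ext Q'
    simp [Pi.single_apply, eq_comm]
  refine ⟨Φ.image (fun φ Q => φ (Pi.single Q 1)), ?_, ?_⟩
  · intro c hc g hg
    obtain ⟨φ, hφ, rfl⟩ := Finset.mem_image.1 hc
    have h1 : φ ∈ V'.dualAnnihilator := by
      rw [← hΦ]
      exact Submodule.subset_span hφ
    have h2 := (Submodule.mem_dualAnnihilator φ).1 h1 (res g) (Submodule.mem_map_of_mem hg)
    rw [hsum] at h2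
    exact h2
  · intro δ hδ
    have h1 : res δ ∈ V' := by
      rw [← Subspace.forall_mem_dualAnnihilator_apply_eq_zero_iff]
      intro φ hφ
      rw [← hΦ] at hφ
      induction hφ using Submodule.span_induction with
      | mem φ hφ =>
        rw [hsum]
        exact hδ _ (Finset.mem_image_of_mem _ hφ)
      | zero => rfl
      | add x y _ _ hx hy => rw [LinearMap.add_apply, hx, hy, add_zero]
      | smul a x _ hx => rw [LinearMap.smul_apply, hx, smul_zero]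
    obtain ⟨g, hg, hgδ⟩ := Submodule.mem_map.1 h1
    exact ⟨g, hg, fun Q hQ => congrFun hgδ ⟨Q, hQ⟩⟩

end Pool.Agent.Lib.MP_bc4313_co
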