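import Mathlib
import Pool.Agent.Lib.MP_bc4313_co.Basic

/-!
Polynomial approximation of the square root and estimates for absolute values.
-/

namespace Pool.Agent.Lib.MP_bc4313_co

open Polynomial

/-- truncations of the power series of the square root of `1 + X` -/
theorem exists_sqrt_poly (J : ℕ) : ∃ T R : ℚ[X], T ^ 2 = 1 + X + X ^ (J + 1) * R ∧ T.eval 0 = 1 ∧
    T.natDegree ≤ J := by
  induction J with
  | zero => exact ⟨1, -1, by ring, by simp, by simp⟩
  | succ J ih =>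
    obtain ⟨T, R, h1, h2, h3⟩ := ih
    set r : ℚ := R.eval 0 with hr
    have hdvd : X ∣ R - C r * T + C (r ^ 2 / 4) * X ^ (J + 1) := by
      rw [X_dvd_iff, coeff_zero_eq_eval_zero]
      simp [h2, hr]
    obtain ⟨R', hR'⟩ := hdvd
    refine ⟨T - C (r / 2) * X ^ (J + 1), R', ?_, ?_, ?_⟩
    · have e1 : (C r : ℚ[X]) = 2 * C (r / 2) := by
        rw [← C_ofNat, ← C_mul]
        congr 1
        ring
      have e2 : (C (r ^ 2 / 4) : ℚ[X]) = C (r / 2) ^ 2 := by
        rw [← C_pow]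
        congr 1
        ring
      rw [e1, e2] at hR'
      calc (T - C (r / 2) * X ^ (J + 1)) ^ 2 = T ^ 2 - 2 * C (r / 2) * X ^ (J + 1) * T +
            C (r / 2) ^ 2 * X ^ (J + 1) * X ^ (J + 1) := by ring
        _ = 1 + X + X ^ (J + 1) * (R - 2 * C (r / 2) * T + C (r / 2) ^ 2 * X ^ (J + 1)) := by
          rw [h1]; ring
        _ = _ := by rw [hR']; ring
    · simp [h2]
    · refine (natDegree_sub_le _ _).trans (max_le (h3.trans (Nat.le_succ _)) ?_)
      exact natDegree_C_mul_X_pow_le _ _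

variable (w : AbsoluteValue ℚ ℝ)

/-- a polynomial is bounded on the unit ball -/
theorem bounded_eval (p : ℚ[X]) : ∃ C : ℝ, 0 < C ∧ ∀ t : ℚ, w t ≤ 1 → w (p.eval t) ≤ C := by
  refine ⟨(∑ i ∈ Finset.range (p.natDegree + 1), w (p.coeff i)) + 1, ?_, fun t ht => ?_⟩
  · have : 0 ≤ ∑ i ∈ Finset.range (p.natDegree + 1), w (p.coeff i) :=
      Finset.sum_nonneg fun i _ => w.nonneg _
    linarith
  · rw [eval_eq_sum_range]
    have h1 : w (∑ i ∈ Finset.range (p.natDegree + 1), p.coeff i * t ^ i) ≤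
        ∑ i ∈ Finset.range (p.natDegree + 1), w (p.coeff i * t ^ i) := w.sum_le _ _
    have h2 : ∑ i ∈ Finset.range (p.natDegree + 1), w (p.coeff i * t ^ i) ≤
        ∑ i ∈ Finset.range (p.natDegree + 1), w (p.coeff i) := by
      refine Finset.sum_le_sum fun i _ => ?_
      rw [map_mul, map_pow]
      exact mul_le_of_le_one_right (w.nonneg _) (pow_le_one₀ (w.nonneg _) ht)
    linarith

/-- the value near `0` of a polynomial with value `1` at `0` -/
theorem near_one (T : ℚ[X]) (hT : T.eval 0 = 1) : ∃ C : ℝ, 0 < C ∧ ∀ t : ℚ, w t ≤ 1 →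
    1 - C * w t ≤ w (T.eval t) := by
  have hdvd : X ∣ T - 1 := by
    rw [X_dvd_iff, coeff_zero_eq_eval_zero]
    simp [hT]
  obtain ⟨T', hT'⟩ := hdvd
  obtain ⟨C, hC, hC'⟩ := bounded_eval w T'
  refine ⟨C, hC, fun t ht => ?_⟩
  have h1 : T.eval t = 1 + t * T'.eval t := by
    have := congrArg (eval t) hT'
    rw [eval_sub, eval_one, eval_mul, eval_X] at this
    linarith
  have h2 : (1 : ℚ) = T.eval t - t * T'.eval t := by rw [h1]; ring
  have h3 : w (1 : ℚ) ≤ w (T.eval t) + w (t * T'.eval t) := by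
    have := w.sub_le_add (T.eval t) (t * T'.eval t)
    rwa [← h2] at this
  rw [map_one, map_mul] at h3
  have h4 : w t * w (T'.eval t) ≤ w t * C := mul_le_mul_of_nonneg_left (hC' t ht) (w.nonneg _)
  linarith

/-- One of `d - D T(t)`, `d + D T(t)` is small when `d ^ 2 = D ^ 2 (1 + t)` and `t` is small. -/
theorem sqrt_approx {J : ℕ} {T R : ℚ[X]} (h1 : T ^ 2 = 1 + X + X ^ (J + 1) * R)
    (h2 : T.eval 0 = 1) : ∃ C δ : ℝ, 0 < C ∧ 0 < δ ∧ ∀ d D t : ℚ, w t ≤ δ →
      d ^ 2 = D ^ 2 * (1 + t) → w (d - D * T.eval t) ≤ C * w D * w t ^ (J + 1) ∨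
        w (d + D * T.eval t) ≤ C * w D * w t ^ (J + 1) := by
  obtain ⟨C1, hC1, hC1'⟩ := near_one w T h2
  obtain ⟨C2, hC2, hC2'⟩ := bounded_eval w R
  have hw2 : 0 < w (2 : ℚ) := w.pos two_ne_zero
  refine ⟨4 * C2 / w 2, min 1 (1 / (2 * C1)), by positivity, by positivity, fun d D t ht hd => ?_⟩
  have ht1 : w t ≤ 1 := ht.trans (min_le_left _ _)
  have ht2 : C1 * w t ≤ 1 / 2 := by
    have := ht.trans (min_le_right _ _)
    rw [le_div_iff₀ (by positivity)] at this
    linarith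
  have hT : 1 / 2 ≤ w (T.eval t) := by
    have := hC1' t ht1
    linarith
  have hprod : (d - D * T.eval t) * (d + D * T.eval t) = -(D ^ 2 * t ^ (J + 1) * R.eval t) := by
    have := congrArg (eval t) h1
    simp only [eval_pow, eval_add, eval_one, eval_X, eval_mul] at this
    calc _ = d ^ 2 - D ^ 2 * (T.eval t) ^ 2 := by ring
      _ = _ := by rw [this, hd]; ring
  have hprod' : w (d - D * T.eval t) * w (d + D * T.eval t) ≤ w D ^ 2 * w t ^ (J + 1) * C2 := by
    rw [← map_mul, hprod, AbsoluteValue.map_neg, map_mul, map_mul, map_pow, map_pow]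
    exact mul_le_mul_of_nonneg_left (hC2' t ht1) (mul_nonneg (pow_nonneg (w.nonneg _) _)
      (pow_nonneg (w.nonneg _) _))
  have hsum : w 2 * w D / 2 ≤ w (d - D * T.eval t) + w (d + D * T.eval t) := by
    have e : 2 * D * T.eval t = (d + D * T.eval t) - (d - D * T.eval t) := by ring
    have h3 : w (2 * D * T.eval t) ≤ w (d + D * T.eval t) + w (d - D * T.eval t) := by
      rw [e]
      exact w.sub_le_add _ _
    rw [map_mul, map_mul] at h3
    have h4 : w 2 * w D * (1 / 2) ≤ w 2 * w D * w (T.eval t) :=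
      mul_le_mul_of_nonneg_left hT (mul_nonneg hw2.le (w.nonneg _))
    linarith
  rcases eq_or_ne D 0 with rfl | hD
  · have hd0 : d = 0 := by
      have : d ^ 2 = 0 := by rw [hd]; ring
      exact pow_eq_zero_iff two_ne_zero |>.1 this
    left
    simp [hd0]
  have hwD : 0 < w D := w.pos hD
  have aux : ∀ a b : ℝ, 0 ≤ a → 0 ≤ b → w 2 * w D / 4 ≤ b → a * b ≤ w D ^ 2 * w t ^ (J + 1) * C2 →
      a ≤ 4 * C2 / w 2 * w D * w t ^ (J + 1) := by
    intro a b ha hb hb' hab
    have h5 : a * (w 2 * w D / 4) ≤ w D ^ 2 * w t ^ (J + 1) * C2 :=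
      (mul_le_mul_of_nonneg_left hb' ha).trans hab
    have h6 : a ≤ (w D ^ 2 * w t ^ (J + 1) * C2) / (w 2 * w D / 4) := by
      rw [le_div_iff₀ (by positivity)]
      exact h5
    refine h6.trans (le_of_eq ?_)
    field_simp
  rcases le_total (w 2 * w D / 4) (w (d + D * T.eval t)) with h | h
  · left
    exact aux _ _ (w.nonneg _) (w.nonneg _) h hprod'
  · right
    refine aux _ _ (w.nonneg _) (w.nonneg _) ?_ ((mul_comm _ _).trans_le hprod')
    linarith

end Pool.Agent.Lib.MP_bc4313_co
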