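import Mathlib
import Pool.Agent.Lib.MP_bc4313_co.Est

/-!
Approximation of the distance to a fixed point by a polynomial, at one absolute value.
-/

namespace Pool.Agent.Lib.MP_bc4313_co

open Polynomial

variable {κ : ℚ} {ι : Type} [Fintype ι]

/-- the relative difference of `qf (P - Q)` and `qf P` -/
def xq (κ : ℚ) (P Q : ℚ × ℚ) : ℚ := (qf κ (P - Q) - qf κ P) / qf κ P

theorem xq_mem_W (κ : ℚ) (P : ℚ × ℚ) : (fun Q => xq κ P Q) ∈ W 2 := by
  have h : (fun Q => xq κ P Q) = (qf κ P)⁻¹ • ((fun Q => qf κ (P - Q)) - fun _ => qf κ P) := by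
    ext Q
    simp only [xq, Pi.smul_apply, Pi.sub_apply, smul_eq_mul]
    ring
  rw [h]
  exact Submodule.smul_mem _ _ (sub_mem (qf_mem_W κ P) (W_mono (Nat.zero_le _) (const_mem_W _)))

theorem local_approx (pl : Places κ ι) (v : ι) {J : ℕ} {T R : ℚ[X]}
    (h1 : T ^ 2 = 1 + X + X ^ (J + 1) * R) (h2 : T.eval 0 = 1) (Q : ℚ × ℚ) :
    ∃ C B : ℝ, ∀ P : ℚ × ℚ, B < pl.nv v P → ∀ d D : ℚ, D ^ 2 = qf κ P → d ^ 2 = qf κ (P - Q) →
      pl.nv v P ^ J * pl.w v (d - D * T.eval (xq κ P Q)) ≤ C ∨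
        pl.nv v P ^ J * pl.w v (d + D * T.eval (xq κ P Q)) ≤ C := by
  obtain ⟨C1, δ, hC1, hδ, happ⟩ := sqrt_approx (pl.w v) h1 h2
  obtain ⟨c, hc, han⟩ := pl.aniso v
  set w := pl.w v with hw
  set C2 : ℝ := w 2 * (w Q.1 + w κ * w Q.2) + w (qf κ Q) with hC2
  have hC2n : 0 ≤ C2 := by
    have a1 := w.nonneg (2 : ℚ)
    have a2 := w.nonneg Q.1
    have a3 := w.nonneg Q.2
    have a4 := w.nonneg κ
    have a5 := w.nonneg (qf κ Q)
    positivity
  have hκn := w.nonneg κ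
  refine ⟨C1 * (1 + w κ) * (C2 / c) ^ (J + 1), max 1 (C2 / c / δ), fun P hP d D hD hd => ?_⟩
  set n := pl.nv v P with hn
  have hn1 : 1 < n := (le_max_left _ _).trans_lt hP
  have hn0 : 0 < n := zero_lt_one.trans hn1
  have hmax : n = max (w P.1) (w P.2) := by
    have : n = max 1 (max (w P.1) (w P.2)) := rfl
    rcases le_total (max (w P.1) (w P.2)) 1 with h | h
    · rw [max_eq_left h] at this
      exact absurd this hn1.ne'
    · rw [max_eq_right h] at this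
      exact this
  have hx : w P.1 ≤ n := hmax ▸ le_max_left _ _
  have hy : w P.2 ≤ n := hmax ▸ le_max_right _ _
  have hlow : c * n ^ 2 ≤ w (qf κ P) := by
    rw [hmax]
    exact han P.1 P.2
  have hqP : 0 < w (qf κ P) := lt_of_lt_of_le (by positivity) hlow
  have hqP0 : qf κ P ≠ 0 := by
    intro h
    rw [h, map_zero] at hqP
    exact lt_irrefl _ hqP
  have hnum : w (qf κ (P - Q) - qf κ P) ≤ C2 * n := by
    have e : qf κ (P - Q) - qf κ P = qf κ Q - 2 * (P.1 * Q.1 + κ * P.2 * Q.2) := by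
      simp only [qf, Prod.fst_sub, Prod.snd_sub]
      ring
    rw [e]
    have a1 : w (qf κ Q - 2 * (P.1 * Q.1 + κ * P.2 * Q.2)) ≤
        w (qf κ Q) + w (2 * (P.1 * Q.1 + κ * P.2 * Q.2)) := w.sub_le_add _ _
    have a2 : w (P.1 * Q.1 + κ * P.2 * Q.2) ≤ w P.1 * w Q.1 + w κ * w P.2 * w Q.2 := by
      have := w.add_le (P.1 * Q.1) (κ * P.2 * Q.2)
      rwa [map_mul, map_mul, map_mul] at this
    have a3 : w P.1 * w Q.1 + w κ * w P.2 * w Q.2 ≤ n * w Q.1 + w κ * n * w Q.2 := by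
      have b1 := w.nonneg Q.1
      have b2 := w.nonneg Q.2
      gcongr
    have a4 : w (qf κ Q) ≤ w (qf κ Q) * n := le_mul_of_one_le_right (w.nonneg _) hn1.le
    rw [map_mul] at a1
    have a5 : w 2 * w (P.1 * Q.1 + κ * P.2 * Q.2) ≤ w 2 * (n * w Q.1 + w κ * n * w Q.2) :=
      mul_le_mul_of_nonneg_left (a2.trans a3) (w.nonneg _)
    calc _ ≤ w (qf κ Q) * n + w 2 * (n * w Q.1 + w κ * n * w Q.2) := by linarith
      _ = C2 * n := by rw [hC2]; ring
  have ht : w (xq κ P Q) ≤ C2 / c / n := by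
    rw [xq, map_div₀, div_div, div_le_div_iff₀ hqP (by positivity)]
    calc w (qf κ (P - Q) - qf κ P) * (c * n) ≤ C2 * n * (c * n) :=
          mul_le_mul_of_nonneg_right hnum (by positivity)
      _ = C2 * (c * n ^ 2) := by ring
      _ ≤ C2 * w (qf κ P) := mul_le_mul_of_nonneg_left hlow hC2n
  have htδ : w (xq κ P Q) ≤ δ := by
    refine ht.trans ?_
    have := (le_max_right _ _).trans_lt hP
    rw [div_le_iff₀ hn0]
    rw [div_lt_iff₀ hδ] at this
    linarith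
  have hDn : w D ≤ (1 + w κ) * n := by
    have a1 : w D ^ 2 ≤ n ^ 2 + w κ * n ^ 2 := by
      rw [← map_pow, hD, qf]
      have b1 := w.add_le (P.1 ^ 2) (κ * P.2 ^ 2)
      rw [map_mul, map_pow, map_pow] at b1
      have b2 : w P.1 ^ 2 ≤ n ^ 2 := pow_le_pow_left₀ (w.nonneg _) hx 2
      have b3 : w κ * w P.2 ^ 2 ≤ w κ * n ^ 2 :=
        mul_le_mul_of_nonneg_left (pow_le_pow_left₀ (w.nonneg _) hy 2) hκn
      linarith
    have a2 := mul_nonneg hκn (sq_nonneg n)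
    have a3 := mul_nonneg (mul_nonneg hκn hκn) (sq_nonneg n)
    refine le_of_sq_le_sq ?_ (by positivity)
    calc w D ^ 2 ≤ n ^ 2 + w κ * n ^ 2 := a1
      _ ≤ ((1 + w κ) * n) ^ 2 := by nlinarith
  have heq : d ^ 2 = D ^ 2 * (1 + xq κ P Q) := by
    rw [hd, hD, xq, mul_add, mul_one, mul_div_cancel₀ _ hqP0]
    ring
  have hfin : n ^ J * (C1 * w D * w (xq κ P Q) ^ (J + 1)) ≤
      C1 * (1 + w κ) * (C2 / c) ^ (J + 1) := by
    have a1 : w (xq κ P Q) ^ (J + 1) ≤ (C2 / c / n) ^ (J + 1) := pow_le_pow_left₀ (w.nonneg _) ht _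
    have a2 : C1 * w D ≤ C1 * ((1 + w κ) * n) := mul_le_mul_of_nonneg_left hDn hC1.le
    have a3 : C1 * w D * w (xq κ P Q) ^ (J + 1) ≤ C1 * ((1 + w κ) * n) * (C2 / c / n) ^ (J + 1) :=
      mul_le_mul a2 a1 (pow_nonneg (w.nonneg _) _) (by positivity)
    calc _ ≤ n ^ J * (C1 * ((1 + w κ) * n) * (C2 / c / n) ^ (J + 1)) :=
          mul_le_mul_of_nonneg_left a3 (by positivity)
      _ = C1 * (1 + w κ) * (C2 / c) ^ (J + 1) := by
          rw [div_pow (C2 / c) n]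
          field_simp
          ring
  rcases happ d D (xq κ P Q) htδ heq with h | h
  · exact Or.inl ((mul_le_mul_of_nonneg_left h (by positivity)).trans hfin)
  · exact Or.inr ((mul_le_mul_of_nonneg_left h (by positivity)).trans hfin)

/-- a bound for the distance at one absolute value -/
theorem local_bound (pl : Places κ ι) (v : ι) (Q : ℚ × ℚ) :
    ∃ C : ℝ, 0 ≤ C ∧ ∀ P : ℚ × ℚ, ∀ d : ℚ, d ^ 2 = qf κ (P - Q) → pl.w v d ≤ C * pl.nv v P := by
  set w := pl.w v with hw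
  have hκn := w.nonneg κ
  refine ⟨(1 + w κ) * (1 + w Q.1 + w Q.2), ?_, fun P d hd => ?_⟩
  · have a2 := w.nonneg Q.1
    have a3 := w.nonneg Q.2
    positivity
  · set n := pl.nv v P
    have a2 := w.nonneg Q.1
    have a3 := w.nonneg Q.2
    have hn1 : 1 ≤ n := pl.one_le_nv v P
    have hx : w P.1 ≤ n := (le_max_left _ _).trans (le_max_right _ _)
    have hy : w P.2 ≤ n := (le_max_right _ _).trans (le_max_right _ _)
    set A : ℝ := (1 + w Q.1 + w Q.2) * n with hA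
    have hA0 : 0 ≤ A := by positivity
    have hx' : w (P.1 - Q.1) ≤ A := by
      have := w.sub_le_add P.1 Q.1
      nlinarith [mul_nonneg a2 (sub_nonneg.2 hn1), mul_nonneg a3 (zero_le_one.trans hn1)]
    have hy' : w (P.2 - Q.2) ≤ A := by
      have := w.sub_le_add P.2 Q.2
      nlinarith [mul_nonneg a3 (sub_nonneg.2 hn1), mul_nonneg a2 (zero_le_one.trans hn1)]
    have h1 : w d ^ 2 ≤ A ^ 2 + w κ * A ^ 2 := by
      rw [← map_pow, hd, qf]
      have b1 := w.add_le ((P - Q).1 ^ 2) (κ * (P - Q).2 ^ 2)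
      rw [map_mul, map_pow, map_pow] at b1
      have b2 : w (P - Q).1 ^ 2 ≤ A ^ 2 := pow_le_pow_left₀ (w.nonneg _) hx' 2
      have b3 : w κ * w (P - Q).2 ^ 2 ≤ w κ * A ^ 2 :=
        mul_le_mul_of_nonneg_left (pow_le_pow_left₀ (w.nonneg _) hy' 2) hκn
      linarith
    have h2 : w d ≤ (1 + w κ) * A := by
      have a4 := mul_nonneg hκn (sq_nonneg A)
      have a5 := mul_nonneg (mul_nonneg hκn hκn) (sq_nonneg A)
      refine le_of_sq_le_sq ?_ (by positivity)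
      calc w d ^ 2 ≤ A ^ 2 + w κ * A ^ 2 := h1
        _ ≤ ((1 + w κ) * A) ^ 2 := by nlinarith
    calc w d ≤ (1 + w κ) * A := h2
      _ = _ := by rw [hA]; ring

end Pool.Agent.Lib.MP_bc4313_co
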