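import Mathlib
import Pool.Agent.Lib.MP_bc4313_co.Local

/-!
Along an ultrafilter of points with large local heights, the distances to the points of a finite set
with constant signs are given by a polynomial function of bounded degree.
-/

namespace Pool.Agent.Lib.MP_bc4313_co

open Polynomial Filter

variable {κ : ℚ} {ι : Type} [Fintype ι]

/-- the sign of a Boolean -/
def sgn (b : Bool) : ℚ := if b then 1 else -1

/-- For each absolute value the local size is bounded along the ultrafilter or the distance to each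
point is approximated by a polynomial. -/
theorem exists_sg (pl : Places κ ι) {S : Set (ℚ × ℚ)} {dd : ℚ × ℚ → ℚ × ℚ → ℚ} (h0 : 0 ∈ S)
    (hdd : ∀ P ∈ S, ∀ Q ∈ S, dd P Q ^ 2 = qf κ (P - Q)) (U : Ultrafilter (ℚ × ℚ)) (hU : S ∈ U)
    {J : ℕ} {T R : ℚ[X]} (h1 : T ^ 2 = 1 + X + X ^ (J + 1) * R) (h2 : T.eval 0 = 1) :
    ∃ sg : ℚ × ℚ → ι → Bool, ∀ v, ∀ Q ∈ S, ∃ C : ℝ,
      (∀ᶠ P in (U : Filter (ℚ × ℚ)), pl.nv v P ≤ C) ∨
      ∀ᶠ P in (U : Filter (ℚ × ℚ)),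
        pl.nv v P ^ J * pl.w v (dd P Q - sgn (sg Q v) * dd P 0 * T.eval (xq κ P Q)) ≤ C := by
  have key : ∀ Q v, ∃ b : Bool, Q ∈ S → ∃ C : ℝ, (∀ᶠ P in (U : Filter (ℚ × ℚ)), pl.nv v P ≤ C) ∨
      ∀ᶠ P in (U : Filter (ℚ × ℚ)),
        pl.nv v P ^ J * pl.w v (dd P Q - sgn b * dd P 0 * T.eval (xq κ P Q)) ≤ C := by
    intro Q v
    by_cases hQ : Q ∈ S
    swap
    · exact ⟨true, fun h => absurd h hQ⟩
    obtain ⟨C, B, hCB⟩ := local_approx pl v h1 h2 Q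
    by_cases hb : ∀ᶠ P in (U : Filter (ℚ × ℚ)), pl.nv v P ≤ B
    · exact ⟨true, fun _ => ⟨B, Or.inl hb⟩⟩
    have hb' : ∀ᶠ P in (U : Filter (ℚ × ℚ)), B < pl.nv v P := by
      have := Ultrafilter.eventually_not.2 hb
      filter_upwards [this] with P hP
      exact not_le.1 hP
    have hor : ∀ᶠ P in (U : Filter (ℚ × ℚ)),
        (pl.nv v P ^ J * pl.w v (dd P Q - sgn true * dd P 0 * T.eval (xq κ P Q)) ≤ C) ∨
        (pl.nv v P ^ J * pl.w v (dd P Q - sgn false * dd P 0 * T.eval (xq κ P Q)) ≤ C) := by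
      filter_upwards [hb', hU] with P hP hPS
      have hD : dd P 0 ^ 2 = qf κ P := by
        have := hdd P hPS 0 h0
        rwa [sub_zero] at this
      rcases hCB P hP (dd P Q) (dd P 0) hD (hdd P hPS Q hQ) with h | h
      · left
        simpa [sgn] using h
      · right
        simpa [sgn] using h
    rcases Ultrafilter.eventually_or.1 hor with h | h
    · exact ⟨true, fun _ => ⟨C, Or.inr h⟩⟩
    · exact ⟨false, fun _ => ⟨C, Or.inr h⟩⟩
  choose sg hsg using key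
  exact ⟨sg, fun v Q hQ => hsg Q v hQ⟩

/-- a rational number with small absolute values is zero -/
theorem eq_zero_of_small (pl : Places κ ι) {L : ℚ} {m : ℕ} (hL : (m : ℚ) * L ∈ pl.O) (hm : m ≠ 0)
    (hlt : (m : ℝ) * ∏ v, pl.w v L < 1) : L = 0 := by
  by_contra hne
  have h1 := pl.prod_ge _ hL (mul_ne_zero (Nat.cast_ne_zero.2 hm) hne)
  simp only [map_mul, Finset.prod_mul_distrib] at h1
  have h2 : (∏ v, pl.w v (m : ℚ)) * ∏ v, pl.w v L ≤ m * ∏ v, pl.w v L :=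
    mul_le_mul_of_nonneg_right (pl.prod_nat m) (Finset.prod_nonneg fun v _ => (pl.w v).nonneg _)
  linarith

/-- the denominator of a distance -/
theorem exists_den (pl : Places κ ι) (Q : ℚ × ℚ) : ∃ q : ℕ, q ≠ 0 ∧ ∀ (P : ℚ × ℚ) (m : ℕ) (d : ℚ),
    (m : ℚ) * P.1 ∈ pl.O → (m : ℚ) * P.2 ∈ pl.O → d ^ 2 = qf κ (P - Q) → (q * m : ℚ) * d ∈ pl.O := by
  refine ⟨Q.1.den * Q.2.den * κ.den, ?_, fun P m d hx hy hd => ?_⟩
  · have := Q.1.den_pos
    have := Q.2.den_pos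
    have := κ.den_pos
    positivity
  · apply pl.root_mem
    have hO : ∀ n : ℕ, (n : ℚ) ∈ pl.O := fun n => natCast_mem _ n
    have hOi : ∀ n : ℤ, (n : ℚ) ∈ pl.O := fun n => intCast_mem _ n
    have e1 : ∀ r : ℚ, (r.den : ℚ) * r = r.num := fun r => Rat.den_mul_eq_num r
    have e : (((Q.1.den * Q.2.den * κ.den : ℕ) * m : ℚ) * d) ^ 2 =
        ((κ.den : ℚ) * (Q.2.den * (Q.1.den * (m * P.1) - m * Q.1.num))) ^ 2 +
        (κ.den : ℚ) * κ.num * ((Q.1.den : ℚ) * (Q.2.den * (m * P.2) - m * Q.2.num)) ^ 2 := by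
      rw [mul_pow, hd, qf, ← e1 Q.1, ← e1 Q.2, ← e1 κ, Prod.fst_sub, Prod.snd_sub]
      push_cast
      ring
    rw [e]
    refine add_mem (pow_mem (mul_mem (hO _) (mul_mem (hO _) (sub_mem (mul_mem (hO _) hx)
      (mul_mem (hO _) (hOi _))))) 2) (mul_mem (mul_mem (hO _) (hOi _)) (pow_mem (mul_mem (hO _)
      (sub_mem (mul_mem (hO _) hy) (mul_mem (hO _) (hOi _)))) 2))

/-- a common denominator for the distances to finitely many points -/
theorem exists_den_finset (pl : Places κ ι) (M : Finset (ℚ × ℚ)) (c : M → ℚ) : ∃ q : ℕ, q ≠ 0 ∧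
    ∀ (P : ℚ × ℚ) (m : ℕ) (d : ℚ × ℚ → ℚ), (m : ℚ) * P.1 ∈ pl.O → (m : ℚ) * P.2 ∈ pl.O →
      (∀ Q ∈ M, d Q ^ 2 = qf κ (P - Q)) → (((q * m : ℕ) : ℚ) * ∑ Q : M, c Q * d Q.1) ∈ pl.O := by
  classical
  choose q hq0 hq using exists_den pl (κ := κ)
  refine ⟨∏ Q : M, q Q.1 * (c Q).den, ?_, fun P m d hx hy hd => ?_⟩
  · exact Finset.prod_ne_zero_iff.2 fun Q _ => mul_ne_zero (hq0 _) (c Q).den_pos.ne'
  · rw [Finset.mul_sum]
    refine sum_mem fun Q _ => ?_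
    obtain ⟨r, hr⟩ := Finset.dvd_prod_of_mem (fun Q : M => q Q.1 * (c Q).den) (Finset.mem_univ Q)
    rw [hr]
    have e : (((q Q.1 * (c Q).den * r * m : ℕ) : ℚ)) * (c Q * d Q.1) =
        (r : ℚ) * ((c Q).num : ℚ) * ((q Q.1 * m : ℚ) * d Q.1) := by
      have := Rat.den_mul_eq_num (c Q)
      rw [← this]
      push_cast
      ring
    rw [e]
    exact mul_mem (mul_mem (natCast_mem _ _) (intCast_mem _ _))
      (hq Q.1 P m (d Q.1) hx hy (hd Q.1 Q.2))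

/-- the main approximation lemma -/
theorem exists_poly (pl : Places κ ι) {S : Set (ℚ × ℚ)} {dd : ℚ × ℚ → ℚ × ℚ → ℚ} (h0 : 0 ∈ S)
    (hdd : ∀ P ∈ S, ∀ Q ∈ S, dd P Q ^ 2 = qf κ (P - Q)) (U : Ultrafilter (ℚ × ℚ)) (hU : S ∈ U)
    (K : ℕ) (C0 : ℝ) (hK : ∀ᶠ P in (U : Filter (ℚ × ℚ)), ∃ m : ℕ, m ≠ 0 ∧ (m : ℚ) * P.1 ∈ pl.O ∧
      (m : ℚ) * P.2 ∈ pl.O ∧ (m : ℝ) ≤ C0 * pl.hv P ^ K)
    (hinf : Tendsto pl.hv (U : Filter (ℚ × ℚ)) atTop) :
    ∃ e : ℕ, ∃ sg : ℚ × ℚ → ι → Bool, ∀ M : Finset (ℚ × ℚ), ↑M ⊆ S →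
      (∀ Q ∈ M, ∀ Q' ∈ M, sg Q = sg Q') →
        ∀ᶠ P in (U : Filter (ℚ × ℚ)), ∃ f ∈ W e, ∀ Q ∈ M, f Q = dd P Q := by
  classical
  obtain ⟨T, R, h1, h2, h3⟩ := exists_sqrt_poly (K + 1)
  obtain ⟨sg, hsg⟩ := exists_sg pl h0 hdd U hU h1 h2
  refine ⟨(K + 1) * 2, sg, fun M hM hsgM => ?_⟩
  rcases M.eq_empty_or_nonempty with rfl | ⟨Q0, hQ0⟩
  · exact Eventually.of_forall fun P => ⟨0, zero_mem _, by simp⟩
  obtain ⟨Φ, hΦ1, hΦ2⟩ := exists_functionals (W ((K + 1) * 2)) M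
  suffices hs : ∀ c ∈ Φ, ∀ᶠ P in (U : Filter (ℚ × ℚ)), ∑ Q : M, c Q * dd P Q.1 = 0 by
    filter_upwards [(Filter.eventually_all_finset Φ).2 hs] with P hP
    exact hΦ2 (dd P) hP
  intro c hc
  -- the local bounds
  have hloc : ∀ v, ∃ C : ℝ, ∀ᶠ P in (U : Filter (ℚ × ℚ)),
      pl.nv v P ^ (K + 1) * pl.w v (∑ Q : M, c Q * dd P Q.1) ≤ C := by
    intro v
    by_cases hb : ∃ B : ℝ, ∀ᶠ P in (U : Filter (ℚ × ℚ)), pl.nv v P ≤ B
    · obtain ⟨B, hB⟩ := hb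
      choose D hD0 hD using local_bound pl v
      refine ⟨B ^ (K + 1) * ∑ Q : M, pl.w v (c Q) * (D Q.1 * B), ?_⟩
      filter_upwards [hB, hU] with P hP hPS
      have hn0 : 0 ≤ pl.nv v P := zero_le_one.trans (pl.one_le_nv v P)
      refine mul_le_mul (pow_le_pow_left₀ hn0 hP _) ?_ ((pl.w v).nonneg _)
        (pow_nonneg (hn0.trans hP) _)
      refine ((pl.w v).sum_le _ _).trans (Finset.sum_le_sum fun Q _ => ?_)
      rw [map_mul]
      refine mul_le_mul_of_nonneg_left ?_ ((pl.w v).nonneg _)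
      exact (hD Q.1 P _ (hdd P hPS Q.1 (hM Q.2))).trans
        (mul_le_mul_of_nonneg_left hP (hD0 Q.1))
    · have hQ : ∀ Q : M, ∃ C : ℝ, ∀ᶠ P in (U : Filter (ℚ × ℚ)), pl.nv v P ^ (K + 1) *
          pl.w v (dd P Q.1 - sgn (sg Q0 v) * dd P 0 * T.eval (xq κ P Q.1)) ≤ C := by
        intro Q
        obtain ⟨C, hC⟩ := hsg v Q.1 (hM Q.2)
        rcases hC with hC | hC
        · exact absurd ⟨C, hC⟩ hb
        · refine ⟨C, ?_⟩
          rw [hsgM Q.1 Q.2 Q0 hQ0] at hC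
          exact hC
      choose C hC using hQ
      refine ⟨∑ Q : M, pl.w v (c Q) * C Q, ?_⟩
      filter_upwards [eventually_all.2 hC] with P hP
      have hz : ∑ Q : M, c Q * (sgn (sg Q0 v) * dd P 0 * T.eval (xq κ P Q.1)) = 0 := by
        refine hΦ1 c hc (fun Q => sgn (sg Q0 v) * dd P 0 * T.eval (xq κ P Q)) ?_
        exact Submodule.smul_mem (W ((K + 1) * 2)) (sgn (sg Q0 v) * dd P 0)
          (comp_mem_W (xq_mem_W κ P) T h3)
      have hs : ∑ Q : M, c Q * dd P Q.1 = ∑ Q : M, c Q * (dd P Q.1 -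
          sgn (sg Q0 v) * dd P 0 * T.eval (xq κ P Q.1)) := by
        simp only [mul_sub, Finset.sum_sub_distrib]
        rw [hz, sub_zero]
      rw [hs]
      have hn0 : 0 ≤ pl.nv v P ^ (K + 1) := pow_nonneg (zero_le_one.trans (pl.one_le_nv v P)) _
      calc _ ≤ pl.nv v P ^ (K + 1) * ∑ Q : M, pl.w v (c Q * (dd P Q.1 -
          sgn (sg Q0 v) * dd P 0 * T.eval (xq κ P Q.1))) :=
            mul_le_mul_of_nonneg_left ((pl.w v).sum_le _ _) hn0
        _ = ∑ Q : M, pl.w v (c Q) * (pl.nv v P ^ (K + 1) * pl.w v (dd P Q.1 -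
          sgn (sg Q0 v) * dd P 0 * T.eval (xq κ P Q.1))) := by
            rw [Finset.mul_sum]
            refine Finset.sum_congr rfl fun Q _ => ?_
            rw [map_mul]
            ring
        _ ≤ _ := Finset.sum_le_sum fun Q _ =>
            mul_le_mul_of_nonneg_left (hP Q) ((pl.w v).nonneg _)
  choose C hC using hloc
  obtain ⟨q, hq0, hq⟩ := exists_den_finset pl M c
  filter_upwards [eventually_all.2 hC, hU, hK,
    hinf.eventually_gt_atTop (q * C0 * ∏ v, C v)] with P hP hPS hPK hlarge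
  obtain ⟨m, hm0, hmx, hmy, hm⟩ := hPK
  refine eq_zero_of_small pl (hq P m (dd P) hmx hmy fun Q hQ => hdd P hPS Q (hM hQ))
    (mul_ne_zero hq0 hm0) ?_
  set L := ∑ Q : M, c Q * dd P Q.1 with hL
  set p := ∏ v, pl.w v L with hp
  have hp0 : 0 ≤ p := Finset.prod_nonneg fun v _ => (pl.w v).nonneg _
  have hv1 : 1 ≤ pl.hv P := pl.one_le_hv P
  have hv0 : 0 < pl.hv P := zero_lt_one.trans_le hv1
  have hprod : pl.hv P ^ (K + 1) * p ≤ ∏ v, C v := by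
    have : pl.hv P ^ (K + 1) * p = ∏ v, (pl.nv v P ^ (K + 1) * pl.w v L) := by
      rw [Finset.prod_mul_distrib, Finset.prod_pow]
      rfl
    rw [this]
    refine Finset.prod_le_prod (fun v _ => mul_nonneg (pow_nonneg (zero_le_one.trans
      (pl.one_le_nv v P)) _) ((pl.w v).nonneg _)) fun v _ => hP v
  have hm1 : (0 : ℝ) < m := Nat.cast_pos.2 (Nat.pos_of_ne_zero hm0)
  have hC0 : 0 < C0 := by
    by_contra hneg
    have : C0 * pl.hv P ^ K ≤ 0 := mul_nonpos_of_nonpos_of_nonneg (not_lt.1 hneg) (by positivity)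
    linarith
  have hqp : (0 : ℝ) < q := Nat.cast_pos.2 (Nat.pos_of_ne_zero hq0)
  have h4 : (q * m : ℝ) * p * pl.hv P ≤ q * C0 * ∏ v, C v := by
    calc (q * m : ℝ) * p * pl.hv P ≤ q * (C0 * pl.hv P ^ K) * p * pl.hv P := by gcongr
      _ = q * C0 * (pl.hv P ^ (K + 1) * p) := by ring
      _ ≤ _ := mul_le_mul_of_nonneg_left hprod (by positivity)
  have h5 : (q * m : ℝ) * p * pl.hv P < 1 * pl.hv P := by linarith
  push_cast
  exact lt_of_mul_lt_mul_right h5 hv0.le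

end Pool.Agent.Lib.MP_bc4313_co
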