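import Mathlib
import Pool.Agent.Lib.MP_bc4313_co.Alg
import Pool.Agent.Lib.MP_bc4313_co.Ultra

/-!
Rational distance sets with a sequence of points of large height at finitely many places: all but
finitely many points lie on a line (in rational coordinates).
-/

namespace Pool.Agent.Lib.MP_bc4313_co

open Polynomial Polynomial.Bivariate Filter

variable {κ : ℚ} {ι : Type} [Fintype ι]

/-- the isotropic coordinates -/
noncomputable def zw (θ : ℂ) (P : ℚ × ℚ) : ℂ × ℂ := ((P.1 : ℂ) + θ * P.2, (P.1 : ℂ) - θ * P.2)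

theorem not_rat {θ : ℂ} (hκ : 0 < κ) (hθ : θ ^ 2 = -κ) (r : ℚ) : θ ≠ r := by
  rintro rfl
  have h1 : ((r ^ 2 : ℚ) : ℂ) = ((-κ : ℚ) : ℂ) := by push_cast; exact hθ
  have h2 : r ^ 2 = -κ := by exact_mod_cast h1
  nlinarith [sq_nonneg r]

theorem zw_fst_inj {θ : ℂ} (hκ : 0 < κ) (hθ : θ ^ 2 = -κ) {P Q : ℚ × ℚ}
    (h : (zw θ P).1 = (zw θ Q).1) : P = Q := by
  have h1 : (P.1 : ℂ) + θ * P.2 = Q.1 + θ * Q.2 := h
  by_cases h2 : P.2 = Q.2
  · rw [h2] at h1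
    have : (P.1 : ℂ) = Q.1 := by linear_combination h1
    exact Prod.ext (by exact_mod_cast this) h2
  · exfalso
    have h3 : ((P.2 - Q.2 : ℚ) : ℂ) ≠ 0 := by
      exact_mod_cast sub_ne_zero.2 h2
    refine not_rat hκ hθ ((Q.1 - P.1) / (P.2 - Q.2)) ?_
    rw [Rat.cast_div, eq_div_iff h3]
    push_cast
    linear_combination h1

theorem zw_snd_inj {θ : ℂ} (hκ : 0 < κ) (hθ : θ ^ 2 = -κ) {P Q : ℚ × ℚ}
    (h : (zw θ P).2 = (zw θ Q).2) : P = Q := by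
  refine zw_fst_inj (θ := -θ) hκ (by rw [neg_sq, hθ]) ?_
  have h1 : (P.1 : ℂ) - θ * P.2 = Q.1 - θ * Q.2 := h
  simp only [zw]
  linear_combination h1

theorem qf_zw {θ : ℂ} (hθ : θ ^ 2 = -κ) (P Q : ℚ × ℚ) : ((qf κ (P - Q) : ℚ) : ℂ) =
    ((zw θ Q).1 - (zw θ P).1) * ((zw θ Q).2 - (zw θ P).2) := by
  simp only [qf, zw, Prod.fst_sub, Prod.snd_sub]
  push_cast
  linear_combination ((P.2 : ℂ) - Q.2) ^ 2 * hθ

/-- polynomial functions in the isotropic coordinates -/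
theorem W_to_poly {θ : ℂ} (hκ : 0 < κ) (hθ : θ ^ 2 = -κ) {e : ℕ} {f : ℚ × ℚ → ℚ} (hf : f ∈ W e) :
    ∃ F : ℂ[X][Y], ∀ Q, F.evalEval (zw θ Q).1 (zw θ Q).2 = f Q := by
  have hθ0 : θ ≠ 0 := by
    have := not_rat hκ hθ 0
    rwa [Rat.cast_zero] at this
  unfold W at hf
  induction hf using Submodule.span_induction with
  | mem f hf =>
    obtain ⟨i, hi, j, hj, rfl⟩ := hf
    refine ⟨(C (C (1 / 2)) * (C X + Y)) ^ i * (C (C (1 / (2 * θ))) * (C X - Y)) ^ j, fun Q => ?_⟩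
    have e1 : (1 / 2 : ℂ) * ((zw θ Q).1 + (zw θ Q).2) = Q.1 := by
      simp only [zw]
      ring
    have e2 : (1 / (2 * θ) : ℂ) * ((zw θ Q).1 - (zw θ Q).2) = Q.2 := by
      simp only [zw]
      field_simp
      ring
    simp only [evalEval_mul, evalEval_pow, evalEval_add, evalEval_sub, evalEval_C, eval_C,
      evalEval_X, eval_X]
    rw [e1, e2]
    push_cast
    ring
  | zero => exact ⟨0, fun Q => by simp⟩
  | add x y _ _ hx hy =>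
    obtain ⟨F, hF⟩ := hx
    obtain ⟨F', hF'⟩ := hy
    exact ⟨F + F', fun Q => by rw [evalEval_add, hF, hF', Pi.add_apply, Rat.cast_add]⟩
  | smul a x _ hx =>
    obtain ⟨F, hF⟩ := hx
    refine ⟨C (C (a : ℂ)) * F, fun Q => ?_⟩
    rw [evalEval_mul, evalEval_C, eval_C, hF, Pi.smul_apply, smul_eq_mul, Rat.cast_mul]

/-- the product of the two linear forms is not a square -/
theorem not_square (z w : ℂ) (F : ℂ[X][Y]) : C (X - C z) * (Y - C (C w)) - F ^ 2 ≠ 0 := by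
  intro h
  have h1 := congrArg natDegree (sub_eq_zero.1 h)
  rw [natDegree_C_mul (X_sub_C_ne_zero z), natDegree_X_sub_C, natDegree_pow] at h1
  omega

/-- a product of irreducible polynomials with infinitely many zeros in a set -/
theorem exists_irreducible {H : ℂ[X][Y]} (hH : H ≠ 0) {α : Type} (g : α → ℂ × ℂ) {A : Set α}
    (hA : A.Infinite) (hz : ∀ Q ∈ A, H.evalEval (g Q).1 (g Q).2 = 0) :
    ∃ G : ℂ[X][Y], Irreducible G ∧ {Q ∈ A | G.evalEval (g Q).1 (g Q).2 = 0}.Infinite := by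
  classical
  obtain ⟨f, hf, hfa⟩ := WfDvdMonoid.exists_factors H hH
  by_contra hcon
  push Not at hcon
  have hfin : (⋃ G ∈ f.toFinset, {Q ∈ A | G.evalEval (g Q).1 (g Q).2 = 0}).Finite := by
    refine Set.Finite.biUnion (Finset.finite_toSet _) fun G hG => ?_
    exact hcon G (hf G (Multiset.mem_toFinset.1 hG))
  refine hA (hfin.subset fun Q hQ => ?_)
  obtain ⟨u, hu⟩ := hfa.symm
  have h1 : f.prod.evalEval (g Q).1 (g Q).2 = 0 := by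
    rw [← hu, evalEval_mul, hz Q hQ, zero_mul]
  rw [evalEval_multiset_prod, Multiset.prod_eq_zero_iff, Multiset.mem_map] at h1
  obtain ⟨G, hG, hG0⟩ := h1
  simp only [Set.mem_iUnion]
  exact ⟨G, Multiset.mem_toFinset.2 hG, hQ, hG0⟩

/-- an infinite set contains an infinite subset on which a function with finitely many values is
constant -/
theorem exists_const {α β : Type} [Finite β] (g : α → β) {A : Set α} (hA : A.Infinite) :
    ∃ b, {Q ∈ A | g Q = b}.Infinite := by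
  by_contra hcon
  push Not at hcon
  have hfin : (⋃ b : β, {Q ∈ A | g Q = b}).Finite := Set.finite_iUnion fun b =>
    hcon b
  exact hA (hfin.subset fun Q hQ => Set.mem_iUnion.2 ⟨g Q, hQ, rfl⟩)

/-- Lemma A -/
theorem lemmaA (hκ : 0 < κ) {θ : ℂ} (hθ : θ ^ 2 = -κ) {S : Set (ℚ × ℚ)}
    {dd : ℚ × ℚ → ℚ × ℚ → ℚ} (hdd : ∀ P ∈ S, ∀ Q ∈ S, dd P Q ^ 2 = qf κ (P - Q))
    (U : Ultrafilter (ℚ × ℚ)) (hU : S ∈ U) {e : ℕ} {sg : ℚ × ℚ → ι → Bool}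
    (hpoly : ∀ M : Finset (ℚ × ℚ), ↑M ⊆ S → (∀ Q ∈ M, ∀ Q' ∈ M, sg Q = sg Q') →
      ∀ᶠ P in (U : Filter (ℚ × ℚ)), ∃ f ∈ W e, ∀ Q ∈ M, f Q = dd P Q)
    {A : Set (ℚ × ℚ)} (hA : A.Infinite) (hAS : A ⊆ S) :
    ∃ G : ℂ[X][Y], Irreducible G ∧ {Q ∈ A | G.evalEval (zw θ Q).1 (zw θ Q).2 = 0}.Infinite ∧
      ∀ᶠ P in (U : Filter (ℚ × ℚ)), Good G (zw θ P) := by
  classical
  obtain ⟨b, hb⟩ := exists_const sg hA
  set A1 := {Q ∈ A | sg Q = b} with hA1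
  obtain ⟨M, hM, hdet⟩ := exists_finset_detect (W (e + e + 2)) (W_fg _) A1
  have hmain : ∀ᶠ P in (U : Filter (ℚ × ℚ)), ∃ f ∈ W e, ∀ Q ∈ A1, f Q ^ 2 = qf κ (P - Q) := by
    have h1 := hpoly M (fun Q hQ => hAS (hM hQ).1)
      (fun Q hQ Q' hQ' => (hM hQ).2.trans (hM hQ').2.symm)
    filter_upwards [h1, hU] with P hP hPS
    obtain ⟨f, hf, hfM⟩ := hP
    refine ⟨f, hf, fun Q hQ => ?_⟩
    have h2 : (f * f - fun Q => qf κ (P - Q)) ∈ W (e + e + 2) :=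
      sub_mem (W_mono (by omega) (mul_mem_W hf hf)) (W_mono (by omega) (qf_mem_W κ P))
    have h3 := hdet _ h2 (fun Q hQ => by
      rw [Pi.sub_apply, Pi.mul_apply, hfM Q hQ, ← sq, hdd P hPS Q (hAS (hM hQ).1), sub_self]) Q hQ
    rw [Pi.sub_apply, Pi.mul_apply, ← sq] at h3
    exact sub_eq_zero.1 h3
  have hmain' : ∀ᶠ P in (U : Filter (ℚ × ℚ)), ∃ F : ℂ[X][Y], ∀ Q ∈ A1,
      (C (X - C (zw θ P).1) * (Y - C (C (zw θ P).2)) - F ^ 2).evalEval (zw θ Q).1 (zw θ Q).2 = 0 := by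
    filter_upwards [hmain] with P hP
    obtain ⟨f, hf, hfQ⟩ := hP
    obtain ⟨F, hF⟩ := W_to_poly hκ hθ hf
    refine ⟨F, fun Q hQ => ?_⟩
    rw [evalEval_sub, evalEval_mul, evalEval_C, evalEval_sub, evalEval_X, evalEval_C, eval_C,
      eval_sub, eval_X, eval_C, evalEval_pow, hF, ← qf_zw hθ, ← hfQ Q hQ]
    push_cast
    ring
  obtain ⟨P1, F1, hF1⟩ := hmain'.exists
  obtain ⟨G, hG, hGinf⟩ := exists_irreducible (not_square (zw θ P1).1 (zw θ P1).2 F1) (zw θ) hb hF1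
  refine ⟨G, hG, hGinf.mono fun Q hQ => ⟨hQ.1.1, hQ.2⟩, ?_⟩
  filter_upwards [hmain'] with P hP
  obtain ⟨F, hF⟩ := hP
  have hdvd : G ∣ C (X - C (zw θ P).1) * (Y - C (C (zw θ P).2)) - F ^ 2 := by
    refine dvd_of_zeros hG (Z := zw θ '' {Q ∈ A1 | G.evalEval (zw θ Q).1 (zw θ Q).2 = 0})
      (hGinf.image ?_) ?_ ?_ ?_
    · intro P _ Q _ h
      exact zw_fst_inj hκ hθ (congrArg Prod.fst h)
    · rintro _ ⟨P, _, rfl⟩ _ ⟨Q, _, rfl⟩ h
      rw [zw_fst_inj hκ hθ h]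
    · rintro _ ⟨Q, hQ, rfl⟩
      exact hQ.2
    · rintro _ ⟨Q, hQ, rfl⟩
      exact hF Q hQ.1
  obtain ⟨h, hh⟩ := hdvd
  exact ⟨F, h, by rw [← hh]; ring⟩

/-- the algebraic lemma along the ultrafilter -/
theorem ultra_zeros (hκ : 0 < κ) {θ : ℂ} (hθ : θ ^ 2 = -κ) {G : ℂ[X][Y]} (hG : Irreducible G)
    {A : Set (ℚ × ℚ)} (hA : {Q ∈ A | G.evalEval (zw θ Q).1 (zw θ Q).2 = 0}.Infinite)
    (U : Ultrafilter (ℚ × ℚ)) (hcof : (U : Filter (ℚ × ℚ)) ≤ cofinite)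
    (hgood : ∀ᶠ P in (U : Filter (ℚ × ℚ)), Good G (zw θ P)) :
    (∃ a b c : ℂ, c ≠ 0 ∧ ∀ z w : ℂ, G.evalEval z w = a * z + b + c * w) ∧
      ∀ᶠ P in (U : Filter (ℚ × ℚ)), G.evalEval (zw θ P).1 (zw θ P).2 = 0 := by
  have hinj : Function.Injective (zw θ) := fun P Q h => zw_fst_inj hκ hθ (congrArg Prod.fst h)
  have hinf : {P | Good G (zw θ P)}.Infinite := by
    intro hfin
    have h1 : {P | Good G (zw θ P)}ᶜ ∈ (U : Filter (ℚ × ℚ)) := hcof hfin.compl_mem_cofinite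
    exact (Ultrafilter.compl_mem_iff_notMem.1 h1) hgood
  have hfst : ∀ B : Set (ℚ × ℚ), Set.InjOn Prod.fst (zw θ '' B) := by
    rintro B _ ⟨P, _, rfl⟩ _ ⟨Q, _, rfl⟩ h
    rw [zw_fst_inj hκ hθ h]
  have hsnd : ∀ B : Set (ℚ × ℚ), Set.InjOn Prod.snd (zw θ '' B) := by
    rintro B _ ⟨P, _, rfl⟩ _ ⟨Q, _, rfl⟩ h
    rw [zw_snd_inj hκ hθ h]
  obtain ⟨h1, s, hs, hsz⟩ := alg_main hG (hA.image hinj.injOn) (hfst _) (hsnd _)
    (by rintro _ ⟨Q, hQ, rfl⟩; exact hQ.2) (hinf.image hinj.injOn) (hfst _) (hsnd _)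
    (by rintro _ ⟨P, hP, rfl⟩; exact hP)
  refine ⟨h1, ?_⟩
  have h2 : ∀ᶠ P in (U : Filter (ℚ × ℚ)), (zw θ P).1 ∉ s := by
    refine hcof ?_
    have : {P : ℚ × ℚ | (zw θ P).1 ∈ s}.Finite :=
      hs.preimage fun P _ Q _ h => zw_fst_inj hκ hθ h
    exact this.compl_mem_cofinite
  filter_upwards [hgood, h2] with P hP hPs
  exact hsz _ ⟨P, hP, rfl⟩ hPs

/-- The abstract theorem. -/
theorem abstract_line (hκ : 0 < κ) (pl : Places κ ι) {S : Set (ℚ × ℚ)}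
    {dd : ℚ × ℚ → ℚ × ℚ → ℚ} (h0 : 0 ∈ S) (hdd : ∀ P ∈ S, ∀ Q ∈ S, dd P Q ^ 2 = qf κ (P - Q))
    {S' : Set (ℚ × ℚ)} (hS' : S' ⊆ S) (hinf : S'.Infinite) (K : ℕ) (C0 : ℝ)
    (hK : ∀ P ∈ S', ∃ m : ℕ, m ≠ 0 ∧ (m : ℚ) * P.1 ∈ pl.O ∧ (m : ℚ) * P.2 ∈ pl.O ∧
      (m : ℝ) ≤ C0 * pl.hv P ^ K)
    (north : ∀ B : ℝ, {P ∈ S' | pl.hv P ≤ B}.Finite) :
    ∃ α β γ : ℝ, (α ≠ 0 ∨ β ≠ 0) ∧ {P ∈ S | α * P.1 + β * P.2 + γ ≠ 0}.Finite := by
  classical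
  have : NeBot (cofinite ⊓ 𝓟 S') := hinf.cofinite_inf_principal_neBot
  set U : Ultrafilter (ℚ × ℚ) := Ultrafilter.of (cofinite ⊓ 𝓟 S') with hUdef
  have hUle : (U : Filter (ℚ × ℚ)) ≤ cofinite ⊓ 𝓟 S' := Ultrafilter.of_le _
  have hcof : (U : Filter (ℚ × ℚ)) ≤ cofinite := hUle.trans inf_le_left
  have hUS' : S' ∈ (U : Filter (ℚ × ℚ)) := hUle (mem_inf_of_right (mem_principal_self S'))
  have hUS : S ∈ (U : Filter (ℚ × ℚ)) := mem_of_superset hUS' hS'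
  have htend : Tendsto pl.hv (U : Filter (ℚ × ℚ)) atTop := by
    rw [tendsto_atTop]
    intro B
    have h1 : {P ∈ S' | pl.hv P ≤ B}ᶜ ∈ (U : Filter (ℚ × ℚ)) := hcof (north B).compl_mem_cofinite
    filter_upwards [h1, hUS'] with P hP hPS'
    by_contra hlt
    exact hP ⟨hPS', (not_le.1 hlt).le⟩
  obtain ⟨e, sg, hpoly⟩ := exists_poly pl h0 hdd U hUS K C0
    (by filter_upwards [hUS'] with P hP; exact hK P hP) htend
  obtain ⟨θ, hθ⟩ : ∃ θ : ℂ, θ ^ 2 = -κ := IsAlgClosed.exists_pow_nat_eq _ two_pos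
  have hθ0 : θ ≠ 0 := by
    have := not_rat hκ hθ 0
    rwa [Rat.cast_zero] at this
  obtain ⟨G, hG, hGinf, hGgood⟩ := lemmaA hκ hθ hdd U hUS hpoly (hinf.mono hS') subset_rfl
  obtain ⟨⟨a, b, c, hc, habc⟩, hGz⟩ := ultra_zeros hκ hθ hG hGinf U hcof hGgood
  -- all but finitely many points are zeros of `G`
  have hfin : {P ∈ S | G.evalEval (zw θ P).1 (zw θ P).2 ≠ 0}.Finite := by
    by_contra hinf2
    obtain ⟨G2, hG2, hG2inf, hG2good⟩ := lemmaA hκ hθ hdd U hUS hpoly hinf2 (fun P hP => hP.1)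
    obtain ⟨-, hG2z⟩ := ultra_zeros hκ hθ hG2 hG2inf U hcof hG2good
    have hcommon : {P : ℚ × ℚ | G.evalEval (zw θ P).1 (zw θ P).2 = 0 ∧
        G2.evalEval (zw θ P).1 (zw θ P).2 = 0}.Infinite := by
      intro hf
      have h1 := hcof hf.compl_mem_cofinite
      exact (Ultrafilter.compl_mem_iff_notMem.1 h1) (hGz.and hG2z)
    have hdvd : G2 ∣ G := by
      refine dvd_of_zeros hG2 (hcommon.image (f := zw θ) ?_) ?_ ?_ ?_
      · intro P _ Q _ h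
        exact zw_fst_inj hκ hθ (congrArg Prod.fst h)
      · rintro _ ⟨P, _, rfl⟩ _ ⟨Q, _, rfl⟩ h
        rw [zw_fst_inj hκ hθ h]
      · rintro _ ⟨Q, hQ, rfl⟩
        exact hQ.2
      · rintro _ ⟨Q, hQ, rfl⟩
        exact hQ.1
    obtain ⟨Q, hQ, hQ2⟩ := hG2inf.nonempty
    obtain ⟨h, rfl⟩ := hdvd
    refine hQ.2 ?_
    rw [evalEval_mul, hQ2, zero_mul]
  -- the real line
  set u : ℂ := a + c with hu
  set v : ℂ := θ * (a - c) with hv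
  have heval : ∀ P : ℚ × ℚ, G.evalEval (zw θ P).1 (zw θ P).2 = u * P.1 + v * P.2 + b := by
    intro P
    rw [habc]
    simp only [zw, hu, hv]
    ring
  have huv : u ≠ 0 ∨ v ≠ 0 := by
    by_contra hcon
    push Not at hcon
    obtain ⟨h1, h2⟩ := hcon
    have h3 : a - c = 0 := (mul_eq_zero.1 h2).resolve_left hθ0
    have h4 : c = 0 := by
      have : a + c = 0 := h1
      linear_combination (1 / 2) * this - (1 / 2) * h3
    exact hc h4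
  have hre : ∀ P : ℚ × ℚ, (u * P.1 + v * P.2 + b).re = u.re * P.1 + v.re * P.2 + b.re := by
    intro P
    simp [Complex.add_re, Complex.mul_re]
  have him : ∀ P : ℚ × ℚ, (u * P.1 + v * P.2 + b).im = u.im * P.1 + v.im * P.2 + b.im := by
    intro P
    simp [Complex.add_im, Complex.mul_im]
  by_cases hreal : u.re ≠ 0 ∨ v.re ≠ 0
  · refine ⟨u.re, v.re, b.re, hreal, hfin.subset ?_⟩
    rintro P ⟨hP, hne⟩
    refine ⟨hP, fun h => hne ?_⟩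
    rw [← hre, ← heval, h, Complex.zero_re]
  · push Not at hreal
    refine ⟨u.im, v.im, b.im, ?_, hfin.subset ?_⟩
    · by_contra hcon
      push Not at hcon
      rcases huv with h | h
      · exact h (Complex.ext hreal.1 hcon.1)
      · exact h (Complex.ext hreal.2 hcon.2)
    · rintro P ⟨hP, hne⟩
      refine ⟨hP, fun h => hne ?_⟩
      rw [← him, ← heval, h, Complex.zero_im]

end Pool.Agent.Lib.MP_bc4313_co
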