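import Mathlib
import Pool.Agent.Lib.MP_bc4313_co.Core

/-!
The absolute values at infinity and at the primes dividing `N`.
-/

namespace Pool.Agent.Lib.MP_bc4313_co

open Finset

instance factPrime (N : ℕ) (p : N.primeFactors) : Fact (p : ℕ).Prime :=
  ⟨Nat.prime_of_mem_primeFactors p.2⟩

/-- the absolute values at infinity and at the primes dividing `N` -/
noncomputable def absV (N : ℕ) : Option N.primeFactors → AbsoluteValue ℚ ℝ
  | none => Rat.AbsoluteValue.real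
  | some p => Rat.AbsoluteValue.padic p

theorem absV_none (N : ℕ) (r : ℚ) : absV N none r = |(r : ℝ)| := by
  rw [absV, Rat.AbsoluteValue.real_eq_abs]
  exact Rat.cast_abs r

theorem absV_some (N : ℕ) (p : N.primeFactors) (r : ℚ) :
    absV N (some p) r = ((padicNorm p r : ℚ) : ℝ) := by
  rw [absV, Rat.AbsoluteValue.padic_eq_padicNorm]

theorem prod_absV (N : ℕ) (r : ℚ) (g : ℝ → ℝ) : ∏ v, g (absV N v r) =
    g |(r : ℝ)| * ∏ p ∈ N.primeFactors, g ((padicNorm p r : ℚ) : ℝ) := by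
  rw [Fintype.prod_option, absV_none]
  congr 1
  rw [← Finset.prod_coe_sort N.primeFactors (fun p => g ((padicNorm p r : ℚ) : ℝ))]
  exact Finset.prod_congr rfl fun p _ => by rw [absV_some]

theorem prod_absV' (N : ℕ) (r : ℚ) : ∏ v, absV N v r =
    |(r : ℝ)| * ∏ p ∈ N.primeFactors, ((padicNorm p r : ℚ) : ℝ) := prod_absV N r id

/-- a rational number whose square is an integer is an integer -/
theorem int_of_sq {q : ℚ} {z : ℤ} (h : q ^ 2 = z) : ∃ y : ℤ, q = y := by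
  have h1 : (q ^ 2).den = 1 := by rw [h]; exact Rat.den_intCast z
  rw [Rat.den_pow] at h1
  have h2 : q.den = 1 := by
    rcases Nat.pow_eq_one.1 h1 with h2 | h2
    · exact h2
    · omega
  exact ⟨q.num, (Rat.coe_int_num_of_den_eq_one h2).symm⟩

/-- the ring `ℤ[1/N]` -/
def OV (N : ℕ) : Subring ℚ where
  carrier := {r | ∃ k : ℕ, ∃ z : ℤ, (N : ℚ) ^ k * r = z}
  mul_mem' := by
    rintro a b ⟨k, z, h⟩ ⟨k', z', h'⟩
    refine ⟨k + k', z * z', ?_⟩
    push_cast
    rw [← h, ← h', pow_add]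
    ring
  one_mem' := ⟨0, 1, by simp⟩
  add_mem' := by
    rintro a b ⟨k, z, h⟩ ⟨k', z', h'⟩
    refine ⟨k + k', (N : ℤ) ^ k' * z + (N : ℤ) ^ k * z', ?_⟩
    push_cast
    rw [← h, ← h', pow_add]
    ring
  zero_mem' := ⟨0, 0, by simp⟩
  neg_mem' := by
    rintro a ⟨k, z, h⟩
    exact ⟨k, -z, by push_cast; rw [← h]; ring⟩

theorem mem_OV {N : ℕ} {r : ℚ} : r ∈ OV N ↔ ∃ k : ℕ, ∃ z : ℤ, (N : ℚ) ^ k * r = z := Iff.rfl

theorem root_OV {N : ℕ} {a : ℚ} (h : a ^ 2 ∈ OV N) : a ∈ OV N := by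
  obtain ⟨k, z, hz⟩ := h
  obtain ⟨y, hy⟩ := int_of_sq (q := (N : ℚ) ^ k * a) (z := (N : ℤ) ^ k * z) (by
    push_cast
    rw [← hz]
    ring)
  exact ⟨k, y, hy⟩

theorem padicNorm_cast_eq {p : ℕ} [Fact p.Prime] {z : ℤ} (hz : z ≠ 0) :
    ((padicNorm p z : ℚ) : ℝ) = ((p : ℝ) ^ (padicValNat p z.natAbs))⁻¹ := by
  rw [padicNorm.eq_zpow_of_nonzero (by exact_mod_cast hz)]
  rw [padicValRat.of_int, padicValInt]
  rw [zpow_neg, zpow_natCast]
  push_cast
  rfl

/-- the product of the absolute values of a nonzero integer -/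
theorem prod_int {N : ℕ} {z : ℤ} (hz : z ≠ 0) : 1 ≤ ∏ v, absV N v (z : ℚ) := by
  rw [prod_absV']
  have h1 : ∏ p ∈ N.primeFactors, ((padicNorm p (z : ℚ) : ℚ) : ℝ) =
      (∏ p ∈ N.primeFactors, (p : ℝ) ^ (padicValNat p z.natAbs))⁻¹ := by
    rw [← Finset.prod_inv_distrib]
    refine Finset.prod_congr rfl fun p hp => ?_
    have : Fact p.Prime := ⟨Nat.prime_of_mem_primeFactors hp⟩
    exact padicNorm_cast_eq hz
  rw [h1]
  have hdvd : (∏ p ∈ N.primeFactors, p ^ (padicValNat p z.natAbs)) ∣ z.natAbs := by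
    refine Finset.prod_dvd_of_isRelPrime ?_ fun p hp => pow_padicValNat_dvd
    intro p hp q hq hpq
    refine Nat.coprime_iff_isRelPrime.1 (Nat.Coprime.pow _ _ ?_)
    exact (Nat.coprime_primes (Nat.prime_of_mem_primeFactors hp)
        (Nat.prime_of_mem_primeFactors hq)).2 hpq
  have hle := Nat.le_of_dvd (Int.natAbs_pos.2 hz) hdvd
  have hle' : (∏ p ∈ N.primeFactors, (p : ℝ) ^ (padicValNat p z.natAbs)) ≤ |((z : ℚ) : ℝ)| := by
    have : ((∏ p ∈ N.primeFactors, p ^ (padicValNat p z.natAbs) : ℕ) : ℝ) ≤ (z.natAbs : ℝ) :=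
      Nat.cast_le.2 hle
    push_cast at this
    rw [Rat.cast_intCast]
    rwa [Nat.cast_natAbs, Int.cast_abs] at this
  have hpos : 0 < ∏ p ∈ N.primeFactors, (p : ℝ) ^ (padicValNat p z.natAbs) :=
    Finset.prod_pos fun p hp => pow_pos (Nat.cast_pos.2 (Nat.prime_of_mem_primeFactors hp).pos) _
  rw [← div_eq_mul_inv, le_div_iff₀ hpos, one_mul]
  exact hle'

/-- the product formula for `N` -/
theorem prod_self {N : ℕ} (hN : N ≠ 0) : ∏ v, absV N v (N : ℚ) = 1 := by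
  rw [prod_absV']
  have h1 : ∏ p ∈ N.primeFactors, ((padicNorm p (N : ℚ) : ℚ) : ℝ) = (N : ℝ)⁻¹ := by
    have h2 : (N : ℝ) = ∏ p ∈ N.primeFactors, (p : ℝ) ^ (N.factorization p) := by
      conv_lhs => rw [← Nat.prod_factorization_pow_eq_self hN]
      rw [Finsupp.prod, Nat.support_factorization]
      push_cast
      rfl
    rw [h2, ← Finset.prod_inv_distrib]
    refine Finset.prod_congr rfl fun p hp => ?_
    have hpp := Nat.prime_of_mem_primeFactors hp
    have : Fact p.Prime := ⟨hpp⟩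
    have := padicNorm_cast_eq (p := p) (z := (N : ℤ)) (by exact_mod_cast hN)
    rw [Int.cast_natCast, Int.natAbs_natCast] at this
    rw [this, Nat.factorization_def _ hpp]
  rw [h1]
  have : ((N : ℕ) : ℝ) ≠ 0 := Nat.cast_ne_zero.2 hN
  rw [Rat.cast_natCast, abs_of_nonneg (Nat.cast_nonneg N), mul_inv_cancel₀ this]

theorem prod_ge_OV {N : ℕ} (hN : N ≠ 0) {a : ℚ} (ha : a ∈ OV N) (ha0 : a ≠ 0) :
    1 ≤ ∏ v, absV N v a := by
  obtain ⟨k, z, hz⟩ := ha
  have hz0 : z ≠ 0 := by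
    rintro rfl
    rw [Int.cast_zero] at hz
    exact mul_ne_zero (pow_ne_zero _ (Nat.cast_ne_zero.2 hN)) ha0 hz
  have h1 := prod_int (N := N) hz0
  rw [← hz] at h1
  simp only [map_mul, map_pow] at h1
  rw [Finset.prod_mul_distrib, Finset.prod_pow, prod_self hN, one_pow, one_mul] at h1
  exact h1

theorem prod_nat_le (N n : ℕ) : ∏ v, absV N v (n : ℚ) ≤ n := by
  rw [prod_absV']
  rw [Rat.cast_natCast, abs_of_nonneg (Nat.cast_nonneg n)]
  refine mul_le_of_le_one_right (Nat.cast_nonneg n) ?_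
  refine Finset.prod_le_one (fun p hp => ?_) fun p hp => ?_
  · have : Fact p.Prime := ⟨Nat.prime_of_mem_primeFactors hp⟩
    exact_mod_cast padicNorm.nonneg (p := p) (n : ℚ)
  · have : Fact p.Prime := ⟨Nat.prime_of_mem_primeFactors hp⟩
    exact_mod_cast padicNorm.of_nat (p := p) n

/-- anisotropy at infinity -/
theorem aniso_real {κ : ℚ} (hκ : 0 < κ) : ∃ c : ℝ, 0 < c ∧ ∀ x y : ℚ,
    c * (max |(x : ℝ)| |(y : ℝ)|) ^ 2 ≤ |((x ^ 2 + κ * y ^ 2 : ℚ) : ℝ)| := by
  have hκ' : (0 : ℝ) < κ := by exact_mod_cast hκ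
  refine ⟨min 1 κ, lt_min one_pos hκ', fun x y => ?_⟩
  have h1 : |((x ^ 2 + κ * y ^ 2 : ℚ) : ℝ)| = (x : ℝ) ^ 2 + κ * (y : ℝ) ^ 2 := by
    push_cast
    exact abs_of_nonneg (by positivity)
  rw [h1]
  rcases le_total |(x : ℝ)| |(y : ℝ)| with h | h
  · rw [max_eq_right h, sq_abs]
    have := mul_le_mul_of_nonneg_right (min_le_right 1 (κ : ℝ)) (sq_nonneg (y : ℝ))
    nlinarith [sq_nonneg (x : ℝ)]
  · rw [max_eq_left h, sq_abs]
    have := mul_le_mul_of_nonneg_right (min_le_left 1 (κ : ℝ)) (sq_nonneg (x : ℝ))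
    nlinarith [mul_nonneg hκ'.le (sq_nonneg (y : ℝ))]

/-- a continuous function without zeros on the unit ball is bounded below -/
theorem exists_lower {p : ℕ} [Fact p.Prime] {f : ℚ_[p] → ℚ_[p]} (hf : Continuous f)
    (h0 : ∀ t, f t ≠ 0) : ∃ c : ℝ, 0 < c ∧ ∀ t, ‖t‖ ≤ 1 → c ≤ ‖f t‖ := by
  have hK : IsCompact (Metric.closedBall (0 : ℚ_[p]) 1) := isCompact_closedBall _ _
  obtain ⟨t0, -, hmin⟩ := hK.exists_isMinOn ⟨0, by simp⟩ (hf.norm.continuousOn)
  refine ⟨‖f t0‖, norm_pos_iff.2 (h0 t0), fun t ht => ?_⟩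
  exact hmin (by simpa using ht)

/-- anisotropy at a prime -/
theorem aniso_padic {κ : ℚ} {p : ℕ} [Fact p.Prime] (hns : ¬ IsSquare ((-κ : ℚ) : ℚ_[p])) :
    ∃ c : ℝ, 0 < c ∧ ∀ x y : ℚ, c * (max ((padicNorm p x : ℚ) : ℝ) ((padicNorm p y : ℚ) : ℝ)) ^ 2 ≤
      ((padicNorm p (x ^ 2 + κ * y ^ 2) : ℚ) : ℝ) := by
  have e : ∀ q : ℚ, ((padicNorm p q : ℚ) : ℝ) = ‖(q : ℚ_[p])‖ := fun q => (Padic.eq_padicNorm q).symm
  obtain ⟨c1, hc1, h1⟩ := exists_lower (p := p) (f := fun t => t ^ 2 + (κ : ℚ_[p]))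
    (by fun_prop) (fun t ht => hns ⟨t, by push_cast; linear_combination -ht⟩)
  obtain ⟨c2, hc2, h2⟩ := exists_lower (p := p) (f := fun t => 1 + (κ : ℚ_[p]) * t ^ 2)
    (by fun_prop) (fun t ht => by
      have ht0 : t ≠ 0 := by
        rintro rfl
        simp at ht
      refine hns ⟨t⁻¹, ?_⟩
      push_cast
      field_simp
      linear_combination -ht)
  refine ⟨min c1 c2, lt_min hc1 hc2, fun x y => ?_⟩
  rw [e, e, e]
  push_cast
  rcases le_total ‖(x : ℚ_[p])‖ ‖(y : ℚ_[p])‖ with h | h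
  · rw [max_eq_right h]
    by_cases hy : (y : ℚ_[p]) = 0
    · rw [hy, norm_zero, zero_pow two_ne_zero, mul_zero]
      exact norm_nonneg _
    · have hy' : 0 < ‖(y : ℚ_[p])‖ := norm_pos_iff.2 hy
      have h3 := h1 ((x : ℚ_[p]) / y) (by rw [norm_div]; exact div_le_one_of_le₀ h hy'.le)
      have h4 : (x : ℚ_[p]) ^ 2 + κ * (y : ℚ_[p]) ^ 2 =
          (((x : ℚ_[p]) / y) ^ 2 + κ) * (y : ℚ_[p]) ^ 2 := by
        field_simp
      rw [h4, norm_mul, norm_pow]
      exact mul_le_mul_of_nonneg_right ((min_le_left _ _).trans h3) (by positivity)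
  · rw [max_eq_left h]
    by_cases hx : (x : ℚ_[p]) = 0
    · rw [hx, norm_zero, zero_pow two_ne_zero, mul_zero]
      exact norm_nonneg _
    · have hx' : 0 < ‖(x : ℚ_[p])‖ := norm_pos_iff.2 hx
      have h3 := h2 ((y : ℚ_[p]) / x) (by rw [norm_div]; exact div_le_one_of_le₀ h hx'.le)
      have h4 : (x : ℚ_[p]) ^ 2 + κ * (y : ℚ_[p]) ^ 2 =
          (1 + κ * ((y : ℚ_[p]) / x) ^ 2) * (x : ℚ_[p]) ^ 2 := by
        field_simp
      rw [h4, norm_mul, norm_pow]
      exact mul_le_mul_of_nonneg_right ((min_le_right _ _).trans h3) (by positivity)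

/-- the family of absolute values -/
noncomputable def plV {κ : ℚ} (hκ : 0 < κ) {N : ℕ} (hN : N ≠ 0)
    (hns : ∀ p : N.primeFactors, ¬ IsSquare ((-κ : ℚ) : ℚ_[p])) :
    Places κ (Option N.primeFactors) where
  w := absV N
  O := OV N
  prod_ge a ha ha0 := prod_ge_OV hN ha ha0
  root_mem a ha := root_OV ha
  prod_nat n := prod_nat_le N n
  aniso v := by
    cases v with
    | none =>
      obtain ⟨c, hc, h⟩ := aniso_real hκ
      refine ⟨c, hc, fun x y => ?_⟩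
      rw [absV_none, absV_none, absV_none]
      exact h x y
    | some p =>
      obtain ⟨c, hc, h⟩ := aniso_padic (hns p)
      refine ⟨c, hc, fun x y => ?_⟩
      rw [absV_some, absV_some, absV_some]
      exact h x y

/-- the denominator and the `p`-adic norm -/
theorem max_one_padicNorm (p : ℕ) [hp : Fact p.Prime] (r : ℚ) :
    max 1 ((padicNorm p r : ℚ) : ℝ) = (p : ℝ) ^ (r.den.factorization p) := by
  by_cases hr : r = 0
  · subst hr
    simp
  rw [Nat.factorization_def _ hp.out]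
  rw [padicNorm.eq_zpow_of_nonzero hr, padicValRat]
  by_cases hd : p ∣ r.den
  · have hn : ¬ p ∣ r.num.natAbs := by
      intro h
      have := Nat.dvd_gcd h hd
      rw [r.reduced.gcd_eq_one] at this
      exact hp.out.one_lt.ne' (Nat.dvd_one.1 this)
    have h1 : padicValInt p r.num = 0 := by
      rw [padicValInt]
      exact padicValNat.eq_zero_of_not_dvd hn
    rw [h1, Nat.cast_zero, zero_sub, neg_neg, zpow_natCast]
    push_cast
    refine max_eq_right (one_le_pow₀ ?_)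
    exact_mod_cast hp.out.one_lt.le
  · rw [padicValNat.eq_zero_of_not_dvd hd, pow_zero, Nat.cast_zero, sub_zero, zpow_neg,
      zpow_natCast]
    push_cast
    refine max_eq_left (inv_le_one_of_one_le₀ (one_le_pow₀ ?_))
    exact_mod_cast hp.out.one_lt.le

/-- the denominator of an element of `ℤ[1/N]` -/
theorem den_eq {N : ℕ} (hN : N ≠ 0) {r : ℚ} (hr : r ∈ OV N) :
    (r.den : ℝ) = ∏ p ∈ N.primeFactors, max 1 ((padicNorm p r : ℚ) : ℝ) := by
  obtain ⟨k, z, hz⟩ := hr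
  have hdvd : r.den ∣ N ^ k := by
    have h1 : r = (z : ℚ) / ((N ^ k : ℕ) : ℚ) := by
      rw [eq_div_iff (by exact_mod_cast pow_ne_zero k hN), mul_comm]
      push_cast
      exact hz
    have h2 : (r.den : ℤ) ∣ ((N ^ k : ℕ) : ℤ) := by
      rw [h1]
      exact_mod_cast Rat.den_dvd z ((N ^ k : ℕ) : ℤ)
    exact_mod_cast h2
  have hsub : r.den.primeFactors ⊆ N.primeFactors := by
    intro p hp
    rw [Nat.mem_primeFactors] at hp ⊢
    exact ⟨hp.1, hp.1.dvd_of_dvd_pow (hp.2.1.trans hdvd), hN⟩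
  calc (r.den : ℝ) = ((r.den.factorization.prod (· ^ ·) : ℕ) : ℝ) := by
        rw [Nat.prod_factorization_pow_eq_self r.den_pos.ne']
    _ = ∏ p ∈ N.primeFactors, (p : ℝ) ^ (r.den.factorization p) := by
        rw [Finsupp.prod_of_support_subset _ (s := N.primeFactors)
          (by rw [Nat.support_factorization]; exact hsub) _ (fun p _ => pow_zero p)]
        exact Nat.cast_prod _ _ |>.trans (by push_cast; rfl)
    _ = _ := by
        refine Finset.prod_congr rfl fun p hp => ?_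
        have : Fact p.Prime := ⟨Nat.prime_of_mem_primeFactors hp⟩
        rw [max_one_padicNorm]

/-- boundedness implies finiteness -/
theorem finite_bounded {N : ℕ} (hN : N ≠ 0) (B : ℝ) :
    {a : ℚ | a ∈ OV N ∧ ∏ v, max 1 (absV N v a) ≤ B}.Finite := by
  have hfin : ((Set.Icc (-⌈B⌉) ⌈B⌉) ×ˢ (Set.Iic ⌈B⌉₊) : Set (ℤ × ℕ)).Finite :=
    (Set.finite_Icc _ _).prod (Set.finite_Iic _)
  refine (hfin.preimage (f := fun a : ℚ => (a.num, a.den)) ?_).subset ?_
  · intro a _ b _ h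
    exact Rat.ext (congrArg Prod.fst h) (congrArg Prod.snd h)
  · rintro a ⟨ha, hB⟩
    rw [prod_absV N a (max 1), ← den_eq hN ha] at hB
    have hd : (0 : ℝ) < a.den := Nat.cast_pos.2 a.den_pos
    have h1 : (a.den : ℝ) ≤ B := by
      refine le_trans ?_ hB
      exact le_mul_of_one_le_left hd.le (le_max_left _ _)
    have h2 : |(a.num : ℝ)| ≤ B := by
      refine le_trans ?_ hB
      have : |(a.num : ℝ)| = |(a : ℝ)| * a.den := by
        conv_rhs => rw [Rat.cast_def, abs_div, Nat.abs_cast]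
        rw [div_mul_cancel₀ _ hd.ne']
      rw [this]
      exact mul_le_mul_of_nonneg_right (le_max_right _ _) hd.le
    refine ⟨⟨?_, ?_⟩, ?_⟩
    · have := (abs_le.1 h2).1
      have h3 : (-(⌈B⌉ : ℤ) : ℝ) ≤ a.num := by
        have := Int.le_ceil B
        push_cast
        linarith
      exact_mod_cast h3
    · have h3 : (a.num : ℝ) ≤ (⌈B⌉ : ℤ) := ((abs_le.1 h2).2).trans (Int.le_ceil B)
      exact_mod_cast h3
    · have h3 : (a.den : ℝ) ≤ (⌈B⌉₊ : ℝ) := h1.trans (Nat.le_ceil B)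
      exact_mod_cast h3

end Pool.Agent.Lib.MP_bc4313_co
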