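import Mathlib
import Pool.Agent.Lib.MP_bc4313_co.Conc

/-!
The theorem in rational coordinates, for points of large height at infinity and at the primes
dividing `N`, and for points close to a point.
-/

namespace Pool.Agent.Lib.MP_bc4313_co

open Finset

/-- the height of a rational number -/
def HH (r : ℚ) : ℕ := max r.num.natAbs r.den

theorem one_le_HH (r : ℚ) : 1 ≤ HH r := (Nat.one_le_iff_ne_zero.2 r.den_pos.ne').trans (le_max_right _ _)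

/-- the part at infinity and at the primes dividing `N` of the height of a rational number -/
noncomputable def HV (N : ℕ) (r : ℚ) : ℝ := ∏ v, max 1 (absV N v r)

theorem one_le_HV (N : ℕ) (r : ℚ) : 1 ≤ HV N r := by
  unfold HV
  calc (1 : ℝ) = ∏ _v : Option N.primeFactors, 1 := by simp
    _ ≤ _ := Finset.prod_le_prod (fun _ _ => zero_le_one) fun v _ => le_max_left _ _

/-- the denominators of the coordinates -/
theorem exists_den_coord {κ : ℚ} (hκ : 0 < κ) {l : ℚ} (hl : l ≠ 0) : ∃ C : ℕ, C ≠ 0 ∧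
    ∀ (p : ℚ × ℚ) (a b : ℚ), a ^ 2 = qf κ p → b ^ 2 = qf κ (p - (l, 0)) → ∃ z1 z2 : ℤ,
      ((C * (a.den * b.den) ^ 2 : ℕ) : ℚ) * p.1 = z1 ∧
        ((C * (a.den * b.den) ^ 2 : ℕ) : ℚ) * p.2 = z2 := by
  have hln : l.num ≠ 0 := Rat.num_ne_zero.2 hl
  have hkn : 0 < κ.num := Rat.num_pos.2 hκ
  refine ⟨4 * l.num.natAbs ^ 2 * l.den ^ 2 * κ.num.natAbs, ?_, fun p a b ha hb => ?_⟩
  · have h1 : 0 < l.num.natAbs := Int.natAbs_pos.2 hln
    have h2 : 0 < κ.num.natAbs := Int.natAbs_pos.2 hkn.ne'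
    have h3 := l.den_pos
    positivity
  · have eq1 : 2 * l * p.1 = a ^ 2 + l ^ 2 - b ^ 2 := by
      rw [ha, hb]
      simp only [qf, Prod.fst_sub, Prod.snd_sub]
      ring
    have hla : (l.den : ℚ) * l = l.num := Rat.den_mul_eq_num l
    have haa : (a.den : ℚ) * a = a.num := Rat.den_mul_eq_num a
    have hbb : (b.den : ℚ) * b = b.num := Rat.den_mul_eq_num b
    have hkk : (κ.den : ℚ) * κ = κ.num := Rat.den_mul_eq_num κ
    have hnat1 : ((l.num.natAbs : ℕ) : ℚ) ^ 2 = (l.num : ℚ) ^ 2 := by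
      rw [Nat.cast_natAbs, Int.cast_abs, sq_abs]
    have hnat2 : ((κ.num.natAbs : ℕ) : ℚ) = (κ.num : ℚ) := by
      rw [Nat.cast_natAbs, abs_of_pos hkn]
    set m1 : ℚ := 4 * (l.num : ℚ) ^ 2 * (l.den : ℚ) ^ 2 * ((a.den : ℚ) * b.den) ^ 2 with hm1
    have hx : m1 * p.1 = ((2 * l.num * l.den * (l.den ^ 2 * (a.num ^ 2 * b.den ^ 2) +
        l.num ^ 2 * (a.den * b.den) ^ 2 - l.den ^ 2 * (b.num ^ 2 * a.den ^ 2)) : ℤ) : ℚ) := by
      push_cast
      have e : m1 * p.1 = 2 * (l.num : ℚ) * l.den * ((a.den : ℚ) * b.den) ^ 2 *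
          (l.den * (2 * (l.num : ℚ) * p.1)) := by
        rw [hm1]; ring
      have e2 : 2 * (l.num : ℚ) * p.1 = l.den * (a ^ 2 + l ^ 2 - b ^ 2) := by
        rw [← eq1, ← hla]; ring
      rw [e, e2, ← haa, ← hbb]
      have e3 : (l.num : ℚ) ^ 2 = (l.den : ℚ) ^ 2 * l ^ 2 := by rw [← hla]; ring
      rw [e3]
      ring
    have hy : ∃ z : ℤ, m1 * κ.num * p.2 = z := by
      refine int_of_sq (z := κ.num * κ.den * ((4 * l.num ^ 2 * l.den ^ 2 * (a.den * b.den) *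
        (a.num * b.den)) ^ 2 - (2 * l.num * l.den * (l.den ^ 2 * (a.num ^ 2 * b.den ^ 2) +
        l.num ^ 2 * (a.den * b.den) ^ 2 - l.den ^ 2 * (b.num ^ 2 * a.den ^ 2))) ^ 2)) ?_
      have e : κ * p.2 ^ 2 = a ^ 2 - p.1 ^ 2 := by rw [ha, qf]; ring
      have e1 : (m1 * κ.num * p.2) ^ 2 = κ.num * κ.den * ((m1 * a) ^ 2 - (m1 * p.1) ^ 2) := by
        calc (m1 * κ.num * p.2) ^ 2 = m1 ^ 2 * κ.num * (κ.num * p.2 ^ 2) := by ring
          _ = m1 ^ 2 * κ.num * (κ.den * (κ * p.2 ^ 2)) := by rw [← hkk]; ring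
          _ = _ := by rw [e]; ring
      have e2 : m1 * a = 4 * (l.num : ℚ) ^ 2 * (l.den : ℚ) ^ 2 * ((a.den : ℚ) * b.den) *
          (a.num * b.den) := by
        rw [hm1, ← haa]; ring
      rw [e1, hx, e2]
      push_cast
      ring
    obtain ⟨z, hz⟩ := hy
    refine ⟨κ.num * (2 * l.num * l.den * (l.den ^ 2 * (a.num ^ 2 * b.den ^ 2) +
        l.num ^ 2 * (a.den * b.den) ^ 2 - l.den ^ 2 * (b.num ^ 2 * a.den ^ 2))), z, ?_, ?_⟩
    · rw [Int.cast_mul, ← hx, hm1]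
      push_cast
      rw [hnat1, hnat2]
      ring
    · rw [← hz, hm1]
      push_cast
      rw [hnat1, hnat2]
      ring

theorem HV_le {κ : ℚ} (hκ : 0 < κ) {N : ℕ} (hN : N ≠ 0)
    (hns : ∀ p : N.primeFactors, ¬ IsSquare ((-κ : ℚ) : ℚ_[p])) (Q : ℚ × ℚ) :
    ∃ C : ℝ, 0 < C ∧ ∀ (P : ℚ × ℚ) (d : ℚ), d ^ 2 = qf κ (P - Q) →
      HV N d ≤ C * (plV hκ hN hns).hv P := by
  choose D hD0 hD using fun v => local_bound (plV hκ hN hns) v Q
  refine ⟨∏ v, (D v + 1), Finset.prod_pos fun v _ => by linarith [hD0 v], fun P d hd => ?_⟩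
  unfold HV Places.hv
  rw [← Finset.prod_mul_distrib]
  refine Finset.prod_le_prod (fun v _ => zero_le_one.trans (le_max_left _ _)) fun v _ => ?_
  have h1 := (plV hκ hN hns).one_le_nv v P
  have h2 := hD0 v
  refine max_le ?_ ?_
  · nlinarith
  · have h3 : absV N v d ≤ D v * (plV hκ hN hns).nv v P := hD v P d hd
    nlinarith

/-- finiteness for bounded denominators -/
theorem finite_bounded_den {N : ℕ} (hN : N ≠ 0) (M : ℕ) (B : ℝ) :
    {a : ℚ | ∃ m : ℕ, m ≠ 0 ∧ m ≤ M ∧ (m : ℚ) * a ∈ OV N ∧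
      ∏ v, max 1 (absV N v a) ≤ B}.Finite := by
  have hfin : (⋃ m ∈ Finset.Icc 1 M, {a : ℚ | (m : ℚ) * a ∈ OV N ∧
      ∏ v, max 1 (absV N v a) ≤ B}).Finite := by
    refine Set.Finite.biUnion (Finset.finite_toSet _) fun m hm => ?_
    have hm0 : (m : ℚ) ≠ 0 := by
      have := (Finset.mem_Icc.1 hm).1
      exact Nat.cast_ne_zero.2 (by omega)
    refine ((finite_bounded hN ((∏ v, max 1 (absV N v (m : ℚ))) * B)).preimage
      (f := fun a : ℚ => (m : ℚ) * a) ?_).subset ?_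
    · intro a _ b _ h
      exact mul_left_cancel₀ hm0 h
    · rintro a ⟨ha, hB⟩
      refine ⟨ha, ?_⟩
      calc ∏ v, max 1 (absV N v ((m : ℚ) * a)) ≤
            ∏ v, (max 1 (absV N v (m : ℚ)) * max 1 (absV N v a)) := by
              refine Finset.prod_le_prod (fun v _ => zero_le_one.trans (le_max_left _ _))
                fun v _ => ?_
              rw [map_mul]
              refine max_le (one_le_mul_of_one_le_of_one_le (le_max_left _ _) (le_max_left _ _)) ?_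
              exact mul_le_mul (le_max_right _ _) (le_max_right _ _) ((absV N v).nonneg _)
                (zero_le_one.trans (le_max_left _ _))
        _ = (∏ v, max 1 (absV N v (m : ℚ))) * ∏ v, max 1 (absV N v a) :=
              Finset.prod_mul_distrib
        _ ≤ _ := mul_le_mul_of_nonneg_left hB (Finset.prod_nonneg fun v _ =>
              zero_le_one.trans (le_max_left _ _))
  refine hfin.subset ?_
  rintro a ⟨m, hm0, hmM, ha, hB⟩
  simp only [Set.mem_iUnion]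
  exact ⟨m, Finset.mem_Icc.2 ⟨Nat.one_le_iff_ne_zero.2 hm0, hmM⟩, ha, hB⟩

/-- the abstract theorem for the places at infinity and at the primes dividing `N` -/
theorem line_of_den {κ : ℚ} (hκ : 0 < κ) {N : ℕ} (hN : N ≠ 0)
    (hns : ∀ p : N.primeFactors, ¬ IsSquare ((-κ : ℚ) : ℚ_[p])) {S : Set (ℚ × ℚ)}
    {dd : ℚ × ℚ → ℚ × ℚ → ℚ} (h0 : 0 ∈ S) (hdd : ∀ P ∈ S, ∀ Q ∈ S, dd P Q ^ 2 = qf κ (P - Q))
    {S' : Set (ℚ × ℚ)} (hS' : S' ⊆ S) (hinf : S'.Infinite) (K : ℕ) (C0 : ℝ) (hC0 : 0 ≤ C0)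
    (hK : ∀ P ∈ S', ∃ m : ℕ, m ≠ 0 ∧ (m : ℚ) * P.1 ∈ OV N ∧ (m : ℚ) * P.2 ∈ OV N ∧
      (m : ℝ) ≤ C0 * (plV hκ hN hns).hv P ^ K) :
    ∃ α β γ : ℝ, (α ≠ 0 ∨ β ≠ 0) ∧ {P ∈ S | α * P.1 + β * P.2 + γ ≠ 0}.Finite := by
  refine abstract_line hκ (plV hκ hN hns) h0 hdd hS' hinf K C0 hK fun B => ?_
  set F := {a : ℚ | ∃ m : ℕ, m ≠ 0 ∧ m ≤ ⌈C0 * B ^ K⌉₊ ∧ (m : ℚ) * a ∈ OV N ∧
      ∏ v, max 1 (absV N v a) ≤ B} with hF
  have hFfin : F.Finite := finite_bounded_den hN _ B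
  refine (hFfin.prod hFfin).subset ?_
  rintro P ⟨hP, hPB⟩
  obtain ⟨m, hm0, hm1, hm2, hm⟩ := hK P hP
  have hv1 := (plV hκ hN hns).one_le_hv P
  have hmM : m ≤ ⌈C0 * B ^ K⌉₊ := by
    have h1 : (m : ℝ) ≤ C0 * B ^ K := hm.trans (mul_le_mul_of_nonneg_left
      (pow_le_pow_left₀ (zero_le_one.trans hv1) hPB K) hC0)
    exact_mod_cast h1.trans (Nat.le_ceil _)
  have hcomp : ∀ a : ℚ, (∀ v, absV N v a ≤ (plV hκ hN hns).nv v P) →
      ∏ v, max 1 (absV N v a) ≤ B := by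
    intro a ha
    refine le_trans (Finset.prod_le_prod (fun v _ => zero_le_one.trans (le_max_left _ _))
      fun v _ => ?_) hPB
    exact max_le ((plV hκ hN hns).one_le_nv v P) (ha v)
  exact ⟨⟨m, hm0, hmM, hm1, hcomp _ fun v => (le_max_left _ _).trans (le_max_right _ _)⟩,
    ⟨m, hm0, hmM, hm2, hcomp _ fun v => (le_max_right _ _).trans (le_max_right _ _)⟩⟩

theorem int_mem_OV {N : ℕ} (z : ℤ) : (z : ℚ) ∈ OV N := intCast_mem _ z

/-- the far case -/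
theorem far_line {κ : ℚ} (hκ : 0 < κ) {N : ℕ} (hN : N ≠ 0)
    (hns : ∀ p : N.primeFactors, ¬ IsSquare ((-κ : ℚ) : ℚ_[p])) {S : Set (ℚ × ℚ)}
    {dd : ℚ × ℚ → ℚ × ℚ → ℚ} (h0 : 0 ∈ S) (hdd : ∀ P ∈ S, ∀ Q ∈ S, dd P Q ^ 2 = qf κ (P - Q))
    {l : ℚ} (hl : l ≠ 0) (hlS : (l, 0) ∈ S)
    {S' : Set (ℚ × ℚ)} (hS' : S' ⊆ S) (hinf : S'.Infinite) (K : ℕ)
    (hK : ∀ P ∈ S', (HH (dd P 0) * HH (dd P (l, 0)) : ℝ) ≤
      (HV N (dd P 0) * HV N (dd P (l, 0))) ^ K) :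
    ∃ α β γ : ℝ, (α ≠ 0 ∨ β ≠ 0) ∧ {P ∈ S | α * P.1 + β * P.2 + γ ≠ 0}.Finite := by
  obtain ⟨C, hC, hden⟩ := exists_den_coord hκ hl
  obtain ⟨C1, hC1, hHV1⟩ := HV_le hκ hN hns 0
  obtain ⟨C2, hC2, hHV2⟩ := HV_le hκ hN hns (l, 0)
  refine line_of_den hκ hN hns h0 hdd hS' hinf (4 * K) (C * (C1 * C2) ^ (2 * K)) (by positivity)
    fun P hP => ?_
  set a := dd P 0 with ha
  set b := dd P (l, 0) with hb
  have ha2 : a ^ 2 = qf κ P := by rw [ha, hdd P (hS' hP) 0 h0, sub_zero]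
  have hb2 : b ^ 2 = qf κ (P - (l, 0)) := hdd P (hS' hP) _ hlS
  obtain ⟨z1, z2, hz1, hz2⟩ := hden P a b ha2 hb2
  refine ⟨C * (a.den * b.den) ^ 2, ?_, by rw [hz1]; exact int_mem_OV z1,
    by rw [hz2]; exact int_mem_OV z2, ?_⟩
  · have := a.den_pos
    have := b.den_pos
    positivity
  · set h := (plV hκ hN hns).hv P with hh
    have hh0 : 0 ≤ h := zero_le_one.trans ((plV hκ hN hns).one_le_hv P)
    have h1 : HV N a ≤ C1 * h := hHV1 P a (by rw [sub_zero]; exact ha2)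
    have h2 : HV N b ≤ C2 * h := hHV2 P b hb2
    have h3 : (a.den * b.den : ℝ) ≤ (C1 * h * (C2 * h)) ^ K := by
      have h4 : (a.den * b.den : ℝ) ≤ HH a * HH b := by
        have e1 : (a.den : ℝ) ≤ HH a := Nat.cast_le.2 (le_max_right _ _)
        have e2 : (b.den : ℝ) ≤ HH b := Nat.cast_le.2 (le_max_right _ _)
        gcongr
      refine (h4.trans (hK P hP)).trans ?_
      have e1 := zero_le_one.trans (one_le_HV N a)
      have e2 := zero_le_one.trans (one_le_HV N b)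
      gcongr
    push_cast
    calc (C : ℝ) * ((a.den : ℝ) * b.den) ^ 2 ≤ C * ((C1 * h * (C2 * h)) ^ K) ^ 2 := by gcongr
      _ = C * (C1 * C2) ^ (2 * K) * h ^ (4 * K) := by
        ring

end Pool.Agent.Lib.MP_bc4313_co
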