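import Mathlib
import Pool.Agent.Lib.MP_bc4313_co.Cls
import Pool.Agent.Lib.MP_bc4313_co.Far

/-!
Auxiliary linear relations for the rational points in one residue class.
-/

namespace Pool.Agent.Lib.MP_bc4313_co

open Polynomial Polynomial.Bivariate

theorem dvd_prod_sub_prod {R : Type*} [CommRing R] {ι : Type*} (s : Finset ι) {a b : ι → R} {π : R}
    (h : ∀ i ∈ s, π ∣ a i - b i) : π ∣ ∏ i ∈ s, a i - ∏ i ∈ s, b i := by
  classical
  induction s using Finset.induction_on with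
  | empty => simp
  | insert i s his ih =>
    rw [Finset.prod_insert his, Finset.prod_insert his]
    have h1 := ih fun j hj => h j (Finset.mem_insert_of_mem hj)
    have h2 := h i (Finset.mem_insert_self i s)
    have : a i * ∏ j ∈ s, a j - b i * ∏ j ∈ s, b j =
        (a i - b i) * ∏ j ∈ s, a j + b i * (∏ j ∈ s, a j - ∏ j ∈ s, b j) := by ring
    rw [this]
    exact dvd_add (h2.mul_right _) (h1.mul_left _)

/-- integrality of the sum times the denominators, and its size -/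
theorem sum_size {n : ℕ} (c : Finset (Fin n) → ℤ) (D : Fin n → ℚ) {B C' : ℕ}
    (hc : ∀ I, |c I| ≤ C') (hY : ∀ i, HH (D i) ≤ B) :
    ∃ z : ℤ, (z : ℚ) = (∏ i, ((D i).den : ℚ)) * ∑ I, (c I : ℚ) * ∏ i ∈ I, D i ∧
      |z| ≤ 2 ^ n * C' * B ^ n := by
  classical
  refine ⟨∑ I, c I * ((∏ i ∈ I, (D i).num) * ∏ i ∈ Iᶜ, ((D i).den : ℤ)), ?_, ?_⟩
  · push_cast
    rw [Finset.mul_sum]
    refine Finset.sum_congr rfl fun I _ => ?_
    rw [← Finset.prod_mul_prod_compl I (fun i => ((D i).den : ℚ))]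
    have : ∏ i ∈ I, ((D i).num : ℚ) = (∏ i ∈ I, ((D i).den : ℚ)) * ∏ i ∈ I, D i := by
      rw [← Finset.prod_mul_distrib]
      refine Finset.prod_congr rfl fun i _ => ?_
      rw [mul_comm, Rat.mul_den_eq_num]
    rw [this]
    ring
  · refine (Finset.abs_sum_le_sum_abs _ _).trans ?_
    have hterm : ∀ I ∈ (Finset.univ : Finset (Finset (Fin n))),
        |c I * ((∏ i ∈ I, (D i).num) * ∏ i ∈ Iᶜ, ((D i).den : ℤ))| ≤ C' * B ^ n := by
      intro I _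
      rw [abs_mul, abs_mul, Finset.abs_prod, Finset.abs_prod]
      have h1 : ∏ i ∈ I, |(D i).num| ≤ (B : ℤ) ^ I.card := by
        rw [← Finset.prod_const]
        refine Finset.prod_le_prod (fun i _ => abs_nonneg _) fun i _ => ?_
        have := (le_max_left _ _).trans (hY i)
        rw [Int.abs_eq_natAbs]
        exact_mod_cast this
      have h2 : ∏ i ∈ Iᶜ, |((D i).den : ℤ)| ≤ (B : ℤ) ^ (Iᶜ).card := by
        rw [← Finset.prod_const]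
        refine Finset.prod_le_prod (fun i _ => abs_nonneg _) fun i _ => ?_
        have := (le_max_right _ _).trans (hY i)
        rw [Int.abs_eq_natAbs]
        exact_mod_cast this
      have h3 : I.card + (Iᶜ).card = n := by
        rw [Finset.card_add_card_compl, Fintype.card_fin]
      calc |c I| * ((∏ i ∈ I, |(D i).num|) * ∏ i ∈ Iᶜ, |((D i).den : ℤ)|)
          ≤ C' * ((B : ℤ) ^ I.card * (B : ℤ) ^ (Iᶜ).card) := by
            refine mul_le_mul (hc I) ?_ ?_ (by positivity)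
            · exact mul_le_mul h1 h2 (Finset.prod_nonneg fun i _ => abs_nonneg _) (by positivity)
            · exact mul_nonneg (Finset.prod_nonneg fun i _ => abs_nonneg _)
                (Finset.prod_nonneg fun i _ => abs_nonneg _)
        _ = C' * (B : ℤ) ^ n := by rw [← pow_add, h3]
    refine (Finset.sum_le_sum hterm).trans ?_
    rw [Finset.sum_const, Finset.card_univ, Fintype.card_finset, Fintype.card_fin, nsmul_eq_mul]
    push_cast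
    linarith

/-- the `p`-adic integer attached to a rational number -/
noncomputable def toI (p : ℕ) [Fact p.Prime] (x : ℚ) : ℤ_[p] :=
  Classical.epsilon fun z : ℤ_[p] => (z : ℚ_[p]) = x

theorem toI_coe {p : ℕ} [Fact p.Prime] {x : ℚ} (h : ‖(x : ℚ_[p])‖ ≤ 1) :
    ((toI p x : ℤ_[p]) : ℚ_[p]) = x :=
  Classical.epsilon_spec (p := fun z : ℤ_[p] => (z : ℚ_[p]) = x) ⟨⟨(x : ℚ_[p]), h⟩, rfl⟩

theorem norm_toI {p : ℕ} [Fact p.Prime] {x : ℚ} (h : ‖(x : ℚ_[p])‖ ≤ 1) :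
    ‖toI p x‖ = ‖(x : ℚ_[p])‖ := by
  rw [PadicInt.norm_def, toI_coe h]

theorem dvd_toI {p : ℕ} [Fact p.Prime] {x : ℚ} (h : ‖(x : ℚ_[p])‖ < 1) :
    (p : ℤ_[p]) ∣ toI p x := by
  rw [← PadicInt.norm_lt_one_iff_dvd, norm_toI h.le]
  exact h

/-- The auxiliary relation. -/
theorem aux_class {p : ℕ} [hp : Fact p.Prime] (hp2 : p ≠ 2) {κ : ℚ} (hκ : ‖(κ : ℚ_[p])‖ ≤ 1)
    (m B : ℕ) (hB : (2 * B) ^ (2 * m + 3) < p ^ (2 ^ m)) (q : Fin (2 * m + 3) → ℚ × ℚ)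
    (hq : ∀ i, ‖((q i).1 : ℚ_[p])‖ ≤ 1 ∧ ‖((q i).2 : ℚ_[p])‖ ≤ 1)
    (Z : Set (ℚ × ℚ)) (D : ℚ × ℚ → Fin (2 * m + 3) → ℚ)
    (hZ : ∀ P ∈ Z, ‖(P.1 : ℚ_[p])‖ ≤ 1 ∧ ‖(P.2 : ℚ_[p])‖ ≤ 1)
    (hD : ∀ P ∈ Z, ∀ i, D P i ^ 2 = qf κ (P - q i))
    (hDu : ∀ P ∈ Z, ∀ i, ‖(D P i : ℚ_[p])‖ = 1)
    (hDB : ∀ P ∈ Z, ∀ i, HH (D P i) ≤ B)
    (hcong : ∀ P ∈ Z, ∀ P' ∈ Z, ‖((P.1 - P'.1 : ℚ) : ℚ_[p])‖ < 1 ∧
      ‖((P.2 - P'.2 : ℚ) : ℚ_[p])‖ < 1 ∧ ∀ i, ‖((D P i - D P' i : ℚ) : ℚ_[p])‖ < 1) :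
    ∃ c : Finset (Fin (2 * m + 3)) → ℤ, c ≠ 0 ∧
      ∀ P ∈ Z, ∑ I, (c I : ℚ) * ∏ i ∈ I, D P i = 0 := by
  rcases Z.eq_empty_or_nonempty with rfl | ⟨P0, hP0⟩
  · refine ⟨fun _ => 1, ?_, fun P hP => absurd hP (Set.notMem_empty P)⟩
    intro h
    exact one_ne_zero (congrFun h ∅)
  -- the number `1 / 2`
  have h2u : IsUnit (2 : ℤ_[p]) := by
    rw [PadicInt.isUnit_iff]
    have h1 : ¬ ‖((2 : ℤ) : ℤ_[p])‖ < 1 := by
      rw [PadicInt.norm_int_lt_one_iff_dvd]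
      intro h
      have h3 : p ∣ 2 := by exact_mod_cast h
      exact hp2 ((Nat.prime_dvd_prime_iff_eq hp.out Nat.prime_two).1 h3)
    have h2 := PadicInt.norm_le_one (2 : ℤ_[p])
    push_cast at h1
    linarith
  obtain ⟨u, hu⟩ := h2u.exists_right_inv
  have hπ : ¬ IsUnit (p : ℤ_[p]) := by
    rw [PadicInt.not_isUnit_iff, PadicInt.norm_p]
    exact inv_lt_one_of_one_lt₀ (by exact_mod_cast hp.out.one_lt)
  obtain ⟨k, hk⟩ : ∃ k : ℕ, k = 2 ^ (m + 1) := ⟨_, rfl⟩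
  have hDn : ∀ P ∈ Z, ∀ i, ‖((D P i : ℚ) : ℚ_[p])‖ ≤ 1 := fun P hP i => (hDu P hP i).le
  have happ : ∀ i, ∃ Φ : ℤ_[p][X][Y], ∀ (d : ℤ_[p]) (y : ℤ_[p] × ℤ_[p]), (p : ℤ_[p]) ∣ y.1 →
      (p : ℤ_[p]) ∣ y.2 → (p : ℤ_[p]) ∣ d - toI p (D P0 i) →
      d ^ 2 = ((toI p P0.1 - toI p (q i).1 : ℤ_[p]) + y.1) ^ 2 +
        toI p κ * ((toI p P0.2 - toI p (q i).2 : ℤ_[p]) + y.2) ^ 2 →
      (p : ℤ_[p]) ^ (k + 1) ∣ d - Φ.evalEval y.1 y.2 := by
    intro i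
    refine exists_approx hu hπ k (toI p κ) (toI p (D P0 i)) ?_
      ((toI p P0.1 - toI p (q i).1 : ℤ_[p]), (toI p P0.2 - toI p (q i).2 : ℤ_[p])) ?_
    · rw [PadicInt.isUnit_iff, norm_toI (hDn P0 hP0 i)]
      exact hDu P0 hP0 i
    · apply PadicInt.ext
      have := congrArg (fun x : ℚ => (x : ℚ_[p])) (hD P0 hP0 i)
      simp only [qf, Prod.fst_sub, Prod.snd_sub] at this
      push_cast at this ⊢
      rw [toI_coe (hDn P0 hP0 i), toI_coe (hZ P0 hP0).1, toI_coe (hq i).1, toI_coe hκ,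
        toI_coe (hZ P0 hP0).2, toI_coe (hq i).2]
      exact this
  choose Φ hΦ using happ
  -- the pigeonhole principle
  obtain ⟨c, hc0, hcC, hc⟩ := pigeon p k (p ^ (2 ^ m)) (fun I : Finset (Fin (2 * m + 3)) =>
    ∏ i ∈ I, Φ i) (by
      rw [Fintype.card_finset, Fintype.card_fin]
      have h1 : p ^ (k * k * k) = (p ^ (2 ^ m)) ^ (2 ^ (2 * m + 3)) := by
        rw [← pow_mul, hk, ← pow_add, ← pow_add, ← pow_add]
        congr 2
        ring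
      rw [h1]
      exact Nat.pow_lt_pow_left (Nat.lt_succ_self _) (by positivity))
  refine ⟨c, hc0, fun P hP => ?_⟩
  obtain ⟨hc1, hc2, hc3⟩ := hcong P hP P0 hP0
  obtain ⟨y, hy⟩ : ∃ y : ℤ_[p] × ℤ_[p], y = (toI p (P.1 - P0.1), toI p (P.2 - P0.2)) := ⟨_, rfl⟩
  have hy1 : (p : ℤ_[p]) ∣ y.1 := by rw [hy]; exact dvd_toI hc1
  have hy2 : (p : ℤ_[p]) ∣ y.2 := by rw [hy]; exact dvd_toI hc2
  have hdi : ∀ i, (p : ℤ_[p]) ^ k ∣ toI p (D P i) - (Φ i).evalEval y.1 y.2 := by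
    intro i
    refine (pow_dvd_pow _ (Nat.le_succ k)).trans (hΦ i (toI p (D P i)) y hy1 hy2 ?_ ?_)
    · have h3 : toI p (D P i) - toI p (D P0 i) = toI p (D P i - D P0 i) := by
        apply PadicInt.ext
        rw [toI_coe (hc3 i).le]
        push_cast
        rw [toI_coe (hDn P hP i), toI_coe (hDn P0 hP0 i)]
      rw [h3]
      exact dvd_toI (hc3 i)
    · apply PadicInt.ext
      have := congrArg (fun x : ℚ => (x : ℚ_[p])) (hD P hP i)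
      simp only [qf, Prod.fst_sub, Prod.snd_sub] at this
      have e1 : ((y.1 : ℤ_[p]) : ℚ_[p]) = ((P.1 - P0.1 : ℚ) : ℚ_[p]) := by rw [hy]; exact toI_coe hc1.le
      have e2 : ((y.2 : ℤ_[p]) : ℚ_[p]) = ((P.2 - P0.2 : ℚ) : ℚ_[p]) := by rw [hy]; exact toI_coe hc2.le
      push_cast at this e1 e2 ⊢
      rw [toI_coe (hDn P hP i), toI_coe (hZ P0 hP0).1, toI_coe (hq i).1, toI_coe hκ,
        toI_coe (hZ P0 hP0).2, toI_coe (hq i).2, e1, e2]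
      linear_combination this
  have hS : (p : ℤ_[p]) ^ k ∣ ∑ I, (c I : ℤ_[p]) * ∏ i ∈ I, toI p (D P i) := by
    have h1 := hc y hy1 hy2
    have h2 : (p : ℤ_[p]) ^ k ∣ ∑ I, (c I : ℤ_[p]) * ∏ i ∈ I, toI p (D P i) -
        ∑ I, (c I : ℤ_[p]) * (∏ i ∈ I, Φ i).evalEval y.1 y.2 := by
      rw [← Finset.sum_sub_distrib]
      refine Finset.dvd_sum fun I _ => ?_
      rw [← mul_sub, evalEval_prod]
      exact (dvd_prod_sub_prod I fun i _ => hdi i).mul_left _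
    have h3 := dvd_add h2 h1
    rwa [sub_add_cancel] at h3
  -- the size
  obtain ⟨z, hz, hzs⟩ := sum_size c (D P) (fun I => by exact_mod_cast hcC I) (hDB P hP)
  have hden : (∏ i, ((D P i).den : ℚ)) ≠ 0 :=
    Finset.prod_ne_zero_iff.2 fun i _ => Nat.cast_ne_zero.2 (D P i).den_pos.ne'
  suffices hz0 : z = 0 by
    rw [hz0, Int.cast_zero] at hz
    exact (mul_eq_zero.1 hz.symm).resolve_left hden
  by_contra hz0
  have hzp : ((p : ℤ) ^ k) ∣ z := by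
    rw [← PadicInt.pow_p_dvd_int_iff]
    have : (z : ℤ_[p]) = (∏ i, (((D P i).den : ℕ) : ℤ_[p])) *
        ∑ I, (c I : ℤ_[p]) * ∏ i ∈ I, toI p (D P i) := by
      apply PadicInt.ext
      have := congrArg (fun x : ℚ => (x : ℚ_[p])) hz
      push_cast at this ⊢
      have e : ∀ i, ((toI p (D P i) : ℤ_[p]) : ℚ_[p]) = D P i := fun i => toI_coe (hDn P hP i)
      have e' : ∀ (I : Finset (Fin (2 * m + 3))) (f : Fin (2 * m + 3) → ℤ_[p]),
          ((∏ i ∈ I, f i : ℤ_[p]) : ℚ_[p]) = ∏ i ∈ I, (f i : ℚ_[p]) := fun I f =>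
        map_prod (PadicInt.Coe.ringHom (p := p)) f I
      simp only [e', PadicInt.coe_sum, PadicInt.coe_mul, PadicInt.coe_intCast, e,
        PadicInt.coe_natCast]
      exact this
    rw [this]
    exact hS.mul_left _
  have h5 : (p : ℤ) ^ k ≤ |z| := Int.le_of_dvd (abs_pos.2 hz0) ((dvd_abs _ _).2 hzp)
  have h6 : (p : ℤ) ^ k ≤ 2 ^ (2 * m + 3) * (p ^ (2 ^ m) : ℕ) * B ^ (2 * m + 3) := h5.trans hzs
  have h7 : p ^ k ≤ 2 ^ (2 * m + 3) * (p ^ (2 ^ m)) * B ^ (2 * m + 3) := by exact_mod_cast h6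
  have h8 : p ^ k = p ^ (2 ^ m) * p ^ (2 ^ m) := by
    rw [← pow_add, hk]
    congr 1
    ring
  have h9 : 2 ^ (2 * m + 3) * (p ^ (2 ^ m)) * B ^ (2 * m + 3) =
      p ^ (2 ^ m) * (2 * B) ^ (2 * m + 3) := by
    rw [mul_pow]
    ring
  rw [h8, h9] at h7
  exact absurd (Nat.le_of_mul_le_mul_left h7 (pow_pos hp.out.pos _)) (not_le.2 hB)

end Pool.Agent.Lib.MP_bc4313_co
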