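import Mathlib
import Pool.Agent.Lib.MP_bc4313_co.Alg

/-!
Quantitative versions of the lemmas on common zeros of bivariate polynomials.
-/

namespace Pool.Agent.Lib.MP_bc4313_co

open Polynomial Polynomial.Bivariate

/-- both partial degrees are at most `D` -/
def Bd (G : ℂ[X][Y]) (D : ℕ) : Prop := G.natDegree ≤ D ∧ ∀ i, (G.coeff i).natDegree ≤ D

theorem Bd.swap {G : ℂ[X][Y]} {D : ℕ} (h : Bd G D) : Bd (Bivariate.swap G) D := by
  constructor
  · rw [natDegree_le_iff_coeff_eq_zero]
    intro i hi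
    ext j
    rw [coeff_swap, coeff_zero]
    exact coeff_eq_zero_of_natDegree_lt (lt_of_le_of_lt (h.2 j) hi)
  · intro i
    rw [natDegree_le_iff_coeff_eq_zero]
    intro j hj
    rw [coeff_swap, coeff_eq_zero_of_natDegree_lt (lt_of_le_of_lt h.1 hj), coeff_zero]

theorem Bd.mono {G : ℂ[X][Y]} {D D' : ℕ} (h : Bd G D) (hD : D ≤ D') : Bd G D' :=
  ⟨h.1.trans hD, fun i => (h.2 i).trans hD⟩

theorem Bd.natDegree_of_dvd {G H : ℂ[X][Y]} {D : ℕ} (h : Bd H D) (hH : H ≠ 0) (hd : G ∣ H) :
    G.natDegree ≤ D := (natDegree_le_of_dvd hd hH).trans h.1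

/-- a factor has smaller degrees -/
theorem Bd.of_dvd {G H : ℂ[X][Y]} {D : ℕ} (h : Bd H D) (hH : H ≠ 0) (hd : G ∣ H) : Bd G D := by
  have hH' : Bivariate.swap H ≠ 0 := by
    intro h0
    apply hH
    have := congrArg Bivariate.swap h0
    rwa [Bivariate.swap_swap_apply, map_zero] at this
  have hd' : Bivariate.swap G ∣ Bivariate.swap H := by
    obtain ⟨u, rfl⟩ := hd
    exact ⟨Bivariate.swap u, map_mul _ _ _⟩
  have h2 : (Bivariate.swap G).natDegree ≤ D := h.swap.natDegree_of_dvd hH' hd'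
  refine ⟨h.natDegree_of_dvd hH hd, fun i => ?_⟩
  rw [natDegree_le_iff_coeff_eq_zero]
  intro j hj
  rw [← coeff_swap, coeff_eq_zero_of_natDegree_lt (lt_of_le_of_lt h2 hj), coeff_zero]

theorem natDegree_det_le {R : Type*} [CommRing R] {ι : Type*} [Fintype ι] [DecidableEq ι]
    (M : Matrix ι ι R[X]) {d : ℕ} (h : ∀ i j, (M i j).natDegree ≤ d) :
    M.det.natDegree ≤ Fintype.card ι * d := by
  rw [Matrix.det_apply]
  refine natDegree_sum_le_of_forall_le _ _ fun σ _ => ?_
  refine (natDegree_smul_le _ _).trans ?_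
  refine (natDegree_prod_le _ _).trans ?_
  calc ∑ i, (M (σ i) i).natDegree ≤ ∑ _i : ι, d := Finset.sum_le_sum fun i _ => h _ _
    _ = _ := by rw [Finset.sum_const, Finset.card_univ, smul_eq_mul]

/-- Bezout identity with a bound for the degree -/
theorem bezoutQ {G F : ℂ[X][Y]} (hG : Irreducible G) (hd : G.natDegree ≠ 0) (hF : ¬ G ∣ F)
    {D : ℕ} (hGD : Bd G D) (hFD : Bd F D) :
    ∃ a b : ℂ[X][Y], ∃ c : ℂ[X], c ≠ 0 ∧ a * G + b * F = C c ∧ c.natDegree ≤ 2 * D * D := by
  classical
  have hp : G.IsPrimitive := hG.isPrimitive hd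
  have hG' : Irreducible (G.map (algebraMap ℂ[X] (RatFunc ℂ))) :=
    (hp.irreducible_iff_irreducible_map_fraction_map (K := RatFunc ℂ)).1 hG
  have hF' : ¬ G.map (algebraMap ℂ[X] (RatFunc ℂ)) ∣ F.map (algebraMap ℂ[X] (RatFunc ℂ)) :=
    fun h => hF (hp.dvd_of_fraction_map_dvd_fraction_map h)
  have hcop := (hG'.coprime_iff_not_dvd).2 hF'
  have hinj : Function.Injective (algebraMap ℂ[X] (RatFunc ℂ)) := IsFractionRing.injective _ _
  obtain ⟨p, q, -, -, hpq⟩ := exists_mul_add_mul_eq_C_resultant (m := G.natDegree)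
    (n := F.natDegree) G F le_rfl le_rfl (Or.inl hd)
  refine ⟨p, q, resultant G F, ?_, by rw [← hpq]; ring, ?_⟩
  · intro h0
    have h1 := resultant_map_map G F G.natDegree F.natDegree (algebraMap ℂ[X] (RatFunc ℂ))
    rw [h0, map_zero] at h1
    have h2 : resultant (G.map (algebraMap ℂ[X] (RatFunc ℂ))) (F.map (algebraMap ℂ[X] (RatFunc ℂ))) = 0 := by
      rw [natDegree_map_eq_of_injective hinj, natDegree_map_eq_of_injective hinj]
      exact h1
    exact (resultant_eq_zero_iff.1 h2).2 hcop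
  · have h1 : ∀ i j, (sylvester G F G.natDegree F.natDegree i j).natDegree ≤ D := by
      intro i j
      rw [sylvester, Matrix.of_apply]
      refine j.addCases (fun j₁ => ?_) (fun j₁ => ?_)
      · rw [Fin.addCases_left]
        split_ifs
        · exact hFD.2 _
        · simp
      · rw [Fin.addCases_right]
        split_ifs
        · exact hGD.2 _
        · simp
    refine (natDegree_det_le _ h1).trans ?_
    rw [Fintype.card_fin]
    have := add_le_add hGD.1 hFD.1
    calc (G.natDegree + F.natDegree) * D ≤ (D + D) * D := Nat.mul_le_mul_right _ this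
      _ = _ := by ring

theorem card_roots_le (c : ℂ[X]) (hc : c ≠ 0) (Z : Finset ℂ) (h : ∀ z ∈ Z, c.eval z = 0) :
    Z.card ≤ c.natDegree := by
  classical
  refine le_trans (Finset.card_le_card (t := c.roots.toFinset) fun z hz => ?_) ?_
  · rw [Multiset.mem_toFinset, mem_roots hc]
    exact h z hz
  · exact (Multiset.toFinset_card_le _).trans (card_roots' c)

/-- number of common zeros -/
theorem card_common {G F : ℂ[X][Y]} (hG : Irreducible G) (hF : ¬ G ∣ F) {D : ℕ} (hGD : Bd G D)
    (hFD : Bd F D) (Z : Finset (ℂ × ℂ)) (hinj : Set.InjOn Prod.fst (Z : Set (ℂ × ℂ)))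
    (h1 : ∀ y ∈ Z, G.evalEval y.1 y.2 = 0) (h2 : ∀ y ∈ Z, F.evalEval y.1 y.2 = 0) :
    Z.card ≤ 2 * D * D + D := by
  classical
  rw [← Finset.card_image_of_injOn hinj]
  by_cases hd : G.natDegree = 0
  · obtain ⟨g, rfl⟩ := natDegree_eq_zero.1 hd
    have hg : g ≠ 0 := by
      rintro rfl
      exact hG.ne_zero (by simp)
    refine (card_roots_le g hg _ fun z hz => ?_).trans ?_
    · obtain ⟨y, hy, rfl⟩ := Finset.mem_image.1 hz
      have := h1 y hy
      rwa [evalEval_C] at this
    · have := hGD.2 0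
      rw [coeff_C_zero] at this
      omega
  · obtain ⟨a, b, c, hc, habc, hcd⟩ := bezoutQ hG hd hF hGD hFD
    refine (card_roots_le c hc _ fun z hz => ?_).trans (hcd.trans (Nat.le_add_right _ _))
    obtain ⟨y, hy, rfl⟩ := Finset.mem_image.1 hz
    have := congrArg (evalEval y.1 y.2) habc
    rw [evalEval_add, evalEval_mul, evalEval_mul, h1 y hy, h2 y hy, evalEval_C] at this
    simpa using this.symm

/-- the number of points where `G(z, ·)` is not separable of full degree -/
theorem bad_card {G : ℂ[X][Y]} (hG : Irreducible G) (hd : G.natDegree ≠ 0) {D : ℕ}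
    (hGD : Bd G D) :
    ∃ s : Finset ℂ, s.card ≤ 2 * D * D + D ∧ ∀ z ∉ s, IsCoprime (G.map (evalRingHom z))
      (derivative (G.map (evalRingHom z))) ∧ (G.map (evalRingHom z)).natDegree = G.natDegree := by
  classical
  have hdd : derivative G ≠ 0 := by
    intro h
    exact hd (derivative_eq_zero.1 h)
  have hn : ¬ G ∣ derivative G := by
    intro h
    have := natDegree_le_of_dvd h hdd
    exact absurd (natDegree_derivative_lt hd) (not_lt.2 this)
  have hdD : Bd (derivative G) D := by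
    refine ⟨(natDegree_derivative_le G).trans ((Nat.sub_le _ _).trans hGD.1), fun i => ?_⟩
    rw [coeff_derivative]
    refine (natDegree_mul_le).trans ?_
    have : ((i : ℂ[X]) + 1).natDegree = 0 := by
      rw [← Nat.cast_succ]
      exact natDegree_natCast _
    rw [this, add_zero]
    exact hGD.2 _
  obtain ⟨a, b, c, hc, habc, hcd⟩ := bezoutQ hG hd hn hGD hdD
  refine ⟨c.roots.toFinset ∪ G.leadingCoeff.roots.toFinset, ?_, fun z hz => ?_⟩
  · refine (Finset.card_union_le _ _).trans (add_le_add ?_ ?_)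
    · exact (Multiset.toFinset_card_le _).trans ((card_roots' c).trans hcd)
    · exact (Multiset.toFinset_card_le _).trans ((card_roots' _).trans (hGD.2 _))
  rw [Finset.notMem_union, Multiset.mem_toFinset, Multiset.mem_toFinset, mem_roots hc,
    mem_roots (leadingCoeff_ne_zero.2 hG.ne_zero)] at hz
  have hz1 : c.eval z ≠ 0 := hz.1
  have hz2 : G.leadingCoeff.eval z ≠ 0 := hz.2
  refine ⟨?_, natDegree_map_of_leadingCoeff_ne_zero _ (by simpa using hz2)⟩
  rw [derivative_map]
  refine ⟨C (c.eval z)⁻¹ * a.map (evalRingHom z), C (c.eval z)⁻¹ * b.map (evalRingHom z), ?_⟩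
  have := congrArg (Polynomial.map (evalRingHom z)) habc
  simp only [Polynomial.map_add, Polynomial.map_mul, map_C, coe_evalRingHom] at this
  rw [mul_assoc, mul_assoc, ← mul_add, this, ← C_mul, inv_mul_cancel₀ hz1, C_1]

end Pool.Agent.Lib.MP_bc4313_co
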