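import Mathlib
import Pool.Agent.Lib.MP_bc4313_co.Conc

/-!
Signs of the distances from the points of a line to points off the line, for distances in
`ℤ[1/N]`: the sets of signs form an antichain.
-/

namespace Pool.Agent.Lib.MP_bc4313_co

open Finset Filter

variable {N : ℕ}

/-- the places at which the ultrafilter is unbounded -/
noncomputable def unb (N : ℕ) (U : Ultrafilter ℚ) : Finset (Option N.primeFactors) := by
  classical
  exact univ.filter fun v => ∀ B : ℝ, ∀ᶠ t in (U : Filter ℚ), B < absV N v t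

theorem mem_unb {U : Ultrafilter ℚ} {v : Option N.primeFactors} :
    v ∈ unb N U ↔ ∀ B : ℝ, ∀ᶠ t in (U : Filter ℚ), B < absV N v t := by
  simp [unb]

theorem notMem_unb {U : Ultrafilter ℚ} {v : Option N.primeFactors} (h : v ∉ unb N U) :
    ∃ B : ℝ, ∀ᶠ t in (U : Filter ℚ), absV N v t ≤ B := by
  rw [mem_unb] at h
  push Not at h
  exact h

/-- the product of the absolute values of `t` over a set of places -/
noncomputable def XX (s : Finset (Option N.primeFactors)) (t : ℚ) : ℝ := ∏ v ∈ s, absV N v t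

theorem XX_nonneg (s : Finset (Option N.primeFactors)) (t : ℚ) : 0 ≤ XX s t :=
  prod_nonneg fun v _ => (absV N v).nonneg t

/-- the estimate from the product formula -/
theorem XX_le (hN : N ≠ 0) (U : Ultrafilter ℚ) {A B : Finset (Option N.primeFactors)}
    (g : ℚ → ℚ) {m : ℕ} (hm : m ≠ 0)
    (hO : ∀ᶠ t in (U : Filter ℚ), (m : ℚ) * g t ∈ OV N ∧ g t ≠ 0)
    (hb : ∀ v, ∃ C : ℝ, ∀ᶠ t in (U : Filter ℚ),
      absV N v (g t) * (if v ∈ A then absV N v t else 1) ≤ C * (if v ∈ B then absV N v t else 1)) :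
    ∃ C : ℝ, ∀ᶠ t in (U : Filter ℚ), XX A t ≤ C * XX B t := by
  classical
  choose C hC using hb
  refine ⟨(∏ v, absV N v (m : ℚ)) * ∏ v, C v, ?_⟩
  filter_upwards [hO, eventually_all.2 hC] with t ht hCt
  have h1 := prod_ge_OV hN ht.1 (mul_ne_zero (Nat.cast_ne_zero.2 hm) ht.2)
  simp only [map_mul, Finset.prod_mul_distrib] at h1
  have hM : 0 ≤ ∏ v, absV N v (m : ℚ) := prod_nonneg fun v _ => (absV N v).nonneg _
  have hA : ∏ v, (if v ∈ A then absV N v t else 1) = XX A t := by
    rw [Finset.prod_ite_mem, Finset.univ_inter]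
    rfl
  have hB : ∏ v, (if v ∈ B then absV N v t else 1) = XX B t := by
    rw [Finset.prod_ite_mem, Finset.univ_inter]
    rfl
  have h2 : (∏ v, absV N v (g t)) * XX A t ≤ (∏ v, C v) * XX B t := by
    rw [← hA, ← hB, ← Finset.prod_mul_distrib, ← Finset.prod_mul_distrib]
    refine prod_le_prod (fun v _ => mul_nonneg ((absV N v).nonneg _) ?_) fun v _ => hCt v
    split_ifs
    · exact (absV N v).nonneg _
    · exact zero_le_one
  have h3 : XX A t ≤ ((∏ v, absV N v (m : ℚ)) * ∏ v, absV N v (g t)) * XX A t :=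
    le_mul_of_one_le_left (XX_nonneg A t) h1
  calc XX A t ≤ ((∏ v, absV N v (m : ℚ)) * ∏ v, absV N v (g t)) * XX A t := h3
    _ = (∏ v, absV N v (m : ℚ)) * ((∏ v, absV N v (g t)) * XX A t) := by ring
    _ ≤ (∏ v, absV N v (m : ℚ)) * ((∏ v, C v) * XX B t) := mul_le_mul_of_nonneg_left h2 hM
    _ = _ := by ring

/-- `A` and its complement have the same weight -/
def Bal (U : Ultrafilter ℚ) (A : Finset (Option N.primeFactors)) : Prop :=
  A ⊆ unb N U ∧ ∃ C : ℝ, 0 < C ∧ ∀ᶠ t in (U : Filter ℚ),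
    XX A t ≤ C * XX (unb N U \ A) t ∧ XX (unb N U \ A) t ≤ C * XX A t

theorem Bal.compl {U : Ultrafilter ℚ} {A : Finset (Option N.primeFactors)} (h : Bal U A) :
    Bal U (unb N U \ A) := by
  obtain ⟨hA, C, hC, hb⟩ := h
  refine ⟨sdiff_subset, C, hC, ?_⟩
  rw [Finset.sdiff_sdiff_eq_self hA]
  filter_upwards [hb] with t ht
  exact ⟨ht.2, ht.1⟩

/-- balanced sets form an antichain -/
theorem Bal.antichain {U : Ultrafilter ℚ} {A B : Finset (Option N.primeFactors)} (hA : Bal U A)
    (hB : Bal U B) (hAB : A ⊆ B) : A = B := by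
  classical
  by_contra hne
  obtain ⟨v, hvB, hvA⟩ := exists_of_ssubset (hAB.ssubset_of_ne hne)
  obtain ⟨hA1, C, hC, hCb⟩ := hA
  obtain ⟨hB1, D, hD, hDb⟩ := hB
  have h1 : ∀ w ∈ unb N U, ∀ᶠ t in (U : Filter ℚ), 1 < absV N w t := fun w hw => mem_unb.1 hw 1
  have h2 := (Filter.eventually_all_finset (unb N U)).2 h1
  have h3 := mem_unb.1 (hB1 hvB) (C * D)
  have h4 := mem_unb.1 (hB1 hvB) 1
  obtain ⟨t, ht, htC, htD, ht3, ht4⟩ := (h2.and (hCb.and (hDb.and (h3.and h4)))).exists
  have hpos : ∀ s ⊆ unb N U, 0 < XX s t := fun s hs =>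
    prod_pos fun w hw => zero_lt_one.trans (ht w (hs hw))
  have hge : ∀ s ⊆ unb N U, 1 ≤ XX s t := by
    intro s hs
    unfold XX
    calc (1 : ℝ) = ∏ _v ∈ s, 1 := by simp
      _ ≤ _ := prod_le_prod (fun _ _ => zero_le_one) fun w hw => (ht w (hs hw)).le
  have e1 : XX B t = XX A t * XX (B \ A) t := by
    unfold XX
    rw [← prod_sdiff hAB, mul_comm]
  have e2 : XX (unb N U \ A) t = XX (unb N U \ B) t * XX (B \ A) t := by
    unfold XX
    have hd : unb N U \ A = (unb N U \ B) ∪ (B \ A) := by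
      ext w
      simp only [Finset.mem_sdiff, mem_union]
      constructor
      · rintro ⟨hw, hwA⟩
        by_cases hwB : w ∈ B
        · exact Or.inr ⟨hwB, hwA⟩
        · exact Or.inl ⟨hw, hwB⟩
      · rintro (⟨hw, hwB⟩ | ⟨hwB, hwA⟩)
        · exact ⟨hw, fun h => hwB (hAB h)⟩
        · exact ⟨hB1 hwB, hwA⟩
    rw [hd, prod_union]
    rw [disjoint_left]
    intro w hw hw'
    exact (Finset.mem_sdiff.1 hw).2 (Finset.mem_sdiff.1 hw').1
  have e3 : XX (B \ A) t = absV N v t * XX ((B \ A).erase v) t := by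
    unfold XX
    rw [mul_prod_erase _ (fun w => absV N w t) (Finset.mem_sdiff.2 ⟨hvB, hvA⟩)]
  have hsub : B \ A ⊆ unb N U := sdiff_subset.trans hB1
  have h5 : absV N v t ≤ XX (B \ A) t := by
    rw [e3]
    exact le_mul_of_one_le_right ((absV N v).nonneg _)
      (hge _ ((erase_subset _ _).trans hsub))
  have hx := hpos A hA1
  have hy := hpos (unb N U \ B) sdiff_subset
  have hz := hpos (B \ A) hsub
  have hz1 := hge (B \ A) hsub
  have i1 := htD.1
  have i2 := htC.2
  rw [e1] at i1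
  rw [e2] at i2
  set x := XX A t
  set y := XX (unb N U \ B) t
  set z := XX (B \ A) t
  -- `x z ≤ D y` and `y z ≤ C x`
  have i3 : x * (z * z) ≤ x * (C * D) := by
    calc x * (z * z) = (x * z) * z := by ring
      _ ≤ (D * y) * z := mul_le_mul_of_nonneg_right i1 hz.le
      _ = D * (y * z) := by ring
      _ ≤ D * (C * x) := mul_le_mul_of_nonneg_left i2 hD.le
      _ = x * (C * D) := by ring
  have i4 : z * z ≤ C * D := le_of_mul_le_mul_left i3 hx
  have i5 : z ≤ z * z := le_mul_of_one_le_left hz.le hz1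
  linarith

/-- the number of balanced sets -/
theorem card_bal {U : Ultrafilter ℚ} (hne : (unb N U).Nonempty)
    (G : Finset (Finset (Option N.primeFactors))) (hG : ∀ A ∈ G, Bal U A) :
    G.card ≤ 2 * ((N.primeFactors.card + 1).choose ((N.primeFactors.card + 1) / 2) / 2) := by
  classical
  set G' : Finset (Finset (Option N.primeFactors)) := univ.filter (fun A => Bal U A) with hG'
  have hmem : ∀ A, A ∈ G' ↔ Bal U A := fun A => by simp [hG']
  have hsub : G ⊆ G' := fun A hA => (hmem A).2 (hG A hA)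
  have hanti : IsAntichain (· ⊆ ·) (G' : Set (Finset (Option N.primeFactors))) := by
    intro A hA B hB hne' hAB
    exact hne' (Bal.antichain ((hmem A).1 hA) ((hmem B).1 hB) hAB)
  have hsp := hanti.sperner
  have hcard : Fintype.card (Option N.primeFactors) = N.primeFactors.card + 1 := by
    rw [Fintype.card_option, Fintype.card_coe]
  rw [hcard] at hsp
  have heven : Even G'.card := by
    have h0 : ∑ A ∈ G', (1 : ZMod 2) = 0 := by
      refine Finset.sum_involution (fun A _ => unb N U \ A) ?_ ?_ ?_ ?_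
      · intro A _
        decide
      · intro A hA _ heq
        have hAs := ((hmem A).1 hA).1
        obtain ⟨v, hv⟩ := hne
        by_cases hvA : v ∈ A
        · rw [← heq] at hvA
          have h1 := (Finset.mem_sdiff.1 hvA).2
          rw [← heq] at h1
          exact h1 (Finset.mem_sdiff.2 ⟨hv, (Finset.mem_sdiff.1 hvA).2⟩)
        · exact hvA (by rw [← heq]; exact Finset.mem_sdiff.2 ⟨hv, hvA⟩)
      · intro A hA
        exact (hmem _).2 ((hmem A).1 hA).compl
      · intro A hA
        exact Finset.sdiff_sdiff_eq_self ((hmem A).1 hA).1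
    rw [sum_const, nsmul_eq_mul, mul_one] at h0
    exact (ZMod.natCast_eq_zero_iff_even).1 h0
  have hle := card_le_card hsub
  obtain ⟨r, hr⟩ := heven
  omega

end Pool.Agent.Lib.MP_bc4313_co
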