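import Pool.Agent.Lib.MP_bc4313_co.Final

/-!
Rational distance sets that are not extremely sparse; effective density.
-/

namespace Pool.Agent.Lib.MP_bc4313_co.Dense

open Pool.Agent.Lib.MP_bc4313_co

/-- three distinct points of a circle are not on a line -/
theorem circle_line {c : Plane} {r a b e : ℝ} {P Q R : Plane} (hab : a ≠ 0 ∨ b ≠ 0)
    (hPQ : P ≠ Q) (hPR : P ≠ R) (hQR : Q ≠ R) (hP : dist P c = r) (hQ : dist Q c = r)
    (hR : dist R c = r) (lP : a * P 0 + b * P 1 + e = 0) (lQ : a * Q 0 + b * Q 1 + e = 0)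
    (lR : a * R 0 + b * R 1 + e = 0) : False := by
  have ext2 : ∀ X Y : Plane, X 0 = Y 0 → X 1 = Y 1 → X = Y := by
    intro X Y h0 h1
    ext i
    fin_cases i
    · exact h0
    · exact h1
  have hn : 0 < a ^ 2 + b ^ 2 := by
    rcases hab with h | h
    · have := sq_nonneg b; positivity
    · have := sq_nonneg a; positivity
  -- parameters along the line
  have par : ∀ X : Plane, a * X 0 + b * X 1 + e = 0 → ∃ s : ℝ, X 0 = P 0 - s * b ∧
      X 1 = P 1 + s * a := by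
    intro X hX
    refine ⟨(a * (X 1 - P 1) - b * (X 0 - P 0)) / (a ^ 2 + b ^ 2), ?_, ?_⟩
    · field_simp
      linear_combination a * (hX - lP)
    · field_simp
      linear_combination b * (hX - lP)
  obtain ⟨s, hs0, hs1⟩ := par Q lQ
  obtain ⟨t, ht0, ht1⟩ := par R lR
  have hs : s ≠ 0 := by
    rintro rfl
    exact hPQ (ext2 _ _ (by rw [hs0]; ring) (by rw [hs1]; ring))
  have ht : t ≠ 0 := by
    rintro rfl
    exact hPR (ext2 _ _ (by rw [ht0]; ring) (by rw [ht1]; ring))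
  have hst : s ≠ t := by
    rintro rfl
    exact hQR (ext2 _ _ (by rw [hs0, ht0]) (by rw [hs1, ht1]))
  have dP := dist_sq P c
  have dQ := dist_sq Q c
  have dR := dist_sq R c
  rw [hP] at dP
  rw [hQ, hs0, hs1] at dQ
  rw [hR, ht0, ht1] at dR
  have e1 : s * (2 * (a * (P 1 - c 1) - b * (P 0 - c 0)) + s * (a ^ 2 + b ^ 2)) = 0 := by
    linear_combination dP - dQ
  have e2 : t * (2 * (a * (P 1 - c 1) - b * (P 0 - c 0)) + t * (a ^ 2 + b ^ 2)) = 0 := by
    linear_combination dP - dR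
  have f1 := (mul_eq_zero.1 e1).resolve_left hs
  have f2 := (mul_eq_zero.1 e2).resolve_left ht
  have e3 : (s - t) * (a ^ 2 + b ^ 2) = 0 := by linear_combination f1 - f2
  rcases mul_eq_zero.1 e3 with h | h
  · exact hst (sub_eq_zero.1 h)
  · exact hn.ne' h

/-- a line or circle is determined by three of its points -/
theorem unique3 {Γ1 Γ2 : Set Plane} (h1 : LineOrCircle Γ1) (h2 : LineOrCircle Γ2)
    {P Q R : Plane} (hPQ : P ≠ Q) (hPR : P ≠ R) (hQR : Q ≠ R) (p1 : P ∈ Γ1) (q1 : Q ∈ Γ1)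
    (r1 : R ∈ Γ1) (p2 : P ∈ Γ2) (q2 : Q ∈ Γ2) (r2 : R ∈ Γ2) : Γ1 = Γ2 := by
  have ext2 : ∀ X Y : Plane, X 0 = Y 0 → X 1 = Y 1 → X = Y := by
    intro X Y h0 h1
    ext i
    fin_cases i
    · exact h0
    · exact h1
  rcases h1 with ⟨a, b, e, hab, rfl⟩ | ⟨c, r, hr, rfl⟩
  · rcases h2 with ⟨a', b', e', hab', rfl⟩ | ⟨c', r', hr', rfl⟩
    · rw [Set.mem_ofPred_eq] at p1 q1 p2 q2
      have key : ∀ a b e a' b' e' : ℝ, (a ≠ 0 ∨ b ≠ 0) → (a' ≠ 0 ∨ b' ≠ 0) →
          a * P 0 + b * P 1 + e = 0 → a * Q 0 + b * Q 1 + e = 0 →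
          a' * P 0 + b' * P 1 + e' = 0 → a' * Q 0 + b' * Q 1 + e' = 0 →
          ∀ X : Plane, a * X 0 + b * X 1 + e = 0 → a' * X 0 + b' * X 1 + e' = 0 := by
        intro a b e a' b' e' hab hab' p1 q1 p2 q2 X hX
        have hn : 0 < a ^ 2 + b ^ 2 := by
          rcases hab with h | h
          · have := sq_nonneg b; positivity
          · have := sq_nonneg a; positivity
        have hd : P 0 - Q 0 ≠ 0 ∨ P 1 - Q 1 ≠ 0 := by
          by_contra hcon
          push Not at hcon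
          exact hPQ (ext2 _ _ (sub_eq_zero.1 hcon.1) (sub_eq_zero.1 hcon.2))
        have k1 : a * (P 0 - Q 0) + b * (P 1 - Q 1) = 0 := by linear_combination p1 - q1
        have k2 : a' * (P 0 - Q 0) + b' * (P 1 - Q 1) = 0 := by linear_combination p2 - q2
        have k3 : a * b' = a' * b := by
          have g1 : (a * b' - a' * b) * (P 0 - Q 0) = 0 := by
            linear_combination b' * k1 - b * k2
          have g2 : (a * b' - a' * b) * (P 1 - Q 1) = 0 := by
            linear_combination a * k2 - a' * k1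
          rcases hd with h | h
          · exact sub_eq_zero.1 ((mul_eq_zero.1 g1).resolve_right h)
          · exact sub_eq_zero.1 ((mul_eq_zero.1 g2).resolve_right h)
        have k4 : (a ^ 2 + b ^ 2) * (a' * X 0 + b' * X 1 + e') = 0 := by
          linear_combination (a * a' + b * b') * (hX - p1) + (a ^ 2 + b ^ 2) * p2 +
            (b * (X 0 - P 0) - a * (X 1 - P 1)) * (-k3)
        exact (mul_eq_zero.1 k4).resolve_left hn.ne'
      ext X
      rw [Set.mem_ofPred_eq, Set.mem_ofPred_eq]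
      exact ⟨key a b e a' b' e' hab hab' p1 q1 p2 q2 X, key a' b' e' a b e hab' hab p2 q2 p1 q1 X⟩
    · exact (circle_line hab hPQ hPR hQR p2 q2 r2 p1 q1 r1).elim
  · rcases h2 with ⟨a', b', e', hab', rfl⟩ | ⟨c', r', hr', rfl⟩
    · exact (circle_line hab' hPQ hPR hQR p1 q1 r1 p2 q2 r2).elim
    · rw [Metric.mem_sphere] at p1 q1 r1 p2 q2 r2
      have hc : c = c' := by
        by_contra hne
        have hcc : 2 * (c' 0 - c 0) ≠ 0 ∨ 2 * (c' 1 - c 1) ≠ 0 := by
          by_contra hcon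
          push Not at hcon
          exact hne (ext2 _ _ (by linarith [hcon.1]) (by linarith [hcon.2]))
        have key : ∀ X : Plane, dist X c = r → dist X c' = r' →
            2 * (c' 0 - c 0) * X 0 + 2 * (c' 1 - c 1) * X 1 +
              (c 0 ^ 2 + c 1 ^ 2 - c' 0 ^ 2 - c' 1 ^ 2 - r ^ 2 + r' ^ 2) = 0 := by
          intro X h1 h2
          have d1 := dist_sq X c
          have d2 := dist_sq X c'
          rw [h1] at d1
          rw [h2] at d2
          linear_combination d2 - d1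
        exact circle_line hcc hPQ hPR hQR p1 q1 r1 (key P p1 p2) (key Q q1 q2) (key R r1 r2)
      subst hc
      rw [← p1, ← p2]

theorem three_of_ncard {α : Type*} {s : Set α} (h : 2 < s.ncard) :
    ∃ P ∈ s, ∃ Q ∈ s, ∃ R ∈ s, P ≠ Q ∧ P ≠ R ∧ Q ≠ R := by
  have hs : s.Finite := Set.finite_of_ncard_pos (by omega)
  obtain ⟨P, Q, R, hP, hQ, hR, h1, h2, h3⟩ := (Set.two_lt_ncard_iff hs).1 h
  exact ⟨P, hP, Q, hQ, R, hR, h1, h2, h3⟩

/-- At a scale `H` with at least `(log H) ^ 1760` points of height at most `H`, all but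
`100 log log H` of them are on a line or circle. -/
theorem good_line {S : Set Plane} (hS : RationalDistances S) {A B : Plane} (hA : A ∈ S)
    (hB : B ∈ S) (hAB : A ≠ B) : ∃ H0 : ℕ, ∀ H : ℕ, H0 ≤ H →
      Real.log H ^ 1760 ≤ (ballH S A B H).ncard →
      ∃ Γ, LineOrCircle Γ ∧ (ballH S A B H \ Γ).Finite ∧
        ((ballH S A B H \ Γ).ncard : ℝ) ≤ 100 * Real.log (Real.log H) := by
  obtain ⟨r, hr⟩ := hS A hA B hB
  obtain ⟨L0, hL0⟩ : ∃ L0 : ℝ, L0 = 2 ^ 879 * Real.exp 3402 := ⟨_, rfl⟩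
  have hL0e : Real.exp 4 ≤ L0 := by
    rw [hL0]
    calc Real.exp 4 ≤ Real.exp 3402 := Real.exp_le_exp.2 (by norm_num)
      _ = 1 * Real.exp 3402 := (one_mul _).symm
      _ ≤ 2 ^ 879 * Real.exp 3402 :=
        mul_le_mul_of_nonneg_right (one_le_pow₀ one_le_two) (Real.exp_pos _).le
  obtain ⟨n0, hn0⟩ := exists_nat_gt (Real.exp (L0 + 1))
  refine ⟨max (max n0 2) (max r.num.natAbs r.den), fun H hH hN => ?_⟩
  have g1 : n0 ≤ H := le_trans (by simp) hH
  have g2 : 2 ≤ H := le_trans (by simp) hH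
  have g3 : r.num.natAbs ≤ H := le_trans (by simp) hH
  have g4 : r.den ≤ H := le_trans (by simp) hH
  have hHR : Real.exp (L0 + 1) < H := lt_of_lt_of_le hn0 (by exact_mod_cast g1)
  have hHpos : (0 : ℝ) < H := lt_trans (Real.exp_pos _) hHR
  set L : ℝ := Real.log H with hL
  have hLL : L0 + 1 < L := by
    rw [hL, Real.lt_log_iff_exp_lt hHpos]
    exact hHR
  have he4 : Real.exp 4 < L := by linarith
  have hexp4 : (5 : ℝ) ≤ Real.exp 4 := by
    have := Real.add_one_le_exp (4 : ℝ)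
    linarith
  have hLpos : 0 < L := by linarith
  have hL1 : 1 < L := by linarith
  have hLlog : 4 < Real.log L := by
    rw [Real.lt_log_iff_exp_lt hLpos]
    exact he4
  -- the number `k`
  set u : ℝ := Real.logb 2 L with hu
  have hu0 : 0 < u := Real.logb_pos one_lt_two hL1
  obtain ⟨k, hk⟩ : ∃ k : ℕ, k = ⌈u⌉₊ := ⟨_, rfl⟩
  have hk1 : 1 ≤ k := by
    rw [hk]
    exact Nat.one_le_ceil_iff.2 hu0
  have hku : u ≤ k := by rw [hk]; exact Nat.le_ceil u
  have hku' : (k : ℝ) < u + 1 := by rw [hk]; exact Nat.ceil_lt_add_one hu0.le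
  have h2u : (2 : ℝ) ^ u = L := Real.rpow_logb (by norm_num) (by norm_num) hLpos
  have hp1 : L ≤ 2 ^ k := by
    rw [← h2u, ← Real.rpow_natCast]
    exact Real.rpow_le_rpow_of_exponent_le one_le_two hku
  have hp2 : (2 : ℝ) ^ k ≤ 2 * L := by
    calc (2 : ℝ) ^ k = (2 : ℝ) ^ (k : ℝ) := (Real.rpow_natCast _ _).symm
      _ ≤ (2 : ℝ) ^ (u + 1) := Real.rpow_le_rpow_of_exponent_le one_le_two hku'.le
      _ = 2 * L := by rw [Real.rpow_add two_pos, h2u, Real.rpow_one]; ring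
  -- the counting theorem
  have hcount := (count_final hS hA hB hAB hk1).1 H g2 ⟨r, hr, g3, g4⟩
  by_cases hoff : ∀ Γ, LineOrCircle Γ → ((48 * (k + 1) : ℕ) : ℕ∞) ≤ (ballH S A B H \ Γ).encard
  · exfalso
    obtain ⟨-, h1⟩ := hcount hoff
    have h2 : ((2 : ℝ) ^ k * L) ^ 879 ≤ 2 ^ 879 * L ^ 1758 := by
      calc ((2 : ℝ) ^ k * L) ^ 879 ≤ (2 * L * L) ^ 879 := by
            apply pow_le_pow_left₀ (by positivity)
            exact mul_le_mul_of_nonneg_right hp2 hLpos.le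
        _ = 2 ^ 879 * L ^ 1758 := by
            rw [mul_assoc, mul_pow, ← pow_two, ← pow_mul]
    have h3 : (H : ℝ) ^ ((3402 : ℝ) / 2 ^ k) ≤ Real.exp 3402 := by
      rw [Real.rpow_def_of_pos hHpos]
      apply Real.exp_le_exp.2
      rw [← hL, ← mul_div_assoc, div_le_iff₀ (by positivity)]
      nlinarith
    have h4 : ((2 : ℝ) ^ k * L) ^ 879 * (H : ℝ) ^ ((3402 : ℝ) / 2 ^ k) ≤
        (2 ^ 879 * L ^ 1758) * Real.exp 3402 :=
      mul_le_mul h2 h3 (by positivity) (by positivity)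
    have h5 : (2 ^ 879 * L ^ 1758) * Real.exp 3402 = L0 * L ^ 1758 := by
      rw [hL0]; ring
    have h6 : L0 * L ^ 1758 < L ^ 1760 := by
      rw [show (1760 : ℕ) = 2 + 1758 from rfl, pow_add]
      apply mul_lt_mul_of_pos_right _ (by positivity)
      nlinarith
    linarith
  · push Not at hoff
    obtain ⟨Γ, hΓ, h1⟩ := hoff
    have hfin : (ballH S A B H \ Γ).Finite :=
      Set.finite_of_encard_le_coe h1.le
    refine ⟨Γ, hΓ, hfin, ?_⟩
    have h2 : (ballH S A B H \ Γ).ncard < 48 * (k + 1) := by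
      rw [← hfin.cast_ncard_eq] at h1
      exact_mod_cast h1
    have h3 : ((ballH S A B H \ Γ).ncard : ℝ) ≤ 48 * (k + 1) := by exact_mod_cast h2.le
    have h4 : u ≤ Real.log L / 0.693 := by
      rw [hu, Real.logb]
      apply div_le_div_of_nonneg_left (by linarith) (by norm_num)
      have := Real.log_two_gt_d9
      linarith
    have h5 : Real.log L / 0.693 ≤ 1.4431 * Real.log L := by
      rw [div_le_iff₀ (by norm_num)]
      nlinarith
    linarith

/-- scales with small gaps -/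
theorem scales {S : Set Plane} (hS : RationalDistances S) {A B : Plane} (hA : A ∈ S)
    (hB : B ∈ S) (hAB : A ≠ B) {H : ℕ → ℕ} (hmono : StrictMono H)
    (hgood : ∀ i, Real.log (H i) ^ 1760 ≤ (ballH S A B (H i)).ncard)
    (hgap : ∀ i, Real.log (Real.log (H (i + 1))) ≤ (ballH S A B (H i)).ncard / 300) :
    ∃ Γ, LineOrCircle Γ ∧ (S ∩ Γ).Infinite ∧ ∃ i0 : ℕ, ∀ i, i0 ≤ i →
      (ballH S A B (H i) \ Γ).Finite ∧
      ((ballH S A B (H i) \ Γ).ncard : ℝ) ≤ 100 * Real.log (Real.log (H i)) := by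
  obtain ⟨H0, hH0⟩ := good_line hS hA hB hAB
  obtain ⟨n0, hn0⟩ := exists_nat_gt (Real.exp 1000)
  have hge : ∀ i, i ≤ H i := fun i => hmono.id_le i
  set i0 : ℕ := max H0 n0 with hi0
  -- the number of points
  have hlog : ∀ i, i0 ≤ i → 1000 < Real.log (H i) := by
    intro i hi
    have h1 : n0 ≤ H i := (le_max_right H0 n0).trans (hi.trans (hge i))
    have h2 : (n0 : ℝ) ≤ H i := by exact_mod_cast h1
    have h3 : Real.exp 1000 < H i := lt_of_lt_of_le hn0 h2
    rw [Real.lt_log_iff_exp_lt (lt_trans (Real.exp_pos _) h3)]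
    exact h3
  have hNL : ∀ i, i0 ≤ i → 300 * Real.log (Real.log (H i)) + 900 ≤
      (ballH S A B (H i)).ncard := by
    intro i hi
    have h1 := hlog i hi
    refine le_trans ?_ (hgood i)
    have h2 : Real.log (Real.log (H i)) ≤ Real.log (H i) := by
      have := Real.log_le_sub_one_of_pos (show 0 < Real.log (H i) by linarith)
      linarith
    have h3 : Real.log (H i) ^ 2 ≤ Real.log (H i) ^ 1760 :=
      pow_le_pow_right₀ (by linarith) (by norm_num)
    nlinarith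
  choose G hG using fun i : {i : ℕ // i0 ≤ i} =>
    hH0 (H i.1) ((le_max_left H0 n0).trans (i.2.trans (hge i.1))) (hgood i.1)
  -- the line or circle does not depend on the scale
  have hsame : ∀ i (hi : i0 ≤ i), G ⟨i, hi⟩ = G ⟨i0, le_refl _⟩ := by
    intro i hi
    induction i, hi using Nat.le_induction with
    | base => rfl
    | succ i hi ih =>
      rw [← ih]
      obtain ⟨a1, a2, a3⟩ := hG ⟨i, hi⟩
      obtain ⟨b1, b2, b3⟩ := hG ⟨i + 1, by omega⟩
      simp only at a1 a2 a3 b1 b2 b3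
      have hNi := hNL i hi
      have hgi := hgap i
      have hfin : (ballH S A B (H i)).Finite := by
        apply Set.finite_of_ncard_pos
        have h1 : (0 : ℝ) < (ballH S A B (H i)).ncard := by
          have h2 : 0 ≤ Real.log (Real.log (H i)) := Real.log_nonneg (by linarith [hlog i hi])
          linarith
        exact_mod_cast h1
      have hsub : ballH S A B (H i) ⊆ ballH S A B (H (i + 1)) := by
        intro P hP
        have hle : H i ≤ H (i + 1) := (hmono (Nat.lt_succ_self i)).le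
        obtain ⟨hPS, ⟨r, e1, e2, e3⟩, ⟨r', f1, f2, f3⟩⟩ := hP
        exact ⟨hPS, ⟨r, e1, e2.trans hle, e3.trans hle⟩, ⟨r', f1, f2.trans hle, f3.trans hle⟩⟩
      set T := ballH S A B (H i) with hT
      have hd : (T \ G ⟨i + 1, by omega⟩).ncard ≤
          (ballH S A B (H (i + 1)) \ G ⟨i + 1, by omega⟩).ncard :=
        Set.ncard_le_ncard (Set.sdiff_subset_sdiff_left hsub) b2
      have hd' : ((T \ G ⟨i + 1, by omega⟩).ncard : ℝ) ≤
          (ballH S A B (H (i + 1)) \ G ⟨i + 1, by omega⟩).ncard := by exact_mod_cast hd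
      have hcov : T ⊆ (T \ G ⟨i, hi⟩) ∪ (T \ G ⟨i + 1, by omega⟩) ∪
          (T ∩ G ⟨i, hi⟩ ∩ G ⟨i + 1, by omega⟩) := by
        intro P hP
        by_cases h1 : P ∈ G ⟨i, hi⟩
        · by_cases h2 : P ∈ G ⟨i + 1, by omega⟩
          · exact Or.inr ⟨⟨hP, h1⟩, h2⟩
          · exact Or.inl (Or.inr ⟨hP, h2⟩)
        · exact Or.inl (Or.inl ⟨hP, h1⟩)
      have hc1 : T.ncard ≤ (T \ G ⟨i, hi⟩).ncard + (T \ G ⟨i + 1, by omega⟩).ncard +
          (T ∩ G ⟨i, hi⟩ ∩ G ⟨i + 1, by omega⟩).ncard := by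
        refine (Set.ncard_le_ncard hcov ?_).trans ?_
        · exact ((hfin.sdiff).union (hfin.sdiff)).union
            (hfin.subset (fun P hP => hP.1.1))
        · exact (Set.ncard_union_le _ _).trans (Nat.add_le_add_right (Set.ncard_union_le _ _) _)
      have hc2 : (T.ncard : ℝ) ≤ (T \ G ⟨i, hi⟩).ncard + (T \ G ⟨i + 1, by omega⟩).ncard +
          (T ∩ G ⟨i, hi⟩ ∩ G ⟨i + 1, by omega⟩).ncard := by exact_mod_cast hc1
      have hc3 : (2 : ℝ) < (T ∩ G ⟨i, hi⟩ ∩ G ⟨i + 1, by omega⟩).ncard := by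
        have h2 : 0 ≤ Real.log (Real.log (H i)) := Real.log_nonneg (by linarith [hlog i hi])
        linarith
      obtain ⟨P, hP, Q, hQ, R, hR, n1, n2, n3⟩ := three_of_ncard
        (s := T ∩ G ⟨i, hi⟩ ∩ G ⟨i + 1, by omega⟩) (by exact_mod_cast hc3)
      exact unique3 b1 a1 n1 n2 n3 hP.2 hQ.2 hR.2 hP.1.2 hQ.1.2 hR.1.2
  refine ⟨G ⟨i0, le_refl _⟩, (hG _).1, ?_, i0, fun i hi => ?_⟩
  · -- infinitely many points
    intro hfinite
    set m := (S ∩ G ⟨i0, le_refl _⟩).ncard with hm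
    obtain ⟨n1, hn1⟩ := exists_nat_gt (Real.exp (m : ℝ))
    set i := max i0 n1 with hi
    have hi0' : i0 ≤ i := le_max_left _ _
    obtain ⟨a1, a2, a3⟩ := hG ⟨i, hi0'⟩
    rw [hsame i hi0'] at a1 a2 a3
    simp only at a1 a2 a3
    have hNi := hNL i hi0'
    have hlm : (m : ℝ) < Real.log (H i) := by
      have h1 : n1 ≤ H i := (le_max_right i0 n1).trans (hge i)
      have h2 : (n1 : ℝ) ≤ H i := by exact_mod_cast h1
      have h3 : Real.exp (m : ℝ) < H i := lt_of_lt_of_le hn1 h2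
      rw [Real.lt_log_iff_exp_lt (lt_trans (Real.exp_pos _) h3)]
      exact h3
    have hfin : (ballH S A B (H i)).Finite := by
      apply Set.finite_of_ncard_pos
      have h1 : (0 : ℝ) < (ballH S A B (H i)).ncard := by
        have h2 : 0 ≤ Real.log (Real.log (H i)) := Real.log_nonneg (by linarith [hlog i hi0'])
        linarith
      exact_mod_cast h1
    set T := ballH S A B (H i) with hT
    have hc1 : T.ncard ≤ (T \ G ⟨i0, le_refl _⟩).ncard + (T ∩ G ⟨i0, le_refl _⟩).ncard := by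
      have h1 : T ⊆ (T \ G ⟨i0, le_refl _⟩) ∪ (T ∩ G ⟨i0, le_refl _⟩) := by
        intro P hP
        by_cases h1 : P ∈ G ⟨i0, le_refl _⟩
        · exact Or.inr ⟨hP, h1⟩
        · exact Or.inl ⟨hP, h1⟩
      exact (Set.ncard_le_ncard h1 ((hfin.sdiff).union (hfin.subset fun P hP => hP.1))).trans
        (Set.ncard_union_le _ _)
    have hc2 : (T ∩ G ⟨i0, le_refl _⟩).ncard ≤ m :=
      Set.ncard_le_ncard (fun P hP => ⟨hP.1.1, hP.2⟩) hfinite
    have hc3 : (T.ncard : ℝ) ≤ (T \ G ⟨i0, le_refl _⟩).ncard + m := by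
      exact_mod_cast hc1.trans (Nat.add_le_add_left hc2 _)
    have h1 := hlog i hi0'
    have h2 : Real.log (Real.log (H i)) ≤ Real.log (H i) := by
      have := Real.log_le_sub_one_of_pos (show 0 < Real.log (H i) by linarith)
      linarith
    have h3 : Real.log (H i) ^ 2 ≤ Real.log (H i) ^ 1760 :=
      pow_le_pow_right₀ (by linarith) (by norm_num)
    have h4 := hgood i
    nlinarith
  · obtain ⟨-, a2, a3⟩ := hG ⟨i, hi⟩
    rw [hsame i hi] at a2 a3
    exact ⟨a2, a3⟩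

/-- three distinct members of a finset of pairs with the same second component -/
theorem three_mem {s : Finset ℕ} (h : 2 < s.card) :
    ∃ a ∈ s, ∃ b ∈ s, ∃ c ∈ s, a ≠ b ∧ a ≠ c ∧ b ≠ c := by
  obtain ⟨a, b, c, ha, hb, hc, h1, h2, h3⟩ := Finset.two_lt_card_iff.1 h
  exact ⟨a, ha, b, hb, c, hc, h1, h2, h3⟩

/-- one coordinate estimate: two points of a circle near the same horizontal line -/
theorem pair_est {a e X1 Y1 X2 Y2 u v B : ℝ} (ha : 0 < a) (he : 0 ≤ e) (hd : a / 2 ≤ |X1 - X2|)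
    (hY : |Y1 - Y2| ≤ 2 * e) (hB1 : |Y1| ≤ B) (hB2 : |Y2| ≤ B)
    (h : (X1 - u) ^ 2 + (Y1 - v) ^ 2 = (X2 - u) ^ 2 + (Y2 - v) ^ 2) :
    |X1 + X2 - 2 * u| ≤ 4 * e / a * (2 * B + 2 * |v|) := by
  have h1 : (X1 - X2) * (X1 + X2 - 2 * u) = -((Y1 - Y2) * (Y1 + Y2 - 2 * v)) := by
    linear_combination h
  have h2 : |X1 - X2| * |X1 + X2 - 2 * u| = |Y1 - Y2| * |Y1 + Y2 - 2 * v| := by
    rw [← abs_mul, ← abs_mul, h1, abs_neg]
  have h3 : |Y1 + Y2 - 2 * v| ≤ 2 * B + 2 * |v| := by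
    have h4 : |Y1 + Y2 - 2 * v| ≤ |Y1 + Y2| + |2 * v| := abs_sub _ _
    have h5 : |Y1 + Y2| ≤ |Y1| + |Y2| := abs_add_le _ _
    have h6 : |2 * v| = 2 * |v| := by rw [abs_mul, abs_two]
    linarith
  have h4 : a / 2 * |X1 + X2 - 2 * u| ≤ 2 * e * (2 * B + 2 * |v|) := by
    calc a / 2 * |X1 + X2 - 2 * u| ≤ |X1 - X2| * |X1 + X2 - 2 * u| :=
          mul_le_mul_of_nonneg_right hd (abs_nonneg _)
      _ = |Y1 - Y2| * |Y1 + Y2 - 2 * v| := h2
      _ ≤ 2 * e * (2 * B + 2 * |v|) := mul_le_mul hY h3 (abs_nonneg _) (by positivity)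
  rw [div_mul_eq_mul_div, le_div_iff₀ ha]
  linarith

/-- a line or circle is close to at most three points of a row or at most three points of a column
(triples): the contradiction -/
theorem cross {a e B X1 Y1 X2 Y2 X3 Y3 U1 V1 U2 V2 U3 V3 u v : ℝ} (ha : 0 < a) (he : 0 ≤ e)
    (haB : a ≤ B) (hsm : 500 * e * B < a ^ 2)
    (hX1 : |X1| ≤ B) (hX2 : |X2| ≤ B) (_ : |X3| ≤ B) (hY1 : |Y1| ≤ B) (hY2 : |Y2| ≤ B)
    (hY3 : |Y3| ≤ B) (hU1 : |U1| ≤ B) (hU2 : |U2| ≤ B) (hU3 : |U3| ≤ B) (hV1 : |V1| ≤ B)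
    (hV2 : |V2| ≤ B) (_ : |V3| ≤ B)
    (d12 : a / 2 ≤ |X1 - X2|) (d13 : a / 2 ≤ |X1 - X3|) (d23 : a / 2 ≤ |X2 - X3|)
    (f12 : |Y1 - Y2| ≤ 2 * e) (f13 : |Y1 - Y3| ≤ 2 * e)
    (g12 : a / 2 ≤ |V1 - V2|) (g13 : a / 2 ≤ |V1 - V3|) (_ : a / 2 ≤ |V2 - V3|)
    (k12 : |U1 - U2| ≤ 2 * e) (k13 : |U1 - U3| ≤ 2 * e)
    (c12 : (X1 - u) ^ 2 + (Y1 - v) ^ 2 = (X2 - u) ^ 2 + (Y2 - v) ^ 2)
    (c13 : (X1 - u) ^ 2 + (Y1 - v) ^ 2 = (X3 - u) ^ 2 + (Y3 - v) ^ 2)
    (q12 : (U1 - u) ^ 2 + (V1 - v) ^ 2 = (U2 - u) ^ 2 + (V2 - v) ^ 2)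
    (q13 : (U1 - u) ^ 2 + (V1 - v) ^ 2 = (U3 - u) ^ 2 + (V3 - v) ^ 2) : False := by
  have hB : 0 < B := lt_of_lt_of_le ha haB
  obtain ⟨δ, hδ⟩ : ∃ δ : ℝ, δ = 4 * e / a := ⟨_, rfl⟩
  have hδ0 : 0 ≤ δ := by rw [hδ]; positivity
  have hδs : 125 * δ * B < a := by
    rw [hδ]
    have : 125 * (4 * e / a) * B = 500 * e * B / a := by ring
    rw [this, div_lt_iff₀ ha]
    nlinarith
  have hδ1 : δ < 1 / 125 := by
    have h1 : 125 * δ * B < B := lt_of_lt_of_le hδs haB
    by_contra hcon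
    push Not at hcon
    nlinarith
  have x12 := pair_est ha he d12 f12 hY1 hY2 c12
  have x13 := pair_est ha he d13 f13 hY1 hY3 c13
  have y12 := pair_est (u := v) (v := u) (X1 := V1) (X2 := V2) (Y1 := U1) (Y2 := U2) ha he g12 k12
    hU1 hU2 (by linarith)
  have y13 := pair_est (u := v) (v := u) (X1 := V1) (X2 := V3) (Y1 := U1) (Y2 := U3) ha he g13 k13
    hU1 hU3 (by linarith)
  rw [← hδ] at x12 x13 y12 y13
  have h1 : |X2 - X3| ≤ 2 * (δ * (2 * B + 2 * |v|)) := by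
    have e1 : X2 - X3 = (X1 + X2 - 2 * u) - (X1 + X3 - 2 * u) := by ring
    rw [e1]
    have := abs_sub (X1 + X2 - 2 * u) (X1 + X3 - 2 * u)
    linarith
  have hu : 2 * |u| ≤ 2 * B + δ * (2 * B + 2 * |v|) := by
    have e1 : 2 * u = (X1 + X2) - (X1 + X2 - 2 * u) := by ring
    have e2 : 2 * |u| = |2 * u| := by rw [abs_mul, abs_two]
    rw [e2, e1]
    have e3 := abs_sub (X1 + X2) (X1 + X2 - 2 * u)
    have e4 : |X1 + X2| ≤ |X1| + |X2| := abs_add_le _ _
    linarith
  have hv : 2 * |v| ≤ 2 * B + δ * (2 * B + 2 * |u|) := by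
    have e1 : 2 * v = (V1 + V2) - (V1 + V2 - 2 * v) := by ring
    have e2 : 2 * |v| = |2 * v| := by rw [abs_mul, abs_two]
    rw [e2, e1]
    have e3 := abs_sub (V1 + V2) (V1 + V2 - 2 * v)
    have e4 : |V1 + V2| ≤ |V1| + |V2| := abs_add_le _ _
    linarith
  have hu0 := abs_nonneg u
  have hv0 := abs_nonneg v
  have hsum : |u| + |v| ≤ 4 * B := by nlinarith
  have hvB : |v| ≤ 4 * B := by linarith
  have h2 : δ * (2 * B + 2 * |v|) ≤ δ * (10 * B) := by
    apply mul_le_mul_of_nonneg_left _ hδ0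
    linarith
  linarith

/-- A line or circle passes near at most `2 s` points of an `s × s` grid. -/
theorem grid_close {Γ : Set Plane} (hΓ : LineOrCircle Γ) {O : Plane} {a e : ℝ} {s : ℕ}
    (ha : 0 < a) (he : 0 ≤ e) (hsm : 500 * e * (a * s + e) < a ^ 2) {P : ℕ → ℕ → Plane}
    (hP : ∀ i < s, ∀ j < s, |P i j 0 - (O 0 + a * i)| ≤ e ∧ |P i j 1 - (O 1 + a * j)| ≤ e) :
    Set.ncard {q : ℕ × ℕ | q.1 < s ∧ q.2 < s ∧ P q.1 q.2 ∈ Γ} ≤ 2 * s := by
  classical
  set Cl : Finset (ℕ × ℕ) := (Finset.range s ×ˢ Finset.range s).filter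
    (fun q => P q.1 q.2 ∈ Γ) with hCl
  have hset : {q : ℕ × ℕ | q.1 < s ∧ q.2 < s ∧ P q.1 q.2 ∈ Γ} = (Cl : Set (ℕ × ℕ)) := by
    ext q
    simp only [hCl, Finset.coe_filter, Finset.mem_product, Finset.mem_range, Set.mem_ofPred_eq]
    tauto
  rw [hset, Set.ncard_coe_finset]
  by_cases hrow : ∀ j < s, (Cl.filter (fun q => q.2 = j)).card ≤ 2
  · have h1 := Finset.card_le_mul_card_image (f := Prod.snd) Cl 2 (fun j hj => by
      obtain ⟨q, hq, rfl⟩ := Finset.mem_image.1 hj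
      have hq' := (Finset.mem_filter.1 hq).1
      exact hrow _ (Finset.mem_range.1 (Finset.mem_product.1 hq').2))
    have h2 : (Cl.image Prod.snd).card ≤ s := by
      have : Cl.image Prod.snd ⊆ Finset.range s := by
        intro j hj
        obtain ⟨q, hq, rfl⟩ := Finset.mem_image.1 hj
        exact (Finset.mem_product.1 (Finset.mem_filter.1 hq).1).2
      simpa using Finset.card_le_card this
    exact h1.trans (Nat.mul_le_mul_left 2 h2)
  · by_cases hcol : ∀ i < s, (Cl.filter (fun q => q.1 = i)).card ≤ 2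
    · have h1 := Finset.card_le_mul_card_image (f := Prod.fst) Cl 2 (fun j hj => by
        obtain ⟨q, hq, rfl⟩ := Finset.mem_image.1 hj
        have hq' := (Finset.mem_filter.1 hq).1
        exact hcol _ (Finset.mem_range.1 (Finset.mem_product.1 hq').1))
      have h2 : (Cl.image Prod.fst).card ≤ s := by
        have : Cl.image Prod.fst ⊆ Finset.range s := by
          intro j hj
          obtain ⟨q, hq, rfl⟩ := Finset.mem_image.1 hj
          exact (Finset.mem_product.1 (Finset.mem_filter.1 hq).1).1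
        simpa using Finset.card_le_card this
      exact h1.trans (Nat.mul_le_mul_left 2 h2)
    · exfalso
      push Not at hrow hcol
      obtain ⟨j, hj, hrow⟩ := hrow
      obtain ⟨i, hi, hcol⟩ := hcol
      -- the three points in the row
      have hr : ((Cl.filter (fun q => q.2 = j)).image Prod.fst).card =
          (Cl.filter (fun q => q.2 = j)).card := by
        apply Finset.card_image_of_injOn
        intro q hq q' hq' h
        have e1 := (Finset.mem_filter.1 (Finset.mem_coe.1 hq)).2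
        have e2 := (Finset.mem_filter.1 (Finset.mem_coe.1 hq')).2
        exact Prod.ext h (e1.trans e2.symm)
      have hc : ((Cl.filter (fun q => q.1 = i)).image Prod.snd).card =
          (Cl.filter (fun q => q.1 = i)).card := by
        apply Finset.card_image_of_injOn
        intro q hq q' hq' h
        have e1 := (Finset.mem_filter.1 (Finset.mem_coe.1 hq)).2
        have e2 := (Finset.mem_filter.1 (Finset.mem_coe.1 hq')).2
        exact Prod.ext (e1.trans e2.symm) h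
      obtain ⟨i1, hi1, i2, hi2, i3, hi3, n12, n13, n23⟩ := three_mem (hr ▸ hrow)
      obtain ⟨j1, hj1, j2, hj2, j3, hj3, m12, m13, m23⟩ := three_mem (hc ▸ hcol)
      have hmemr : ∀ x, x ∈ (Cl.filter (fun q => q.2 = j)).image Prod.fst →
          x < s ∧ P x j ∈ Γ := by
        intro x hx
        obtain ⟨q, hq, rfl⟩ := Finset.mem_image.1 hx
        obtain ⟨h1, h2⟩ := Finset.mem_filter.1 hq
        obtain ⟨h3, h4⟩ := Finset.mem_filter.1 h1
        rw [h2] at h4
        exact ⟨Finset.mem_range.1 (Finset.mem_product.1 h3).1, h4⟩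
      have hmemc : ∀ y, y ∈ (Cl.filter (fun q => q.1 = i)).image Prod.snd →
          y < s ∧ P i y ∈ Γ := by
        intro x hx
        obtain ⟨q, hq, rfl⟩ := Finset.mem_image.1 hx
        obtain ⟨h1, h2⟩ := Finset.mem_filter.1 hq
        obtain ⟨h3, h4⟩ := Finset.mem_filter.1 h1
        rw [h2] at h4
        exact ⟨Finset.mem_range.1 (Finset.mem_product.1 h3).2, h4⟩
      obtain ⟨r1, r1'⟩ := hmemr i1 hi1
      obtain ⟨r2, r2'⟩ := hmemr i2 hi2
      obtain ⟨r3, r3'⟩ := hmemr i3 hi3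
      obtain ⟨t1, t1'⟩ := hmemc j1 hj1
      obtain ⟨t2, t2'⟩ := hmemc j2 hj2
      obtain ⟨t3, t3'⟩ := hmemc j3 hj3
      -- relative coordinates
      have hs0 : (0 : ℝ) ≤ a * s := by positivity
      have hs1 : (1 : ℝ) ≤ s := by
        have : 1 ≤ s := by omega
        exact_mod_cast this
      have bnd : ∀ i < s, ∀ j < s, |P i j 0 - O 0| ≤ a * s + e ∧ |P i j 1 - O 1| ≤ a * s + e := by
        intro i hi j hj
        obtain ⟨h1, h2⟩ := hP i hi j hj
        have h3 : a * (i : ℝ) ≤ a * s := by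
          apply mul_le_mul_of_nonneg_left _ ha.le
          exact_mod_cast hi.le
        have h4 : a * (j : ℝ) ≤ a * s := by
          apply mul_le_mul_of_nonneg_left _ ha.le
          exact_mod_cast hj.le
        have h5 : 0 ≤ a * (i : ℝ) := by positivity
        have h6 : 0 ≤ a * (j : ℝ) := by positivity
        rw [abs_le] at h1 h2 ⊢
        rw [abs_le]
        refine ⟨⟨?_, ?_⟩, ?_, ?_⟩ <;> linarith [h1.1, h1.2, h2.1, h2.2]
      have he2 : 2 * e ≤ a / 2 := by
        by_contra hcon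
        push Not at hcon
        have h1 : a ≤ a * s + e := by nlinarith
        nlinarith
      have sep0 : ∀ i < s, ∀ j < s, ∀ i' < s, ∀ j' < s, i ≠ i' →
          a / 2 ≤ |(P i j 0 - O 0) - (P i' j' 0 - O 0)| := by
        intro i hi j hj i' hi' j' hj' hne
        obtain ⟨h1, -⟩ := hP i hi j hj
        obtain ⟨h2, -⟩ := hP i' hi' j' hj'
        rw [abs_le] at h1 h2
        rcases lt_or_gt_of_ne hne with h | h
        · have h3 : ((i : ℝ) + 1) ≤ i' := by exact_mod_cast h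
          have h4 : a * (i : ℝ) + a ≤ a * i' := by nlinarith
          rw [abs_sub_comm]
          refine le_trans ?_ (le_abs_self _)
          linarith [h1.1, h1.2, h2.1, h2.2]
        · have h3 : ((i' : ℝ) + 1) ≤ i := by exact_mod_cast h
          have h4 : a * (i' : ℝ) + a ≤ a * i := by nlinarith
          refine le_trans ?_ (le_abs_self _)
          linarith [h1.1, h1.2, h2.1, h2.2]
      have sep1 : ∀ i < s, ∀ j < s, ∀ i' < s, ∀ j' < s, j ≠ j' →
          a / 2 ≤ |(P i j 1 - O 1) - (P i' j' 1 - O 1)| := by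
        intro i hi j hj i' hi' j' hj' hne
        obtain ⟨-, h1⟩ := hP i hi j hj
        obtain ⟨-, h2⟩ := hP i' hi' j' hj'
        rw [abs_le] at h1 h2
        rcases lt_or_gt_of_ne hne with h | h
        · have h3 : ((j : ℝ) + 1) ≤ j' := by exact_mod_cast h
          have h4 : a * (j : ℝ) + a ≤ a * j' := by nlinarith
          rw [abs_sub_comm]
          refine le_trans ?_ (le_abs_self _)
          linarith [h1.1, h1.2, h2.1, h2.2]
        · have h3 : ((j' : ℝ) + 1) ≤ j := by exact_mod_cast h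
          have h4 : a * (j' : ℝ) + a ≤ a * j := by nlinarith
          refine le_trans ?_ (le_abs_self _)
          linarith [h1.1, h1.2, h2.1, h2.2]
      have cl0 : ∀ i < s, ∀ j < s, ∀ j' < s,
          |(P i j 0 - O 0) - (P i j' 0 - O 0)| ≤ 2 * e := by
        intro i hi j hj j' hj'
        obtain ⟨h1, -⟩ := hP i hi j hj
        obtain ⟨h2, -⟩ := hP i hi j' hj'
        rw [abs_le] at h1 h2 ⊢
        constructor <;> linarith [h1.1, h1.2, h2.1, h2.2]
      have cl1 : ∀ i < s, ∀ j < s, ∀ i' < s,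
          |(P i j 1 - O 1) - (P i' j 1 - O 1)| ≤ 2 * e := by
        intro i hi j hj i' hi'
        obtain ⟨-, h1⟩ := hP i hi j hj
        obtain ⟨-, h2⟩ := hP i' hi' j hj
        rw [abs_le] at h1 h2 ⊢
        constructor <;> linarith [h1.1, h1.2, h2.1, h2.2]
      rcases hΓ with ⟨α, β, γ, hab, rfl⟩ | ⟨c, r, hr, rfl⟩
      · -- line
        rw [Set.mem_ofPred_eq] at r1' r2' t1' t2'
        have k1 : α * ((P i1 j 0 - O 0) - (P i2 j 0 - O 0)) =
            -(β * ((P i1 j 1 - O 1) - (P i2 j 1 - O 1))) := by linear_combination r1' - r2'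
        have k2 : β * ((P i j1 1 - O 1) - (P i j2 1 - O 1)) =
            -(α * ((P i j1 0 - O 0) - (P i j2 0 - O 0))) := by linear_combination t1' - t2'
        have k3 : |α| * (a / 2) ≤ |β| * (2 * e) := by
          calc |α| * (a / 2) ≤ |α| * |(P i1 j 0 - O 0) - (P i2 j 0 - O 0)| :=
                mul_le_mul_of_nonneg_left (sep0 i1 r1 j hj i2 r2 j hj n12) (abs_nonneg _)
            _ = |β| * |(P i1 j 1 - O 1) - (P i2 j 1 - O 1)| := by
                rw [← abs_mul, k1, abs_neg, abs_mul]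
            _ ≤ |β| * (2 * e) :=
                mul_le_mul_of_nonneg_left (cl1 i1 r1 j hj i2 r2) (abs_nonneg _)
        have k4 : |β| * (a / 2) ≤ |α| * (2 * e) := by
          calc |β| * (a / 2) ≤ |β| * |(P i j1 1 - O 1) - (P i j2 1 - O 1)| :=
                mul_le_mul_of_nonneg_left (sep1 i hi j1 t1 i hi j2 t2 m12) (abs_nonneg _)
            _ = |α| * |(P i j1 0 - O 0) - (P i j2 0 - O 0)| := by
                rw [← abs_mul, k2, abs_neg, abs_mul]
            _ ≤ |α| * (2 * e) :=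
                mul_le_mul_of_nonneg_left (cl0 i hi j1 t1 j2 t2) (abs_nonneg _)
        have he3 : 2 * e < a / 2 := by
          by_contra hcon
          push Not at hcon
          have h1 : a ≤ a * s + e := by nlinarith
          nlinarith
        have hα := abs_nonneg α
        have hβ := abs_nonneg β
        have hpos : 0 < |α| + |β| := by
          rcases hab with h | h
          · have := abs_pos.2 h; linarith
          · have := abs_pos.2 h; linarith
        nlinarith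
      · -- circle
        rw [Metric.mem_sphere] at r1' r2' r3' t1' t2' t3'
        have eqc : ∀ X Y : Plane, dist X c = r → dist Y c = r →
            ((X 0 - O 0) - (c 0 - O 0)) ^ 2 + ((X 1 - O 1) - (c 1 - O 1)) ^ 2 =
            ((Y 0 - O 0) - (c 0 - O 0)) ^ 2 + ((Y 1 - O 1) - (c 1 - O 1)) ^ 2 := by
          intro X Y hX hY
          have d1 := dist_sq X c
          have d2 := dist_sq Y c
          rw [hX] at d1
          rw [hY] at d2
          linear_combination d2 - d1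
        have haB : a ≤ a * s + e := by nlinarith
        exact cross (a := a) (e := e) (B := a * s + e) (u := c 0 - O 0) (v := c 1 - O 1)
          ha he haB (by linarith)
          (bnd i1 r1 j hj).1 (bnd i2 r2 j hj).1 (bnd i3 r3 j hj).1
          (bnd i1 r1 j hj).2 (bnd i2 r2 j hj).2 (bnd i3 r3 j hj).2
          (bnd i hi j1 t1).1 (bnd i hi j2 t2).1 (bnd i hi j3 t3).1
          (bnd i hi j1 t1).2 (bnd i hi j2 t2).2 (bnd i hi j3 t3).2
          (sep0 i1 r1 j hj i2 r2 j hj n12) (sep0 i1 r1 j hj i3 r3 j hj n13)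
          (sep0 i2 r2 j hj i3 r3 j hj n23)
          (cl1 i1 r1 j hj i2 r2) (cl1 i1 r1 j hj i3 r3)
          (sep1 i hi j1 t1 i hi j2 t2 m12) (sep1 i hi j1 t1 i hi j3 t3 m13)
          (sep1 i hi j2 t2 i hi j3 t3 m23)
          (cl0 i hi j1 t1 j2 t2) (cl0 i hi j1 t1 j3 t3)
          (eqc _ _ r1' r2') (eqc _ _ r1' r3') (eqc _ _ t1' t2') (eqc _ _ t1' t3')

theorem ballH_finite {S : Set Plane} {A B : Plane} (hAB : A ≠ B) (H : ℕ) :
    (ballH S A B H).Finite := by
  -- the possible distances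
  have hF : {x : ℝ | Ht x H}.Finite := by
    have h1 : ((Set.Icc (-(H : ℤ)) H) ×ˢ (Set.Iic H : Set ℕ)).Finite :=
      (Set.finite_Icc _ _).prod (Set.finite_Iic _)
    refine (h1.image (fun p : ℤ × ℕ => (p.1 : ℝ) / (p.2 : ℝ))).subset ?_
    rintro x ⟨r, rfl, h2, h3⟩
    refine ⟨(r.num, r.den), ⟨⟨?_, ?_⟩, h3⟩, ?_⟩
    · show -(H : ℤ) ≤ r.num
      omega
    · show r.num ≤ (H : ℤ)
      omega
    · show (r.num : ℝ) / (r.den : ℝ) = r
      exact_mod_cast r.num_div_den
  -- the fibres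
  have hfib : ∀ x y : ℝ, {P : Plane | dist P A = x ∧ dist P B = y}.Finite := by
    intro x y
    by_contra hinf
    have hinf' : {P : Plane | dist P A = x ∧ dist P B = y}.Infinite := hinf
    obtain ⟨t, ht1, ht2⟩ := hinf'.exists_subset_card_eq 3
    obtain ⟨P, Q, R, hPQ, hPR, hQR, rfl⟩ := Finset.card_eq_three.1 ht2
    have mP := ht1 (show P ∈ (({P, Q, R} : Finset Plane) : Set Plane) by simp)
    have mQ := ht1 (show Q ∈ (({P, Q, R} : Finset Plane) : Set Plane) by simp)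
    have mR := ht1 (show R ∈ (({P, Q, R} : Finset Plane) : Set Plane) by simp)
    have hcc : 2 * (B 0 - A 0) ≠ 0 ∨ 2 * (B 1 - A 1) ≠ 0 := by
      by_contra hcon
      push Not at hcon
      apply hAB
      ext i
      fin_cases i
      · show A 0 = B 0
        linarith [hcon.1]
      · show A 1 = B 1
        linarith [hcon.2]
    have key : ∀ X : Plane, dist X A = x ∧ dist X B = y →
        2 * (B 0 - A 0) * X 0 + 2 * (B 1 - A 1) * X 1 +
          (A 0 ^ 2 + A 1 ^ 2 - B 0 ^ 2 - B 1 ^ 2 - x ^ 2 + y ^ 2) = 0 := by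
      rintro X ⟨h1, h2⟩
      have d1 := dist_sq X A
      have d2 := dist_sq X B
      rw [h1] at d1
      rw [h2] at d2
      linear_combination d2 - d1
    exact circle_line hcc hPQ hPR hQR mP.1 mQ.1 mR.1 (key P mP) (key Q mQ) (key R mR)
  refine ((hF.prod hF).biUnion (fun p _ => hfib p.1 p.2)).subset ?_
  intro P hP
  simp only [Set.mem_iUnion]
  exact ⟨(dist P A, dist P B), ⟨hP.2.1, hP.2.2⟩, rfl, rfl⟩

theorem grid_ncard {T : Set Plane} (hT : T.Finite) {O : Plane} {a e : ℝ} {s : ℕ}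
    (hae : 2 * e < a) (ha : 0 < a) {P : ℕ → ℕ → Plane}
    (hP : ∀ i < s, ∀ j < s, |P i j 0 - (O 0 + a * i)| ≤ e ∧ |P i j 1 - (O 1 + a * j)| ≤ e)
    {U : Set (ℕ × ℕ)} (hU : ∀ q ∈ U, q.1 < s ∧ q.2 < s ∧ P q.1 q.2 ∈ T) : U.ncard ≤ T.ncard := by
  refine Set.ncard_le_ncard_of_injOn (fun q : ℕ × ℕ => P q.1 q.2) (fun q hq => (hU q hq).2.2) ?_ hT
  intro q hq q' hq' h
  obtain ⟨h1, h2, -⟩ := hU q hq
  obtain ⟨h1', h2', -⟩ := hU q' hq'
  obtain ⟨a1, a2⟩ := hP q.1 h1 q.2 h2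
  obtain ⟨b1, b2⟩ := hP q'.1 h1' q'.2 h2'
  simp only at h
  rw [h] at a1 a2
  have key : ∀ (x y : ℕ) (u o : ℝ), |u - (o + a * x)| ≤ e → |u - (o + a * y)| ≤ e → x = y := by
    intro x y u o h1 h2
    rw [abs_le] at h1 h2
    by_contra hne
    rcases lt_or_gt_of_ne hne with h | h
    · have h3 : ((x : ℝ) + 1) ≤ y := by exact_mod_cast h
      have h4 : a * (x : ℝ) + a ≤ a * y := by nlinarith
      linarith [h1.1, h1.2, h2.1, h2.2]
    · have h3 : ((y : ℝ) + 1) ≤ x := by exact_mod_cast h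
      have h4 : a * (y : ℝ) + a ≤ a * x := by nlinarith
      linarith [h1.1, h1.2, h2.1, h2.2]
  exact Prod.ext (key _ _ _ _ a1 b1) (key _ _ _ _ a2 b2)

theorem ncard_square (s : ℕ) : {q : ℕ × ℕ | q.1 < s ∧ q.2 < s}.ncard = s * s := by
  have : {q : ℕ × ℕ | q.1 < s ∧ q.2 < s} = ((Finset.range s ×ˢ Finset.range s : Finset (ℕ × ℕ)) :
      Set (ℕ × ℕ)) := by
    ext q
    simp
  rw [this, Set.ncard_coe_finset, Finset.card_product, Finset.card_range]

/-- a point set which is `e`-dense in a disc contains points near each point of a grid -/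
theorem grid_points {T : Set Plane} {O : Plane} {ρ e a : ℝ} {s : ℕ} (ha : 0 < a)
    (has : a * s ≤ ρ / 2) (hd : ∀ X : Plane, dist X O ≤ ρ → ∃ P ∈ T, dist P X < e) :
    ∃ P : ℕ → ℕ → Plane, ∀ i < s, ∀ j < s, P i j ∈ T ∧
      |P i j 0 - (O 0 + a * i)| ≤ e ∧ |P i j 1 - (O 1 + a * j)| ≤ e := by
  classical
  have key : ∀ i j : ℕ, ∃ P : Plane, i < s → j < s → P ∈ T ∧
      |P 0 - (O 0 + a * i)| ≤ e ∧ |P 1 - (O 1 + a * j)| ≤ e := by
    intro i j
    by_cases hij : i < s ∧ j < s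
    · obtain ⟨hi, hj⟩ := hij
      set X : Plane := !₂[O 0 + a * i, O 1 + a * j] with hX
      have X0 : X 0 = O 0 + a * i := by simp [hX]
      have X1 : X 1 = O 1 + a * j := by simp [hX]
      have hi0 : 0 ≤ a * (i : ℝ) := by positivity
      have hj0 : 0 ≤ a * (j : ℝ) := by positivity
      have hi1 : a * (i : ℝ) ≤ ρ / 2 := by
        refine le_trans ?_ has
        apply mul_le_mul_of_nonneg_left _ ha.le
        exact_mod_cast hi.le
      have hj1 : a * (j : ℝ) ≤ ρ / 2 := by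
        refine le_trans ?_ has
        apply mul_le_mul_of_nonneg_left _ ha.le
        exact_mod_cast hj.le
      have hXO : dist X O ≤ ρ := by
        apply le_of_sq_le_sq _ (by linarith)
        rw [dist_sq, X0, X1]
        nlinarith
      obtain ⟨P, hP, hPX⟩ := hd X hXO
      have h1 : dist P X ^ 2 < e ^ 2 := by
        have := dist_nonneg (x := P) (y := X)
        nlinarith
      rw [dist_sq, X0, X1] at h1
      have he : 0 ≤ e := le_trans dist_nonneg hPX.le
      refine ⟨P, fun _ _ => ⟨hP, ?_, ?_⟩⟩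
      · apply abs_le_of_sq_le_sq _ he
        nlinarith [sq_nonneg (P 1 - (O 1 + a * j))]
      · apply abs_le_of_sq_le_sq _ he
        nlinarith [sq_nonneg (P 0 - (O 0 + a * i))]
    · exact ⟨O, fun h1 h2 => absurd ⟨h1, h2⟩ hij⟩
  choose P hP using key
  exact ⟨P, fun i hi j hj => hP i j hi hj⟩

/-- The points of height at most `H` are not `(log H) ^ (-881)`-dense in any disc. -/
theorem not_dense {S : Set Plane} (hS : RationalDistances S) {A B : Plane} (hA : A ∈ S)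
    (hB : B ∈ S) (hAB : A ≠ B) (O : Plane) {ρ : ℝ} (hρ : 0 < ρ) :
    ∃ H0 : ℕ, ∀ H : ℕ, H0 ≤ H → ∃ X : Plane, dist X O ≤ ρ ∧
      ∀ P ∈ ballH S A B H, 1 / Real.log H ^ 881 ≤ dist P X := by
  obtain ⟨n1, hn1⟩ := good_line hS hA hB hAB
  obtain ⟨n0, hn0⟩ := exists_nat_gt (Real.exp (102 + 8000 / ρ))
  refine ⟨max n0 n1, fun H hH => ?_⟩
  have g1 : n0 ≤ H := (le_max_left _ _).trans hH
  have g2 : n1 ≤ H := (le_max_right _ _).trans hH
  have hHR : Real.exp (102 + 8000 / ρ) < H := lt_of_lt_of_le hn0 (by exact_mod_cast g1)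
  have hHpos : (0 : ℝ) < H := lt_trans (Real.exp_pos _) hHR
  set L : ℝ := Real.log H with hL
  have hLL : 102 + 8000 / ρ < L := by
    rw [hL, Real.lt_log_iff_exp_lt hHpos]
    exact hHR
  have h8 : 0 < 8000 / ρ := by positivity
  have hL102 : 102 < L := by linarith
  have hLpos : 0 < L := by linarith
  have hLρ : 8000 < ρ * L := by
    have : 8000 / ρ < L := by linarith
    rw [div_lt_iff₀ hρ] at this
    linarith
  by_contra hcon
  push Not at hcon
  obtain ⟨e, he⟩ : ∃ e : ℝ, e = 1 / L ^ 881 := ⟨_, rfl⟩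
  rw [← he] at hcon
  have hepos : 0 < e := by rw [he]; positivity
  have heL : e * L ^ 881 = 1 := by
    rw [he]
    field_simp
  have hfin : (ballH S A B H).Finite := ballH_finite hAB H
  have hpow : ∀ k : ℕ, 1 ≤ L ^ k := fun k => one_le_pow₀ (by linarith)
  -- the fine grid
  obtain ⟨s1, hs1⟩ : ∃ s1 : ℕ, s1 = ⌊ρ / (6 * e)⌋₊ := ⟨_, rfl⟩
  have hs1le : (s1 : ℝ) ≤ ρ / (6 * e) := by
    rw [hs1]
    exact Nat.floor_le (by positivity)
  have hs1ge : ρ / (6 * e) - 1 < s1 := by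
    rw [hs1]
    have := Nat.lt_floor_add_one (ρ / (6 * e))
    linarith
  have hρe : ρ / (6 * e) = ρ * L ^ 881 / 6 := by
    rw [he]
    field_simp
  have hs1L : L ^ 880 ≤ s1 := by
    have h1 : ρ * L ^ 881 / 6 - 1 < s1 := by rw [← hρe]; exact hs1ge
    have h2 : ρ * L ^ 881 = (ρ * L) * L ^ 880 := by
      rw [show (881 : ℕ) = 880 + 1 from rfl, pow_succ]
      ring
    have h3 := hpow 880
    rw [h2] at h1
    nlinarith
  obtain ⟨P1, hP1⟩ := grid_points (T := ballH S A B H) (a := 3 * e) (s := s1) (by positivity)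
    (by
      rw [le_div_iff₀ (by positivity)] at hs1le
      linarith) hcon
  have hN : s1 * s1 ≤ (ballH S A B H).ncard := by
    rw [← ncard_square s1]
    exact grid_ncard hfin (O := O) (a := 3 * e) (e := e) (s := s1) (by linarith) (by positivity)
      (fun i hi j hj => (hP1 i hi j hj).2) (fun q hq => ⟨hq.1, hq.2, (hP1 _ hq.1 _ hq.2).1⟩)
  have hgood : L ^ 1760 ≤ (ballH S A B H).ncard := by
    have h1 : ((s1 * s1 : ℕ) : ℝ) ≤ (ballH S A B H).ncard := by exact_mod_cast hN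
    have h2 : L ^ 1760 ≤ (s1 : ℝ) * s1 := by
      calc L ^ 1760 = L ^ 880 * L ^ 880 := by rw [← pow_add]
        _ ≤ (s1 : ℝ) * s1 := mul_le_mul hs1L hs1L (by positivity) (by positivity)
    push_cast at h1
    linarith
  obtain ⟨Γ, hΓ, hΓfin, hΓle⟩ := hn1 H g2 hgood
  -- the coarse grid
  obtain ⟨s2, hs2⟩ : ∃ s2 : ℕ, s2 = ⌈L⌉₊ := ⟨_, rfl⟩
  have hs2ge : L ≤ s2 := by rw [hs2]; exact Nat.le_ceil L
  have hs2le : (s2 : ℝ) < L + 1 := by rw [hs2]; exact Nat.ceil_lt_add_one hLpos.le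
  have hs2pos : (0 : ℝ) < s2 := by linarith
  obtain ⟨a2, ha2⟩ : ∃ a2 : ℝ, a2 = ρ / (2 * s2) := ⟨_, rfl⟩
  have ha2pos : 0 < a2 := by rw [ha2]; positivity
  have ha2s : a2 * s2 = ρ / 2 := by
    rw [ha2]
    field_simp
  have hLe : L ^ 2 * e * 8000 < ρ := by
    have h1 : L ^ 2 * e * L ^ 879 = 1 := by
      rw [← heL, show (881 : ℕ) = 2 + 879 from rfl, pow_add]
      ring
    have h2 : L ≤ L ^ 879 := by
      calc L = L ^ 1 := (pow_one L).symm
        _ ≤ L ^ 879 := pow_le_pow_right₀ (by linarith) (by norm_num)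
    have h3 : L ^ 2 * e * L ≤ 1 := by
      rw [← h1]
      exact mul_le_mul_of_nonneg_left h2 (by positivity)
    have h4 : L ^ 2 * e * 8000 < L ^ 2 * e * (ρ * L) :=
      mul_lt_mul_of_pos_left hLρ (by positivity)
    have h5 : L ^ 2 * e * (ρ * L) = ρ * (L ^ 2 * e * L) := by ring
    nlinarith
  have heρ : e ≤ ρ / 2 := by
    have h1 : 1 ≤ L ^ 2 := hpow 2
    nlinarith
  have hsm : 500 * e * (a2 * s2 + e) < a2 ^ 2 := by
    have h1 : 500 * e * (a2 * s2 + e) ≤ 500 * e * ρ := by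
      apply mul_le_mul_of_nonneg_left _ (by positivity)
      rw [ha2s]
      linarith
    have h2 : a2 ^ 2 * (4 * (s2 : ℝ) ^ 2) = ρ ^ 2 := by
      have : a2 ^ 2 * (4 * (s2 : ℝ) ^ 2) = (2 * (a2 * s2)) ^ 2 := by ring
      rw [this, ha2s]
      ring
    have h3 : (s2 : ℝ) ^ 2 ≤ 4 * L ^ 2 := by nlinarith
    have h4 : 500 * e * ρ * (4 * (s2 : ℝ) ^ 2) < ρ ^ 2 := by
      calc 500 * e * ρ * (4 * (s2 : ℝ) ^ 2) ≤ 500 * e * ρ * (4 * (4 * L ^ 2)) := by
            apply mul_le_mul_of_nonneg_left _ (by positivity)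
            linarith
        _ = ρ * (L ^ 2 * e * 8000) := by ring
        _ < ρ * ρ := mul_lt_mul_of_pos_left hLe hρ
        _ = ρ ^ 2 := by ring
    have h5 : 500 * e * ρ * (4 * (s2 : ℝ) ^ 2) < a2 ^ 2 * (4 * (s2 : ℝ) ^ 2) := by
      rw [h2]
      exact h4
    have h6 : 500 * e * ρ < a2 ^ 2 := lt_of_mul_lt_mul_right h5 (by positivity)
    linarith
  have hae2 : 2 * e < a2 := by
    have h1 : a2 ≤ a2 * s2 := by
      have : (1 : ℝ) ≤ s2 := by linarith
      nlinarith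
    have h2 : 500 * e * a2 < a2 ^ 2 := by nlinarith
    have h3 : 500 * e < a2 := by
      by_contra hc
      push Not at hc
      nlinarith
    linarith
  obtain ⟨P2, hP2⟩ := grid_points (T := ballH S A B H) (a := a2) (s := s2) ha2pos ha2s.le hcon
  have hclose := grid_close hΓ (O := O) (P := P2) ha2pos hepos.le hsm
    (fun i hi j hj => (hP2 i hi j hj).2)
  have hoff : {q : ℕ × ℕ | q.1 < s2 ∧ q.2 < s2 ∧ P2 q.1 q.2 ∉ Γ}.ncard ≤
      (ballH S A B H \ Γ).ncard :=
    grid_ncard hΓfin (O := O) hae2 ha2pos (fun i hi j hj => (hP2 i hi j hj).2)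
      (fun q hq => ⟨hq.1, hq.2.1, (hP2 _ hq.1 _ hq.2.1).1, hq.2.2⟩)
  have hsum : s2 * s2 ≤ {q : ℕ × ℕ | q.1 < s2 ∧ q.2 < s2 ∧ P2 q.1 q.2 ∉ Γ}.ncard +
      {q : ℕ × ℕ | q.1 < s2 ∧ q.2 < s2 ∧ P2 q.1 q.2 ∈ Γ}.ncard := by
    rw [← ncard_square s2]
    refine le_trans (Set.ncard_le_ncard (t := {q : ℕ × ℕ | q.1 < s2 ∧ q.2 < s2 ∧ P2 q.1 q.2 ∉ Γ} ∪
      {q : ℕ × ℕ | q.1 < s2 ∧ q.2 < s2 ∧ P2 q.1 q.2 ∈ Γ}) ?_ ?_) (Set.ncard_union_le _ _)
    · intro q hq
      by_cases h : P2 q.1 q.2 ∈ Γ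
      · exact Or.inr ⟨hq.1, hq.2, h⟩
      · exact Or.inl ⟨hq.1, hq.2, h⟩
    · have hbig : {q : ℕ × ℕ | q.1 < s2 ∧ q.2 < s2}.Finite := by
        have : {q : ℕ × ℕ | q.1 < s2 ∧ q.2 < s2} =
            ((Finset.range s2 ×ˢ Finset.range s2 : Finset (ℕ × ℕ)) : Set (ℕ × ℕ)) := by
          ext q
          simp
        rw [this]
        exact Finset.finite_toSet _
      exact (hbig.subset (fun q hq => ⟨hq.1, hq.2.1⟩)).union
        (hbig.subset (fun q hq => ⟨hq.1, hq.2.1⟩))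
  have hfinal : s2 * s2 ≤ (ballH S A B H \ Γ).ncard + 2 * s2 := by omega
  have hfinal' : (s2 : ℝ) * s2 ≤ (ballH S A B H \ Γ).ncard + 2 * s2 := by exact_mod_cast hfinal
  have hlogL : Real.log L ≤ L := by
    have := Real.log_le_sub_one_of_pos hLpos
    linarith
  nlinarith

/-- all scales -/
theorem all_scales {S : Set Plane} (hS : RationalDistances S) {A B : Plane} (hA : A ∈ S)
    (hB : B ∈ S) (hAB : A ≠ B) :
    (∃ H1 : ℕ, ∀ H : ℕ, H1 ≤ H → Real.log H ^ 1760 ≤ (ballH S A B H).ncard) →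
      ∃ Γ, LineOrCircle Γ ∧ (S ∩ Γ).Infinite ∧ ∃ H2 : ℕ, ∀ H : ℕ, H2 ≤ H →
        (ballH S A B H \ Γ).Finite ∧
        ((ballH S A B H \ Γ).ncard : ℝ) ≤ 100 * Real.log (Real.log H) := by
  rintro ⟨H1, hH1⟩
  obtain ⟨n0, hn0⟩ := exists_nat_gt (Real.exp 1000)
  obtain ⟨Γ, hΓ, hinf, i0, hi0⟩ := scales hS hA hB hAB (H := fun i => i + max H1 n0)
    (fun a b h => by simpa using h) (fun i => hH1 _ (by
      have := le_max_left H1 n0
      omega)) (fun i => by
      have hle : n0 ≤ i + max H1 n0 := (le_max_right H1 n0).trans (Nat.le_add_left _ _)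
      set n : ℕ := i + max H1 n0 with hn
      have hn' : i + 1 + max H1 n0 = n + 1 := by omega
      rw [hn']
      have h1 : (n0 : ℝ) ≤ n := by exact_mod_cast hle
      have h2 : Real.exp 1000 < n := lt_of_lt_of_le hn0 h1
      have hnpos : (0 : ℝ) < n := lt_trans (Real.exp_pos _) h2
      have h3 : 1000 < Real.log n := by
        rw [Real.lt_log_iff_exp_lt hnpos]
        exact h2
      have h4 : Real.log n ^ 1760 ≤ (ballH S A B n).ncard := hH1 n (by
        have := le_max_left H1 n0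
        omega)
      have h5 : Real.log n ^ 2 ≤ Real.log n ^ 1760 :=
        pow_le_pow_right₀ (by linarith) (by norm_num)
      have h6 : Real.log ((n + 1 : ℕ) : ℝ) ≤ 2 * Real.log n := by
        have h7 : (((n + 1 : ℕ) : ℝ)) ≤ (n : ℝ) ^ 2 := by
          push_cast
          have : (2 : ℝ) ≤ n := by
            have := Real.add_one_le_exp (1000 : ℝ)
            linarith
          nlinarith
        calc Real.log ((n + 1 : ℕ) : ℝ) ≤ Real.log ((n : ℝ) ^ 2) :=
              Real.log_le_log (by positivity) h7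
          _ = 2 * Real.log n := by rw [Real.log_pow]; norm_num
      have h8 : 0 < Real.log ((n + 1 : ℕ) : ℝ) := by
        apply Real.log_pos
        push_cast
        linarith
      have h9 : Real.log (Real.log ((n + 1 : ℕ) : ℝ)) ≤ 2 * Real.log n := by
        have := Real.log_le_sub_one_of_pos h8
        linarith
      nlinarith)
  refine ⟨Γ, hΓ, hinf, i0 + max H1 n0, fun H hH => ?_⟩
  have h := hi0 (H - max H1 n0) (by omega)
  have e : H - max H1 n0 + max H1 n0 = H := by omega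
  simp only [e] at h
  exact h

end Pool.Agent.Lib.MP_bc4313_co.Dense
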