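import Mathlib
import Pool.Agent.Lib.MP_bc4313_co.Far

/-!
Heights of rational numbers and of coordinates.
-/

namespace Pool.Agent.Lib.MP_bc4313_co

open Finset

theorem HH_le_of {r : ℚ} {a b : ℤ} (hb : b ≠ 0) (h : r = a / b) {N : ℕ} (h1 : a.natAbs ≤ N)
    (h2 : b.natAbs ≤ N) : HH r ≤ N := by
  have hb' : (b : ℚ) ≠ 0 := by exact_mod_cast hb
  refine max_le ?_ ?_
  · by_cases ha : a = 0
    · rw [h, ha]
      simp
    · have h3 : (r.num : ℤ) ∣ a := by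
        rw [h, ← Rat.divInt_eq_div]
        exact Rat.num_dvd a hb
      exact (Nat.le_of_dvd (Int.natAbs_pos.2 ha) (Int.natAbs_dvd_natAbs.2 h3)).trans h1
  · have h3 : (r.den : ℤ) ∣ b := by
      rw [h, ← Rat.divInt_eq_div]
      exact Rat.den_dvd a b
    have h4 : r.den ∣ b.natAbs := Int.natCast_dvd.1 h3
    exact (Nat.le_of_dvd (Int.natAbs_pos.2 hb) h4).trans h2

theorem HH_mul (x y : ℚ) : HH (x * y) ≤ HH x * HH y := by
  refine HH_le_of (a := x.num * y.num) (b := x.den * y.den)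
    (mul_ne_zero (by exact_mod_cast x.den_pos.ne') (by exact_mod_cast y.den_pos.ne')) ?_ ?_ ?_
  · conv_lhs => rw [← Rat.num_div_den x, ← Rat.num_div_den y]
    push_cast
    rw [div_mul_div_comm]
  · rw [Int.natAbs_mul]
    exact Nat.mul_le_mul (le_max_left _ _) (le_max_left _ _)
  · rw [Int.natAbs_mul, Int.natAbs_natCast, Int.natAbs_natCast]
    exact Nat.mul_le_mul (le_max_right _ _) (le_max_right _ _)

theorem HH_add (x y : ℚ) : HH (x + y) ≤ 2 * (HH x * HH y) := by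
  have hx : (x.den : ℚ) ≠ 0 := by exact_mod_cast x.den_pos.ne'
  have hy : (y.den : ℚ) ≠ 0 := by exact_mod_cast y.den_pos.ne'
  refine HH_le_of (a := x.num * y.den + y.num * x.den) (b := x.den * y.den)
    (mul_ne_zero (by exact_mod_cast x.den_pos.ne') (by exact_mod_cast y.den_pos.ne')) ?_ ?_ ?_
  · conv_lhs => rw [← Rat.num_div_den x, ← Rat.num_div_den y]
    push_cast
    field_simp
  · refine (Int.natAbs_add_le _ _).trans ?_
    rw [Int.natAbs_mul, Int.natAbs_mul, Int.natAbs_natCast, Int.natAbs_natCast]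
    have h1 : x.num.natAbs * y.den ≤ HH x * HH y :=
      Nat.mul_le_mul (le_max_left _ _) (le_max_right _ _)
    have h2 : y.num.natAbs * x.den ≤ HH x * HH y := by
      rw [mul_comm]
      exact Nat.mul_le_mul (le_max_right _ _) (le_max_left _ _)
    omega
  · rw [Int.natAbs_mul, Int.natAbs_natCast, Int.natAbs_natCast]
    have h1 : x.den * y.den ≤ HH x * HH y := Nat.mul_le_mul (le_max_right _ _) (le_max_right _ _)
    omega

theorem HH_neg (x : ℚ) : HH (-x) = HH x := by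
  simp [HH]

theorem HH_sub (x y : ℚ) : HH (x - y) ≤ 2 * (HH x * HH y) := by
  rw [sub_eq_add_neg, ← HH_neg y]
  exact HH_add _ _

theorem HH_inv (x : ℚ) : HH x⁻¹ ≤ HH x := by
  by_cases hx : x = 0
  · rw [hx, inv_zero]
  refine HH_le_of (a := x.den) (b := x.num) (Rat.num_ne_zero.2 hx) ?_ ?_ ?_
  · conv_lhs => rw [← Rat.num_div_den x]
    rw [inv_div]
    push_cast
    rfl
  · rw [Int.natAbs_natCast]
    exact le_max_right _ _
  · exact le_max_left _ _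

theorem HH_div (x y : ℚ) : HH (x / y) ≤ HH x * HH y := by
  rw [div_eq_mul_inv]
  exact (HH_mul _ _).trans (Nat.mul_le_mul_left _ (HH_inv y))

theorem HH_sq (x : ℚ) : HH (x ^ 2) = HH x ^ 2 := by
  unfold HH
  rw [Rat.num_pow, Rat.den_pow, Int.natAbs_pow]
  rcases le_total x.num.natAbs x.den with h | h
  · rw [max_eq_right h, max_eq_right (Nat.pow_le_pow_left h 2)]
  · rw [max_eq_left h, max_eq_left (Nat.pow_le_pow_left h 2)]

theorem HH_abs (x : ℚ) : HH |x| = HH x := by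
  rcases abs_choice x with h | h
  · rw [h]
  · rw [h, HH_neg]

theorem HH_two_mul (x : ℚ) : HH (2 * x) ≤ 2 * HH x := by
  refine (HH_mul _ _).trans ?_
  have : HH (2 : ℚ) = 2 := by simp [HH]
  rw [this]

/-- finitely many rational numbers of bounded height -/
theorem finite_HH (N : ℕ) : {r : ℚ | HH r ≤ N}.Finite := by
  have hfin : ((Set.Icc (-(N : ℤ)) N) ×ˢ (Set.Iic N) : Set (ℤ × ℕ)).Finite :=
    (Set.finite_Icc _ _).prod (Set.finite_Iic _)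
  refine (hfin.preimage (f := fun a : ℚ => (a.num, a.den)) ?_).subset ?_
  · intro a _ b _ h
    exact Rat.ext (congrArg Prod.fst h) (congrArg Prod.snd h)
  · intro a ha
    have h1 : a.num.natAbs ≤ N := (le_max_left _ _).trans ha
    have h2 : a.den ≤ N := (le_max_right _ _).trans ha
    refine ⟨⟨?_, ?_⟩, h2⟩ <;> simp only <;> omega

/-- the heights of the coordinates -/
theorem coord_heights {κ l : ℚ} (hκ : 0 < κ) (hl : l ≠ 0) {H : ℕ} (hH : 2 ≤ H) (hlH : HH l ≤ H)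
    {T : Set (ℚ × ℚ)} (D : ℚ × ℚ → ℚ × ℚ → ℚ) (hD : ∀ P ∈ T, ∀ Q ∈ T, D P Q ^ 2 = qf κ (P - Q))
    (h0 : (0 : ℚ × ℚ) ∈ T) (h1 : ((l, 0) : ℚ × ℚ) ∈ T) (hc : ∃ c ∈ T, c.2 ^ 2 = 1)
    (hT0 : ∀ P ∈ T, HH (D P 0) ≤ H) (hT1 : ∀ P ∈ T, HH (D P (l, 0)) ≤ H) :
    HH κ ≤ H ^ 80 ∧ (∀ P ∈ T, HH P.1 ≤ H ^ 80 ∧ HH P.2 ≤ H ^ 80) ∧
      ∀ P ∈ T, ∀ Q ∈ T, HH (D P Q) ≤ H ^ 80 := by
  have hpow : ∀ a b : ℕ, a + b ≤ 80 → 2 ^ a * H ^ b ≤ H ^ 80 := by
    intro a b hab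
    calc 2 ^ a * H ^ b ≤ H ^ a * H ^ b := Nat.mul_le_mul_right _ (Nat.pow_le_pow_left hH a)
      _ = H ^ (a + b) := (pow_add _ _ _).symm
      _ ≤ H ^ 80 := Nat.pow_le_pow_right (by omega) hab
  have hx : ∀ P ∈ T, HH P.1 ≤ 2 ^ 3 * H ^ 7 := by
    intro P hP
    have e0 := hD P hP 0 h0
    have e1 := hD P hP _ h1
    simp only [qf, sub_zero, Prod.fst_sub, Prod.snd_sub] at e0 e1
    have e : P.1 = (D P 0 ^ 2 - D P (l, 0) ^ 2 + l ^ 2) / (2 * l) := by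
      rw [e0, e1]
      field_simp
      ring
    rw [e]
    refine (HH_div _ _).trans ?_
    have k1 : HH (D P 0 ^ 2 - D P (l, 0) ^ 2) ≤ 2 * (H ^ 2 * H ^ 2) := by
      refine (HH_sub _ _).trans ?_
      rw [HH_sq, HH_sq]
      exact Nat.mul_le_mul_left _ (Nat.mul_le_mul (Nat.pow_le_pow_left (hT0 P hP) 2)
        (Nat.pow_le_pow_left (hT1 P hP) 2))
    have k2 : HH (D P 0 ^ 2 - D P (l, 0) ^ 2 + l ^ 2) ≤ 2 * ((2 * (H ^ 2 * H ^ 2)) * H ^ 2) := by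
      refine (HH_add _ _).trans ?_
      rw [HH_sq]
      exact Nat.mul_le_mul_left _ (Nat.mul_le_mul k1 (Nat.pow_le_pow_left hlH 2))
    have k3 : HH (2 * l) ≤ 2 * H := (HH_two_mul l).trans (Nat.mul_le_mul_left _ hlH)
    calc HH (D P 0 ^ 2 - D P (l, 0) ^ 2 + l ^ 2) * HH (2 * l) ≤
          (2 * ((2 * (H ^ 2 * H ^ 2)) * H ^ 2)) * (2 * H) := Nat.mul_le_mul k2 k3
      _ = 2 ^ 3 * H ^ 7 := by ring
  have hκh : HH κ ≤ 2 ^ 7 * H ^ 16 := by
    obtain ⟨c, hcT, hc2⟩ := hc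
    have e0 := hD c hcT 0 h0
    simp only [qf, sub_zero, hc2, mul_one] at e0
    have e : κ = D c 0 ^ 2 - c.1 ^ 2 := by rw [e0]; ring
    rw [e]
    refine (HH_sub _ _).trans ?_
    rw [HH_sq, HH_sq]
    calc 2 * (HH (D c 0) ^ 2 * HH c.1 ^ 2) ≤ 2 * (H ^ 2 * (2 ^ 3 * H ^ 7) ^ 2) :=
          Nat.mul_le_mul_left _ (Nat.mul_le_mul (Nat.pow_le_pow_left (hT0 c hcT) 2)
            (Nat.pow_le_pow_left (hx c hcT) 2))
      _ = 2 ^ 7 * H ^ 16 := by ring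
  have hy : ∀ P ∈ T, HH P.2 ≤ 2 ^ 7 * H ^ 16 := by
    intro P hP
    have e0 := hD P hP 0 h0
    simp only [qf, sub_zero] at e0
    have e : P.2 ^ 2 = (D P 0 ^ 2 - P.1 ^ 2) / κ := by
      rw [e0]
      field_simp
      ring
    have k1 : HH (P.2 ^ 2) ≤ (2 ^ 7 * H ^ 16) ^ 2 := by
      rw [e]
      refine (HH_div _ _).trans ?_
      have k2 : HH (D P 0 ^ 2 - P.1 ^ 2) ≤ 2 * (H ^ 2 * (2 ^ 3 * H ^ 7) ^ 2) := by
        refine (HH_sub _ _).trans ?_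
        rw [HH_sq, HH_sq]
        exact Nat.mul_le_mul_left _ (Nat.mul_le_mul (Nat.pow_le_pow_left (hT0 P hP) 2)
          (Nat.pow_le_pow_left (hx P hP) 2))
      calc HH (D P 0 ^ 2 - P.1 ^ 2) * HH κ ≤
            (2 * (H ^ 2 * (2 ^ 3 * H ^ 7) ^ 2)) * (2 ^ 7 * H ^ 16) := Nat.mul_le_mul k2 hκh
        _ = (2 ^ 7 * H ^ 16) ^ 2 := by ring
    rw [HH_sq] at k1
    exact (Nat.pow_le_pow_iff_left two_ne_zero).1 k1
  refine ⟨hκh.trans (hpow _ _ (by norm_num)), fun P hP => ⟨(hx P hP).trans (hpow _ _ (by norm_num)),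
    (hy P hP).trans (hpow _ _ (by norm_num))⟩, fun P hP Q hQ => ?_⟩
  have k1 : HH (D P Q ^ 2) ≤ (2 ^ 26 * H ^ 54) ^ 2 := by
    rw [hD P hP Q hQ]
    simp only [qf, Prod.fst_sub, Prod.snd_sub]
    have a1 : HH ((P.1 - Q.1) ^ 2) ≤ (2 * ((2 ^ 3 * H ^ 7) * (2 ^ 3 * H ^ 7))) ^ 2 := by
      rw [HH_sq]
      exact Nat.pow_le_pow_left ((HH_sub _ _).trans (Nat.mul_le_mul_left _
        (Nat.mul_le_mul (hx P hP) (hx Q hQ)))) 2
    have a2 : HH (κ * (P.2 - Q.2) ^ 2) ≤ (2 ^ 7 * H ^ 16) *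
        (2 * ((2 ^ 7 * H ^ 16) * (2 ^ 7 * H ^ 16))) ^ 2 := by
      refine (HH_mul _ _).trans (Nat.mul_le_mul hκh ?_)
      rw [HH_sq]
      exact Nat.pow_le_pow_left ((HH_sub _ _).trans (Nat.mul_le_mul_left _
        (Nat.mul_le_mul (hy P hP) (hy Q hQ)))) 2
    refine (HH_add _ _).trans ((Nat.mul_le_mul_left _ (Nat.mul_le_mul a1 a2)).trans (le_of_eq ?_))
    ring
  rw [HH_sq] at k1
  exact ((Nat.pow_le_pow_iff_left two_ne_zero).1 k1).trans (hpow _ _ (by norm_num))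

end Pool.Agent.Lib.MP_bc4313_co
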