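import Mathlib
import Pool.Agent.Lib.MP_bc4313_co.Far

/-!
Points close to a point of the set: inversion.
-/

namespace Pool.Agent.Lib.MP_bc4313_co

open Finset

/-- inversion -/
def inv (κ : ℚ) (P : ℚ × ℚ) : ℚ × ℚ := ((qf κ P)⁻¹ * P.1, (qf κ P)⁻¹ * P.2)

theorem qf_pos {κ : ℚ} (hκ : 0 < κ) {P : ℚ × ℚ} (hP : P ≠ 0) : 0 < qf κ P := by
  by_contra h
  push Not at h
  simp only [qf] at h
  have h1 : P.1 ^ 2 = 0 := by nlinarith [sq_nonneg P.1, mul_nonneg hκ.le (sq_nonneg P.2)]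
  have h2 : κ * P.2 ^ 2 = 0 := by nlinarith [sq_nonneg P.1, mul_nonneg hκ.le (sq_nonneg P.2)]
  have h3 : P.2 ^ 2 = 0 := (mul_eq_zero.1 h2).resolve_left hκ.ne'
  exact hP (Prod.ext (pow_eq_zero_iff two_ne_zero |>.1 h1) (pow_eq_zero_iff two_ne_zero |>.1 h3))

theorem inv_zero (κ : ℚ) : inv κ 0 = 0 := by
  simp [inv]

theorem qf_zero (κ : ℚ) : qf κ 0 = 0 := by simp [qf]

theorem qf_inv {κ : ℚ} (hκ : 0 < κ) {P : ℚ × ℚ} (hP : P ≠ 0) : qf κ (inv κ P) = (qf κ P)⁻¹ := by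
  have h := (qf_pos hκ hP).ne'
  have e : qf κ (inv κ P) = ((qf κ P)⁻¹) ^ 2 * qf κ P := by
    simp only [inv]
    simp only [qf]
    ring
  rw [e]
  field_simp

theorem inv_ne_zero' {κ : ℚ} (hκ : 0 < κ) {P : ℚ × ℚ} (hP : P ≠ 0) : inv κ P ≠ 0 := by
  intro h
  have h1 := qf_inv hκ hP
  rw [h, qf_zero] at h1
  exact (inv_pos.2 (qf_pos hκ hP)).ne h1

theorem inv_inv' {κ : ℚ} (hκ : 0 < κ) (P : ℚ × ℚ) : inv κ (inv κ P) = P := by
  by_cases hP : P = 0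
  · rw [hP, inv_zero, inv_zero]
  · have h := (qf_pos hκ hP).ne'
    have h1 := qf_inv hκ hP
    have e : inv κ (inv κ P) = ((qf κ (inv κ P))⁻¹ * ((qf κ P)⁻¹ * P.1),
      (qf κ (inv κ P))⁻¹ * ((qf κ P)⁻¹ * P.2)) := rfl
    rw [e, h1, _root_.inv_inv]
    ext
    · change qf κ P * ((qf κ P)⁻¹ * P.1) = P.1
      rw [← mul_assoc, mul_inv_cancel₀ h, one_mul]
    · change qf κ P * ((qf κ P)⁻¹ * P.2) = P.2
      rw [← mul_assoc, mul_inv_cancel₀ h, one_mul]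

theorem qf_sub_inv {κ : ℚ} (hκ : 0 < κ) {P Q : ℚ × ℚ} (hP : P ≠ 0) (hQ : Q ≠ 0) :
    qf κ (inv κ P - inv κ Q) = qf κ (P - Q) * (qf κ P)⁻¹ * (qf κ Q)⁻¹ := by
  have h1 := (qf_pos hκ hP).ne'
  have h2 := (qf_pos hκ hQ).ne'
  have e : qf κ (inv κ P - inv κ Q) = (qf κ P)⁻¹ ^ 2 * qf κ P + (qf κ Q)⁻¹ ^ 2 * qf κ Q -
      2 * (qf κ P)⁻¹ * (qf κ Q)⁻¹ * (P.1 * Q.1 + κ * P.2 * Q.2) := by
    simp only [inv, Prod.mk_sub_mk]
    simp only [qf]
    ring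
  have e2 : qf κ (P - Q) = qf κ P + qf κ Q - 2 * (P.1 * Q.1 + κ * P.2 * Q.2) := by
    simp only [qf, Prod.fst_sub, Prod.snd_sub]
    ring
  rw [e, e2]
  field_simp
  ring

/-- the distances after inversion -/
noncomputable def ddi (κ : ℚ) (dd : ℚ × ℚ → ℚ × ℚ → ℚ) (P Q : ℚ × ℚ) : ℚ :=
  if P = 0 then (dd (inv κ Q) 0)⁻¹ else if Q = 0 then (dd (inv κ P) 0)⁻¹ else
    dd (inv κ P) (inv κ Q) / (dd (inv κ P) 0 * dd (inv κ Q) 0)

theorem ddi_sq {κ : ℚ} (hκ : 0 < κ) {S : Set (ℚ × ℚ)} {dd : ℚ × ℚ → ℚ × ℚ → ℚ} (h0 : 0 ∈ S)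
    (hdd : ∀ P ∈ S, ∀ Q ∈ S, dd P Q ^ 2 = qf κ (P - Q)) {P Q : ℚ × ℚ} (hP : inv κ P ∈ S)
    (hQ : inv κ Q ∈ S) : ddi κ dd P Q ^ 2 = qf κ (P - Q) := by
  have hz : ∀ R : ℚ × ℚ, inv κ R ∈ S → dd (inv κ R) 0 ^ 2 = (qf κ R)⁻¹ := by
    intro R hR
    rw [hdd _ hR 0 h0, sub_zero]
    by_cases hR0 : R = 0
    · rw [hR0, inv_zero, qf_zero, _root_.inv_zero]
    · exact qf_inv hκ hR0
  have hneg : ∀ R : ℚ × ℚ, qf κ (0 - R) = qf κ R := by
    intro R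
    simp [qf]
  unfold ddi
  split_ifs with h1 h2
  · rw [h1, hneg, inv_pow, hz Q hQ, _root_.inv_inv]
  · rw [h2, sub_zero, inv_pow, hz P hP, _root_.inv_inv]
  · rw [div_pow, mul_pow, hz P hP, hz Q hQ, hdd _ hP _ hQ, qf_sub_inv hκ h1 h2]
    have h3 := (qf_pos hκ h1).ne'
    have h4 := (qf_pos hκ h2).ne'
    field_simp

/-- the near case -/
theorem near_curve {κ : ℚ} (hκ : 0 < κ) {N : ℕ} (hN : N ≠ 0)
    (hns : ∀ p : N.primeFactors, ¬ IsSquare ((-κ : ℚ) : ℚ_[p])) {S : Set (ℚ × ℚ)}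
    {dd : ℚ × ℚ → ℚ × ℚ → ℚ} (h0 : 0 ∈ S) (hdd : ∀ P ∈ S, ∀ Q ∈ S, dd P Q ^ 2 = qf κ (P - Q))
    {l : ℚ} (hl : l ≠ 0) (hlS : (l, 0) ∈ S)
    {S' : Set (ℚ × ℚ)} (hS' : S' ⊆ S) (hS'0 : 0 ∉ S') (hinf : S'.Infinite) (K : ℕ)
    (hK : ∀ P ∈ S', (HH (dd P 0) * HH (dd P (l, 0)) : ℝ) ≤ (HV N (dd P 0)⁻¹) ^ K) :
    ∃ α β γ : ℝ, (α ≠ 0 ∨ β ≠ 0) ∧
      {P ∈ S | P ≠ 0 ∧ α * P.1 + β * P.2 + γ * qf κ P ≠ 0}.Finite := by
  obtain ⟨C, hC, hden⟩ := exists_den_coord hκ hl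
  obtain ⟨C1, hC1, hHV1⟩ := HV_le hκ hN hns 0
  have hinj : Function.Injective (inv κ) := fun P Q h => by
    rw [← inv_inv' hκ P, h, inv_inv' hκ]
  obtain ⟨α, β, γ, hαβ, hfin⟩ := line_of_den hκ hN hns (S := {P | inv κ P ∈ S}) (dd := ddi κ dd)
    (by rw [Set.mem_ofPred_eq, inv_zero]; exact h0)
    (fun P hP Q hQ => ddi_sq hκ h0 hdd hP hQ)
    (S' := {P | inv κ P ∈ S'}) (fun P hP => hS' hP)
    (by
      refine (hinf.image (f := inv κ) hinj.injOn).mono ?_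
      rintro _ ⟨P, hP, rfl⟩
      rw [Set.mem_ofPred_eq, inv_inv' hκ]
      exact hP) (4 * K) (C * C1 ^ (4 * K)) (by positivity) (by
      intro p hp
      set P := inv κ p with hPdef
      have hP : P ∈ S' := hp
      have hP0 : P ≠ 0 := fun h => hS'0 (h ▸ hP)
      have hp0 : p ≠ 0 := by
        rintro rfl
        exact hP0 (inv_zero κ)
      have hpP : p = inv κ P := by rw [hPdef, inv_inv' hκ]
      set a := dd P 0 with ha
      set b := dd P (l, 0) with hb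
      have ha2 : a ^ 2 = qf κ P := by rw [ha, hdd P (hS' hP) 0 h0, sub_zero]
      have hb2 : b ^ 2 = qf κ (P - (l, 0)) := hdd P (hS' hP) _ hlS
      have ha0 : a ≠ 0 := by
        intro h
        rw [h] at ha2
        have := qf_pos hκ hP0
        rw [← ha2] at this
        simp at this
      obtain ⟨z1, z2, hz1, hz2⟩ := hden P a b ha2 hb2
      have haa : (a.den : ℚ) * a = a.num := Rat.den_mul_eq_num a
      have hnat : ((a.num.natAbs : ℕ) : ℚ) ^ 2 = (a.num : ℚ) ^ 2 := by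
        rw [Nat.cast_natAbs, Int.cast_abs, sq_abs]
      have hcomp : ∀ (x : ℚ) (z : ℤ), ((C * (a.den * b.den) ^ 2 : ℕ) : ℚ) * x = z →
          ((C * (a.den * b.den) ^ 2 * a.num.natAbs ^ 2 : ℕ) : ℚ) * ((qf κ P)⁻¹ * x) ∈ OV N := by
        intro x z hz
        have e : ((C * (a.den * b.den) ^ 2 * a.num.natAbs ^ 2 : ℕ) : ℚ) * ((qf κ P)⁻¹ * x) =
            ((z * a.den ^ 2 : ℤ) : ℚ) := by
          push_cast at hz ⊢
          rw [hnat, ← haa, ← ha2, ← hz]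
          field_simp
        rw [e]
        exact int_mem_OV _
      refine ⟨C * (a.den * b.den) ^ 2 * a.num.natAbs ^ 2, ?_, ?_, ?_, ?_⟩
      · have h1 := a.den_pos
        have h2 := b.den_pos
        have h3 : 0 < a.num.natAbs := Int.natAbs_pos.2 (Rat.num_ne_zero.2 ha0)
        positivity
      · rw [hpP]
        exact hcomp _ z1 hz1
      · rw [hpP]
        exact hcomp _ z2 hz2
      · set h := (plV hκ hN hns).hv p with hh
        have hh0 : 0 ≤ h := zero_le_one.trans ((plV hκ hN hns).one_le_hv p)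
        have h1 : HV N a⁻¹ ≤ C1 * h := by
          refine hHV1 p _ ?_
          rw [sub_zero, inv_pow, ha2, hpP, qf_inv hκ hP0]
        have e1 : (a.den : ℝ) ≤ HH a := Nat.cast_le.2 (le_max_right _ _)
        have e2 : (b.den : ℝ) ≤ HH b := Nat.cast_le.2 (le_max_right _ _)
        have e3 : (a.num.natAbs : ℝ) ≤ HH a := Nat.cast_le.2 (le_max_left _ _)
        have e4 : (1 : ℝ) ≤ HH b := Nat.one_le_cast.2 (one_le_HH b)
        have e5 : (0 : ℝ) ≤ HH a := Nat.cast_nonneg _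
        have h3 : ((a.den : ℝ) * b.den) ^ 2 * (a.num.natAbs : ℝ) ^ 2 ≤ (HH a * HH b : ℝ) ^ 4 := by
          calc ((a.den : ℝ) * b.den) ^ 2 * (a.num.natAbs : ℝ) ^ 2 ≤
                ((HH a : ℝ) * HH b) ^ 2 * (HH a * HH b : ℝ) ^ 2 := by
                have : (a.num.natAbs : ℝ) ≤ HH a * HH b :=
                  e3.trans (le_mul_of_one_le_right e5 e4)
                gcongr
            _ = _ := by ring
        push_cast
        calc (C : ℝ) * ((a.den : ℝ) * b.den) ^ 2 * (a.num.natAbs : ℝ) ^ 2 =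
              C * (((a.den : ℝ) * b.den) ^ 2 * (a.num.natAbs : ℝ) ^ 2) := by ring
          _ ≤ C * ((HV N a⁻¹) ^ K) ^ 4 := by
              have := hK P hP
              have h5 : (HH a * HH b : ℝ) ^ 4 ≤ ((HV N a⁻¹) ^ K) ^ 4 := by gcongr
              exact mul_le_mul_of_nonneg_left (h3.trans h5) (Nat.cast_nonneg C)
          _ ≤ C * ((C1 * h) ^ K) ^ 4 := by
              have := zero_le_one.trans (one_le_HV N a⁻¹)
              gcongr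
          _ = C * C1 ^ (4 * K) * h ^ (4 * K) := by ring)
  refine ⟨α, β, γ, hαβ, ?_⟩
  refine (hfin.image (inv κ)).subset ?_
  rintro P ⟨hP, hP0, hne⟩
  refine ⟨inv κ P, ⟨?_, ?_⟩, inv_inv' hκ P⟩
  · rw [Set.mem_ofPred_eq, inv_inv' hκ]
    exact hP
  · intro h
    apply hne
    have hq := (qf_pos hκ hP0).ne'
    have hq' : ((qf κ P : ℚ) : ℝ) ≠ 0 := by exact_mod_cast hq
    have e1 : (((inv κ P).1 : ℚ) : ℝ) = (qf κ P : ℝ)⁻¹ * P.1 := by
      simp only [inv]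
      push_cast
      ring
    have e2 : (((inv κ P).2 : ℚ) : ℝ) = (qf κ P : ℝ)⁻¹ * P.2 := by
      simp only [inv]
      push_cast
      ring
    rw [e1, e2] at h
    field_simp at h
    linear_combination h

end Pool.Agent.Lib.MP_bc4313_co
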