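import Mathlib
import Pool.Agent.Lib.MP_bc4313_co.Near

/-!
Rational coordinates for a rational distance set in the Euclidean plane.
-/

namespace Pool.Agent.Lib.MP_bc4313_co

open Finset

/-- the Euclidean plane -/
abbrev Plane : Type := EuclideanSpace ℝ (Fin 2)

/-- all distances between points of `S` are rational -/
def RationalDistances (S : Set Plane) : Prop := ∀ P ∈ S, ∀ Q ∈ S, ∃ r : ℚ, dist P Q = r

/-- twice the signed area of a triangle -/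
def cross (P Q R : Plane) : ℝ := (Q 0 - P 0) * (R 1 - P 1) - (Q 1 - P 1) * (R 0 - P 0)

/-- the point with given coordinates -/
noncomputable def pt (A : Plane) (u0 u1 s : ℝ) (p : ℚ × ℚ) : Plane :=
  !₂[A 0 + p.1 * u0 - s * p.2 * u1, A 1 + p.1 * u1 + s * p.2 * u0]

theorem pt_zero (A : Plane) (u0 u1 s : ℝ) (p : ℚ × ℚ) :
    pt A u0 u1 s p 0 = A 0 + p.1 * u0 - s * p.2 * u1 := by
  simp [pt]

theorem pt_one (A : Plane) (u0 u1 s : ℝ) (p : ℚ × ℚ) :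
    pt A u0 u1 s p 1 = A 1 + p.1 * u1 + s * p.2 * u0 := by
  simp [pt]

theorem plane_ext {P Q : Plane} (h0 : P 0 = Q 0) (h1 : P 1 = Q 1) : P = Q := by
  ext i
  fin_cases i
  · exact h0
  · exact h1

theorem dist_sq (P Q : Plane) : dist P Q ^ 2 = (P 0 - Q 0) ^ 2 + (P 1 - Q 1) ^ 2 := by
  rw [EuclideanSpace.dist_eq, Real.sq_sqrt (by positivity), Fin.sum_univ_two, Real.dist_eq,
    Real.dist_eq, sq_abs, sq_abs]

theorem dist_pt (A : Plane) {u0 u1 s : ℝ} (hu : u0 ^ 2 + u1 ^ 2 = 1) (p q : ℚ × ℚ) :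
    dist (pt A u0 u1 s p) (pt A u0 u1 s q) ^ 2 =
      ((p.1 : ℝ) - q.1) ^ 2 + s ^ 2 * ((p.2 : ℝ) - q.2) ^ 2 := by
  rw [dist_sq, pt_zero, pt_zero, pt_one, pt_one]
  linear_combination (((p.1 : ℝ) - q.1) ^ 2 + s ^ 2 * ((p.2 : ℝ) - q.2) ^ 2) * hu

/-- rational coordinates -/
theorem exists_coord {S : Set Plane} (hS : RationalDistances S) {A B C : Plane} (hA : A ∈ S)
    (hB : B ∈ S) (hC : C ∈ S) (hne : cross A B C ≠ 0) :
    ∃ (u0 u1 s : ℝ) (κ l : ℚ), u0 ^ 2 + u1 ^ 2 = 1 ∧ 0 < κ ∧ s ≠ 0 ∧ s ^ 2 = κ ∧ l ≠ 0 ∧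
      pt A u0 u1 s 0 = A ∧ pt A u0 u1 s (l, 0) = B ∧ (cross A B C) ^ 2 = ((l ^ 2 * κ : ℚ) : ℝ) ∧
      ∀ P ∈ S, ∃ p : ℚ × ℚ, P = pt A u0 u1 s p := by
  have hAB : A ≠ B := by
    rintro rfl
    apply hne
    simp [cross]
  obtain ⟨l, hl⟩ := hS A hA B hB
  have hl0 : (l : ℝ) ≠ 0 := by
    rw [← hl]
    exact (dist_pos.2 hAB).ne'
  have hlq : l ≠ 0 := by exact_mod_cast hl0
  have hlsq : (l : ℝ) ^ 2 = (B 0 - A 0) ^ 2 + (B 1 - A 1) ^ 2 := by
    rw [← hl, dist_sq]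
    ring
  set u0 : ℝ := (B 0 - A 0) / l with hu0
  set u1 : ℝ := (B 1 - A 1) / l with hu1
  have hu0' : u0 * l = B 0 - A 0 := div_mul_cancel₀ _ hl0
  have hu1' : u1 * l = B 1 - A 1 := div_mul_cancel₀ _ hl0
  have hu : u0 ^ 2 + u1 ^ 2 = 1 := by
    rw [hu0, hu1, div_pow, div_pow, ← add_div, ← hlsq, div_self (pow_ne_zero 2 hl0)]
  set X : Plane → ℝ := fun P => (P 0 - A 0) * u0 + (P 1 - A 1) * u1 with hX
  set Z : Plane → ℝ := fun P => -(P 0 - A 0) * u1 + (P 1 - A 1) * u0 with hZ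
  have hXZ : ∀ P, X P ^ 2 + Z P ^ 2 = dist P A ^ 2 := by
    intro P
    rw [dist_sq]
    simp only [hX, hZ]
    linear_combination ((P 0 - A 0) ^ 2 + (P 1 - A 1) ^ 2) * hu
  have hXB : ∀ P, 2 * l * X P = dist P A ^ 2 + l ^ 2 - dist P B ^ 2 := by
    intro P
    rw [dist_sq, dist_sq]
    simp only [hX]
    linear_combination (2 * (P 0 - A 0)) * hu0' + (2 * (P 1 - A 1)) * hu1' - hlsq +
      (0 : ℝ) * hu
  have hXrat : ∀ P ∈ S, ∃ x : ℚ, X P = x := by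
    intro P hP
    obtain ⟨a, ha⟩ := hS P hP A hA
    obtain ⟨b, hb⟩ := hS P hP B hB
    refine ⟨(a ^ 2 + l ^ 2 - b ^ 2) / (2 * l), ?_⟩
    have := hXB P
    rw [ha, hb] at this
    push_cast
    field_simp
    linear_combination this
  have hcross : cross A B C = l * Z C := by
    simp only [cross, hZ]
    rw [← hu0', ← hu1']
    ring
  have hZC : Z C ≠ 0 := by
    intro h
    rw [hcross, h, mul_zero] at hne
    exact hne rfl
  obtain ⟨xc, hxc⟩ := hXrat C hC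
  obtain ⟨c, hc⟩ := hS C hC A hA
  have hκ : Z C ^ 2 = ((c ^ 2 - xc ^ 2 : ℚ) : ℝ) := by
    have := hXZ C
    rw [hxc, hc] at this
    push_cast
    linarith
  have hκ0 : (0 : ℝ) < ((c ^ 2 - xc ^ 2 : ℚ) : ℝ) := by
    rw [← hκ]
    positivity
  refine ⟨u0, u1, Z C, c ^ 2 - xc ^ 2, l, hu, by exact_mod_cast hκ0, hZC, hκ, hlq, ?_, ?_, ?_, ?_⟩
  · refine plane_ext ?_ ?_
    · rw [pt_zero]; simp
    · rw [pt_one]; simp
  · refine plane_ext ?_ ?_
    · rw [pt_zero]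
      push_cast
      linear_combination hu0'
    · rw [pt_one]
      push_cast
      linear_combination hu1'
  · rw [hcross, mul_pow, hκ]
    push_cast
    ring
  · intro P hP
    obtain ⟨x, hx⟩ := hXrat P hP
    obtain ⟨a, ha⟩ := hS P hP A hA
    obtain ⟨d, hd⟩ := hS P hP C hC
    have hprod : Z P * Z C = (a ^ 2 + c ^ 2 - d ^ 2) / 2 - x * xc := by
      have h1 : dist P C ^ 2 = (X P - X C) ^ 2 + (Z P - Z C) ^ 2 := by
        rw [dist_sq]
        simp only [hX, hZ]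
        linear_combination (-((P 0 - C 0) ^ 2 + (P 1 - C 1) ^ 2)) * hu
      have h2 := hXZ P
      have h3 := hXZ C
      rw [hd, hx, hxc] at h1
      rw [hx, ha] at h2
      rw [hxc, hc] at h3
      linear_combination (1 / 2) * h1 + (1 / 2) * h2 + (1 / 2) * h3
    refine ⟨(x, ((a ^ 2 + c ^ 2 - d ^ 2) / 2 - x * xc) / (c ^ 2 - xc ^ 2)), ?_⟩
    have hη : Z C * (((((a ^ 2 + c ^ 2 - d ^ 2) / 2 - x * xc) / (c ^ 2 - xc ^ 2) : ℚ)) : ℝ) = Z P := by
      rw [Rat.cast_div, ← hκ]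
      push_cast
      rw [← hprod]
      field_simp
    refine plane_ext ?_ ?_
    · rw [pt_zero]
      simp only
      rw [hη, ← hx]
      simp only [hX, hZ]
      linear_combination (-(P 0 - A 0)) * hu
    · rw [pt_one]
      simp only
      rw [hη, ← hx]
      simp only [hX, hZ]
      linear_combination (-(P 1 - A 1)) * hu

end Pool.Agent.Lib.MP_bc4313_co
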