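import Mathlib
import Pool.Agent.Lib.MP_bc4313_co.Geo

/-!
Infinite rational distance sets with a sequence of points whose distances from two points of the set
have a positive proportion of their height at infinity and at finitely many non-split primes.
-/

namespace Pool.Agent.Lib.MP_bc4313_co

open Finset

/-- For each prime `p` dividing `N`, no number `-r` is a square in `ℚ_p`, where `r` is the square of
twice the area of a triangle with vertices in `S` and nonzero area. -/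
def NonSplit (N : ℕ) (S : Set Plane) : Prop :=
  ∀ (p : ℕ) [Fact p.Prime], p ∣ N → ∀ P ∈ S, ∀ Q ∈ S, ∀ R ∈ S, ∀ r : ℚ,
    (cross P Q R) ^ 2 = r → r ≠ 0 → ¬ IsSquare ((-r : ℚ) : ℚ_[p])

/-- all but finitely many points of `S` lie on a line -/
def OnLine (S : Set Plane) : Prop :=
  ∃ α β γ : ℝ, (α ≠ 0 ∨ β ≠ 0) ∧ {P ∈ S | α * P 0 + β * P 1 + γ ≠ 0}.Finite

/-- all but finitely many points of `S` lie on a circle -/
def OnCircle (S : Set Plane) : Prop :=
  ∃ c : Plane, ∃ r : ℝ, 0 < r ∧ (S \ Metric.sphere c r).Finite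

theorem line_conv (A : Plane) {u0 u1 s : ℝ} (hu : u0 ^ 2 + u1 ^ 2 = 1) (hs : s ≠ 0)
    {α β : ℝ} (γ : ℝ) (h : α ≠ 0 ∨ β ≠ 0) : ∃ α' β' γ' : ℝ, (α' ≠ 0 ∨ β' ≠ 0) ∧
      ∀ p, α' * (pt A u0 u1 s p 0) + β' * (pt A u0 u1 s p 1) + γ' = α * p.1 + β * p.2 + γ := by
  refine ⟨α * u0 - β * u1 / s, α * u1 + β * u0 / s,
    γ - (α * u0 - β * u1 / s) * A 0 - (α * u1 + β * u0 / s) * A 1, ?_, fun p => ?_⟩
  · by_contra hcon
    push Not at hcon
    obtain ⟨h1, h2⟩ := hcon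
    have h3 : α = 0 := by linear_combination u0 * h1 + u1 * h2 - α * hu
    have h4 : β / s = 0 := by linear_combination -u1 * h1 + u0 * h2 - (β / s) * hu
    have h5 : β = 0 := (div_eq_zero_iff.1 h4).resolve_right hs
    rcases h with h | h
    · exact h h3
    · exact h h5
  · rw [pt_zero, pt_one]
    have e1 : β / s * (s * p.2) = β * p.2 := by field_simp
    linear_combination (α * p.1 + β / s * (s * p.2)) * hu + e1

theorem circle_conv (A : Plane) {u0 u1 s : ℝ} (hu : u0 ^ 2 + u1 ^ 2 = 1) (hs : s ≠ 0)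
    {α β γ : ℝ} (hγ : γ ≠ 0) (h : α ≠ 0 ∨ β ≠ 0) : ∃ (c : Plane) (r : ℝ), 0 < r ∧
      ∀ p : ℚ × ℚ, α * p.1 + β * p.2 + γ * ((p.1 : ℝ) ^ 2 + s ^ 2 * (p.2 : ℝ) ^ 2) = 0 →
        dist (pt A u0 u1 s p) c = r := by
  set a : ℝ := α * u0 - β * u1 / s with ha
  set b : ℝ := α * u1 + β * u0 / s with hb
  have hab : a ^ 2 + b ^ 2 = α ^ 2 + (β / s) ^ 2 := by
    rw [ha, hb]
    linear_combination (α ^ 2 + (β / s) ^ 2) * hu
  have hpos : 0 < a ^ 2 + b ^ 2 := by
    rw [hab]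
    rcases h with h | h
    · positivity
    · have : β / s ≠ 0 := div_ne_zero h hs
      positivity
  refine ⟨!₂[A 0 - a / (2 * γ), A 1 - b / (2 * γ)], Real.sqrt ((a ^ 2 + b ^ 2) / (4 * γ ^ 2)),
    Real.sqrt_pos.2 (by positivity), fun p hp => ?_⟩
  rw [← Real.sqrt_sq (dist_nonneg (x := pt A u0 u1 s p))]
  congr 1
  rw [dist_sq, pt_zero, pt_one]
  have e0 : (!₂[A 0 - a / (2 * γ), A 1 - b / (2 * γ)] : Plane) 0 = A 0 - a / (2 * γ) := by simp
  have e1 : (!₂[A 0 - a / (2 * γ), A 1 - b / (2 * γ)] : Plane) 1 = A 1 - b / (2 * γ) := by simp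
  rw [e0, e1]
  have e2 : (p.1 * u0 - s * p.2 * u1) * a + (p.1 * u1 + s * p.2 * u0) * b =
      α * p.1 + β * p.2 := by
    rw [ha, hb]
    have e3 : β / s * (s * p.2) = β * p.2 := by field_simp
    linear_combination (α * p.1 + β / s * (s * p.2)) * hu + e3
  have e4 : (p.1 * u0 - s * p.2 * u1) ^ 2 + (p.1 * u1 + s * p.2 * u0) ^ 2 =
      (p.1 : ℝ) ^ 2 + s ^ 2 * (p.2 : ℝ) ^ 2 := by
    linear_combination ((p.1 : ℝ) ^ 2 + s ^ 2 * (p.2 : ℝ) ^ 2) * hu
  have e5 : (A 0 + p.1 * u0 - s * p.2 * u1 - (A 0 - a / (2 * γ))) ^ 2 +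
      (A 1 + p.1 * u1 + s * p.2 * u0 - (A 1 - b / (2 * γ))) ^ 2 =
      ((p.1 * u0 - s * p.2 * u1) ^ 2 + (p.1 * u1 + s * p.2 * u0) ^ 2) +
      ((p.1 * u0 - s * p.2 * u1) * a + (p.1 * u1 + s * p.2 * u0) * b) / γ +
      (a ^ 2 + b ^ 2) / (4 * γ ^ 2) := by
    field_simp
    ring
  rw [e5, e2, e4]
  have e6 : (p.1 : ℝ) ^ 2 + s ^ 2 * (p.2 : ℝ) ^ 2 + (α * p.1 + β * p.2) / γ = 0 := by
    field_simp
    linear_combination hp
  linear_combination e6

/-- the rational distance between two points in coordinates -/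
noncomputable def dpt (T : ℚ × ℚ → Plane) (p q : ℚ × ℚ) : ℚ := by
  classical
  exact if h : ∃ r : ℚ, dist (T p) (T q) = r then h.choose else 0

theorem dpt_spec {T : ℚ × ℚ → Plane} {p q : ℚ × ℚ} (h : ∃ r : ℚ, dist (T p) (T q) = r) :
    dist (T p) (T q) = dpt T p q := by
  unfold dpt
  rw [dif_pos h]
  exact h.choose_spec

/-- the coordinates of a set which is not collinear, with all the hypotheses of the theorems in
coordinates -/
theorem setup {S : Set Plane} (hS : RationalDistances S) {N : ℕ} (hns : NonSplit N S)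
    {A B C : Plane} (hA : A ∈ S) (hB : B ∈ S) (hC : C ∈ S) (hne : cross A B C ≠ 0) :
    ∃ (u0 u1 s : ℝ) (κ l : ℚ), u0 ^ 2 + u1 ^ 2 = 1 ∧ 0 < κ ∧ s ≠ 0 ∧ s ^ 2 = κ ∧ l ≠ 0 ∧
      pt A u0 u1 s 0 = A ∧ pt A u0 u1 s (l, 0) = B ∧
      (∀ P ∈ S, ∃ p : ℚ × ℚ, P = pt A u0 u1 s p) ∧
      (∀ p : N.primeFactors, ¬ IsSquare ((-κ : ℚ) : ℚ_[p])) ∧
      ∀ p q : ℚ × ℚ, pt A u0 u1 s p ∈ S → pt A u0 u1 s q ∈ S →
        dpt (pt A u0 u1 s) p q ^ 2 = qf κ (p - q) := by
  obtain ⟨u0, u1, s, κ, l, hu, hκ, hs, hsκ, hl, hpA, hpB, hcr, hex⟩ :=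
    exists_coord hS hA hB hC hne
  refine ⟨u0, u1, s, κ, l, hu, hκ, hs, hsκ, hl, hpA, hpB, hex, ?_, ?_⟩
  · intro p hsq
    have hr0 : l ^ 2 * κ ≠ 0 := mul_ne_zero (pow_ne_zero 2 hl) hκ.ne'
    refine hns p (Nat.dvd_of_mem_primeFactors p.2) A hA B hB C hC (l ^ 2 * κ) hcr hr0 ?_
    obtain ⟨t, ht⟩ := hsq
    refine ⟨(l : ℚ_[p]) * t, ?_⟩
    push_cast at ht ⊢
    linear_combination (l : ℚ_[p]) ^ 2 * ht
  · intro p q hp hq
    have h1 := dpt_spec (T := pt A u0 u1 s) (hS _ hp _ hq)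
    have h2 := dist_pt A (s := s) hu p q
    rw [h1, hsκ] at h2
    simp only [qf, Prod.fst_sub, Prod.snd_sub]
    exact_mod_cast h2

/-- the far case -/
theorem far_plane {S : Set Plane} (hS : RationalDistances S) {N : ℕ} (hN : N ≠ 0)
    (hns : NonSplit N S) {A B C : Plane} (hA : A ∈ S) (hB : B ∈ S) (hC : C ∈ S)
    (hne : cross A B C ≠ 0) {S' : Set Plane} (hS' : S' ⊆ S) (hinf : S'.Infinite) (K : ℕ)
    (hK : ∀ P ∈ S', ∀ a b : ℚ, dist P A = a → dist P B = b →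
      (HH a * HH b : ℝ) ≤ (HV N a * HV N b) ^ K) : OnLine S := by
  obtain ⟨u0, u1, s, κ, l, hu, hκ, hs, hsκ, hl, hpA, hpB, hex, hns', hdd⟩ :=
    setup hS hns hA hB hC hne
  set T := pt A u0 u1 s with hT
  obtain ⟨α, β, γ, hαβ, hfin⟩ := far_line hκ hN hns' (S := {p | T p ∈ S}) (dd := dpt T)
    (by rw [Set.mem_ofPred_eq, hpA]; exact hA) (fun p hp q hq => hdd p q hp hq) hl
    (by rw [Set.mem_ofPred_eq, hpB]; exact hB) (S' := {p | T p ∈ S'}) (fun p hp => hS' hp)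
    (by
      intro hfin
      refine hinf ((hfin.image T).subset ?_)
      intro P hP
      obtain ⟨p, rfl⟩ := hex P (hS' hP)
      exact ⟨p, hP, rfl⟩) K (by
      intro p hp
      refine hK (T p) hp _ _ ?_ ?_
      · rw [← dpt_spec (hS _ (hS' hp) _ (by rw [hpA]; exact hA)), hpA]
      · rw [← dpt_spec (hS _ (hS' hp) _ (by rw [hpB]; exact hB)), hpB])
  obtain ⟨α', β', γ', hαβ', hconv⟩ := line_conv A hu hs γ hαβ
  refine ⟨α', β', γ', hαβ', (hfin.image T).subset ?_⟩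
  rintro P ⟨hP, hne'⟩
  obtain ⟨p, rfl⟩ := hex P hP
  rw [hconv] at hne'
  exact ⟨p, ⟨hP, hne'⟩, rfl⟩

/-- the near case -/
theorem near_plane {S : Set Plane} (hS : RationalDistances S) {N : ℕ} (hN : N ≠ 0)
    (hns : NonSplit N S) {A B C : Plane} (hA : A ∈ S) (hB : B ∈ S) (hC : C ∈ S)
    (hne : cross A B C ≠ 0) {S' : Set Plane} (hS' : S' ⊆ S) (hS'A : A ∉ S') (hinf : S'.Infinite)
    (K : ℕ) (hK : ∀ P ∈ S', ∀ a b : ℚ, dist P A = a → dist P B = b →
      (HH a * HH b : ℝ) ≤ (HV N a⁻¹) ^ K) : OnLine S ∨ OnCircle S := by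
  obtain ⟨u0, u1, s, κ, l, hu, hκ, hs, hsκ, hl, hpA, hpB, hex, hns', hdd⟩ :=
    setup hS hns hA hB hC hne
  set T := pt A u0 u1 s with hT
  obtain ⟨α, β, γ, hαβ, hfin⟩ := near_curve hκ hN hns' (S := {p | T p ∈ S}) (dd := dpt T)
    (by rw [Set.mem_ofPred_eq, hpA]; exact hA) (fun p hp q hq => hdd p q hp hq) hl
    (by rw [Set.mem_ofPred_eq, hpB]; exact hB) (S' := {p | T p ∈ S'}) (fun p hp => hS' hp)
    (by rw [Set.mem_ofPred_eq, hpA]; exact hS'A)
    (by
      intro hfin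
      refine hinf ((hfin.image T).subset ?_)
      intro P hP
      obtain ⟨p, rfl⟩ := hex P (hS' hP)
      exact ⟨p, hP, rfl⟩) K (by
      intro p hp
      refine hK (T p) hp _ _ ?_ ?_
      · rw [← dpt_spec (hS _ (hS' hp) _ (by rw [hpA]; exact hA)), hpA]
      · rw [← dpt_spec (hS _ (hS' hp) _ (by rw [hpB]; exact hB)), hpB])
  have hqf : ∀ p : ℚ × ℚ, ((qf κ p : ℚ) : ℝ) = (p.1 : ℝ) ^ 2 + s ^ 2 * (p.2 : ℝ) ^ 2 := by
    intro p
    rw [hsκ, qf]
    push_cast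
    ring
  by_cases hγ : γ = 0
  · left
    obtain ⟨α', β', γ', hαβ', hconv⟩ := line_conv A hu hs 0 hαβ
    refine ⟨α', β', γ', hαβ', ((hfin.image T).insert A).subset ?_⟩
    rintro P ⟨hP, hne'⟩
    obtain ⟨p, rfl⟩ := hex P hP
    rw [hconv] at hne'
    by_cases hp0 : p = 0
    · left
      rw [hp0]
      exact hpA
    · right
      refine ⟨p, ⟨hP, hp0, ?_⟩, rfl⟩
      rw [hγ, zero_mul]
      exact hne'
  · right
    obtain ⟨c, r, hr, hcirc⟩ := circle_conv A hu hs hγ hαβ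
    refine ⟨c, r, hr, ((hfin.image T).insert A).subset ?_⟩
    rintro P ⟨hP, hne'⟩
    obtain ⟨p, rfl⟩ := hex P hP
    by_cases hp0 : p = 0
    · left
      rw [hp0]
      exact hpA
    · right
      refine ⟨p, ⟨hP, hp0, ?_⟩, rfl⟩
      rw [hqf]
      intro h0
      exact hne' (hcirc p h0)

/-- The contribution of infinity and of the primes dividing `N`: the product of
`max (|r|, |r|⁻¹)` and of the numbers `max (|r|_p, |r|_p⁻¹)`. -/
noncomputable def loc (N : ℕ) (r : ℚ) : ℝ :=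
  max |(r : ℝ)| |(r : ℝ)|⁻¹ *
    ∏ p ∈ N.primeFactors, max ((padicNorm p r : ℚ) : ℝ) ((padicNorm p r : ℚ) : ℝ)⁻¹

theorem loc_eq (N : ℕ) (r : ℚ) : loc N r = ∏ v, max (absV N v r) (absV N v r)⁻¹ := by
  rw [prod_absV N r (fun x => max x x⁻¹)]
  rfl

theorem loc_le (N : ℕ) (r : ℚ) : loc N r ≤ HV N r * HV N r⁻¹ := by
  rw [loc_eq, HV, HV, ← Finset.prod_mul_distrib]
  refine Finset.prod_le_prod (fun v _ => le_max_of_le_left ((absV N v).nonneg r)) fun v _ => ?_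
  rw [map_inv₀]
  have h0 := (absV N v).nonneg r
  refine max_le ?_ ?_
  · exact (le_max_right _ _).trans (le_mul_of_one_le_right (zero_le_one.trans (le_max_left _ _))
      (le_max_left _ _))
  · exact (le_max_right _ _).trans (le_mul_of_one_le_left (zero_le_one.trans (le_max_left _ _))
      (le_max_left _ _))

theorem loc_nonneg (N : ℕ) (r : ℚ) : 0 ≤ loc N r := by
  rw [loc_eq]
  exact Finset.prod_nonneg fun v _ => le_max_of_le_left ((absV N v).nonneg r)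

/-- a collinear set -/
theorem onLine_of_collinear {S : Set Plane} {A B : Plane} (hAB : A ≠ B)
    (h : ∀ C ∈ S, cross A B C = 0) : OnLine S := by
  refine ⟨-(B 1 - A 1), B 0 - A 0, (B 1 - A 1) * A 0 - (B 0 - A 0) * A 1, ?_, ?_⟩
  · by_contra hcon
    push Not at hcon
    refine hAB (plane_ext ?_ ?_)
    · linarith [hcon.2]
    · linarith [hcon.1]
  · convert Set.finite_empty
    rw [Set.eq_empty_iff_forall_notMem]
    rintro P ⟨hP, hne⟩
    apply hne
    have := h P hP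
    rw [cross] at this
    linear_combination this

/-- The main theorem. -/
theorem main_curve {S : Set Plane} (hS : RationalDistances S) {N : ℕ} (hN : N ≠ 0)
    (hns : NonSplit N S) {A B : Plane} (hA : A ∈ S) (hB : B ∈ S) (hAB : A ≠ B) (K : ℕ)
    (hinf : {P ∈ S | P ≠ A ∧ P ≠ B ∧ ∃ a b : ℚ, dist P A = a ∧ dist P B = b ∧
      (HH a * HH b : ℝ) ≤ (loc N a * loc N b) ^ K}.Infinite) : OnLine S ∨ OnCircle S := by
  by_cases hcol : ∀ C ∈ S, cross A B C = 0
  · exact Or.inl (onLine_of_collinear hAB hcol)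
  push Not at hcol
  obtain ⟨C, hC, hne⟩ := hcol
  have hne2 : cross B A C ≠ 0 := by
    intro h
    apply hne
    have : cross A B C = -cross B A C := by
      simp only [cross]
      ring
    rw [this, h, neg_zero]
  set S0 := {P ∈ S | P ≠ A ∧ P ≠ B ∧ ∃ a b : ℚ, dist P A = a ∧ dist P B = b ∧
      (HH a * HH b : ℝ) ≤ (loc N a * loc N b) ^ K} with hS0
  set S1 := {P ∈ S | P ≠ A ∧ P ≠ B ∧ ∀ a b : ℚ, dist P A = a → dist P B = b →
      (HH a * HH b : ℝ) ≤ (HV N a * HV N b) ^ (3 * K)} with hS1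
  set S2 := {P ∈ S | P ≠ A ∧ P ≠ B ∧ ∀ a b : ℚ, dist P A = a → dist P B = b →
      (HH a * HH b : ℝ) ≤ (HV N a⁻¹) ^ (3 * K)} with hS2
  set S3 := {P ∈ S | P ≠ A ∧ P ≠ B ∧ ∀ a b : ℚ, dist P A = a → dist P B = b →
      (HH a * HH b : ℝ) ≤ (HV N b⁻¹) ^ (3 * K)} with hS3
  have hcover : S0 ⊆ S1 ∪ (S2 ∪ S3) := by
    rintro P ⟨hP, hPA, hPB, a, b, ha, hb, hle⟩
    have huniq : ∀ a' b' : ℚ, dist P A = a' → dist P B = b' → a' = a ∧ b' = b := by
      intro a' b' ha' hb'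
      rw [ha] at ha'
      rw [hb] at hb'
      exact ⟨by exact_mod_cast ha'.symm, by exact_mod_cast hb'.symm⟩
    set x := HV N a * HV N b with hx
    set y := HV N a⁻¹ with hy
    set z := HV N b⁻¹ with hz
    have hx1 : 1 ≤ x := one_le_mul_of_one_le_of_one_le (one_le_HV N a) (one_le_HV N b)
    have hy1 : 1 ≤ y := one_le_HV N _
    have hz1 : 1 ≤ z := one_le_HV N _
    have hle2 : (HH a * HH b : ℝ) ≤ (x * y * z) ^ K := by
      refine hle.trans (pow_le_pow_left₀ (mul_nonneg (loc_nonneg N a) (loc_nonneg N b)) ?_ K)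
      calc loc N a * loc N b ≤ (HV N a * HV N a⁻¹) * (HV N b * HV N b⁻¹) :=
            mul_le_mul (loc_le N a) (loc_le N b) (loc_nonneg N b)
              (mul_nonneg (zero_le_one.trans (one_le_HV N a)) (zero_le_one.trans hy1))
        _ = x * y * z := by rw [hx, hy, hz]; ring
    have hcube : ∀ w : ℝ, x ≤ w → y ≤ w → z ≤ w → (HH a * HH b : ℝ) ≤ w ^ (3 * K) := by
      intro w h1 h2 h3
      refine hle2.trans ?_
      rw [pow_mul]
      refine pow_le_pow_left₀ (by positivity) ?_ K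
      have hw : 0 ≤ w := (zero_le_one.trans hx1).trans h1
      calc x * y * z ≤ w * w * w := by gcongr
        _ = w ^ 3 := by ring
    rcases le_total x y with h1 | h1
    · rcases le_total y z with h2 | h2
      · right; right
        refine ⟨hP, hPA, hPB, fun a' b' ha' hb' => ?_⟩
        obtain ⟨rfl, rfl⟩ := huniq a' b' ha' hb'
        exact hcube z (h1.trans h2) h2 le_rfl
      · right; left
        refine ⟨hP, hPA, hPB, fun a' b' ha' hb' => ?_⟩
        obtain ⟨rfl, rfl⟩ := huniq a' b' ha' hb'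
        exact hcube y h1 le_rfl h2
    · rcases le_total x z with h2 | h2
      · right; right
        refine ⟨hP, hPA, hPB, fun a' b' ha' hb' => ?_⟩
        obtain ⟨rfl, rfl⟩ := huniq a' b' ha' hb'
        exact hcube z h2 (h1.trans h2) le_rfl
      · left
        refine ⟨hP, hPA, hPB, fun a' b' ha' hb' => ?_⟩
        obtain ⟨rfl, rfl⟩ := huniq a' b' ha' hb'
        exact hcube x le_rfl h1 h2
  rcases Set.infinite_union.1 (hinf.mono hcover) with h1 | h23
  · left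
    exact far_plane hS hN hns hA hB hC hne (S' := S1) (fun P hP => hP.1) h1 (3 * K)
      (fun P hP => hP.2.2.2)
  · rcases Set.infinite_union.1 h23 with h2 | h3
    · exact near_plane hS hN hns hA hB hC hne (S' := S2) (fun P hP => hP.1)
        (fun h => h.2.1 rfl) h2 (3 * K) (fun P hP => hP.2.2.2)
    · refine near_plane hS hN hns hB hA hC hne2 (S' := S3) (fun P hP => hP.1)
        (fun h => h.2.2.1 rfl) h3 (3 * K) (fun P hP a b ha hb => ?_)
      rw [mul_comm]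
      exact hP.2.2.2 b a hb ha

/-- the height of an element of `ℤ[1/N]` -/
theorem HH_le_HV {N : ℕ} (hN : N ≠ 0) {r : ℚ} (hr : r ∈ OV N) : (HH r : ℝ) ≤ HV N r := by
  rw [HV, prod_absV N r (max 1), ← den_eq hN hr, HH, Nat.cast_max]
  have hd : (0 : ℝ) < r.den := Nat.cast_pos.2 r.den_pos
  refine max_le ?_ ?_
  · have : (r.num.natAbs : ℝ) = |(r : ℝ)| * r.den := by
      rw [Nat.cast_natAbs, Int.cast_abs]
      conv_rhs => rw [Rat.cast_def, abs_div, Nat.abs_cast]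
      rw [div_mul_cancel₀ _ hd.ne']
    rw [this]
    exact mul_le_mul_of_nonneg_right (le_max_right _ _) hd.le
  · exact le_mul_of_one_le_left hd.le (le_max_left _ _)

/-- sets with distances in `ℤ[1/N]` -/
theorem integral_line {S : Set Plane} {N : ℕ} (hN : N ≠ 0)
    (hS : ∀ P ∈ S, ∀ Q ∈ S, ∃ r : ℚ, r ∈ OV N ∧ dist P Q = r) (hns : NonSplit N S)
    (hinf : S.Infinite) : OnLine S := by
  obtain ⟨A, hA⟩ := hinf.nonempty
  obtain ⟨B, hB, hBA⟩ := hinf.exists_notMem_finite (Set.finite_singleton A)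
  have hAB : A ≠ B := fun h => hBA h.symm
  by_cases hcol : ∀ C ∈ S, cross A B C = 0
  · exact onLine_of_collinear hAB hcol
  push Not at hcol
  obtain ⟨C, hC, hne⟩ := hcol
  have hS' : RationalDistances S := fun P hP Q hQ => by
    obtain ⟨r, -, hr⟩ := hS P hP Q hQ
    exact ⟨r, hr⟩
  refine far_plane hS' hN hns hA hB hC hne (S' := S) subset_rfl hinf 1 fun P hP a b ha hb => ?_
  have hmem : ∀ Q ∈ S, ∀ c : ℚ, dist P Q = c → c ∈ OV N := by
    intro Q hQ c hc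
    obtain ⟨r, hr, hr'⟩ := hS P hP Q hQ
    rw [hc] at hr'
    have : c = r := by exact_mod_cast hr'
    rw [this]
    exact hr
  rw [pow_one]
  exact mul_le_mul (HH_le_HV hN (hmem A hA a ha)) (HH_le_HV hN (hmem B hB b hb))
    (Nat.cast_nonneg _) (zero_le_one.trans (one_le_HV N a))

end Pool.Agent.Lib.MP_bc4313_co
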