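import Mathlib

/-!
Many primes of moderate size.
-/

namespace Pool.Agent.Lib.MP_bc4313_co

open Finset

/-- a lower bound for the number of primes up to a power of four -/
theorem two_pow_le_card_primes (s : ℕ) (hs : 1 ≤ s) :
    2 ^ s ≤ ((range (4 ^ s + 1)).filter Nat.Prime).card := by
  set π := ((range (4 ^ s + 1)).filter Nat.Prime).card with hπ
  -- `2 ^ n ≤ (n + 1) * n ^ π`
  have h1 := Chebyshev.two_pow_le_mul_lcmUpto (4 ^ s)
  have h2 : Nat.lcmUpto (4 ^ s) ≤ (4 ^ s) ^ π := by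
    rw [Nat.lcmUpto_eq_prod_pow_log, hπ]
    rw [Nat.primesLE_eq_filter_range, ← Finset.prod_const]
    refine Finset.prod_le_prod' fun p hp => ?_
    exact Nat.pow_log_le_self p (by positivity)
  have h3 : 2 ^ 4 ^ s ≤ (4 ^ s + 1) * (4 ^ s) ^ π := h1.trans (Nat.mul_le_mul_left _ h2)
  have h4 : (4 ^ s + 1) * (4 ^ s) ^ π ≤ 2 ^ (2 * s + 1 + 2 * s * π) := by
    have e1 : 4 ^ s + 1 ≤ 2 ^ (2 * s + 1) := by
      have : (4 : ℕ) ^ s = 2 ^ (2 * s) := by rw [pow_mul]; norm_num
      rw [this, pow_succ]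
      have := Nat.one_le_two_pow (n := 2 * s)
      omega
    have e2 : (4 ^ s) ^ π = 2 ^ (2 * s * π) := by
      rw [pow_mul 2, pow_mul 2]
      norm_num
    rw [e2, pow_add]
    exact Nat.mul_le_mul_right _ e1
  have h5 : 4 ^ s ≤ 2 * s + 1 + 2 * s * π := (Nat.pow_le_pow_iff_right (by norm_num)).1 (h3.trans h4)
  by_contra hcon
  push Not at hcon
  have h6 : 2 * s * π ≤ 2 * s * (2 ^ s - 1) := Nat.mul_le_mul_left _ (by omega)
  have h7 : 4 ^ s ≤ 2 * s * 2 ^ s + 1 := by
    have : 2 * s * (2 ^ s - 1) = 2 * s * 2 ^ s - 2 * s := by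
      rw [Nat.mul_sub, mul_one]
    have h8 : 2 * s ≤ 2 * s * 2 ^ s := Nat.le_mul_of_pos_right _ (by positivity)
    omega
  -- small and large values of `s`
  have h9 : s ≤ 4 := by
    by_contra h9
    push Not at h9
    have key : ∀ t : ℕ, 2 * (t + 5) * 2 ^ (t + 5) + 1 < 4 ^ (t + 5) := by
      intro t
      induction t with
      | zero => norm_num
      | succ t ih =>
        have e : 2 * (t + 1 + 5) * 2 ^ (t + 1 + 5) = 2 * (2 * (t + 5) * 2 ^ (t + 5)) + 4 * 2 ^ (t + 5) := by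
          ring
        have e' : 4 ^ (t + 1 + 5) = 4 * 4 ^ (t + 5) := by ring
        have e2 : 2 * 2 ^ (t + 5) ≤ 2 * (t + 5) * 2 ^ (t + 5) := Nat.mul_le_mul_right _ (by omega)
        have e3 := Nat.one_le_two_pow (n := t + 5)
        omega
    have := key (s - 5)
    rw [Nat.sub_add_cancel (by omega)] at this
    omega
  interval_cases s
  · have : π = 2 := by rw [hπ]; decide
    omega
  · have : π = 6 := by rw [hπ]; decide +kernel
    omega
  · have : π = 18 := by rw [hπ]; decide +kernel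
    omega
  · have : π = 54 := by rw [hπ]; decide +kernel
    omega

/-- primes in an interval -/
theorem exists_primes (s y : ℕ) (hs : 1 ≤ s) {b : ℕ} (h : y + b + 1 ≤ 2 ^ s) :
    ∃ Ps : Finset ℕ, (∀ p ∈ Ps, p.Prime ∧ y < p ∧ p ≤ 4 ^ s) ∧ b < Ps.card := by
  refine ⟨((range (4 ^ s + 1)).filter Nat.Prime) \ range (y + 1), fun p hp => ?_, ?_⟩
  · rw [mem_sdiff, mem_filter, mem_range, mem_range] at hp
    exact ⟨hp.1.2, by omega, by omega⟩
  · have h1 := two_pow_le_card_primes s hs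
    have h2 := Finset.le_card_sdiff (range (y + 1)) ((range (4 ^ s + 1)).filter Nat.Prime)
    rw [card_range] at h2
    -- zero is not a prime
    have h3 : ((range (4 ^ s + 1)).filter Nat.Prime) \ range (y + 1) =
        ((range (4 ^ s + 1)).filter Nat.Prime) \ ((range (y + 1)).erase 0) := by
      ext p
      simp only [mem_sdiff, mem_filter, mem_range, mem_erase]
      constructor
      · rintro ⟨h4, h5⟩
        exact ⟨h4, fun h6 => h5 h6.2⟩
      · rintro ⟨h4, h5⟩
        exact ⟨h4, fun h6 => h5 ⟨h4.2.ne_zero, h6⟩⟩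
    rw [h3]
    have h4 := Finset.le_card_sdiff ((range (y + 1)).erase 0) ((range (4 ^ s + 1)).filter Nat.Prime)
    rw [card_erase_of_mem (mem_range.2 (Nat.succ_pos y)), card_range] at h4
    omega

/-- the number of primes dividing a number -/
theorem card_primeFactors_le {N e : ℕ} (hN : N ≠ 0) (h : N ≤ 2 ^ e) : N.primeFactors.card ≤ e := by
  have h1 : 2 ^ N.primeFactors.card ≤ N := by
    calc 2 ^ N.primeFactors.card = ∏ _p ∈ N.primeFactors, 2 := by rw [Finset.prod_const]
      _ ≤ ∏ p ∈ N.primeFactors, p := Finset.prod_le_prod' fun p hp =>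
          (Nat.prime_of_mem_primeFactors hp).two_le
      _ ≤ N := Nat.le_of_dvd (Nat.pos_of_ne_zero hN) (Nat.prod_primeFactors_dvd N)
  exact (Nat.pow_le_pow_iff_right (by norm_num)).1 (h1.trans h)

end Pool.Agent.Lib.MP_bc4313_co
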