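import Mathlib

/-!
Linear independence of square roots.
-/

namespace Pool.Agent.Lib.MP_bc4313_co

open Finset

/-- Elements whose squares lie in `k` and whose quotients do not lie in `k` are linearly
independent over `k`. -/
theorem sqrt_indep {k L : Type*} [Field k] [Field L] [Algebra k L] [IsGalois k L] {ι : Type*}
    [Fintype ι] (x : ι → L) (hx : ∀ i, x i ≠ 0)
    (hsq : ∀ i, ∃ a : k, x i ^ 2 = algebraMap k L a)
    (hne : ∀ i j, i ≠ j → ∀ a : k, x i ≠ algebraMap k L a * x j) :
    ∀ c : ι → k, ∑ i, algebraMap k L (c i) * x i = 0 → c = 0 := by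
  classical
  -- induction on the number of nonzero coefficients
  suffices H : ∀ (n : ℕ) (c : ι → k), #{i | c i ≠ 0} ≤ n →
      ∑ i, algebraMap k L (c i) * x i = 0 → c = 0 from fun c hc => H _ c le_rfl hc
  intro n
  induction n using Nat.strong_induction_on with
  | _ n ih =>
  intro c hcn hc
  by_contra hc0
  obtain ⟨i, hi⟩ := Function.ne_iff.1 hc0
  rw [Pi.zero_apply] at hi
  -- a second nonzero coefficient
  obtain ⟨j, hij, hj⟩ : ∃ j, i ≠ j ∧ c j ≠ 0 := by
    by_contra hcon
    push Not at hcon
    rw [Finset.sum_eq_single i (fun b _ hb => by rw [hcon b (Ne.symm hb), map_zero, zero_mul])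
      (fun h => absurd (mem_univ i) h)] at hc
    rcases mul_eq_zero.1 hc with h | h
    · exact hi ((map_eq_zero _).1 h)
    · exact hx i h
  -- an automorphism which changes the quotient
  obtain ⟨σ, hσ⟩ : ∃ σ : L ≃ₐ[k] L, σ (x i / x j) ≠ x i / x j := by
    by_contra hcon
    push Not at hcon
    obtain ⟨a, ha⟩ := (InfiniteGalois.mem_range_algebraMap_iff_fixed (x i / x j)).2 hcon
    refine hne i j hij a ?_
    rw [ha, div_mul_cancel₀ _ (hx j)]
  have hsgn : ∀ l, σ (x l) = x l ∨ σ (x l) = - x l := by
    intro l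
    obtain ⟨a, ha⟩ := hsq l
    apply sq_eq_sq_iff_eq_or_eq_neg.1
    rw [← map_pow, ha, AlgEquiv.commutes]
  have hσc : ∑ l, algebraMap k L (c l) * σ (x l) = 0 := by
    have := congrArg σ hc
    rw [map_sum, map_zero] at this
    rw [← this]
    exact Finset.sum_congr rfl fun l _ => by rw [map_mul, AlgEquiv.commutes]
  -- the set where the sign of `σ` is `+`
  have hcases : (σ (x i) = x i ∧ σ (x j) = - x j) ∨ (σ (x i) = - x i ∧ σ (x j) = x j) := by
    rcases hsgn i with h1 | h1
    · rcases hsgn j with h2 | h2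
      · exact absurd (by rw [map_div₀, h1, h2]) hσ
      · exact Or.inl ⟨h1, h2⟩
    · rcases hsgn j with h2 | h2
      · exact Or.inr ⟨h1, h2⟩
      · exact absurd (by rw [map_div₀, h1, h2, neg_div_neg_eq]) hσ
  -- the part of the relation on which `σ` acts as `+`
  set d : ι → k := fun l => if σ (x l) = x l then c l else 0 with hd
  have hdrel : ∑ l, algebraMap k L (d l) * x l = 0 := by
    have h1 : ∑ l, algebraMap k L (d l) * x l + ∑ l, algebraMap k L (d l) * x l =
        ∑ l, algebraMap k L (c l) * x l + ∑ l, algebraMap k L (c l) * σ (x l) := by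
      rw [← Finset.sum_add_distrib, ← Finset.sum_add_distrib]
      refine Finset.sum_congr rfl fun l _ => ?_
      simp only [hd]
      split_ifs with h
      · rw [h]
      · rw [(hsgn l).resolve_left h]
        simp
    rw [hc, hσc, add_zero] at h1
    have h2 : (2 : L) ≠ 0 := by
      intro h2
      apply hσ
      rw [map_div₀]
      have hneg : ∀ y : L, -y = y := fun y => by
        have : y + y = 0 := by rw [← two_mul, h2, zero_mul]
        exact neg_eq_of_add_eq_zero_left this
      rcases hcases with ⟨h3, h4⟩ | ⟨h3, h4⟩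
      · rw [h3, h4, hneg]
      · rw [h3, h4, hneg]
    have h3 : (2 : L) * ∑ l, algebraMap k L (d l) * x l = 0 := by rw [two_mul]; exact h1
    exact (mul_eq_zero.1 h3).resolve_left h2
  have hcard : ∀ (e : ι → k) (l : ι), (∀ l, e l ≠ 0 → c l ≠ 0) → e l = 0 → c l ≠ 0 →
      #{l | e l ≠ 0} < n := by
    intro e l he hel hcl
    refine lt_of_lt_of_le (Finset.card_lt_card ?_) hcn
    refine ⟨fun m hm => ?_, fun hsub => ?_⟩
    · rw [mem_filter] at hm ⊢
      exact ⟨hm.1, he m hm.2⟩
    · have := hsub (mem_filter.2 ⟨mem_univ l, hcl⟩)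
      exact (mem_filter.1 this).2 hel
  have hdc : ∀ l, d l ≠ 0 → c l ≠ 0 := by
    intro l hl
    simp only [hd] at hl
    split_ifs at hl with h
    · exact hl
    · exact absurd rfl hl
  rcases hcases with ⟨h1, h2⟩ | ⟨h1, h2⟩
  · have hdj : d j = 0 := by
      simp only [hd]
      rw [if_neg]
      rw [h2]
      intro h
      apply hσ
      rw [map_div₀, h1, h2, h]
    have hlt := hcard d j hdc hdj hj
    have := ih _ hlt d le_rfl hdrel
    have hdi : d i = c i := by simp only [hd]; rw [if_pos h1]
    exact hi (by rw [← hdi, this, Pi.zero_apply])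
  · have hdi : d i = 0 := by
      simp only [hd]
      rw [if_neg]
      rw [h1]
      intro h
      apply hσ
      rw [map_div₀, h1, h2, h]
    have hlt := hcard d i hdc hdi hi
    have := ih _ hlt d le_rfl hdrel
    have hdj : d j = c j := by simp only [hd]; rw [if_pos h2]
    exact hj (by rw [← hdj, this, Pi.zero_apply])

end Pool.Agent.Lib.MP_bc4313_co
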