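import Mathlib
import Pool.Agent.Lib.MP_bc4313_co.Rad

/-!
The norm of a sum of square roots, as a determinant.
-/

namespace Pool.Agent.Lib.MP_bc4313_co

open Finset

variable {R : Type*} [CommRing R] {n : ℕ}

/-- The matrix of the multiplication by `∑ c_I δ_I`, where `δ_I` is the product of the square roots
of the `Q_i` with `i ∈ I`. -/
def nmat (c : Finset (Fin n) → R) (Q : Fin n → R) :
    Matrix (Finset (Fin n)) (Finset (Fin n)) R :=
  Matrix.of fun J K => c (symmDiff J K) * ∏ i ∈ J \ K, Q i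

theorem prod_symm {A : Type*} [CommRing A] (δ : Fin n → A) (J K : Finset (Fin n)) :
    (∏ i ∈ J, δ i) * ∏ i ∈ symmDiff J K, δ i = (∏ i ∈ J \ K, δ i ^ 2) * ∏ i ∈ K, δ i := by
  have key : ∀ (s : Finset (Fin n)) (f : Fin n → A), ∏ i ∈ s, f i = ∏ i, if i ∈ s then f i else 1 := by
    intro s f
    rw [Finset.prod_ite_mem, Finset.univ_inter]
  rw [key, key (symmDiff J K), key (J \ K), key K, ← prod_mul_distrib, ← prod_mul_distrib]
  refine Finset.prod_congr rfl fun i _ => ?_
  by_cases hJ : i ∈ J <;> by_cases hK : i ∈ K <;> simp [hJ, hK, mem_symmDiff, mem_sdiff, sq]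

theorem nmat_rel {A : Type*} [CommRing A] (φ : R →+* A) (δ : Fin n → A)
    (c : Finset (Fin n) → R) (Q : Fin n → R) (hδ : ∀ i, δ i ^ 2 = φ (Q i)) (J : Finset (Fin n)) :
    ∑ K, φ (nmat c Q J K) * ∏ i ∈ K, δ i =
      (∏ i ∈ J, δ i) * ∑ I, φ (c I) * ∏ i ∈ I, δ i := by
  have hinv : Function.Involutive (fun K : Finset (Fin n) => symmDiff J K) :=
    fun K => symmDiff_symmDiff_cancel_left J K
  rw [← Equiv.sum_comp (hinv.toPerm) (fun I => φ (c I) * ∏ i ∈ I, δ i), Finset.mul_sum]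
  refine Finset.sum_congr rfl fun K _ => ?_
  rw [Function.Involutive.coe_toPerm]
  simp only [nmat, Matrix.of_apply, map_mul, map_prod]
  calc φ (c (symmDiff J K)) * (∏ i ∈ J \ K, φ (Q i)) * ∏ i ∈ K, δ i
      = φ (c (symmDiff J K)) * ((∏ i ∈ J \ K, δ i ^ 2) * ∏ i ∈ K, δ i) := by
        rw [mul_assoc, Finset.prod_congr rfl fun i _ => (hδ i).symm]
    _ = _ := by rw [← prod_symm]; ring

/-- The determinant vanishes where the sum vanishes. -/
theorem det_nmat_eq_zero {A : Type*} [CommRing A] [IsDomain A] (φ : R →+* A) (δ : Fin n → A)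
    (c : Finset (Fin n) → R) (Q : Fin n → R) (hδ : ∀ i, δ i ^ 2 = φ (Q i))
    (h0 : ∑ I, φ (c I) * ∏ i ∈ I, δ i = 0) : φ (nmat c Q).det = 0 := by
  rw [RingHom.map_det]
  refine Matrix.exists_mulVec_eq_zero_iff.1 ⟨fun K => ∏ i ∈ K, δ i, ?_, ?_⟩
  · intro h
    have := congrFun h ∅
    simp at this
  · ext J
    rw [Matrix.mulVec, dotProduct, Pi.zero_apply]
    simp only [RingHom.mapMatrix_apply, Matrix.map_apply]
    rw [nmat_rel φ δ c Q hδ J, h0, mul_zero]

/-- The determinant does not vanish when the square roots are independent. -/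
theorem det_nmat_ne_zero {k L : Type*} [Field k] [Field L] [Algebra k L] (φ : R →+* k)
    (δ : Fin n → L) (c : Finset (Fin n) → R) (Q : Fin n → R)
    (hδ : ∀ i, δ i ^ 2 = algebraMap k L (φ (Q i)))
    (hind : ∀ e : Finset (Fin n) → k, ∑ K, algebraMap k L (e K) * ∏ i ∈ K, δ i = 0 → e = 0)
    (hc : ∃ I, φ (c I) ≠ 0) : φ (nmat c Q).det ≠ 0 := by
  intro hdet
  rw [RingHom.map_det] at hdet
  obtain ⟨v, hv0, hv⟩ := Matrix.exists_vecMul_eq_zero_iff.2 hdet
  have h1 : (∑ J, algebraMap k L (v J) * ∏ i ∈ J, δ i) *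
      ∑ I, algebraMap k L (φ (c I)) * ∏ i ∈ I, δ i = 0 := by
    have h2 : ∀ J, ∑ K, algebraMap k L (φ (nmat c Q J K)) * ∏ i ∈ K, δ i =
        (∏ i ∈ J, δ i) * ∑ I, algebraMap k L (φ (c I)) * ∏ i ∈ I, δ i := fun J =>
      nmat_rel ((algebraMap k L).comp φ) δ c Q hδ J
    calc _ = ∑ J, algebraMap k L (v J) * ((∏ i ∈ J, δ i) *
          ∑ I, algebraMap k L (φ (c I)) * ∏ i ∈ I, δ i) := by
          rw [Finset.sum_mul]
          exact Finset.sum_congr rfl fun J _ => by ring
      _ = ∑ J, algebraMap k L (v J) * ∑ K, algebraMap k L (φ (nmat c Q J K)) * ∏ i ∈ K, δ i :=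
          Finset.sum_congr rfl fun J _ => by rw [h2]
      _ = ∑ K, algebraMap k L (∑ J, v J * φ (nmat c Q J K)) * ∏ i ∈ K, δ i := by
          simp only [Finset.mul_sum, map_sum, map_mul, Finset.sum_mul]
          rw [Finset.sum_comm]
          exact Finset.sum_congr rfl fun K _ => Finset.sum_congr rfl fun J _ => by ring
      _ = 0 := by
          refine Finset.sum_eq_zero fun K _ => ?_
          have := congrFun hv K
          rw [Matrix.vecMul, dotProduct, Pi.zero_apply] at this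
          simp only [RingHom.mapMatrix_apply, Matrix.map_apply] at this
          rw [this, map_zero, zero_mul]
  rcases mul_eq_zero.1 h1 with h | h
  · exact hv0 (hind v h)
  · obtain ⟨I, hI⟩ := hc
    exact hI (congrFun (hind (fun I => φ (c I)) h) I)

/-- independence of square roots in terms of products which are not squares -/
theorem indep_of_not_isSquare {k : Type*} [Field k] [CharZero k] (q : Fin n → k)
    (δ : Fin n → AlgebraicClosure k) (hδ : ∀ i, δ i ^ 2 = algebraMap k _ (q i))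
    (hq : ∀ I : Finset (Fin n), I.Nonempty → ¬ IsSquare (∏ i ∈ I, q i)) :
    ∀ e : Finset (Fin n) → k, ∑ K, algebraMap k (AlgebraicClosure k) (e K) * ∏ i ∈ K, δ i = 0 →
      e = 0 := by
  have hq0 : ∀ i, q i ≠ 0 := by
    intro i h
    refine hq {i} ⟨i, mem_singleton_self i⟩ ?_
    rw [Finset.prod_singleton, h]
    exact ⟨0, by simp⟩
  have hδ0 : ∀ i, δ i ≠ 0 := by
    intro i h
    have := hδ i
    rw [h, zero_pow two_ne_zero] at this
    exact hq0 i ((map_eq_zero _).1 this.symm)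
  have hsqI : ∀ I : Finset (Fin n), (∏ i ∈ I, δ i) ^ 2 = algebraMap k _ (∏ i ∈ I, q i) := by
    intro I
    rw [← Finset.prod_pow, map_prod]
    exact Finset.prod_congr rfl fun i _ => hδ i
  refine sqrt_indep (fun I : Finset (Fin n) => ∏ i ∈ I, δ i)
    (fun I => Finset.prod_ne_zero_iff.2 fun i _ => hδ0 i) (fun I => ⟨_, hsqI I⟩) ?_
  intro I J hIJ a ha
  refine hq (symmDiff I J) (by rwa [Finset.nonempty_iff_ne_empty, Ne, ← bot_eq_empty,
    symmDiff_eq_bot]) ?_
  -- `δ_{I Δ J} δ_I = ∏_{I \ J} q * δ_J`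
  have h1 := prod_symm δ I J
  have h2 : (∏ i ∈ I \ J, δ i ^ 2) = algebraMap k _ (∏ i ∈ I \ J, q i) := by
    rw [Finset.prod_pow, hsqI]
  have hJ0 : (∏ i ∈ J, δ i) ≠ 0 := Finset.prod_ne_zero_iff.2 fun i _ => hδ0 i
  have h3 : algebraMap k (AlgebraicClosure k) a * ∏ i ∈ symmDiff I J, δ i =
      algebraMap k _ (∏ i ∈ I \ J, q i) := by
    have h1' := h1
    rw [ha, h2] at h1'
    apply mul_right_cancel₀ hJ0
    linear_combination h1'
  have ha0 : a ≠ 0 := by
    rintro rfl
    rw [map_zero, zero_mul] at ha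
    exact Finset.prod_ne_zero_iff.2 (fun i _ => hδ0 i) ha
  refine ⟨(∏ i ∈ I \ J, q i) / a, ?_⟩
  apply (algebraMap k (AlgebraicClosure k)).injective
  rw [← hsqI, map_mul, map_div₀, ← h3]
  have ha' : algebraMap k (AlgebraicClosure k) a ≠ 0 := by simpa using ha0
  field_simp

end Pool.Agent.Lib.MP_bc4313_co
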