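import Mathlib
import Pool.Agent.Lib.MP_bc4313_co.BezQ
import Pool.Agent.Lib.MP_bc4313_co.NormM

/-!
Truncated power series solutions of `G(z, w) = 0` and products which are not squares on the curve.
-/

namespace Pool.Agent.Lib.MP_bc4313_co

open Polynomial Polynomial.Bivariate

/-- substitution of `z0 + X` and `W` -/
noncomputable def EW (z0 : ℂ) (W : ℂ[X]) : ℂ[X][Y] →+* ℂ[X] :=
  eval₂RingHom (compRingHom (X + C z0)) W

theorem EW_eq (z0 : ℂ) (W : ℂ[X]) (F : ℂ[X][Y]) :
    EW z0 W F = (F.map (compRingHom (X + C z0))).eval W := by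
  rw [EW, coe_eval₂RingHom, eval_map]

theorem EW_eval_zero (z0 : ℂ) (W : ℂ[X]) (F : ℂ[X][Y]) :
    (EW z0 W F).eval 0 = F.evalEval z0 (W.eval 0) := by
  induction F using Polynomial.induction_on' with
  | add p q hp hq => rw [map_add, eval_add, hp, hq, evalEval_add]
  | monomial n a =>
    rw [← C_mul_X_pow_eq_monomial, map_mul, map_pow, EW, coe_eval₂RingHom, eval₂_C, eval₂_X]
    simp [evalEval_mul, evalEval_pow, evalEval_C, evalEval_X]

theorem EW_C (z0 : ℂ) (W c : ℂ[X]) : EW z0 W (C c) = c.comp (X + C z0) := by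
  rw [EW, coe_eval₂RingHom, eval₂_C, coe_compRingHom]

/-- truncated solutions -/
theorem exists_trunc {G : ℂ[X][Y]} {z0 ω : ℂ} (h0 : G.evalEval z0 ω = 0)
    (h1 : (derivative G).evalEval z0 ω ≠ 0) (N : ℕ) :
    ∃ W : ℂ[X], W.eval 0 = ω ∧ X ^ (N + 1) ∣ EW z0 W G := by
  induction N with
  | zero =>
    refine ⟨C ω, eval_C, ?_⟩
    rw [zero_add, pow_one, X_dvd_iff, coeff_zero_eq_eval_zero, EW_eval_zero, eval_C]
    exact h0
  | succ N ih =>
    obtain ⟨W, hW, r, hr⟩ := ih
    set c : ℂ := -(r.eval 0) / (derivative G).evalEval z0 ω with hc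
    refine ⟨W + C c * X ^ (N + 1), by simp [hW], ?_⟩
    set f := G.map (compRingHom (X + C z0)) with hf
    obtain ⟨k, hk⟩ := binomExpansion f W (C c * X ^ (N + 1))
    have hder : f.derivative.eval W = EW z0 W (derivative G) := by
      rw [EW_eq, hf, derivative_map]
    rw [EW_eq, ← hf, hk, hder]
    rw [EW_eq, ← hf] at hr
    rw [hr]
    have h2 : X ∣ r + EW z0 W (derivative G) * C c + k * (C c) ^ 2 * X ^ (N + 1) := by
      rw [X_dvd_iff, coeff_zero_eq_eval_zero]
      simp only [eval_add, eval_mul, eval_pow, eval_C, eval_X, EW_eval_zero, hW, hc]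
      field_simp
      simp
    obtain ⟨s, hs⟩ := h2
    refine ⟨s, ?_⟩
    calc _ = X ^ (N + 1) * (r + EW z0 W (derivative G) * C c + k * (C c) ^ 2 * X ^ (N + 1)) := by
          ring
      _ = _ := by rw [hs]; ring

/-- The order along the curve of a polynomial which is not divisible by `G`. -/
theorem exists_order {G F : ℂ[X][Y]} (hG : Irreducible G) (hd : G.natDegree ≠ 0) (hF : ¬ G ∣ F)
    (z0 : ℂ) : ∃ e : ℕ, ∀ W : ℂ[X], X ^ (e + 1) ∣ EW z0 W G → ¬ X ^ (e + 1) ∣ EW z0 W F := by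
  obtain ⟨a, b, c, hc, habc⟩ := bezout hG hd hF
  have hc' : c.comp (X + C z0) ≠ 0 := by
    rw [Ne, comp_eq_zero_iff]
    rintro (h | ⟨-, h⟩)
    · exact hc h
    · have := congrArg natDegree h
      rw [natDegree_X_add_C, natDegree_C] at this
      exact one_ne_zero this
  refine ⟨(c.comp (X + C z0)).natTrailingDegree, fun W h1 h2 => ?_⟩
  have h3 : X ^ ((c.comp (X + C z0)).natTrailingDegree + 1) ∣ c.comp (X + C z0) := by
    have h4 : c.comp (X + C z0) = EW z0 W a * EW z0 W G + EW z0 W b * EW z0 W F := by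
      rw [← EW_C z0 W, ← habc, map_add, map_mul, map_mul]
    have h5 : X ^ ((c.comp (X + C z0)).natTrailingDegree + 1) ∣
        EW z0 W a * EW z0 W G + EW z0 W b * EW z0 W F :=
      dvd_add (h1.mul_left _) (h2.mul_left _)
    rwa [← h4] at h5
  rw [X_pow_dvd_iff] at h3
  exact coeff_natTrailingDegree_eq_zero.not.2 hc' (h3 _ (Nat.lt_succ_self _))

/-- If `(z - z0) Q'` is a square on the curve `G = 0`, in the weak sense, then `Q'` vanishes at the
points over `z0` where the curve is smooth over the line. -/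
theorem parity {G : ℂ[X][Y]} (hG : Irreducible G) {z0 ω : ℂ} (h0 : G.evalEval z0 ω = 0)
    (h1 : (derivative G).evalEval z0 ω ≠ 0) {Q' a b h : ℂ[X][Y]} (hQ' : Q'.evalEval z0 ω ≠ 0)
    (hid : C (X - C z0) * Q' * b ^ 2 = a ^ 2 + G * h) (hb : ¬ G ∣ b) : False := by
  have hd : G.natDegree ≠ 0 := by
    intro hd
    obtain ⟨g, rfl⟩ := natDegree_eq_zero.1 hd
    simp at h1
  obtain ⟨e, he⟩ := exists_order hG hd hb z0
  obtain ⟨W, hW, hWG⟩ := exists_trunc h0 h1 (2 * e + 2)
  set β := EW z0 W b with hβ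
  have hβe : ¬ X ^ (e + 1) ∣ β := he W ((pow_dvd_pow X (by omega)).trans hWG)
  have hβ0 : β ≠ 0 := by
    intro h
    rw [h] at hβe
    exact hβe (dvd_zero _)
  have hβt : β.natTrailingDegree ≤ e := by
    by_contra hcon
    push Not at hcon
    apply hβe
    rw [X_pow_dvd_iff]
    intro d hd
    exact coeff_eq_zero_of_lt_natTrailingDegree (by omega)
  set q := EW z0 W Q' with hq
  have hq0 : q.coeff 0 ≠ 0 := by
    rw [coeff_zero_eq_eval_zero, hq, EW_eval_zero, hW]
    exact hQ'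
  have hqne : q ≠ 0 := by
    intro h
    rw [h, coeff_zero] at hq0
    exact hq0 rfl
  have hqt : q.natTrailingDegree = 0 := by
    rw [natTrailingDegree_eq_zero]
    exact Or.inr hq0
  have hX : EW z0 W (C (X - C z0)) = X := by
    rw [EW_C]
    simp
  have hid' := congrArg (EW z0 W) hid
  rw [map_mul, map_mul, map_pow, map_add, map_pow, map_mul, hX, ← hβ, ← hq] at hid'
  set α := EW z0 W a with hα
  obtain ⟨u, hu⟩ := hWG
  rw [hu] at hid'
  set L := X * q * β ^ 2 with hL
  have hLne : L ≠ 0 := mul_ne_zero (mul_ne_zero X_ne_zero hqne) (pow_ne_zero 2 hβ0)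
  have hLt : L.natTrailingDegree = 2 * β.natTrailingDegree + 1 := by
    rw [hL, natTrailingDegree_mul (mul_ne_zero X_ne_zero hqne) (pow_ne_zero 2 hβ0),
      natTrailingDegree_mul X_ne_zero hqne, sq, natTrailingDegree_mul hβ0 hβ0, hqt,
      natTrailingDegree_X]
    ring
  have hcoeff : ∀ d < 2 * e + 3, (α ^ 2).coeff d = L.coeff d := by
    intro d hd
    rw [hid', coeff_add]
    have : (X ^ (2 * e + 2 + 1) * u * EW z0 W h).coeff d = 0 := by
      have hdvd : X ^ (2 * e + 2 + 1) ∣ X ^ (2 * e + 2 + 1) * u * EW z0 W h :=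
        (dvd_mul_right _ _).mul_right _
      rw [X_pow_dvd_iff] at hdvd
      exact hdvd d (by omega)
    rw [this, add_zero]
  have hαne : α ≠ 0 := by
    intro h
    have := hcoeff (2 * β.natTrailingDegree + 1) (by omega)
    rw [h, zero_pow two_ne_zero, coeff_zero, ← hLt] at this
    exact coeff_natTrailingDegree_eq_zero.not.2 hLne this.symm
  have hαt : (α ^ 2).natTrailingDegree = 2 * β.natTrailingDegree + 1 := by
    apply le_antisymm
    · apply natTrailingDegree_le_of_ne_zero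
      rw [hcoeff _ (by omega), ← hLt]
      exact coeff_natTrailingDegree_eq_zero.not.2 hLne
    · refine le_natTrailingDegree (pow_ne_zero 2 hαne) fun d hd => ?_
      rw [hcoeff d (by omega)]
      exact coeff_eq_zero_of_lt_natTrailingDegree (by omega)
  rw [sq, natTrailingDegree_mul hαne hαne] at hαt
  omega

/-- the quadratic polynomial attached to a point -/
noncomputable def QQ (y : ℂ × ℂ) : ℂ[X][Y] := C (X - C y.1) * (Y - C (C y.2))

/-- a certificate for the independence of the square roots of the `QQ (y i)` on the curve `G = 0` -/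
structure Cert (G : ℂ[X][Y]) {n : ℕ} (y : Fin n → ℂ × ℂ) : Prop where
  inj : ∀ i j, i ≠ j → (y i).1 ≠ (y j).1
  root : ∀ i, ∃ ω, G.evalEval (y i).1 ω = 0 ∧ (derivative G).evalEval (y i).1 ω ≠ 0 ∧
    ∀ j, ω ≠ (y j).2

/-- The norm is not divisible by `G`: version with the function field. -/
theorem Cert.not_dvd_aux {G : ℂ[X][Y]} (hG : Irreducible G) {n : ℕ} {y : Fin n → ℂ × ℂ}
    (hy : Cert G y) {c : Finset (Fin n) → ℂ} (hc : c ≠ 0) {A K : Type} [CommRing A] [IsDomain A]
    [Field K] [Algebra A K] [IsFractionRing A K] (π : ℂ[X][Y] →+* A)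
    (hsurj : Function.Surjective π) (hker : ∀ F, π F = 0 ↔ G ∣ F) :
    ¬ G ∣ (nmat (fun I => C (C (c I))) (fun i => QQ (y i))).det := by
  intro hdvd
  set φ : ℂ[X][Y] →+* K := (algebraMap A K).comp π with hφdef
  have hφ : ∀ F, φ F = 0 ↔ G ∣ F := by
    intro F
    rw [hφdef, RingHom.comp_apply, map_eq_zero_iff _ (IsFractionRing.injective A K), hker]
  have hchar : CharZero K := charZero_of_injective_ringHom
    ((φ.comp ((C : ℂ[X] →+* ℂ[X][Y]).comp (C : ℂ →+* ℂ[X]))).injective)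
  obtain ⟨δ, hδ⟩ : ∃ δ : Fin n → AlgebraicClosure K, ∀ i, δ i ^ 2 =
      algebraMap K (AlgebraicClosure K) (φ (QQ (y i))) := by
    have := fun i => IsAlgClosed.exists_pow_nat_eq
      (algebraMap K (AlgebraicClosure K) (φ (QQ (y i)))) (n := 2) two_pos
    choose δ hδ using this
    exact ⟨δ, hδ⟩
  obtain ⟨I, hI⟩ := Function.ne_iff.1 hc
  refine det_nmat_ne_zero φ δ (fun I => C (C (c I))) (fun i => QQ (y i)) hδ
    (indep_of_not_isSquare _ δ hδ ?_) ⟨I, ?_⟩ ((hφ _).2 hdvd)
  · rintro I ⟨i0, hi0⟩ ⟨r, hr⟩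
    obtain ⟨a', b', hb', rfl⟩ := IsFractionRing.div_surjective (A := A) r
    obtain ⟨a, rfl⟩ := hsurj a'
    obtain ⟨b, rfl⟩ := hsurj b'
    have hb0 : φ b ≠ 0 := by
      rw [hφdef, RingHom.comp_apply, Ne, map_eq_zero_iff _ (IsFractionRing.injective A K)]
      exact nonZeroDivisors.ne_zero hb'
    have hb : ¬ G ∣ b := fun h => hb0 ((hφ b).2 h)
    have h1 : φ ((∏ i ∈ I, QQ (y i)) * b ^ 2 - a ^ 2) = 0 := by
      rw [map_sub, map_mul, map_prod, map_pow, map_pow, hr]
      change (φ a / φ b * (φ a / φ b)) * φ b ^ 2 - φ a ^ 2 = 0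
      field_simp
      ring
    obtain ⟨h, hh⟩ := (hφ _).1 h1
    obtain ⟨ω, hω0, hω1, hω2⟩ := hy.root i0
    classical
    refine parity hG hω0 hω1 (Q' := (Y - C (C (y i0).2)) * ∏ i ∈ I.erase i0, QQ (y i)) ?_
      (a := a) (b := b) (h := h) ?_ hb
    · rw [evalEval_mul, evalEval_prod, mul_ne_zero_iff, Finset.prod_ne_zero_iff]
      refine ⟨?_, fun i hi => ?_⟩
      · simp only [evalEval_sub, evalEval_X, evalEval_C, eval_C]
        exact sub_ne_zero.2 (hω2 i0)
      · simp only [QQ, evalEval_mul, evalEval_sub, evalEval_X, evalEval_C, eval_C, eval_sub,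
          eval_X]
        exact mul_ne_zero (sub_ne_zero.2 (hy.inj i0 i (Finset.ne_of_mem_erase hi).symm))
          (sub_ne_zero.2 (hω2 i))
    · rw [← hh, ← Finset.mul_prod_erase I _ hi0]
      simp only [QQ]
      ring
  · rw [Ne, hφ]
    intro h
    exact hG.not_isUnit (isUnit_of_dvd_unit h ((isUnit_C).2 ((isUnit_C).2 (isUnit_iff_ne_zero.2 hI))))

/-- The norm is not divisible by `G`. -/
theorem Cert.not_dvd {G : ℂ[X][Y]} (hG : Irreducible G) {n : ℕ} {y : Fin n → ℂ × ℂ}
    (hy : Cert G y) {c : Finset (Fin n) → ℂ} (hc : c ≠ 0) :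
    ¬ G ∣ (nmat (fun I => C (C (c I))) (fun i => QQ (y i))).det := by
  have hprime : (Ideal.span {G} : Ideal ℂ[X][Y]).IsPrime :=
    (Ideal.span_singleton_prime hG.ne_zero).2 hG.prime
  refine hy.not_dvd_aux hG hc (A := ℂ[X][Y] ⧸ (Ideal.span {G} : Ideal ℂ[X][Y]))
    (K := FractionRing (ℂ[X][Y] ⧸ (Ideal.span {G} : Ideal ℂ[X][Y])))
    (Ideal.Quotient.mk (Ideal.span {G})) Ideal.Quotient.mk_surjective fun F => ?_
  rw [Ideal.Quotient.eq_zero_iff_mem, Ideal.mem_span_singleton]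

end Pool.Agent.Lib.MP_bc4313_co
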