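import Mathlib
import Pool.Agent.Lib.MP_bc4313_co.Puis

/-!
Choice of the base points.
-/

namespace Pool.Agent.Lib.MP_bc4313_co

open Polynomial Polynomial.Bivariate

/-- a large set of vertices of a graph of small degrees contains a large independent set -/
theorem greedy {α : Type*} [DecidableEq α] (R : α → α → Prop) [DecidableRel R]
    (hsymm : ∀ a b, R a b → R b a) (d : ℕ) (n : ℕ) :
    ∀ B : Finset α, n * (d + 1) ≤ B.card → (∀ a ∈ B, (B.filter (R a)).card ≤ d) →
      ∃ A ⊆ B, A.card = n ∧ ∀ a ∈ A, ∀ b ∈ A, a ≠ b → ¬ R a b := by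
  induction n with
  | zero => exact fun B _ _ => ⟨∅, Finset.empty_subset _, rfl, by simp⟩
  | succ n ih =>
    intro B hB hd
    have hne : B.Nonempty := by
      rw [← Finset.card_pos]
      have : 0 < (n + 1) * (d + 1) := by positivity
      omega
    obtain ⟨a, ha⟩ := hne
    set B' := (B.erase a) \ B.filter (R a) with hB'
    have hB'B : B' ⊆ B := (Finset.sdiff_subset).trans (Finset.erase_subset _ _)
    have hcard : n * (d + 1) ≤ B'.card := by
      have h1 : (B.erase a).card ≤ B'.card + (B.filter (R a)).card := by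
        rw [hB']
        have := Finset.le_card_sdiff (B.filter (R a)) (B.erase a)
        omega
      have h2 := Finset.card_erase_of_mem ha
      have h3 := hd a ha
      have h4 : (n + 1) * (d + 1) = n * (d + 1) + (d + 1) := by ring
      omega
    obtain ⟨A, hA, hAn, hAR⟩ := ih B' hcard fun b hb =>
      (Finset.card_le_card (Finset.filter_subset_filter _ hB'B)).trans (hd b (hB'B hb))
    have haA : a ∉ A := fun h => by
      have := hA h
      rw [hB', Finset.mem_sdiff] at this
      exact (Finset.mem_erase.1 this.1).1 rfl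
    have hRA : ∀ b ∈ A, ¬ R a b := by
      intro b hb hR
      have := hA hb
      rw [hB', Finset.mem_sdiff] at this
      exact this.2 (Finset.mem_filter.2 ⟨hB'B (hA hb), hR⟩)
    refine ⟨insert a A, ?_, ?_, ?_⟩
    · exact Finset.insert_subset ha (hA.trans hB'B)
    · rw [Finset.card_insert_of_notMem haA, hAn]
    · intro b hb c hc hbc
      rcases Finset.mem_insert.1 hb with hb1 | hb1
      · rcases Finset.mem_insert.1 hc with hc1 | hc1
        · exact absurd (hb1.trans hc1.symm) hbc
        · rw [hb1]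
          exact hRA c hc1
      · rcases Finset.mem_insert.1 hc with hc1 | hc1
        · rw [hc1]
          exact fun h => hRA b hb1 (hsymm _ _ h)
        · exact hAR b hb1 c hc1 hbc

/-- the number of `z` with `G(z, w0) = 0` -/
theorem card_zeros_fst {G : ℂ[X][Y]} {D : ℕ} (hGD : Bd G D) {w0 : ℂ}
    (hw0 : ¬ (Y - C (C w0)) ∣ G) (Z : Finset (ℂ × ℂ))
    (hinj : Set.InjOn Prod.fst (Z : Set (ℂ × ℂ))) (h : ∀ y ∈ Z, G.evalEval y.1 w0 = 0) :
    Z.card ≤ D := by
  classical
  have hne : G.eval (C w0) ≠ 0 := fun h0 => hw0 (dvd_iff_isRoot.2 h0)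
  have hdeg : (G.eval (C w0)).natDegree ≤ D := by
    rw [eval_eq_sum_range]
    refine natDegree_sum_le_of_forall_le _ _ fun i _ => ?_
    rw [← C_pow]
    exact (natDegree_mul_C_le _ _).trans (hGD.2 i)
  rw [← Finset.card_image_of_injOn hinj]
  refine (card_roots_le _ hne _ fun z hz => ?_).trans hdeg
  obtain ⟨y, hy, rfl⟩ := Finset.mem_image.1 hz
  exact h y hy

/-- Selection of base points on which the square roots are independent. -/
theorem select {G : ℂ[X][Y]} {D n : ℕ} (hGD : Bd G D)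
    (hvert : ∀ w0 : ℂ, ¬ (Y - C (C w0)) ∣ G) (B : Finset (ℂ × ℂ))
    (hfst : Set.InjOn Prod.fst (B : Set (ℂ × ℂ))) (hsnd : Set.InjOn Prod.snd (B : Set (ℂ × ℂ)))
    (hroot : ∀ y ∈ B, ∃ ω, G.evalEval y.1 ω = 0 ∧ (derivative G).evalEval y.1 ω ≠ 0 ∧ ω ≠ y.2)
    (hcard : n * (D + 2) ≤ B.card) :
    ∃ y : Fin n → ℂ × ℂ, (∀ i, y i ∈ B) ∧ Cert G y := by
  classical
  have hroot' : ∀ y : ℂ × ℂ, ∃ ω, y ∈ B → G.evalEval y.1 ω = 0 ∧
      (derivative G).evalEval y.1 ω ≠ 0 ∧ ω ≠ y.2 := by
    intro y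
    by_cases hy : y ∈ B
    · obtain ⟨ω, h⟩ := hroot y hy
      exact ⟨ω, fun _ => h⟩
    · exact ⟨0, fun h => absurd h hy⟩
  choose ω hω using hroot'
  obtain ⟨A, hAB, hAn, hA⟩ := greedy (fun a b => ω a = b.2 ∨ ω b = a.2)
    (fun a b h => h.symm) (D + 1) n B hcard (by
      intro a ha
      have hsub : B.filter (fun b => ω a = b.2 ∨ ω b = a.2) ⊆
          B.filter (fun b => ω a = b.2) ∪ B.filter (fun b => ω b = a.2) := by
        intro b hb
        rw [Finset.mem_filter] at hb
        rw [Finset.mem_union, Finset.mem_filter, Finset.mem_filter]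
        rcases hb with ⟨h1, h2 | h2⟩
        · exact Or.inl ⟨h1, h2⟩
        · exact Or.inr ⟨h1, h2⟩
      refine (Finset.card_le_card hsub).trans ((Finset.card_union_le _ _).trans ?_)
      have h1 : (B.filter (fun b => ω a = b.2)).card ≤ 1 := by
        rw [Finset.card_le_one]
        intro b hb c hc
        rw [Finset.mem_filter] at hb hc
        exact hsnd hb.1 hc.1 (hb.2.symm.trans hc.2)
      have h2 : (B.filter (fun b => ω b = a.2)).card ≤ D := by
        refine card_zeros_fst hGD (hvert a.2) _ (hfst.mono fun b hb => ?_) fun b hb => ?_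
        · rw [Finset.mem_coe, Finset.mem_filter] at hb
          exact hb.1
        · rw [Finset.mem_filter] at hb
          rw [← hb.2]
          exact (hω b hb.1).1
      omega)
  obtain ⟨e⟩ : Nonempty (Fin n ≃ A) := ⟨(Fintype.equivFinOfCardEq (by simpa using hAn)).symm⟩
  refine ⟨fun i => (e i).1, fun i => hAB (e i).2, ?_, ?_⟩
  · intro i j hij h
    exact hij (e.injective (Subtype.ext (hfst (hAB (e i).2) (hAB (e j).2) h)))
  · intro i
    have hi := hω _ (hAB (e i).2)
    refine ⟨ω (e i).1, hi.1, hi.2.1, fun j => ?_⟩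
    by_cases hij : e i = e j
    · rw [← hij]
      exact hi.2.2
    · intro h
      exact hA _ (e i).2 _ (e j).2 (fun h' => hij (Subtype.ext h')) (Or.inl h)

/-- a separable polynomial over `ℂ` of degree at least two has a simple root different from a given
number -/
theorem exists_root_ne {g : ℂ[X]} (hs : IsCoprime g (derivative g)) (hd : 2 ≤ g.natDegree) (w : ℂ) :
    ∃ ω, g.eval ω = 0 ∧ (derivative g).eval ω ≠ 0 ∧ ω ≠ w := by
  classical
  have hg : g ≠ 0 := by
    rintro rfl
    simp at hd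
  have hcard : g.roots.toFinset.card = g.natDegree := by
    rw [Multiset.toFinset_card_of_nodup (nodup_roots hs)]
    exact (IsAlgClosed.splits g).natDegree_eq_card_roots.symm
  obtain ⟨ω, hω, hne⟩ : ∃ ω ∈ g.roots.toFinset, ω ≠ w :=
    Finset.exists_mem_ne (by rw [hcard]; omega) w
  rw [Multiset.mem_toFinset, mem_roots hg] at hω
  refine ⟨ω, hω, ?_, hne⟩
  obtain ⟨a, b, hab⟩ := hs
  intro h0
  have := congrArg (eval ω) hab
  rw [eval_add, eval_mul, eval_mul, hω.eq_zero, h0, mul_zero, mul_zero, add_zero, eval_one] at this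
  exact zero_ne_one this

theorem map_eval_eq (F : ℂ[X][Y]) (z w : ℂ) : (F.map (evalRingHom z)).eval w = F.evalEval z w :=
  map_evalRingHom_eval ..

/-- selection for polynomials of degree at least two in the second variable -/
theorem select_two {G : ℂ[X][Y]} (hG : Irreducible G) {D n : ℕ} (hGD : Bd G D)
    (hd : 2 ≤ G.natDegree) (B : Finset (ℂ × ℂ))
    (hfst : Set.InjOn Prod.fst (B : Set (ℂ × ℂ))) (hsnd : Set.InjOn Prod.snd (B : Set (ℂ × ℂ)))
    (hcard : n * (D + 2) + (2 * D * D + D) ≤ B.card) :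
    ∃ y : Fin n → ℂ × ℂ, (∀ i, y i ∈ B) ∧ Cert G y := by
  classical
  obtain ⟨s, hs, hsep⟩ := bad_card hG (by omega) hGD
  set B' := B.filter (fun y => y.1 ∉ s) with hB'
  have hB'B : B' ⊆ B := Finset.filter_subset _ _
  have hcard' : n * (D + 2) ≤ B'.card := by
    have h1 := Finset.card_filter_add_card_filter_not (s := B) (fun y => y.1 ∈ s)
    have h2 : (B.filter (fun y => y.1 ∈ s)).card ≤ s.card := by
      refine Finset.card_le_card_of_injOn Prod.fst (fun y hy => ?_) (hfst.mono fun y hy => ?_)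
      · exact (Finset.mem_filter.1 hy).2
      · exact Finset.mem_coe.2 (Finset.mem_filter.1 (Finset.mem_coe.1 hy)).1
    have h3 : (B.filter (fun y => ¬ y.1 ∈ s)).card = B'.card := rfl
    omega
  have hv : ∀ w0 : ℂ, ¬ (Y - C (C w0)) ∣ G := by
    intro w0 h
    obtain ⟨u, hu⟩ := h
    rcases hG.isUnit_or_isUnit hu with h1 | h1
    · have := natDegree_eq_zero_of_isUnit h1
      rw [natDegree_X_sub_C] at this
      exact one_ne_zero this
    · have h2 := congrArg natDegree hu
      have h3 := natDegree_eq_zero_of_isUnit h1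
      have h4 := natDegree_mul_le (p := (Y - C (C w0) : ℂ[X][Y])) (q := u)
      rw [← hu, natDegree_X_sub_C, h3] at h4
      omega
  have hr : ∀ y ∈ B', ∃ ω, G.evalEval y.1 ω = 0 ∧ (derivative G).evalEval y.1 ω ≠ 0 ∧
      ω ≠ y.2 := by
    intro y hy
    obtain ⟨h1, h2⟩ := hsep _ (Finset.mem_filter.1 hy).2
    obtain ⟨ω, h3, h4, h5⟩ := exists_root_ne h1 (by rw [h2]; exact hd) y.2
    refine ⟨ω, ?_, ?_, h5⟩
    · rwa [map_eval_eq] at h3
    · rwa [derivative_map, map_eval_eq] at h4
  obtain ⟨y, hy, hc⟩ := select (n := n) hGD hv B'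
    (hfst.mono (Finset.coe_subset.2 hB'B)) (hsnd.mono (Finset.coe_subset.2 hB'B)) hr hcard'
  exact ⟨y, fun i => hB'B (hy i), hc⟩

/-- selection for polynomials of degree one in both variables, from points off the curve -/
theorem select_one {G : ℂ[X][Y]} (hG : Irreducible G) {n : ℕ} (hGD : Bd G 1)
    (hd : G.natDegree = 1) (hd' : (Bivariate.swap G).natDegree = 1) (B : Finset (ℂ × ℂ))
    (hfst : Set.InjOn Prod.fst (B : Set (ℂ × ℂ))) (hsnd : Set.InjOn Prod.snd (B : Set (ℂ × ℂ)))
    (hoff : ∀ y ∈ B, G.evalEval y.1 y.2 ≠ 0) (hcard : 3 * n + 3 ≤ B.card) :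
    ∃ y : Fin n → ℂ × ℂ, (∀ i, y i ∈ B) ∧ Cert G y := by
  classical
  obtain ⟨s, hs, hsep⟩ := bad_card hG (by omega) hGD
  set B' := B.filter (fun y => y.1 ∉ s) with hB'
  have hB'B : B' ⊆ B := Finset.filter_subset _ _
  have hcard' : n * (1 + 2) ≤ B'.card := by
    have h1 := Finset.card_filter_add_card_filter_not (s := B) (fun y => y.1 ∈ s)
    have h2 : (B.filter (fun y => y.1 ∈ s)).card ≤ s.card := by
      refine Finset.card_le_card_of_injOn Prod.fst (fun y hy => ?_) (hfst.mono fun y hy => ?_)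
      · exact (Finset.mem_filter.1 hy).2
      · exact Finset.mem_coe.2 (Finset.mem_filter.1 (Finset.mem_coe.1 hy)).1
    have h3 : (B.filter (fun y => ¬ y.1 ∈ s)).card = B'.card := rfl
    omega
  have hv : ∀ w0 : ℂ, ¬ (Y - C (C w0)) ∣ G := by
    intro w0 h
    obtain ⟨u, hu⟩ := h
    have hu' : Bivariate.swap G = C (X - C w0) * Bivariate.swap u := by
      rw [hu, map_mul, map_sub, Bivariate.swap_Y, Bivariate.swap_C_C, C_sub]
    rcases hG.isUnit_or_isUnit hu with h1 | h1
    · have := natDegree_eq_zero_of_isUnit h1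
      rw [natDegree_X_sub_C] at this
      exact one_ne_zero this
    · have h3 := natDegree_eq_zero_of_isUnit (h1.map Bivariate.swap)
      rw [hu', natDegree_C_mul (X_sub_C_ne_zero _), h3] at hd'
      exact zero_ne_one hd'
  have hr : ∀ y ∈ B', ∃ ω, G.evalEval y.1 ω = 0 ∧ (derivative G).evalEval y.1 ω ≠ 0 ∧
      ω ≠ y.2 := by
    intro y hy
    obtain ⟨h1, h2⟩ := hsep _ (Finset.mem_filter.1 hy).2
    have hdeg : (G.map (evalRingHom y.1)).natDegree = 1 := by rw [h2, hd]
    have hg : G.map (evalRingHom y.1) ≠ 0 := by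
      intro h0
      rw [h0, natDegree_zero] at hdeg
      exact zero_ne_one hdeg
    obtain ⟨ω, hω⟩ := IsAlgClosed.exists_root (G.map (evalRingHom y.1)) (by
      intro h0
      rw [degree_eq_natDegree hg, hdeg] at h0
      simp at h0)
    refine ⟨ω, ?_, ?_, ?_⟩
    · have := hω.eq_zero
      rwa [map_eval_eq] at this
    · obtain ⟨a, b, hab⟩ := h1
      intro h0
      have := congrArg (eval ω) hab
      rw [eval_add, eval_mul, eval_mul, hω.eq_zero, derivative_map, map_eval_eq _ _ ω, h0, mul_zero,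
        mul_zero, add_zero, eval_one] at this
      exact zero_ne_one this
    · rintro rfl
      apply hoff y (hB'B hy)
      rw [← map_eval_eq]
      exact hω.eq_zero
  obtain ⟨y, hy, hc⟩ := select (n := n) hGD hv B'
    (hfst.mono (Finset.coe_subset.2 hB'B)) (hsnd.mono (Finset.coe_subset.2 hB'B)) hr hcard'
  exact ⟨y, fun i => hB'B (hy i), hc⟩

end Pool.Agent.Lib.MP_bc4313_co
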