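import Mathlib
import Pool.Agent.Lib.MP_bc4313_co.Sel

/-!
A small set of points from which base points can be chosen for each curve.
-/

namespace Pool.Agent.Lib.MP_bc4313_co

open Polynomial Polynomial.Bivariate

/-- few points detect the vectors of a space of small dimension -/
theorem detect {α K V : Type*} [Field K] [AddCommGroup V] [Module K V] [FiniteDimensional K V]
    (e : α → V →ₗ[K] K) (r : ℕ) : ∀ (W : Submodule K V), Module.finrank K W ≤ r →
      ∀ T : Set α, (∀ v ∈ W, v ≠ 0 → ∃ t ∈ T, e t v ≠ 0) →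
      ∃ A : Finset α, ↑A ⊆ T ∧ A.card ≤ r ∧ ∀ v ∈ W, v ≠ 0 → ∃ t ∈ A, e t v ≠ 0 := by
  classical
  induction r with
  | zero =>
    intro W hW T _
    refine ⟨∅, by simp, le_rfl, fun v hv hv0 => ?_⟩
    have : W = ⊥ := Submodule.finrank_eq_zero.1 (Nat.le_zero.1 hW)
    rw [this, Submodule.mem_bot] at hv
    exact absurd hv hv0
  | succ r ih =>
    intro W hW T hT
    by_cases hW0 : W = ⊥
    · refine ⟨∅, by simp, Nat.zero_le _, fun v hv hv0 => ?_⟩
      rw [hW0, Submodule.mem_bot] at hv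
      exact absurd hv hv0
    obtain ⟨v, hv, hv0⟩ := Submodule.exists_mem_ne_zero_of_ne_bot hW0
    obtain ⟨t, ht, htv⟩ := hT v hv hv0
    set W' := W ⊓ LinearMap.ker (e t) with hW'
    have hlt : W' < W := by
      refine lt_of_le_of_ne inf_le_left fun h => ?_
      rw [← h] at hv
      exact htv (LinearMap.mem_ker.1 (Submodule.mem_inf.1 hv).2)
    have hfin : Module.finrank K W' ≤ r := by
      have := Submodule.finrank_lt_finrank_of_lt hlt
      omega
    obtain ⟨A, hAT, hAr, hA⟩ := ih W' hfin T fun v hv hv0 => hT v (Submodule.mem_inf.1 hv).1 hv0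
    refine ⟨insert t A, ?_, (Finset.card_insert_le _ _).trans (Nat.succ_le_succ hAr),
      fun v hv hv0 => ?_⟩
    · rw [Finset.coe_insert]
      exact Set.insert_subset ht hAT
    · by_cases htv : e t v = 0
      · obtain ⟨s, hs, hsv⟩ := hA v (Submodule.mem_inf.2 ⟨hv, LinearMap.mem_ker.2 htv⟩) hv0
        exact ⟨s, Finset.mem_insert_of_mem hs, hsv⟩
      · exact ⟨t, Finset.mem_insert_self _ _, htv⟩

/-- a small set which detects all vectors many times -/
theorem pool {α K V : Type*} [Field K] [AddCommGroup V] [Module K V] [FiniteDimensional K V]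
    (e : α → V →ₗ[K] K) {r : ℕ} (hr : Module.finrank K V ≤ r) (hr0 : 0 < r) (T : Set α) (k : ℕ)
    (hT : ∀ v : V, v ≠ 0 → ∃ F : Finset α, ↑F ⊆ T ∧ r * k ≤ F.card ∧ ∀ t ∈ F, e t v ≠ 0) :
    ∃ B : Finset α, ↑B ⊆ T ∧ B.card ≤ r * k ∧ ∀ v : V, v ≠ 0 →
      ∃ F ⊆ B, F.card = k ∧ ∀ t ∈ F, e t v ≠ 0 := by
  classical
  induction k with
  | zero =>
    exact ⟨∅, by simp, by simp, fun v _ => ⟨∅, Finset.empty_subset _, rfl, by simp⟩⟩
  | succ k ih =>
    obtain ⟨B, hBT, hBc, hB⟩ := ih fun v hv => by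
      obtain ⟨F, h1, h2, h3⟩ := hT v hv
      exact ⟨F, h1, (Nat.mul_le_mul_left r (Nat.le_succ k)).trans h2, h3⟩
    have hdet : ∀ v ∈ (⊤ : Submodule K V), v ≠ 0 → ∃ t ∈ T \ ↑B, e t v ≠ 0 := by
      intro v _ hv
      obtain ⟨F, h1, h2, h3⟩ := hT v hv
      have hlt : B.card < F.card := by
        have : r * (k + 1) = r * k + r := by ring
        omega
      obtain ⟨t, htF, htB⟩ := Finset.exists_mem_notMem_of_card_lt_card hlt
      exact ⟨t, ⟨h1 htF, fun h => htB (Finset.mem_coe.1 h)⟩, h3 t htF⟩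
    obtain ⟨A, hAT, hAc, hA⟩ := detect e r ⊤ (by rwa [finrank_top]) _ hdet
    refine ⟨B ∪ A, ?_, ?_, fun v hv => ?_⟩
    · rw [Finset.coe_union]
      exact Set.union_subset hBT (hAT.trans Set.sdiff_subset)
    · refine (Finset.card_union_le _ _).trans ?_
      have : r * (k + 1) = r * k + r := by ring
      omega
    · obtain ⟨F, hFB, hFc, hF⟩ := hB v hv
      obtain ⟨t, htA, htv⟩ := hA v Submodule.mem_top hv
      have htB : t ∉ B := fun h => (hAT (Finset.mem_coe.2 htA)).2 (Finset.mem_coe.2 h)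
      refine ⟨insert t F, ?_, ?_, ?_⟩
      · exact Finset.insert_subset (Finset.mem_union_right _ htA)
          (hFB.trans Finset.subset_union_left)
      · rw [Finset.card_insert_of_notMem (fun h => htB (hFB h)), hFc]
      · intro s hs
        rcases Finset.mem_insert.1 hs with rfl | hs
        · exact htv
        · exact hF s hs

/-- the norm polynomial of a relation with constant coefficients -/
noncomputable def NN {n : ℕ} (c : Finset (Fin n) → ℂ) (y : Fin n → ℂ × ℂ) : ℂ[X][Y] :=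
  (nmat (fun I => C (C (c I))) (fun i => QQ (y i))).det

theorem QQ_evalEval (y u : ℂ × ℂ) : (QQ y).evalEval u.1 u.2 = (u.1 - y.1) * (u.2 - y.2) := by
  simp only [QQ, evalEval_mul, evalEval_sub, evalEval_C, evalEval_X, eval_C, eval_sub, eval_X]

theorem swap_QQ (y : ℂ × ℂ) : Bivariate.swap (QQ y) = QQ y.swap := by
  simp only [QQ, map_mul, map_sub, Bivariate.swap_Y, Bivariate.swap_C_C, Bivariate.swap_X,
    Prod.fst_swap, Prod.snd_swap]
  ring

theorem swap_NN {n : ℕ} (c : Finset (Fin n) → ℂ) (y : Fin n → ℂ × ℂ) :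
    Bivariate.swap (NN c y) = NN c (fun i => (y i).swap) := by
  unfold NN
  rw [AlgEquiv.map_det]
  congr 1
  ext1 J K
  simp only [AlgEquiv.mapMatrix_apply, Matrix.map_apply, nmat, Matrix.of_apply, map_mul, map_prod,
    Bivariate.swap_C_C, swap_QQ]

theorem Bd_NN {n : ℕ} (c : Finset (Fin n) → ℂ) (y : Fin n → ℂ × ℂ) : Bd (NN c y) (2 ^ n * n) := by
  have h1 : ∀ (c : Finset (Fin n) → ℂ) (y : Fin n → ℂ × ℂ), (NN c y).natDegree ≤ 2 ^ n * n := by
    intro c y
    refine (natDegree_det_le (d := n) _ fun J K => ?_).trans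
      (by rw [Fintype.card_finset, Fintype.card_fin])
    simp only [nmat, Matrix.of_apply]
    refine (natDegree_mul_le).trans ?_
    rw [natDegree_C, zero_add]
    refine (natDegree_prod_le _ _).trans ?_
    calc ∑ i ∈ J \ K, (QQ (y i)).natDegree ≤ ∑ _i ∈ J \ K, 1 := by
          refine Finset.sum_le_sum fun i _ => ?_
          refine (natDegree_mul_le).trans ?_
          rw [natDegree_C, zero_add, natDegree_X_sub_C]
      _ = (J \ K).card := by simp
      _ ≤ n := by
          have := Finset.card_le_univ (J \ K)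
          rwa [Fintype.card_fin] at this
  refine ⟨h1 c y, fun i => ?_⟩
  rw [natDegree_le_iff_coeff_eq_zero]
  intro j hj
  rw [← coeff_swap, swap_NN]
  rw [coeff_eq_zero_of_natDegree_lt (lt_of_le_of_lt (h1 _ _) hj), coeff_zero]

/-- The norm vanishes where a relation between square roots holds. -/
theorem NN_eq_zero {n : ℕ} (c : Finset (Fin n) → ℂ) (y : Fin n → ℂ × ℂ) (u : ℂ × ℂ)
    (δ : Fin n → ℂ) (hδ : ∀ i, δ i ^ 2 = (u.1 - (y i).1) * (u.2 - (y i).2))
    (h : ∑ I, c I * ∏ i ∈ I, δ i = 0) : (NN c y).evalEval u.1 u.2 = 0 := by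
  refine det_nmat_eq_zero (evalEvalRingHom u.1 u.2) δ _ _ (fun i => ?_) ?_
  · rw [hδ, coe_evalEvalRingHom, QQ_evalEval]
  · rw [← h]
    refine Finset.sum_congr rfl fun I _ => ?_
    rw [coe_evalEvalRingHom, evalEval_C, eval_C]

/-- Base points for which no norm is divisible by `G`. -/
def Nice (G : ℂ[X][Y]) {n : ℕ} (y : Fin n → ℂ × ℂ) : Prop :=
  ∀ c : Finset (Fin n) → ℂ, c ≠ 0 → ¬ G ∣ NN c y

theorem Cert.nice {G : ℂ[X][Y]} (hG : Irreducible G) {n : ℕ} {y : Fin n → ℂ × ℂ}
    (hy : Cert G y) : Nice G y := fun _ hc => hy.not_dvd hG hc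

theorem swap_irred {G : ℂ[X][Y]} (hG : Irreducible G) : Irreducible (Bivariate.swap G) :=
  (MulEquiv.irreducible_iff (Bivariate.swap (R := ℂ)).toMulEquiv).2 hG

theorem Nice.of_swap {G : ℂ[X][Y]} {n : ℕ} {y : Fin n → ℂ × ℂ}
    (hy : Nice (Bivariate.swap G) (fun i => (y i).swap)) : Nice G y := by
  intro c hc h
  apply hy c hc
  rw [← swap_NN]
  obtain ⟨u, hu⟩ := h
  exact ⟨Bivariate.swap u, by rw [hu, map_mul]⟩

/-- Base points for an irreducible curve: all cases. -/
theorem exists_nice {G : ℂ[X][Y]} (hG : Irreducible G) {D n : ℕ} (hGD : Bd G D)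
    (B : Finset (ℂ × ℂ))
    (hfst : Set.InjOn Prod.fst (B : Set (ℂ × ℂ))) (hsnd : Set.InjOn Prod.snd (B : Set (ℂ × ℂ)))
    (hcard : n * (D + 2) + (2 * D * D + D) ≤ B.card)
    (hoff : Bd G 1 → ∃ F ⊆ B, 3 * n + 3 ≤ F.card ∧ ∀ y ∈ F, G.evalEval y.1 y.2 ≠ 0) :
    G.natDegree = 0 ∨ (Bivariate.swap G).natDegree = 0 ∨
      ∃ y : Fin n → ℂ × ℂ, (∀ i, y i ∈ B) ∧ Nice G y := by
  classical
  by_cases h0 : G.natDegree = 0
  · exact Or.inl h0
  by_cases h0' : (Bivariate.swap G).natDegree = 0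
  · exact Or.inr (Or.inl h0')
  right; right
  by_cases h2 : 2 ≤ G.natDegree
  · obtain ⟨y, hy, hc⟩ := select_two hG hGD h2 B hfst hsnd hcard
    exact ⟨y, hy, hc.nice hG⟩
  by_cases h2' : 2 ≤ (Bivariate.swap G).natDegree
  · set B' : Finset (ℂ × ℂ) := B.image Prod.swap with hB'
    have hfst' : Set.InjOn Prod.fst (B' : Set (ℂ × ℂ)) := by
      intro a ha b hb hab
      rw [Finset.mem_coe, hB', Finset.mem_image] at ha hb
      obtain ⟨a', ha', rfl⟩ := ha
      obtain ⟨b', hb', rfl⟩ := hb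
      rw [hsnd ha' hb' hab]
    have hsnd' : Set.InjOn Prod.snd (B' : Set (ℂ × ℂ)) := by
      intro a ha b hb hab
      rw [Finset.mem_coe, hB', Finset.mem_image] at ha hb
      obtain ⟨a', ha', rfl⟩ := ha
      obtain ⟨b', hb', rfl⟩ := hb
      rw [hfst ha' hb' hab]
    have hcard' : B'.card = B.card := Finset.card_image_of_injective _ Prod.swap_injective
    obtain ⟨y, hy, hc⟩ := select_two (swap_irred hG) hGD.swap h2' B' hfst' hsnd'
      (by rw [hcard']; exact hcard)
    refine ⟨fun i => (y i).swap, fun i => ?_, ?_⟩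
    · obtain ⟨a, ha, hay⟩ := Finset.mem_image.1 (hy i)
      simp only
      rw [← hay, Prod.swap_swap]
      exact ha
    · apply Nice.of_swap
      simp only [Prod.swap_swap]
      exact hc.nice (swap_irred hG)
  · have hd : G.natDegree = 1 := by omega
    have hd' : (Bivariate.swap G).natDegree = 1 := by omega
    have hG1 : Bd G 1 := by
      refine ⟨hd.le, fun i => ?_⟩
      rw [natDegree_le_iff_coeff_eq_zero]
      intro j hj
      rw [← coeff_swap, coeff_eq_zero_of_natDegree_lt (p := Bivariate.swap G) (by omega), coeff_zero]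
    obtain ⟨F, hFB, hFc, hF⟩ := hoff hG1
    obtain ⟨y, hy, hc⟩ := select_one hG hG1 hd hd' F (hfst.mono (Finset.coe_subset.2 hFB))
      (hsnd.mono (Finset.coe_subset.2 hFB)) hF hFc
    exact ⟨y, fun i => hFB (hy i), hc.nice hG⟩

end Pool.Agent.Lib.MP_bc4313_co
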