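import Mathlib
import Pool.Agent.Lib.MP_bc4313_co.PoolSel
import Pool.Agent.Lib.MP_bc4313_co.AuxRel

/-!
Counting the points in the residue classes of one prime.
-/

namespace Pool.Agent.Lib.MP_bc4313_co

open Polynomial Polynomial.Bivariate

theorem irreducible_degree {G : ℂ[X][Y]} (hG : Irreducible G) :
    1 ≤ G.natDegree + (Bivariate.swap G).natDegree := by
  by_contra hcon
  have h1 : G.natDegree = 0 := by omega
  have h2 : (Bivariate.swap G).natDegree = 0 := by omega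
  obtain ⟨g, rfl⟩ := natDegree_eq_zero.1 h1
  rw [Bivariate.swap_C, natDegree_map_eq_of_injective C_injective] at h2
  obtain ⟨c, rfl⟩ := natDegree_eq_zero.1 h2
  by_cases hc : c = 0
  · exact hG.ne_zero (by rw [hc, C_0, C_0])
  · exact hG.not_isUnit (isUnit_C.2 (isUnit_C.2 (isUnit_iff_ne_zero.2 hc)))

theorem card_factors (f : Multiset ℂ[X][Y]) (hf : ∀ G ∈ f, Irreducible G) :
    Multiset.card f ≤ f.prod.natDegree + (Bivariate.swap f.prod).natDegree := by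
  induction f using Multiset.induction_on with
  | empty => simp
  | cons G f ih =>
    have hG := hf G (Multiset.mem_cons_self G f)
    have hf' : ∀ G ∈ f, Irreducible G := fun H hH => hf H (Multiset.mem_cons_of_mem hH)
    have hp0 : f.prod ≠ 0 := by
      rw [Ne, Multiset.prod_eq_zero_iff]
      exact fun h => (hf' 0 h).ne_zero rfl
    have hs0 : Bivariate.swap f.prod ≠ 0 := by
      intro h0
      apply hp0
      have := congrArg Bivariate.swap h0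
      rwa [Bivariate.swap_swap_apply, map_zero] at this
    have hG0 : Bivariate.swap G ≠ 0 := (swap_irred hG).ne_zero
    rw [Multiset.card_cons, Multiset.prod_cons, natDegree_mul hG.ne_zero hp0, map_mul,
      natDegree_mul hG0 hs0]
    have := ih hf'
    have := irreducible_degree hG
    omega

/-- the zeros of a nonzero polynomial -/
theorem card_zeros_of_factors {α : Type*} [DecidableEq α] {H : ℂ[X][Y]} (hH : H ≠ 0) {D M : ℕ}
    (hHD : Bd H D) (g : α → ℂ × ℂ) (Z : Finset α)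
    (hZ : ∀ P ∈ Z, H.evalEval (g P).1 (g P).2 = 0)
    (hM : ∀ G : ℂ[X][Y], Irreducible G → Bd G D → ∀ Z' ⊆ Z,
      (∀ P ∈ Z', G.evalEval (g P).1 (g P).2 = 0) → Z'.card ≤ M) : Z.card ≤ 2 * D * M := by
  classical
  obtain ⟨f, hf, hfa⟩ := WfDvdMonoid.exists_factors H hH
  have hdvd : ∀ G ∈ f, G ∣ H := fun G hG => (Multiset.dvd_prod hG).trans hfa.dvd
  have hsub : Z ⊆ f.toFinset.biUnion fun G => Z.filter fun P => G.evalEval (g P).1 (g P).2 = 0 := by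
    intro P hP
    obtain ⟨u, hu⟩ := hfa.symm
    have h1 : f.prod.evalEval (g P).1 (g P).2 = 0 := by
      rw [← hu, evalEval_mul, hZ P hP, zero_mul]
    rw [evalEval_multiset_prod, Multiset.prod_eq_zero_iff, Multiset.mem_map] at h1
    obtain ⟨G, hG, hG0⟩ := h1
    exact Finset.mem_biUnion.2 ⟨G, Multiset.mem_toFinset.2 hG, Finset.mem_filter.2 ⟨hP, hG0⟩⟩
  refine (Finset.card_le_card hsub).trans (Finset.card_biUnion_le.trans ?_)
  have h2 : ∀ G ∈ f.toFinset,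
      (Z.filter fun P => G.evalEval (g P).1 (g P).2 = 0).card ≤ M := by
    intro G hG
    rw [Multiset.mem_toFinset] at hG
    exact hM G (hf G hG) (hHD.of_dvd hH (hdvd G hG)) _ (Finset.filter_subset _ _)
      fun P hP => (Finset.mem_filter.1 hP).2
  refine (Finset.sum_le_sum h2).trans ?_
  rw [Finset.sum_const, smul_eq_mul]
  refine Nat.mul_le_mul_right _ ?_
  have h3 := (Multiset.toFinset_card_le f).trans (card_factors f hf)
  have h4 : Bd f.prod D := hHD.of_dvd hH hfa.dvd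
  have h5 : (Bivariate.swap f.prod).natDegree ≤ D := h4.swap.1
  have h6 := h4.1
  omega

section norm

variable {p : ℕ} [hp : Fact p.Prime]

theorem norm_sub_lt {a b : ℚ_[p]} (ha : ‖a‖ < 1) (hb : ‖b‖ < 1) : ‖a - b‖ < 1 := by
  have h := IsUltrametricDist.norm_add_le_max a (-b)
  rw [norm_neg, ← sub_eq_add_neg] at h
  exact h.trans_lt (max_lt ha hb)

theorem norm_add_le_one {a b : ℚ_[p]} (ha : ‖a‖ ≤ 1) (hb : ‖b‖ ≤ 1) : ‖a + b‖ ≤ 1 :=
  (IsUltrametricDist.norm_add_le_max a b).trans (max_le ha hb)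

theorem norm_sub_le_one {a b : ℚ_[p]} (ha : ‖a‖ ≤ 1) (hb : ‖b‖ ≤ 1) : ‖a - b‖ ≤ 1 := by
  rw [sub_eq_add_neg]
  exact norm_add_le_one ha (by rwa [norm_neg])

theorem norm_mul_lt {a b : ℚ_[p]} (ha : ‖a‖ < 1) (hb : ‖b‖ ≤ 1) : ‖a * b‖ < 1 := by
  rw [norm_mul]
  exact (mul_le_of_le_one_right (norm_nonneg _) hb).trans_lt ha

/-- In a residue class the distances from a base point are congruent up to sign. -/
theorem sign_dichotomy {κ : ℚ} (hκ : ‖(κ : ℚ_[p])‖ ≤ 1) {P P0 q : ℚ × ℚ}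
    (hP : ‖(P.1 : ℚ_[p])‖ ≤ 1 ∧ ‖(P.2 : ℚ_[p])‖ ≤ 1)
    (hP0 : ‖(P0.1 : ℚ_[p])‖ ≤ 1 ∧ ‖(P0.2 : ℚ_[p])‖ ≤ 1)
    (hq : ‖(q.1 : ℚ_[p])‖ ≤ 1 ∧ ‖(q.2 : ℚ_[p])‖ ≤ 1) {d d0 : ℚ}
    (hd : d ^ 2 = qf κ (P - q)) (hd0 : d0 ^ 2 = qf κ (P0 - q))
    (h1 : ‖((P.1 - P0.1 : ℚ) : ℚ_[p])‖ < 1) (h2 : ‖((P.2 - P0.2 : ℚ) : ℚ_[p])‖ < 1)
    (hn : ¬ ‖((d - d0 : ℚ) : ℚ_[p])‖ < 1) : ‖((d + d0 : ℚ) : ℚ_[p])‖ < 1 := by
  have hid : ((d - d0 : ℚ) : ℚ_[p]) * ((d + d0 : ℚ) : ℚ_[p]) =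
      ((P.1 - P0.1 : ℚ) : ℚ_[p]) * ((P.1 : ℚ_[p]) + P0.1 - (q.1 + q.1)) +
      ((P.2 - P0.2 : ℚ) : ℚ_[p]) * ((κ : ℚ_[p]) * ((P.2 : ℚ_[p]) + P0.2 - (q.2 + q.2))) := by
    have e : (d - d0) * (d + d0) = (P.1 - P0.1) * (P.1 + P0.1 - (q.1 + q.1)) +
        (P.2 - P0.2) * (κ * (P.2 + P0.2 - (q.2 + q.2))) := by
      have : (d - d0) * (d + d0) = d ^ 2 - d0 ^ 2 := by ring
      rw [this, hd, hd0]
      simp only [qf, Prod.fst_sub, Prod.snd_sub]
      ring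
    have := congrArg (fun x : ℚ => (x : ℚ_[p])) e
    push_cast at this ⊢
    exact this
  have hlt : ‖((d - d0 : ℚ) : ℚ_[p]) * ((d + d0 : ℚ) : ℚ_[p])‖ < 1 := by
    rw [hid]
    refine (IsUltrametricDist.norm_add_le_max _ _).trans_lt (max_lt ?_ ?_)
    · exact norm_mul_lt h1 (norm_sub_le_one (norm_add_le_one hP.1 hP0.1)
        (norm_add_le_one hq.1 hq.1))
    · refine norm_mul_lt h2 ?_
      rw [norm_mul]
      exact mul_le_one₀ hκ (norm_nonneg _) (norm_sub_le_one (norm_add_le_one hP.2 hP0.2)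
        (norm_add_le_one hq.2 hq.2))
  by_contra hcon
  rw [norm_mul] at hlt
  push Not at hn hcon
  exact absurd hlt (not_lt.2 (one_le_mul_of_one_le_of_one_le hn hcon))

end norm

/-- Covering of a residue class by few zero sets of norms. -/
theorem class_cover {p : ℕ} [hp : Fact p.Prime] (hp2 : p ≠ 2) {κ : ℚ} {θ : ℂ}
    (hθ : θ ^ 2 = -κ) (hκ : ‖(κ : ℚ_[p])‖ ≤ 1)
    (m B : ℕ) (hB : (2 * B) ^ (2 * m + 3) < p ^ (2 ^ m)) (q : Fin (2 * m + 3) → ℚ × ℚ)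
    (hq : ∀ i, ‖((q i).1 : ℚ_[p])‖ ≤ 1 ∧ ‖((q i).2 : ℚ_[p])‖ ≤ 1)
    (Z : Finset (ℚ × ℚ)) (D : ℚ × ℚ → ℚ × ℚ → ℚ)
    (hZ : ∀ P ∈ Z, ‖(P.1 : ℚ_[p])‖ ≤ 1 ∧ ‖(P.2 : ℚ_[p])‖ ≤ 1)
    (hD : ∀ P ∈ Z, ∀ i, D P (q i) ^ 2 = qf κ (P - q i))
    (hDu : ∀ P ∈ Z, ∀ i, ‖(D P (q i) : ℚ_[p])‖ = 1)
    (hDB : ∀ P ∈ Z, ∀ i, HH (D P (q i)) ≤ B)
    (hcong : ∀ P ∈ Z, ∀ P' ∈ Z, ‖((P.1 - P'.1 : ℚ) : ℚ_[p])‖ < 1 ∧
      ‖((P.2 - P'.2 : ℚ) : ℚ_[p])‖ < 1) {M : ℕ}
    (hM : ∀ c : Finset (Fin (2 * m + 3)) → ℂ, c ≠ 0 → ∀ Z' ⊆ Z,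
      (∀ P ∈ Z', (NN c (fun i => zw θ (q i))).evalEval (zw θ P).1 (zw θ P).2 = 0) →
      Z'.card ≤ M) : Z.card ≤ 2 ^ (2 * m + 3) * M := by
  classical
  rcases Z.eq_empty_or_nonempty with rfl | ⟨P0, hP0⟩
  · simp
  set σ : ℚ × ℚ → Fin (2 * m + 3) → Bool := fun P i =>
    decide (‖((D P (q i) - D P0 (q i) : ℚ) : ℚ_[p])‖ < 1) with hσ
  have hcard := Finset.card_le_mul_card_image_of_maps_to (f := σ) (s := Z) (t := Finset.univ)
    (fun _ _ => Finset.mem_univ _) M ?_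
  · rw [Finset.card_univ, Fintype.card_fun, Fintype.card_bool, Fintype.card_fin] at hcard
    rw [mul_comm]
    exact hcard
  · intro s _
    set F := Z.filter (fun P => σ P = s) with hF
    obtain ⟨c, hc0, hc⟩ := aux_class hp2 hκ m B hB q hq (F : Set (ℚ × ℚ)) (fun P i => D P (q i))
      (fun P hP => hZ P (Finset.mem_filter.1 hP).1) (fun P hP => hD P (Finset.mem_filter.1 hP).1)
      (fun P hP => hDu P (Finset.mem_filter.1 hP).1) (fun P hP => hDB P (Finset.mem_filter.1 hP).1)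
      (by
        intro P hP P' hP'
        have hPZ := (Finset.mem_filter.1 hP).1
        have hPZ' := (Finset.mem_filter.1 hP').1
        have hPs := (Finset.mem_filter.1 hP).2
        have hPs' := (Finset.mem_filter.1 hP').2
        refine ⟨(hcong P hPZ P' hPZ').1, (hcong P hPZ P' hPZ').2, fun i => ?_⟩
        have hs : σ P i = σ P' i := by rw [hPs, hPs']
        simp only [hσ, decide_eq_decide] at hs
        by_cases h1 : ‖((D P (q i) - D P0 (q i) : ℚ) : ℚ_[p])‖ < 1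
        · have h2 := hs.1 h1
          have h3 := norm_sub_lt h1 h2
          push_cast at h3 ⊢
          rwa [sub_sub_sub_cancel_right] at h3
        · have h2 : ¬ ‖((D P' (q i) - D P0 (q i) : ℚ) : ℚ_[p])‖ < 1 := fun h => h1 (hs.2 h)
          have h3 := sign_dichotomy hκ (hZ P hPZ) (hZ P0 hP0) (hq i) (hD P hPZ i) (hD P0 hP0 i)
            (hcong P hPZ P0 hP0).1 (hcong P hPZ P0 hP0).2 h1
          have h4 := sign_dichotomy hκ (hZ P' hPZ') (hZ P0 hP0) (hq i) (hD P' hPZ' i)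
            (hD P0 hP0 i) (hcong P' hPZ' P0 hP0).1 (hcong P' hPZ' P0 hP0).2 h2
          have h5 := norm_sub_lt h3 h4
          push_cast at h5 ⊢
          rwa [add_sub_add_right_eq_sub] at h5)
    refine hM (fun I => (c I : ℂ)) ?_ F (Finset.filter_subset _ _) fun P hP => ?_
    · intro h
      apply hc0
      funext I
      have := congrFun h I
      simp only [Pi.zero_apply] at this ⊢
      exact_mod_cast this
    · refine NN_eq_zero _ _ _ (fun i => (D P (q i) : ℂ)) (fun i => ?_) ?_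
      · have h1 := hD P (Finset.mem_filter.1 hP).1 i
        have h2 := qf_zw (κ := κ) hθ P (q i)
        rw [← h1] at h2
        push_cast at h2
        rw [h2]
        ring
      · have := hc P hP
        exact_mod_cast this

end Pool.Agent.Lib.MP_bc4313_co
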