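import Mathlib
import Pool.Agent.Lib.MP_bc4313_co.Tally

/-!
Counting the points for which a prime is good.
-/

namespace Pool.Agent.Lib.MP_bc4313_co

open Polynomial Polynomial.Bivariate

theorem card_of_natDegree_zero {G : ℂ[X][Y]} (hG : Irreducible G) {D : ℕ} (hGD : Bd G D)
    (hd : G.natDegree = 0) (Z : Finset (ℂ × ℂ)) (hinj : Set.InjOn Prod.fst (Z : Set (ℂ × ℂ)))
    (h : ∀ y ∈ Z, G.evalEval y.1 y.2 = 0) : Z.card ≤ D := by
  classical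
  obtain ⟨g, rfl⟩ := natDegree_eq_zero.1 hd
  have hg : g ≠ 0 := by
    rintro rfl
    exact hG.ne_zero (by simp)
  rw [← Finset.card_image_of_injOn hinj]
  refine (card_roots_le g hg _ fun z hz => ?_).trans ?_
  · obtain ⟨y, hy, rfl⟩ := Finset.mem_image.1 hz
    have := h y hy
    rwa [evalEval_C] at this
  · have := hGD.2 0
    rwa [coeff_C_zero] at this

/-- the hypotheses for a prime and a finite set of points -/
structure GoodAt (p : ℕ) [Fact p.Prime] (κ : ℚ) (W : ℕ) (Q Z : Finset (ℚ × ℚ))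
    (D : ℚ × ℚ → ℚ × ℚ → ℚ) : Prop where
  kappa : ‖(κ : ℚ_[p])‖ ≤ 1
  base : ∀ q ∈ Q, ‖(q.1 : ℚ_[p])‖ ≤ 1 ∧ ‖(q.2 : ℚ_[p])‖ ≤ 1
  int : ∀ P ∈ Z, ‖(P.1 : ℚ_[p])‖ ≤ 1 ∧ ‖(P.2 : ℚ_[p])‖ ≤ 1
  sq : ∀ P ∈ Z, ∀ q ∈ Q, D P q ^ 2 = qf κ (P - q)
  unit : ∀ P ∈ Z, ∀ q ∈ Q, ‖(D P q : ℚ_[p])‖ = 1
  size : ∀ P ∈ Z, ∀ q ∈ Q, HH (D P q) ≤ W

theorem GoodAt.mono {p : ℕ} [Fact p.Prime] {κ : ℚ} {W : ℕ} {Q Z Z' : Finset (ℚ × ℚ)}
    {D : ℚ × ℚ → ℚ × ℚ → ℚ} (h : GoodAt p κ W Q Z D) (hZ : Z' ⊆ Z) : GoodAt p κ W Q Z' D :=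
  ⟨h.kappa, h.base, fun P hP => h.int P (hZ hP), fun P hP => h.sq P (hZ hP),
    fun P hP => h.unit P (hZ hP), fun P hP => h.size P (hZ hP)⟩

/-- version of `class_cover` for base points in a set -/
theorem GoodAt.cover {p : ℕ} [hp : Fact p.Prime] (hp2 : p ≠ 2) {κ : ℚ} {θ : ℂ}
    (hθ : θ ^ 2 = -κ) {m W : ℕ} (hW : (2 * W) ^ (2 * m + 3) < p ^ (2 ^ m))
    {Q Z : Finset (ℚ × ℚ)} {D : ℚ × ℚ → ℚ × ℚ → ℚ} (h : GoodAt p κ W Q Z D)
    (hcong : ∀ P ∈ Z, ∀ P' ∈ Z, ‖((P.1 - P'.1 : ℚ) : ℚ_[p])‖ < 1 ∧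
      ‖((P.2 - P'.2 : ℚ) : ℚ_[p])‖ < 1) {M : ℕ} (y : Fin (2 * m + 3) → ℂ × ℂ)
    (hy : ∀ i, y i ∈ Q.image (zw θ))
    (hM : ∀ c : Finset (Fin (2 * m + 3)) → ℂ, c ≠ 0 → ∀ Z' ⊆ Z,
      (∀ P ∈ Z', (NN c y).evalEval (zw θ P).1 (zw θ P).2 = 0) →
      Z'.card ≤ M) : Z.card ≤ 2 ^ (2 * m + 3) * M := by
  have hy' : ∀ i, ∃ q ∈ Q, zw θ q = y i := fun i => Finset.mem_image.1 (hy i)
  choose q hqQ hqy using hy'
  have hyq : y = fun i => zw θ (q i) := funext fun i => (hqy i).symm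
  rw [hyq] at hM
  exact class_cover hp2 hθ h.kappa m W hW q (fun i => h.base _ (hqQ i)) Z D h.int
    (fun P hP i => h.sq P hP _ (hqQ i)) (fun P hP i => h.unit P hP _ (hqQ i))
    (fun P hP i => h.size P hP _ (hqQ i)) hcong hM

theorem irred_diag : Irreducible (Y - C X : ℂ[X][Y]) := irreducible_X_sub_C _

theorem swap_diag : Bivariate.swap (Y - C X : ℂ[X][Y]) = -(Y - C X) := by
  rw [map_sub, Bivariate.swap_Y, Bivariate.swap_X]
  ring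

theorem Bd_diag : Bd (Y - C X : ℂ[X][Y]) 1 := by
  refine ⟨(natDegree_X_sub_C (X : ℂ[X])).le, fun i => ?_⟩
  rw [coeff_sub, coeff_X, coeff_C]
  refine (natDegree_sub_le _ _).trans (max_le ?_ ?_)
  · split_ifs <;> simp
  · split_ifs <;> simp

/-- The number of points in a residue class. -/
theorem GoodAt.class_bound {p : ℕ} [hp : Fact p.Prime] (hp2 : p ≠ 2) {κ : ℚ} (hκ0 : 0 < κ) {θ : ℂ}
    (hθ : θ ^ 2 = -κ) {m W : ℕ} (hW : (2 * W) ^ (2 * m + 3) < p ^ (2 ^ m))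
    {Q Z : Finset (ℚ × ℚ)} {D : ℚ × ℚ → ℚ × ℚ → ℚ} (h : GoodAt p κ W Q Z D) {E : ℕ}
    (hE : 2 ^ (2 * m + 3) * (2 * m + 3) ≤ E)
    (hnice : ∀ G : ℂ[X][Y], Irreducible G → Bd G E → G.natDegree = 0 ∨
      (Bivariate.swap G).natDegree = 0 ∨
      ∃ y : Fin (2 * m + 3) → ℂ × ℂ, (∀ i, y i ∈ Q.image (zw θ)) ∧ Nice G y)
    (hcong : ∀ P ∈ Z, ∀ P' ∈ Z, ‖((P.1 - P'.1 : ℚ) : ℚ_[p])‖ < 1 ∧
      ‖((P.2 - P'.2 : ℚ) : ℚ_[p])‖ < 1) :
    Z.card ≤ 2 ^ (2 * m + 3) * (2 * E * (2 ^ (2 * m + 3) * (2 * E * E + E))) := by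
  classical
  have hinj : Function.Injective (zw θ) := fun P P' hPP => zw_fst_inj hκ0 hθ (congrArg Prod.fst hPP)
  have hfst : ∀ Z' : Finset (ℚ × ℚ),
      Set.InjOn Prod.fst ((Z'.image (zw θ) : Finset (ℂ × ℂ)) : Set (ℂ × ℂ)) := by
    intro Z' a ha b hb hab
    obtain ⟨a', -, rfl⟩ := Finset.mem_image.1 (Finset.mem_coe.1 ha)
    obtain ⟨b', -, rfl⟩ := Finset.mem_image.1 (Finset.mem_coe.1 hb)
    rw [zw_fst_inj hκ0 hθ hab]
  have hsnd : ∀ Z' : Finset (ℚ × ℚ),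
      Set.InjOn Prod.snd ((Z'.image (zw θ) : Finset (ℂ × ℂ)) : Set (ℂ × ℂ)) := by
    intro Z' a ha b hb hab
    obtain ⟨a', -, rfl⟩ := Finset.mem_image.1 (Finset.mem_coe.1 ha)
    obtain ⟨b', -, rfl⟩ := Finset.mem_image.1 (Finset.mem_coe.1 hb)
    rw [zw_snd_inj hκ0 hθ hab]
  have hE1 : 1 ≤ 2 ^ (2 * m + 3) := Nat.one_le_two_pow
  -- points on an irreducible curve
  have hcurve : ∀ G : ℂ[X][Y], Irreducible G → Bd G E → ∀ Z' ⊆ Z,
      (∀ P ∈ Z', G.evalEval (zw θ P).1 (zw θ P).2 = 0) →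
      Z'.card ≤ 2 ^ (2 * m + 3) * (2 * E * E + E) := by
    intro G hG hGE Z' hZ' hz
    have hbig : E ≤ 2 ^ (2 * m + 3) * (2 * E * E + E) :=
      (Nat.le_add_left E (2 * E * E)).trans (Nat.le_mul_of_pos_left _ hE1)
    rcases hnice G hG hGE with h0 | h0 | ⟨y, hyQ, hy⟩
    · rw [← Finset.card_image_of_injective Z' hinj]
      refine (card_of_natDegree_zero hG hGE h0 _ (hfst Z') fun y hy => ?_).trans hbig
      obtain ⟨P, hP, rfl⟩ := Finset.mem_image.1 hy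
      exact hz P hP
    · rw [← Finset.card_image_of_injective Z' hinj,
        ← Finset.card_image_of_injective _ Prod.swap_injective]
      refine (card_of_natDegree_zero (swap_irred hG) hGE.swap h0 _ ?_ fun y hy => ?_).trans hbig
      · intro a ha b hb hab
        obtain ⟨a', ha', rfl⟩ := Finset.mem_image.1 (Finset.mem_coe.1 ha)
        obtain ⟨b', hb', rfl⟩ := Finset.mem_image.1 (Finset.mem_coe.1 hb)
        rw [hsnd Z' (Finset.mem_coe.2 ha') (Finset.mem_coe.2 hb') hab]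
      · obtain ⟨y', hy', rfl⟩ := Finset.mem_image.1 hy
        obtain ⟨P, hP, rfl⟩ := Finset.mem_image.1 hy'
        rw [evalEval_swap]
        exact hz P hP
    · refine (h.mono hZ').cover hp2 hθ hW (fun P hP P' hP' => hcong P (hZ' hP) P' (hZ' hP')) y hyQ
        fun c hc Z'' hZ'' hz'' => ?_
      rw [← Finset.card_image_of_injective Z'' hinj]
      refine card_common hG (hy c hc) hGE ((Bd_NN c y).mono hE) _ (hfst Z'') ?_ ?_
      · intro u hu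
        obtain ⟨P, hP, rfl⟩ := Finset.mem_image.1 hu
        exact hz P (hZ'' hP)
      · intro u hu
        obtain ⟨P, hP, rfl⟩ := Finset.mem_image.1 hu
        exact hz'' P hP
  -- the plane
  have hE0 : 1 ≤ E := by
    refine le_trans ?_ hE
    exact Nat.one_le_iff_ne_zero.2 (by positivity)
  rcases hnice _ irred_diag (Bd_diag.mono hE0) with h0 | h0 | ⟨y, hyQ, hy⟩
  · rw [natDegree_X_sub_C] at h0
    exact absurd h0 one_ne_zero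
  · rw [swap_diag, natDegree_neg, natDegree_X_sub_C] at h0
    exact absurd h0 one_ne_zero
  refine h.cover hp2 hθ hW hcong y hyQ fun c hc Z' hZ' hz => ?_
  have hN0 : NN c y ≠ 0 := fun h0 => hy c hc (h0 ▸ dvd_zero _)
  exact card_zeros_of_factors hN0 ((Bd_NN c y).mono hE) (zw θ) Z' hz
    fun G hG hGE Z'' hZ'' hz'' => hcurve G hG hGE Z'' (hZ''.trans hZ') hz''

/-- The number of points for which a prime is good. -/
theorem GoodAt.bound {p : ℕ} [hp : Fact p.Prime] (hp2 : p ≠ 2) {κ : ℚ} (hκ0 : 0 < κ) {θ : ℂ}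
    (hθ : θ ^ 2 = -κ) {m W : ℕ} (hW : (2 * W) ^ (2 * m + 3) < p ^ (2 ^ m))
    {Q Z : Finset (ℚ × ℚ)} {D : ℚ × ℚ → ℚ × ℚ → ℚ} (h : GoodAt p κ W Q Z D) {E : ℕ}
    (hE : 2 ^ (2 * m + 3) * (2 * m + 3) ≤ E)
    (hnice : ∀ G : ℂ[X][Y], Irreducible G → Bd G E → G.natDegree = 0 ∨
      (Bivariate.swap G).natDegree = 0 ∨
      ∃ y : Fin (2 * m + 3) → ℂ × ℂ, (∀ i, y i ∈ Q.image (zw θ)) ∧ Nice G y) :
    Z.card ≤ p ^ 2 * (2 ^ (2 * m + 3) * (2 * E * (2 ^ (2 * m + 3) * (2 * E * E + E)))) := by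
  classical
  set ρ : ℚ × ℚ → ZMod p × ZMod p := fun P =>
    (PadicInt.toZMod (toI p P.1), PadicInt.toZMod (toI p P.2)) with hρ
  have hcard := Finset.card_le_mul_card_image_of_maps_to (f := ρ) (s := Z) (t := Finset.univ)
    (fun _ _ => Finset.mem_univ _)
    (2 ^ (2 * m + 3) * (2 * E * (2 ^ (2 * m + 3) * (2 * E * E + E)))) ?_
  · rw [Finset.card_univ, Fintype.card_prod, ZMod.card] at hcard
    rw [pow_two, mul_comm]
    exact hcard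
  · intro s _
    refine (h.mono (Finset.filter_subset _ _)).class_bound hp2 hκ0 hθ hW hE hnice ?_
    have aux : ∀ x x' : ℚ, ‖(x : ℚ_[p])‖ ≤ 1 → ‖(x' : ℚ_[p])‖ ≤ 1 →
        PadicInt.toZMod (toI p x) = PadicInt.toZMod (toI p x') → ‖((x - x' : ℚ) : ℚ_[p])‖ < 1 := by
      intro x x' hx hx' hxx
      rw [← sub_eq_zero, ← map_sub, ← RingHom.mem_ker, PadicInt.ker_toZMod,
        IsLocalRing.mem_maximalIdeal, mem_nonunits_iff, PadicInt.not_isUnit_iff,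
        PadicInt.norm_def] at hxx
      push_cast at hxx ⊢
      rwa [toI_coe hx, toI_coe hx'] at hxx
    intro P hP P' hP'
    rw [Finset.mem_filter] at hP hP'
    have h1 : ρ P = ρ P' := hP.2.trans hP'.2.symm
    exact ⟨aux _ _ (h.int P hP.1).1 (h.int P' hP'.1).1 (congrArg Prod.fst h1),
      aux _ _ (h.int P hP.1).2 (h.int P' hP'.1).2 (congrArg Prod.snd h1)⟩

end Pool.Agent.Lib.MP_bc4313_co
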