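import Mathlib
import Pool.Agent.Lib.MP_bc4313_co.Tally2
import Pool.Agent.Lib.MP_bc4313_co.Primes
import Pool.Agent.Lib.MP_bc4313_co.Near

/-!
The counting theorem in rational coordinates.
-/

namespace Pool.Agent.Lib.MP_bc4313_co

open Polynomial Polynomial.Bivariate

/-- the polynomial with given coefficients -/
noncomputable def Gv (v : Fin 4 → ℂ) : ℂ[X][Y] :=
  C (C (v 0) + C (v 1) * X) + C (C (v 2) + C (v 3) * X) * Y

/-- its evaluation, as a linear map -/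
noncomputable def ev4 (y : ℂ × ℂ) : (Fin 4 → ℂ) →ₗ[ℂ] ℂ where
  toFun v := v 0 + v 1 * y.1 + (v 2 + v 3 * y.1) * y.2
  map_add' u v := by simp only [Pi.add_apply]; ring
  map_smul' c v := by simp only [Pi.smul_apply, smul_eq_mul, RingHom.id_apply]; ring

theorem evalEval_Gv (v : Fin 4 → ℂ) (y : ℂ × ℂ) : (Gv v).evalEval y.1 y.2 = ev4 y v := by
  simp only [Gv, ev4, LinearMap.coe_mk, AddHom.coe_mk, evalEval_add, evalEval_mul, evalEval_C,
    evalEval_X, eval_add, eval_mul, eval_C, eval_X]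

theorem Gv_coeff (v : Fin 4 → ℂ) : (Gv v).coeff 0 = C (v 0) + C (v 1) * X ∧
    (Gv v).coeff 1 = C (v 2) + C (v 3) * X ∧ ∀ i, 2 ≤ i → (Gv v).coeff i = 0 := by
  refine ⟨?_, ?_, fun i hi => ?_⟩
  · simp only [Gv, coeff_add, coeff_C_zero, coeff_C_mul, coeff_X_zero, mul_zero, add_zero]
  · simp only [Gv, coeff_add, coeff_C_mul, coeff_X_one, mul_one, coeff_C_succ (n := 0), zero_add]
  · obtain ⟨j, rfl⟩ := Nat.exists_eq_add_of_le' hi
    simp only [Gv, coeff_add, coeff_C_mul, coeff_C_succ, zero_add, coeff_X]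
    rw [if_neg (by omega), mul_zero]

theorem Bd_Gv (v : Fin 4 → ℂ) : Bd (Gv v) 1 := by
  obtain ⟨h0, h1, h2⟩ := Gv_coeff v
  have hlin : ∀ a b : ℂ, (C a + C b * X).natDegree ≤ 1 := by
    intro a b
    rw [add_comm]
    exact natDegree_linear_le
  refine ⟨?_, fun i => ?_⟩
  · rw [natDegree_le_iff_coeff_eq_zero]
    intro i hi
    exact h2 i hi
  · rcases Nat.lt_or_ge i 2 with hi | hi
    · interval_cases i
      · rw [h0]
        exact hlin _ _
      · rw [h1]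
        exact hlin _ _
    · rw [h2 i hi]
      simp

theorem Gv_ne_zero {v : Fin 4 → ℂ} (hv : v ≠ 0) : Gv v ≠ 0 := by
  intro h
  obtain ⟨h0, h1, -⟩ := Gv_coeff v
  rw [h, coeff_zero] at h0 h1
  apply hv
  have e0 := congrArg (fun f => coeff f 0) h0
  have e1 := congrArg (fun f => coeff f 1) h0
  have e2 := congrArg (fun f => coeff f 0) h1
  have e3 := congrArg (fun f => coeff f 1) h1
  simp only [coeff_zero, coeff_add, coeff_C_zero, coeff_C_mul, coeff_X_zero, mul_zero,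
    add_zero] at e0 e2
  simp only [coeff_zero, coeff_add, coeff_C_mul, coeff_X_one, mul_one,
    coeff_C_succ (n := 0), zero_add] at e1 e3
  ext i
  fin_cases i
  · exact e0.symm
  · exact e1.symm
  · exact e2.symm
  · exact e3.symm

theorem exists_Gv {G : ℂ[X][Y]} (hG : Bd G 1) : ∃ v : Fin 4 → ℂ, G = Gv v := by
  refine ⟨![(G.coeff 0).coeff 0, (G.coeff 0).coeff 1, (G.coeff 1).coeff 0, (G.coeff 1).coeff 1], ?_⟩
  obtain ⟨h0, h1, h2⟩ := Gv_coeff ![(G.coeff 0).coeff 0, (G.coeff 0).coeff 1, (G.coeff 1).coeff 0,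
    (G.coeff 1).coeff 1]
  have hlin : ∀ f : ℂ[X], f.natDegree ≤ 1 → f = C (f.coeff 0) + C (f.coeff 1) * X := by
    intro f hf
    conv_lhs => rw [eq_X_add_C_of_natDegree_le_one hf]
    ring
  ext1 i
  rcases Nat.lt_or_ge i 2 with hi | hi
  · interval_cases i
    · rw [h0]
      exact hlin _ (hG.2 0)
    · rw [h1]
      exact hlin _ (hG.2 1)
  · rw [h2 i hi]
    exact coeff_eq_zero_of_natDegree_lt (lt_of_le_of_lt hG.1 hi)

theorem norm_eq_one_of {p : ℕ} [hp : Fact p.Prime] {r : ℚ} (h1 : ¬ p ∣ r.num.natAbs)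
    (h2 : ¬ p ∣ r.den) : ‖(r : ℚ_[p])‖ = 1 := by
  have h3 : ‖((r.num : ℤ) : ℚ_[p])‖ = 1 := by
    rw [Padic.norm_intCast_eq_one_iff]
    rw [Int.isCoprime_iff_gcd_eq_one]
    have := (Nat.Prime.coprime_iff_not_dvd hp.out).2 h1
    rw [Int.gcd_comm]
    exact this
  have h4 : ‖((r.den : ℕ) : ℚ_[p])‖ = 1 := by
    rw [Padic.norm_natCast_eq_one_iff]
    exact (Nat.Prime.coprime_iff_not_dvd hp.out).2 h2
  have h5 : (r : ℚ_[p]) = ((r.num : ℤ) : ℚ_[p]) / ((r.den : ℕ) : ℚ_[p]) := by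
    conv_lhs => rw [← Rat.num_div_den r]
    push_cast
    rfl
  rw [h5, norm_div, h3, h4, div_one]

/-- the number whose prime divisors are the bad primes of a point -/
def badN (κ : ℚ) (Q : Finset (ℚ × ℚ)) (D : ℚ × ℚ → ℚ × ℚ → ℚ) (P : ℚ × ℚ) : ℕ :=
  κ.den * (∏ q ∈ Q, (q.1.den * q.2.den)) * (P.1.den * P.2.den) *
    ∏ q ∈ Q, ((D P q).num.natAbs * (D P q).den)

theorem badN_ne_zero {κ : ℚ} {Q : Finset (ℚ × ℚ)} {D : ℚ × ℚ → ℚ × ℚ → ℚ} {P : ℚ × ℚ}
    (h : ∀ q ∈ Q, D P q ≠ 0) : badN κ Q D P ≠ 0 := by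
  unfold badN
  refine mul_ne_zero (mul_ne_zero (mul_ne_zero κ.den_pos.ne' ?_) ?_) ?_
  · exact Finset.prod_ne_zero_iff.2 fun q _ => mul_ne_zero q.1.den_pos.ne' q.2.den_pos.ne'
  · exact mul_ne_zero P.1.den_pos.ne' P.2.den_pos.ne'
  · refine Finset.prod_ne_zero_iff.2 fun q hq => mul_ne_zero ?_ (D P q).den_pos.ne'
    exact Int.natAbs_ne_zero.2 (Rat.num_ne_zero.2 (h q hq))

theorem num_le_HH (r : ℚ) : r.num.natAbs ≤ HH r := le_max_left _ _

theorem den_le_HH (r : ℚ) : r.den ≤ HH r := le_max_right _ _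

theorem badN_le {κ : ℚ} {Q : Finset (ℚ × ℚ)} {D : ℚ × ℚ → ℚ × ℚ → ℚ} {P : ℚ × ℚ} {W : ℕ}
    (hκ : HH κ ≤ W) (hQ : ∀ q ∈ Q, HH q.1 ≤ W ∧ HH q.2 ≤ W) (hP : HH P.1 ≤ W ∧ HH P.2 ≤ W)
    (hD : ∀ q ∈ Q, HH (D P q) ≤ W) : badN κ Q D P ≤ W ^ (3 + 4 * Q.card) := by
  have h1 : ∏ q ∈ Q, (q.1.den * q.2.den) ≤ (W ^ 2) ^ Q.card := by
    rw [← Finset.prod_const]
    refine Finset.prod_le_prod' fun q hq => ?_
    rw [sq]
    exact Nat.mul_le_mul ((den_le_HH _).trans (hQ q hq).1) ((den_le_HH _).trans (hQ q hq).2)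
  have h2 : ∏ q ∈ Q, ((D P q).num.natAbs * (D P q).den) ≤ (W ^ 2) ^ Q.card := by
    rw [← Finset.prod_const]
    refine Finset.prod_le_prod' fun q hq => ?_
    rw [sq]
    exact Nat.mul_le_mul ((num_le_HH _).trans (hD q hq)) ((den_le_HH _).trans (hD q hq))
  have h3 : P.1.den * P.2.den ≤ W ^ 2 := by
    rw [sq]
    exact Nat.mul_le_mul ((den_le_HH _).trans hP.1) ((den_le_HH _).trans hP.2)
  calc badN κ Q D P ≤ W * (W ^ 2) ^ Q.card * W ^ 2 * (W ^ 2) ^ Q.card :=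
        Nat.mul_le_mul (Nat.mul_le_mul (Nat.mul_le_mul ((den_le_HH _).trans hκ) h1) h3) h2
    _ = W ^ (3 + 4 * Q.card) := by
        rw [← pow_mul]
        ring

theorem goodAt_of {p : ℕ} [hp : Fact p.Prime] {κ : ℚ} {W : ℕ} {Q Z : Finset (ℚ × ℚ)}
    {D : ℚ × ℚ → ℚ × ℚ → ℚ} (hne : Z.Nonempty) (hp' : ∀ P ∈ Z, ¬ p ∣ badN κ Q D P)
    (hsq : ∀ P ∈ Z, ∀ q ∈ Q, D P q ^ 2 = qf κ (P - q))
    (hsize : ∀ P ∈ Z, ∀ q ∈ Q, HH (D P q) ≤ W) : GoodAt p κ W Q Z D := by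
  obtain ⟨P0, hP0⟩ := hne
  refine ⟨Padic.norm_rat_le_one fun h => hp' P0 hP0 ?_, fun q hq =>
    ⟨Padic.norm_rat_le_one fun h => hp' P0 hP0 ?_, Padic.norm_rat_le_one fun h => hp' P0 hP0 ?_⟩,
    fun P hP => ⟨Padic.norm_rat_le_one fun h => hp' P hP ?_,
      Padic.norm_rat_le_one fun h => hp' P hP ?_⟩, hsq, fun P hP q hq =>
    norm_eq_one_of (fun h => hp' P hP ?_) (fun h => hp' P hP ?_), hsize⟩
  · exact (((h.mul_right _).mul_right _).mul_right _)
  · exact (((h.mul_right _).trans (Finset.dvd_prod_of_mem (fun q : ℚ × ℚ => q.1.den * q.2.den) hq)).mul_left _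
      |>.mul_right _).mul_right _
  · exact (((h.mul_left _).trans (Finset.dvd_prod_of_mem (fun q : ℚ × ℚ => q.1.den * q.2.den) hq)).mul_left _
      |>.mul_right _).mul_right _
  · exact ((h.mul_right _).mul_left _).mul_right _
  · exact ((h.mul_left _).mul_left _).mul_right _
  · exact ((h.mul_right _).trans (Finset.dvd_prod_of_mem
      (fun q : ℚ × ℚ => (D P q).num.natAbs * (D P q).den) hq)).mul_left _
  · exact ((h.mul_left _).trans (Finset.dvd_prod_of_mem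
      (fun q : ℚ × ℚ => (D P q).num.natAbs * (D P q).den) hq)).mul_left _

/-- the constants -/
def cE (m : ℕ) : ℕ := 2 ^ (2 * m + 3) * (2 * m + 3)

/-- the size of the set of base points -/
def cQ (m : ℕ) : ℕ := 4 * (3 * (2 * m + 3) + 3) +
  ((2 * m + 3) * (cE m + 2) + (2 * cE m * cE m + cE m))

/-- the bound for one residue class -/
def cK (m : ℕ) : ℕ :=
  2 ^ (2 * m + 3) * (2 * cE m * (2 ^ (2 * m + 3) * (2 * cE m * cE m + cE m)))

/-- The counting theorem in rational coordinates. -/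
theorem rat_count {κ : ℚ} (hκ0 : 0 < κ) {θ : ℂ} (hθ : θ ^ 2 = -κ) (T : Finset (ℚ × ℚ))
    (D : ℚ × ℚ → ℚ × ℚ → ℚ) (hD : ∀ P ∈ T, ∀ Q ∈ T, D P Q ^ 2 = qf κ (P - Q)) {m W w : ℕ}
    (hWw : W ≤ 2 ^ w) (hκW : HH κ ≤ W) (hTW : ∀ P ∈ T, HH P.1 ≤ W ∧ HH P.2 ≤ W)
    (hDW : ∀ P ∈ T, ∀ Q ∈ T, HH (D P Q) ≤ W)
    {B : Finset (ℚ × ℚ)} (hBT : B ⊆ T) (hBc : B.card ≤ 4 * (3 * (2 * m + 3) + 3))
    (hB : ∀ v : Fin 4 → ℂ, v ≠ 0 → ∃ F ⊆ B, 3 * (2 * m + 3) + 3 ≤ F.card ∧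
      ∀ P ∈ F, ev4 (zw θ P) v ≠ 0) {s y0 : ℕ} (hy0 : 2 ≤ y0)
    (hy : (2 * W) ^ (2 * m + 3) ≤ y0 ^ (2 ^ m)) (hs1 : 1 ≤ s)
    (hs : y0 + w * (3 + 4 * cQ m) + 1 ≤ 2 ^ s) :
    T.card ≤ cQ m + 4 ^ (3 * s) * cK m := by
  classical
  have hinj : Function.Injective (zw θ) := fun P P' hPP => zw_fst_inj hκ0 hθ (congrArg Prod.fst hPP)
  set n := 2 * m + 3 with hn
  set E := cE m with hE
  by_cases hsmall : T.card < n * (E + 2) + (2 * E * E + E)
  · have : n * (E + 2) + (2 * E * E + E) ≤ cQ m := Nat.le_add_left _ _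
    omega
  push Not at hsmall
  obtain ⟨B0, hB0T, hB0c⟩ := Finset.exists_subset_card_eq hsmall
  set Q := B ∪ B0 with hQ
  have hQT : Q ⊆ T := Finset.union_subset hBT hB0T
  have hQc : Q.card ≤ cQ m := by
    refine (Finset.card_union_le _ _).trans ?_
    rw [hB0c]
    exact Nat.add_le_add_right hBc _
  -- base points for irreducible curves
  have hnice : ∀ G : ℂ[X][Y], Irreducible G → Bd G E → G.natDegree = 0 ∨
      (Bivariate.swap G).natDegree = 0 ∨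
      ∃ y : Fin n → ℂ × ℂ, (∀ i, y i ∈ Q.image (zw θ)) ∧ Nice G y := by
    intro G hG hGE
    refine exists_nice hG hGE _ ?_ ?_ ?_ ?_
    · intro a ha b hb hab
      obtain ⟨a', -, rfl⟩ := Finset.mem_image.1 (Finset.mem_coe.1 ha)
      obtain ⟨b', -, rfl⟩ := Finset.mem_image.1 (Finset.mem_coe.1 hb)
      rw [zw_fst_inj hκ0 hθ hab]
    · intro a ha b hb hab
      obtain ⟨a', -, rfl⟩ := Finset.mem_image.1 (Finset.mem_coe.1 ha)
      obtain ⟨b', -, rfl⟩ := Finset.mem_image.1 (Finset.mem_coe.1 hb)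
      rw [zw_snd_inj hκ0 hθ hab]
    · rw [Finset.card_image_of_injective _ hinj, ← hB0c]
      exact Finset.card_le_card Finset.subset_union_right
    · intro hG1
      obtain ⟨v, rfl⟩ := exists_Gv hG1
      have hv : v ≠ 0 := by
        rintro rfl
        apply hG.ne_zero
        simp [Gv]
      obtain ⟨F, hFB, hFc, hF⟩ := hB v hv
      refine ⟨F.image (zw θ), Finset.image_subset_image (hFB.trans Finset.subset_union_left), ?_,
        fun y hy => ?_⟩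
      · rw [Finset.card_image_of_injective _ hinj]
        exact hFc
      · obtain ⟨P, hP, rfl⟩ := Finset.mem_image.1 hy
        rw [evalEval_Gv]
        exact hF P hP
  -- the primes
  obtain ⟨Ps, hPs, hPsc⟩ := exists_primes s y0 hs1 hs
  have hPsc' : Ps.card ≤ 4 ^ s := by
    have : Ps ⊆ Finset.Ioc 0 (4 ^ s) := fun p hp => by
      obtain ⟨h1, h2, h3⟩ := hPs p hp
      exact Finset.mem_Ioc.2 ⟨by omega, h3⟩
    refine (Finset.card_le_card this).trans ?_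
    rw [Nat.card_Ioc, Nat.sub_zero]
  have hcover : T ⊆ Q ∪ Ps.biUnion fun p => (T \ Q).filter fun P => ¬ p ∣ badN κ Q D P := by
    intro P hP
    by_cases hPQ : P ∈ Q
    · exact Finset.mem_union_left _ hPQ
    refine Finset.mem_union_right _ ?_
    have hD0 : ∀ q ∈ Q, D P q ≠ 0 := by
      intro q hq h0
      have h1 := hD P hP q (hQT hq)
      rw [h0, zero_pow two_ne_zero] at h1
      have h2 : P - q ≠ 0 := sub_ne_zero.2 (fun h => hPQ (h ▸ hq))
      exact (qf_pos hκ0 h2).ne h1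
    have hN0 := badN_ne_zero (κ := κ) hD0
    have hNle : badN κ Q D P ≤ 2 ^ (w * (3 + 4 * cQ m)) := by
      refine (badN_le hκW (fun q hq => hTW q (hQT hq)) (hTW P hP)
        (fun q hq => hDW P hP q (hQT hq))).trans ?_
      rw [pow_mul]
      refine (Nat.pow_le_pow_left hWw _).trans ?_
      exact Nat.pow_le_pow_right (Nat.pos_of_ne_zero (by positivity)) (by omega)
    have hcard := card_primeFactors_le hN0 hNle
    obtain ⟨p, hpPs, hpN⟩ := Finset.exists_mem_notMem_of_card_lt_card (lt_of_le_of_lt hcard hPsc)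
    refine Finset.mem_biUnion.2 ⟨p, hpPs, Finset.mem_filter.2 ⟨Finset.mem_sdiff.2 ⟨hP, hPQ⟩, ?_⟩⟩
    intro hdvd
    exact hpN (Nat.mem_primeFactors.2 ⟨(hPs p hpPs).1, hdvd, hN0⟩)
  refine (Finset.card_le_card hcover).trans ((Finset.card_union_le _ _).trans
    (add_le_add hQc (Finset.card_biUnion_le.trans ?_)))
  have hterm : ∀ p ∈ Ps, ((T \ Q).filter fun P => ¬ p ∣ badN κ Q D P).card ≤
      (4 ^ s) ^ 2 * cK m := by
    intro p hpPs
    obtain ⟨hpp, hpy, hps⟩ := hPs p hpPs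
    have : Fact p.Prime := ⟨hpp⟩
    rcases ((T \ Q).filter fun P => ¬ p ∣ badN κ Q D P).eq_empty_or_nonempty with h0 | hne
    · rw [h0, Finset.card_empty]
      exact Nat.zero_le _
    have hsub : ((T \ Q).filter fun P => ¬ p ∣ badN κ Q D P) ⊆ T :=
      (Finset.filter_subset _ _).trans Finset.sdiff_subset
    have hgood : GoodAt p κ W Q ((T \ Q).filter fun P => ¬ p ∣ badN κ Q D P) D :=
      goodAt_of hne (fun P hP => (Finset.mem_filter.1 hP).2)
        (fun P hP q hq => hD P (hsub hP) q (hQT hq)) (fun P hP q hq => hDW P (hsub hP) q (hQT hq))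
    refine (hgood.bound (by omega) hκ0 hθ (m := m) ?_ (E := E) (by rw [hE, cE]) hnice).trans ?_
    · refine lt_of_le_of_lt hy ?_
      exact Nat.pow_lt_pow_left hpy (by positivity)
    · exact Nat.mul_le_mul_right _ (Nat.pow_le_pow_left hps 2)
  refine (Finset.sum_le_sum hterm).trans ?_
  rw [Finset.sum_const, smul_eq_mul]
  calc Ps.card * ((4 ^ s) ^ 2 * cK m) ≤ 4 ^ s * ((4 ^ s) ^ 2 * cK m) := Nat.mul_le_mul_right _ hPsc'
    _ = 4 ^ (3 * s) * cK m := by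
        rw [← mul_assoc, ← pow_succ', ← pow_mul]
        ring_nf

end Pool.Agent.Lib.MP_bc4313_co
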