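import Mathlib
import Pool.Agent.Lib.MP_bc4313_co.Main
import Pool.Agent.Lib.MP_bc4313_co.RatCount
import Pool.Agent.Lib.MP_bc4313_co.Height

/-!
The counting theorem in the plane.
-/

namespace Pool.Agent.Lib.MP_bc4313_co

open Polynomial Polynomial.Bivariate

/-- lines and circles of positive radius -/
def LineOrCircle (Γ : Set Plane) : Prop :=
  (∃ α β γ : ℝ, (α ≠ 0 ∨ β ≠ 0) ∧ Γ = {P | α * P 0 + β * P 1 + γ = 0}) ∨
    ∃ (c : Plane) (r : ℝ), 0 < r ∧ Γ = Metric.sphere c r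

/-- the zero set of a nontrivial quadratic equation with equal pure quadratic terms -/
theorem gen_circle (A : Plane) (α β γ δ : ℝ) (h : α ≠ 0 ∨ β ≠ 0 ∨ γ ≠ 0 ∨ δ ≠ 0) :
    ∃ Γ, LineOrCircle Γ ∧ ∀ P : Plane,
      α * P 0 + β * P 1 + γ + δ * ((P 0 - A 0) ^ 2 + (P 1 - A 1) ^ 2) = 0 → P ∈ Γ := by
  by_cases hδ : δ = 0
  · subst hδ
    by_cases hab : α ≠ 0 ∨ β ≠ 0
    · refine ⟨{P | α * P 0 + β * P 1 + γ = 0}, Or.inl ⟨α, β, γ, hab, rfl⟩, fun P hP => ?_⟩
      rw [Set.mem_ofPred_eq]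
      linarith
    · push Not at hab
      refine ⟨{P | (1 : ℝ) * P 0 + 0 * P 1 + 0 = 0}, Or.inl ⟨1, 0, 0, Or.inl one_ne_zero, rfl⟩,
        fun P hP => ?_⟩
      rw [hab.1, hab.2] at hP
      have : γ = 0 := by linarith
      rcases h with h | h | h | h
      · exact absurd hab.1 h
      · exact absurd hab.2 h
      · exact absurd this h
      · exact absurd rfl h
  · set c : Plane := !₂[A 0 - α / (2 * δ), A 1 - β / (2 * δ)] with hc
    have c0 : c 0 = A 0 - α / (2 * δ) := by simp [hc]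
    have c1 : c 1 = A 1 - β / (2 * δ) := by simp [hc]
    set ρ : ℝ := (α ^ 2 + β ^ 2) / (4 * δ ^ 2) - (γ + α * A 0 + β * A 1) / δ with hρ
    have key : ∀ P : Plane, α * P 0 + β * P 1 + γ + δ * ((P 0 - A 0) ^ 2 + (P 1 - A 1) ^ 2) = 0 →
        dist P c ^ 2 = ρ := by
      intro P hP
      rw [dist_sq, c0, c1, hρ]
      field_simp
      linear_combination (16 * δ) * hP
    by_cases hρ0 : 0 < ρ
    · refine ⟨Metric.sphere c (Real.sqrt ρ), Or.inr ⟨c, _, Real.sqrt_pos.2 hρ0, rfl⟩,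
        fun P hP => ?_⟩
      rw [Metric.mem_sphere, ← key P hP, Real.sqrt_sq dist_nonneg]
    · refine ⟨{P | (1 : ℝ) * P 0 + 0 * P 1 + (-c 0) = 0},
        Or.inl ⟨1, 0, _, Or.inl one_ne_zero, rfl⟩, fun P hP => ?_⟩
      have h1 := key P hP
      have h2 : dist P c = 0 := by
        have : dist P c ^ 2 ≤ 0 := by rw [h1]; exact not_lt.1 hρ0
        exact pow_eq_zero_iff two_ne_zero |>.1 (le_antisymm this (sq_nonneg _))
      have h3 : P = c := dist_eq_zero.1 h2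
      rw [Set.mem_ofPred_eq, h3]
      ring

/-- the same in rational coordinates -/
theorem gen_circle_pt (A : Plane) {u0 u1 s : ℝ} (hu : u0 ^ 2 + u1 ^ 2 = 1) (hs : s ≠ 0)
    (a0 a1 a2 a3 : ℝ) (h : a0 ≠ 0 ∨ a1 ≠ 0 ∨ a2 ≠ 0 ∨ a3 ≠ 0) :
    ∃ Γ, LineOrCircle Γ ∧ ∀ p : ℚ × ℚ,
      a0 + a1 * p.1 + a2 * p.2 + a3 * ((p.1 : ℝ) ^ 2 + s ^ 2 * (p.2 : ℝ) ^ 2) = 0 →
      pt A u0 u1 s p ∈ Γ := by
  set α : ℝ := a1 * u0 - a2 * u1 / s with hα
  set β : ℝ := a1 * u1 + a2 * u0 / s with hβ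
  obtain ⟨Γ, hΓ, hP⟩ := gen_circle A α β (a0 - α * A 0 - β * A 1) a3 (by
    by_contra hcon
    push Not at hcon
    obtain ⟨h1, h2, h3, h4⟩ := hcon
    have h5 : a1 = 0 := by
      linear_combination u0 * h1 + u1 * h2 - a1 * hu
    have h6 : a2 / s = 0 := by
      linear_combination -u1 * h1 + u0 * h2 - (a2 / s) * hu
    have h7 : a2 = 0 := (div_eq_zero_iff.1 h6).resolve_right hs
    have h8 : a0 = 0 := by rw [h1, h2] at h3; linarith
    rcases h with h | h | h | h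
    · exact h h8
    · exact h h5
    · exact h h7
    · exact h h4)
  refine ⟨Γ, hΓ, fun p hp => hP _ ?_⟩
  rw [pt_zero, pt_one, hα, hβ]
  have e1 : a2 / s * (s * p.2) = a2 * p.2 := by field_simp
  linear_combination hp + (a1 * p.1 + a2 / s * (s * p.2) +
    a3 * ((p.1 : ℝ) ^ 2 + s ^ 2 * (p.2 : ℝ) ^ 2)) * hu + e1

/-- a complex equation of bidegree one implies a real one -/
theorem real_eq {κ : ℚ} (hκ : 0 < κ) {θ : ℂ} (hθ : θ ^ 2 = -κ) {v : Fin 4 → ℂ} (hv : v ≠ 0) :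
    ∃ a0 a1 a2 a3 : ℝ, (a0 ≠ 0 ∨ a1 ≠ 0 ∨ a2 ≠ 0 ∨ a3 ≠ 0) ∧ ∀ P : ℚ × ℚ,
      ev4 (zw θ P) v = 0 →
      a0 + a1 * P.1 + a2 * P.2 + a3 * ((P.1 : ℝ) ^ 2 + κ * (P.2 : ℝ) ^ 2) = 0 := by
  have key : ∀ P : ℚ × ℚ, ev4 (zw θ P) v = v 0 + (v 1 + v 2) * ((P.1 : ℝ) : ℂ) +
      ((v 1 - v 2) * θ) * ((P.2 : ℝ) : ℂ) +
      v 3 * (((P.1 : ℝ) ^ 2 + κ * (P.2 : ℝ) ^ 2 : ℝ) : ℂ) := by
    intro P
    simp only [ev4, LinearMap.coe_mk, AddHom.coe_mk, zw]
    push_cast
    linear_combination (-v 3 * (P.2 : ℂ) ^ 2) * hθ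
  have hθ0 : θ ≠ 0 := by
    have := not_rat hκ hθ 0
    rwa [Rat.cast_zero] at this
  have hre : ∀ (z : ℂ) (r : ℝ), (z * (r : ℂ)).re = z.re * r := fun z r => by simp
  have him : ∀ (z : ℂ) (r : ℝ), (z * (r : ℂ)).im = z.im * r := fun z r => by simp
  by_cases h : (v 0).re ≠ 0 ∨ (v 1 + v 2).re ≠ 0 ∨ ((v 1 - v 2) * θ).re ≠ 0 ∨ (v 3).re ≠ 0
  · refine ⟨_, _, _, _, h, fun P hP => ?_⟩
    rw [key] at hP
    have := congrArg Complex.re hP
    rw [Complex.add_re, Complex.add_re, Complex.add_re, hre, hre, hre, Complex.zero_re] at this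
    exact this
  · push Not at h
    refine ⟨(v 0).im, (v 1 + v 2).im, ((v 1 - v 2) * θ).im, (v 3).im, ?_, fun P hP => ?_⟩
    · by_contra hcon
      push Not at hcon
      apply hv
      have h0 : v 0 = 0 := Complex.ext h.1 hcon.1
      have h12 : v 1 + v 2 = 0 := Complex.ext h.2.1 hcon.2.1
      have h12' : (v 1 - v 2) * θ = 0 := Complex.ext h.2.2.1 hcon.2.2.1
      have h3 : v 3 = 0 := Complex.ext h.2.2.2 hcon.2.2.2
      have h12'' : v 1 - v 2 = 0 := (mul_eq_zero.1 h12').resolve_right hθ0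
      have h1 : v 1 = 0 := by linear_combination (1 / 2) * h12 + (1 / 2) * h12''
      have h2 : v 2 = 0 := by linear_combination (1 / 2) * h12 - (1 / 2) * h12''
      ext i
      fin_cases i
      · exact h0
      · exact h1
      · exact h2
      · exact h3
    · rw [key] at hP
      have := congrArg Complex.im hP
      rw [Complex.add_im, Complex.add_im, Complex.add_im, him, him, him, Complex.zero_im] at this
      exact this

/-- `x` is a rational number with numerator and denominator at most `H` -/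
def Ht (x : ℝ) (H : ℕ) : Prop := ∃ r : ℚ, x = r ∧ r.num.natAbs ≤ H ∧ r.den ≤ H

theorem Ht_iff {r : ℚ} {H : ℕ} : Ht (r : ℝ) H ↔ HH r ≤ H := by
  constructor
  · rintro ⟨r', h, h1, h2⟩
    have : r = r' := by exact_mod_cast h
    subst this
    exact max_le h1 h2
  · intro h
    exact ⟨r, rfl, (le_max_left _ _).trans h, (le_max_right _ _).trans h⟩

/-- the points of `S` whose distances from `A` and `B` have height at most `H` -/
def ballH (S : Set Plane) (A B : Plane) (H : ℕ) : Set Plane :=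
  {P ∈ S | Ht (dist P A) H ∧ Ht (dist P B) H}

/-- The counting theorem in the plane, with explicit parameters. -/
theorem plane_count {S : Set Plane} (hS : RationalDistances S) {A B : Plane} (hA : A ∈ S)
    (hB : B ∈ S) (hAB : A ≠ B) {m H h : ℕ} (hH : 2 ≤ H) (hHh : H ≤ 2 ^ h)
    (hABH : Ht (dist A B) H)
    {E : Set Plane} (hET : E ⊆ ballH S A B H) (hEc : E.encard ≤ ((4 * (3 * (2 * m + 3) + 3) : ℕ) : ℕ∞))
    (hoff : ∀ Γ, LineOrCircle Γ → ((3 * (2 * m + 3) + 3 : ℕ) : ℕ∞) ≤ (E \ Γ).encard)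
    {s y0 : ℕ} (hy0 : 2 ≤ y0) (hy : (2 * H ^ 80) ^ (2 * m + 3) ≤ y0 ^ (2 ^ m)) (hs1 : 1 ≤ s)
    (hs : y0 + (80 * h) * (3 + 4 * cQ m) + 1 ≤ 2 ^ s) :
    (ballH S A B H).Finite ∧ (ballH S A B H).ncard ≤ cQ m + 4 ^ (3 * s) * cK m := by
  classical
  set T := ballH S A B H with hT
  have hTS : T ⊆ S := fun P hP => hP.1
  have hTrat : RationalDistances T := fun P hP Q hQ => hS P (hTS hP) Q (hTS hQ)
  have hzero : Ht 0 H := ⟨0, by simp, by simp, by simp; omega⟩
  have hAT : A ∈ T := ⟨hA, by rw [dist_self]; exact hzero, hABH⟩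
  have hBT : B ∈ T := ⟨hB, by rw [dist_comm]; exact hABH, by rw [dist_self]; exact hzero⟩
  -- a third point
  obtain ⟨C, hCT, hne⟩ : ∃ C ∈ T, cross A B C ≠ 0 := by
    set Γ : Set Plane := {P | -(B 1 - A 1) * P 0 + (B 0 - A 0) * P 1 +
      ((B 1 - A 1) * A 0 - (B 0 - A 0) * A 1) = 0} with hΓ
    have hΓ' : LineOrCircle Γ := by
      refine Or.inl ⟨_, _, _, ?_, hΓ⟩
      by_contra hcon
      push Not at hcon
      apply hAB
      exact plane_ext (by linarith [hcon.2]) (by linarith [hcon.1])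
    have h1 := hoff Γ hΓ'
    have h2 : (E \ Γ).Nonempty := by
      rw [← Set.encard_pos]
      refine lt_of_lt_of_le ?_ h1
      exact_mod_cast (by positivity : 0 < 3 * (2 * m + 3) + 3)
    obtain ⟨C, hC, hCΓ⟩ := h2
    refine ⟨C, hET hC, fun h => hCΓ ?_⟩
    rw [hΓ, Set.mem_ofPred_eq]
    simp only [cross] at h
    linear_combination h
  obtain ⟨u0, u1, s', κ, l, hu, hκ, hs', hsκ, hl, hpA, hpB, hcr, hex⟩ :=
    exists_coord hTrat hAT hBT hCT hne
  obtain ⟨θ, hθ⟩ : ∃ θ : ℂ, θ ^ 2 = -κ := IsAlgClosed.exists_pow_nat_eq _ two_pos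
  set f : ℚ × ℚ → Plane := pt A u0 u1 s' with hf
  have hfinj : Function.Injective f := by
    intro p q hpq
    have h1 := dist_pt A (s := s') hu p q
    rw [← hf, hpq, dist_self] at h1
    have h2 : ((p.1 : ℝ) - q.1) ^ 2 + s' ^ 2 * ((p.2 : ℝ) - q.2) ^ 2 = 0 := by rw [← h1]; ring
    have hs2 : 0 < s' ^ 2 := by positivity
    have h3 : ((p.1 : ℝ) - q.1) ^ 2 = 0 := by nlinarith [sq_nonneg ((p.1 : ℝ) - q.1), sq_nonneg ((p.2 : ℝ) - q.2), mul_nonneg hs2.le (sq_nonneg ((p.2 : ℝ) - q.2))]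
    have h4 : ((p.2 : ℝ) - q.2) ^ 2 = 0 := by
      have : s' ^ 2 * ((p.2 : ℝ) - q.2) ^ 2 = 0 := by linarith
      exact (mul_eq_zero.1 this).resolve_left hs2.ne'
    have h5 : (p.1 : ℝ) = q.1 := sub_eq_zero.1 (pow_eq_zero_iff two_ne_zero |>.1 h3)
    have h6 : (p.2 : ℝ) = q.2 := sub_eq_zero.1 (pow_eq_zero_iff two_ne_zero |>.1 h4)
    exact Prod.ext (by exact_mod_cast h5) (by exact_mod_cast h6)
  set T' : Set (ℚ × ℚ) := f ⁻¹' T with hT'
  have himage : f '' T' = T := by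
    rw [hT', Set.image_preimage_eq_iff]
    intro P hP
    obtain ⟨p, hp⟩ := hex P hP
    exact ⟨p, hp.symm⟩
  set D : ℚ × ℚ → ℚ × ℚ → ℚ := dpt f with hDdef
  have hDdist : ∀ p ∈ T', ∀ q ∈ T', dist (f p) (f q) = D p q := fun p hp q hq =>
    dpt_spec (hTrat _ hp _ hq)
  have hD : ∀ p ∈ T', ∀ q ∈ T', D p q ^ 2 = qf κ (p - q) := by
    intro p hp q hq
    have h1 := dist_pt A (s := s') hu p q
    rw [← hf, hDdist p hp q hq, hsκ] at h1
    have : ((D p q ^ 2 : ℚ) : ℝ) = ((qf κ (p - q) : ℚ) : ℝ) := by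
      simp only [qf, Prod.fst_sub, Prod.snd_sub]
      push_cast
      exact h1
    exact_mod_cast this
  have h0T : (0 : ℚ × ℚ) ∈ T' := by
    change f 0 ∈ T
    rw [hpA]
    exact hAT
  have h1T : ((l, 0) : ℚ × ℚ) ∈ T' := by
    change f (l, 0) ∈ T
    rw [hpB]
    exact hBT
  have hT0 : ∀ p ∈ T', HH (D p 0) ≤ H := by
    intro p hp
    rw [← Ht_iff, ← hDdist p hp 0 h0T, hpA]
    exact hp.2.1
  have hT1 : ∀ p ∈ T', HH (D p (l, 0)) ≤ H := by
    intro p hp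
    rw [← Ht_iff, ← hDdist p hp _ h1T, hpB]
    exact hp.2.2
  have hlH : HH l ≤ H := by
    have h1 : |(l : ℝ)| = dist A B := by
      have h2 := dist_pt A (s := s') hu 0 (l, 0)
      rw [← hf, hpA, hpB] at h2
      have h3 : dist A B ^ 2 = |(l : ℝ)| ^ 2 := by
        rw [h2, sq_abs]
        simp
      exact ((sq_eq_sq₀ dist_nonneg (abs_nonneg _)).1 h3).symm
    rw [← HH_abs, ← Ht_iff, Rat.cast_abs, h1]
    exact hABH
  have hc : ∃ c ∈ T', c.2 ^ 2 = 1 := by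
    obtain ⟨c, hc⟩ := hex C hCT
    refine ⟨c, by change f c ∈ T; rw [← hc]; exact hCT, ?_⟩
    have e : cross A B C = l * s' * c.2 := by
      rw [hc, ← hpB, cross, pt_zero, pt_one, hf, pt_zero, pt_one]
      push_cast
      linear_combination (l * s' * (c.2 : ℝ)) * hu
    rw [e] at hcr
    have h1 : ((l ^ 2 * κ * c.2 ^ 2 : ℚ) : ℝ) = ((l ^ 2 * κ : ℚ) : ℝ) := by
      rw [← hcr]
      push_cast
      rw [← hsκ]
      ring
    have h2 : l ^ 2 * κ * c.2 ^ 2 = l ^ 2 * κ := by exact_mod_cast h1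
    have h3 : l ^ 2 * κ ≠ 0 := mul_ne_zero (pow_ne_zero 2 hl) hκ.ne'
    exact mul_left_cancel₀ h3 (by rw [h2, mul_one])
  obtain ⟨hκW, hTW, hDW⟩ := coord_heights hκ hl hH hlH D hD h0T h1T hc hT0 hT1
  have hT'fin : T'.Finite := by
    refine ((finite_HH (H ^ 80)).prod (finite_HH (H ^ 80))).subset fun p hp => ?_
    exact ⟨(hTW p hp).1, (hTW p hp).2⟩
  have hTfin : T.Finite := by rw [← himage]; exact hT'fin.image f
  refine ⟨hTfin, ?_⟩
  have hcardT : T.ncard = hT'fin.toFinset.card := by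
    rw [← himage, Set.ncard_image_of_injective _ hfinj, Set.ncard_eq_toFinset_card _ hT'fin]
  rw [hcardT]
  -- the points of `E`
  have hE'sub : f ⁻¹' E ⊆ T' := Set.preimage_mono hET
  have hE'fin : (f ⁻¹' E).Finite := hT'fin.subset hE'sub
  have himE : f '' (f ⁻¹' E) = E := by
    rw [Set.image_preimage_eq_iff]
    intro P hP
    obtain ⟨p, hp⟩ := hex P (hET hP)
    exact ⟨p, hp.symm⟩
  refine rat_count hκ hθ hT'fin.toFinset D
    (fun p hp q hq => hD p (hT'fin.mem_toFinset.1 hp) q (hT'fin.mem_toFinset.1 hq))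
    (W := H ^ 80) (w := 80 * h) ?_ hκW (fun p hp => hTW p (hT'fin.mem_toFinset.1 hp))
    (fun p hp q hq => hDW p (hT'fin.mem_toFinset.1 hp) q (hT'fin.mem_toFinset.1 hq))
    (B := hE'fin.toFinset) ?_ ?_ ?_ hy0 hy hs1 hs
  · calc H ^ 80 ≤ (2 ^ h) ^ 80 := Nat.pow_le_pow_left hHh 80
      _ = 2 ^ (80 * h) := by rw [← pow_mul, mul_comm]
  · intro p hp
    rw [hE'fin.mem_toFinset] at hp
    exact hT'fin.mem_toFinset.2 (hE'sub hp)
  · have h1 : E.encard = ((hE'fin.toFinset.card : ℕ) : ℕ∞) := by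
      rw [← Set.encard_coe_eq_coe_finsetCard, hE'fin.coe_toFinset, ← hfinj.encard_image, himE]
    rw [h1] at hEc
    exact_mod_cast hEc
  · intro v hv
    obtain ⟨a0, a1, a2, a3, hne', hreal⟩ := real_eq hκ hθ hv
    obtain ⟨Γ, hΓ, hΓp⟩ := gen_circle_pt A hu hs' a0 a1 a2 a3 hne'
    have hcount := hoff Γ hΓ
    refine ⟨hE'fin.toFinset.filter (fun p => f p ∉ Γ), Finset.filter_subset _ _, ?_, ?_⟩
    · have h1 : E \ Γ = f '' ((hE'fin.toFinset.filter (fun p => f p ∉ Γ) : Finset (ℚ × ℚ)) :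
          Set (ℚ × ℚ)) := by
        ext P
        constructor
        · rintro ⟨hP, hPΓ⟩
          rw [← himE] at hP
          obtain ⟨p, hp, rfl⟩ := hP
          exact ⟨p, by rw [Finset.mem_coe, Finset.mem_filter]; exact ⟨hE'fin.mem_toFinset.2 hp, hPΓ⟩, rfl⟩
        · rintro ⟨p, hp, rfl⟩
          rw [Finset.mem_coe, Finset.mem_filter, hE'fin.mem_toFinset] at hp
          exact ⟨hp.1, hp.2⟩
      rw [h1, hfinj.encard_image, Set.encard_coe_eq_coe_finsetCard] at hcount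
      exact_mod_cast hcount
    · intro p hp h0
      rw [Finset.mem_filter] at hp
      apply hp.2
      refine hΓp p ?_
      have := hreal p h0
      rw [hsκ]
      exact this

/-- the equation of a generalised circle, as a linear map in its coefficients -/
noncomputable def evP (P : Plane) : (Fin 4 → ℝ) →ₗ[ℝ] ℝ where
  toFun v := v 0 * P 0 + v 1 * P 1 + v 2 + v 3 * (P 0 ^ 2 + P 1 ^ 2)
  map_add' u v := by simp only [Pi.add_apply]; ring
  map_smul' c v := by simp only [Pi.smul_apply, smul_eq_mul, RingHom.id_apply]; ring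

/-- A finite subset with few points, from which each line and each circle misses many points. -/
theorem plane_pool {S : Set Plane} {K : ℕ}
    (hoff : ∀ Γ, LineOrCircle Γ → ((4 * K : ℕ) : ℕ∞) ≤ (S \ Γ).encard) :
    ∃ E ⊆ S, E.encard ≤ ((4 * K : ℕ) : ℕ∞) ∧
      ∀ Γ, LineOrCircle Γ → (K : ℕ∞) ≤ (E \ Γ).encard := by
  classical
  obtain ⟨B, hBS, hBc, hB⟩ := pool evP (r := 4) (by simp) (by norm_num) S K (fun v hv => by
    obtain ⟨Γ, hΓ, hΓP⟩ := gen_circle 0 (v 0) (v 1) (v 2) (v 3) (by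
      by_contra hcon
      push Not at hcon
      apply hv
      ext i
      fin_cases i
      · exact hcon.1
      · exact hcon.2.1
      · exact hcon.2.2.1
      · exact hcon.2.2.2)
    obtain ⟨F', hF'S, hF'c⟩ := Set.exists_subset_encard_eq (hoff Γ hΓ)
    have hF'fin : F'.Finite := Set.finite_of_encard_eq_coe hF'c
    refine ⟨hF'fin.toFinset, ?_, ?_, fun P hP h0 => ?_⟩
    · rw [hF'fin.coe_toFinset]
      exact hF'S.trans Set.sdiff_subset
    · rw [← hF'fin.coe_toFinset, Set.encard_coe_eq_coe_finsetCard] at hF'c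
      exact (by exact_mod_cast hF'c : hF'fin.toFinset.card = 4 * K).ge
    · rw [hF'fin.mem_toFinset] at hP
      apply (hF'S hP).2
      apply hΓP
      simp only [evP, LinearMap.coe_mk, AddHom.coe_mk] at h0
      simpa using h0)
  refine ⟨B, hBS, ?_, fun Γ hΓ => ?_⟩
  · rw [Set.encard_coe_eq_coe_finsetCard]
    exact_mod_cast hBc
  · obtain ⟨v, hv, hvΓ⟩ : ∃ v : Fin 4 → ℝ, v ≠ 0 ∧ ∀ P ∈ Γ, evP P v = 0 := by
      rcases hΓ with ⟨α, β, γ, h, rfl⟩ | ⟨c, r, hr, rfl⟩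
      · refine ⟨![α, β, γ, 0], fun h0 => ?_, fun P hP => ?_⟩
        · have e0 := congrFun h0 0
          have e1 := congrFun h0 1
          simp at e0 e1
          rcases h with h | h
          · exact h e0
          · exact h e1
        · rw [Set.mem_ofPred_eq] at hP
          simp only [evP, LinearMap.coe_mk, AddHom.coe_mk]
          simpa using hP
      · refine ⟨![-2 * c 0, -2 * c 1, c 0 ^ 2 + c 1 ^ 2 - r ^ 2, 1], fun h0 => ?_, fun P hP => ?_⟩
        · have e3 := congrFun h0 3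
          simp at e3
        · rw [Metric.mem_sphere] at hP
          have h1 := dist_sq P c
          rw [hP] at h1
          simp only [evP, LinearMap.coe_mk, AddHom.coe_mk]
          simp
          linear_combination -h1
    obtain ⟨F, hFB, hFc, hF⟩ := hB v hv
    have hsub : (F : Set Plane) ⊆ (B : Set Plane) \ Γ := fun P hP =>
      ⟨hFB hP, fun hPΓ => hF P hP (hvΓ P hPΓ)⟩
    calc (K : ℕ∞) = (F : Set Plane).encard := by
          rw [Set.encard_coe_eq_coe_finsetCard, hFc]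
      _ ≤ _ := Set.encard_le_encard hsub

end Pool.Agent.Lib.MP_bc4313_co
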