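import Mathlib
import Pool.Agent.Lib.MP_bc4313_co.PlaneCount

/-!
The counting theorem with explicit dependence on the parameters.
-/

namespace Pool.Agent.Lib.MP_bc4313_co

theorem cE_le (k : ℕ) : cE (2 * k) ≤ 2 ^ (5 * k + 6) := by
  unfold cE
  have h1 : 2 * (2 * k) + 3 ≤ 2 ^ (k + 3) := by
    have : k < 2 ^ k := Nat.lt_two_pow_self
    rw [pow_add]
    omega
  calc 2 ^ (2 * (2 * k) + 3) * (2 * (2 * k) + 3) ≤ 2 ^ (2 * (2 * k) + 3) * 2 ^ (k + 3) :=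
        Nat.mul_le_mul_left _ h1
    _ = 2 ^ (5 * k + 6) := by rw [← pow_add]; congr 1; ring

theorem le_cE (m : ℕ) : 2 * m + 3 ≤ cE m := Nat.le_mul_of_pos_left _ (by positivity)

theorem cQ_le (k : ℕ) : cQ (2 * k) ≤ 2 ^ (10 * k + 17) := by
  have h1 := le_cE (2 * k)
  have h2 := cE_le k
  have h3 : cQ (2 * k) ≤ 32 * cE (2 * k) ^ 2 := by
    unfold cQ
    generalize cE (2 * k) = E at *
    have hn : 3 ≤ E := by omega
    generalize 2 * (2 * k) + 3 = n at *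
    nlinarith
  calc cQ (2 * k) ≤ 32 * cE (2 * k) ^ 2 := h3
    _ ≤ 32 * (2 ^ (5 * k + 6)) ^ 2 := Nat.mul_le_mul_left _ (Nat.pow_le_pow_left h2 2)
    _ = 2 ^ (10 * k + 17) := by
      rw [← pow_mul, show (32 : ℕ) = 2 ^ 5 by norm_num, ← pow_add]
      congr 1
      ring

theorem cK_le (k : ℕ) : cK (2 * k) ≤ 2 ^ (23 * k + 27) := by
  have h1 := le_cE (2 * k)
  have h2 := cE_le k
  have h3 : 2 * cE (2 * k) * cE (2 * k) + cE (2 * k) ≤ 3 * cE (2 * k) ^ 2 := by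
    generalize cE (2 * k) = E at *
    have hn : 3 ≤ E := by omega
    nlinarith
  have h4 : cK (2 * k) ≤ 8 * (2 ^ (4 * k + 3)) ^ 2 * cE (2 * k) ^ 3 := by
    unfold cK
    have e : 2 * (2 * k) + 3 = 4 * k + 3 := by ring
    rw [e]
    calc 2 ^ (4 * k + 3) * (2 * cE (2 * k) * (2 ^ (4 * k + 3) *
          (2 * cE (2 * k) * cE (2 * k) + cE (2 * k)))) ≤
          2 ^ (4 * k + 3) * (2 * cE (2 * k) * (2 ^ (4 * k + 3) * (3 * cE (2 * k) ^ 2))) := by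
          gcongr
      _ = 6 * ((2 ^ (4 * k + 3)) ^ 2 * cE (2 * k) ^ 3) := by ring
      _ ≤ 8 * ((2 ^ (4 * k + 3)) ^ 2 * cE (2 * k) ^ 3) := Nat.mul_le_mul_right _ (by norm_num)
      _ = _ := by ring
  calc cK (2 * k) ≤ 8 * (2 ^ (4 * k + 3)) ^ 2 * cE (2 * k) ^ 3 := h4
    _ ≤ 8 * (2 ^ (4 * k + 3)) ^ 2 * (2 ^ (5 * k + 6)) ^ 3 :=
      Nat.mul_le_mul_left _ (Nat.pow_le_pow_left h2 3)
    _ = 2 ^ (23 * k + 27) := by
      rw [← pow_mul, ← pow_mul, show (8 : ℕ) = 2 ^ 3 by norm_num, ← pow_add, ← pow_add]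
      congr 1
      ring

theorem auxX {Pw L lH y0 h Q t : ℝ} (hPw1 : 1 ≤ Pw) (hy : y0 ≤ Pw + 1) (hh : h ≤ 3 * lH)
    (hh0 : 0 ≤ h) (hQ : Q ≤ t) (ht : 1 ≤ t) (hlL : lH ≤ L) (hL : 1 ≤ L) :
    y0 + 80 * h * Q + 1 ≤ Pw * (512 * t * L) := by
  have h1 : h * Q ≤ h * t := mul_le_mul_of_nonneg_left hQ hh0
  have h2 : h * t ≤ (3 * L) * t := mul_le_mul_of_nonneg_right (by linarith) (by linarith)
  have htL : 1 ≤ t * L := one_le_mul_of_one_le_of_one_le ht hL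
  have h3 : t * L ≤ Pw * (t * L) := le_mul_of_one_le_left (by linarith) hPw1
  have h4 : Pw ≤ Pw * (t * L) := le_mul_of_one_le_right (by linarith) htL
  have e : Pw * (512 * t * L) = 512 * (Pw * (t * L)) := by ring
  have e2 : (3 * L) * t = 3 * (t * L) := by ring
  rw [e]
  linarith

theorem exists_log {X : ℕ} (hX : 2 ≤ X) : ∃ s, 1 ≤ s ∧ X ≤ 2 ^ s ∧ 2 ^ s ≤ 2 * X := by
  refine ⟨Nat.log 2 X + 1, Nat.succ_pos _, (Nat.lt_pow_succ_log_self (by norm_num) X).le, ?_⟩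
  rw [pow_succ, mul_comm]
  exact Nat.mul_le_mul_left _ (Nat.pow_log_le_self 2 (by omega))

theorem tail_bound {N cq ck u Pw L X : ℝ} (hL1 : 1 ≤ L) (hPw1 : 1 ≤ Pw) (h2L : 2 ≤ L ^ 3)
    (hX : X ≤ Pw * L ^ 118) (hu0 : 0 ≤ u) (hu : u ≤ 2 * X) (hcq : cq ≤ L ^ 81)
    (hck0 : 0 ≤ ck) (hck : ck ≤ L ^ 150) (hN : N ≤ cq + u ^ 6 * ck) : N ≤ L ^ 879 * Pw ^ 6 := by
  have hL0 : 0 < L := by linarith
  have hPw0 : 0 < Pw := by linarith
  have h1 : u ≤ L ^ 3 * (Pw * L ^ 118) := by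
    refine hu.trans ((mul_le_mul_of_nonneg_left hX zero_le_two).trans ?_)
    exact mul_le_mul_of_nonneg_right h2L (by positivity)
  have h2 : u ^ 6 ≤ (L ^ 3 * (Pw * L ^ 118)) ^ 6 := pow_le_pow_left₀ hu0 h1 6
  have h3 : u ^ 6 * ck ≤ (L ^ 3 * (Pw * L ^ 118)) ^ 6 * L ^ 150 :=
    mul_le_mul h2 hck hck0 (by positivity)
  have h4 : (L ^ 3 * (Pw * L ^ 118)) ^ 6 * L ^ 150 = Pw ^ 6 * L ^ 876 := by ring
  have hPw61 : 1 ≤ Pw ^ 6 := one_le_pow₀ hPw1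
  have h5 : cq ≤ Pw ^ 6 * L ^ 876 := by
    refine hcq.trans ((pow_le_pow_right₀ hL1 (by norm_num : 81 ≤ 876)).trans ?_)
    exact le_mul_of_one_le_left (by positivity) hPw61
  have h6 : N ≤ 2 * (Pw ^ 6 * L ^ 876) := by
    rw [h4] at h3
    linarith
  refine h6.trans ((mul_le_mul_of_nonneg_right h2L (by positivity)).trans (le_of_eq ?_))
  ring

/-- The counting theorem, with a given set of points from which each line and each circle misses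
many points. -/
theorem count_aux {S : Set Plane} (hS : RationalDistances S) {A B : Plane} (hA : A ∈ S)
    (hB : B ∈ S) (hAB : A ≠ B) {k H : ℕ} (hk : 1 ≤ k) (hH : 2 ≤ H) (hABH : Ht (dist A B) H)
    {E : Set Plane} (hET : E ⊆ ballH S A B H)
    (hEc : E.encard ≤ ((4 * (12 * k + 12) : ℕ) : ℕ∞))
    (hoff : ∀ Γ, LineOrCircle Γ → ((12 * k + 12 : ℕ) : ℕ∞) ≤ (E \ Γ).encard) :
    (ballH S A B H).Finite ∧ ((ballH S A B H).ncard : ℝ) ≤
      (2 ^ k * Real.log H) ^ 879 * (H : ℝ) ^ ((3402 : ℝ) / 2 ^ k) := by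
  -- the exponents
  set a : ℝ := ((2 * (2 * k) + 3 : ℕ) : ℝ) / 2 ^ (2 * k) with ha
  have hapos : 0 < a := by positivity
  have hale : a ≤ 7 / 2 ^ k := by
    rw [ha, div_le_div_iff₀ (by positivity) (by positivity)]
    have h1 : 2 * (2 * k) + 3 ≤ 7 * 2 ^ k := by
      have : k < 2 ^ k := Nat.lt_two_pow_self
      omega
    have h2 : ((2 * (2 * k) + 3 : ℕ) : ℝ) ≤ 7 * 2 ^ k := by exact_mod_cast h1
    calc ((2 * (2 * k) + 3 : ℕ) : ℝ) * 2 ^ k ≤ (7 * 2 ^ k) * 2 ^ k :=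
          mul_le_mul_of_nonneg_right h2 (by positivity)
      _ = 7 * 2 ^ (2 * k) := by rw [two_mul, pow_add]; ring
  have hHr : (2 : ℝ) ≤ H := by exact_mod_cast hH
  have hH0 : (0 : ℝ) < H := by linarith
  set Pw : ℝ := (H : ℝ) ^ ((567 : ℝ) / 2 ^ k) with hPw
  have hPw1 : 1 ≤ Pw := Real.one_le_rpow (by linarith) (by positivity)
  -- `y0`
  set x : ℝ := 2 * (H : ℝ) ^ 80 with hx
  have hx1 : 1 < x := by
    have : (1 : ℝ) ≤ (H : ℝ) ^ 80 := one_le_pow₀ (by linarith)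
    rw [hx]
    linarith
  have hxle : x ≤ (H : ℝ) ^ 81 := by
    have e : (H : ℝ) ^ 81 = H * (H : ℝ) ^ 80 := pow_succ' _ _
    rw [hx, e]
    exact mul_le_mul_of_nonneg_right hHr (by positivity)
  set y0 : ℕ := ⌈x ^ a⌉₊ with hy0
  have hxa1 : 1 < x ^ a := Real.one_lt_rpow hx1 hapos
  have hy02 : 2 ≤ y0 := by
    rw [hy0]
    have : 1 < ⌈x ^ a⌉₊ := by
      rw [Nat.lt_ceil]
      exact_mod_cast hxa1
    omega
  have hy0le : (y0 : ℝ) ≤ Pw + 1 := by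
    have h1 : (y0 : ℝ) < x ^ a + 1 := Nat.ceil_lt_add_one (by positivity)
    have h2 : x ^ a ≤ Pw := by
      calc x ^ a ≤ ((H : ℝ) ^ 81) ^ a := Real.rpow_le_rpow (by linarith) hxle hapos.le
        _ = (H : ℝ) ^ (81 * a) := by
          rw [← Real.rpow_natCast, ← Real.rpow_mul hH0.le]
          norm_num
        _ ≤ Pw := by
          rw [hPw]
          refine Real.rpow_le_rpow_of_exponent_le (by linarith) ?_
          calc 81 * a ≤ 81 * (7 / 2 ^ k) := by linarith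
            _ = 567 / 2 ^ k := by ring
    linarith
  have hy : (2 * H ^ 80) ^ (2 * (2 * k) + 3) ≤ y0 ^ (2 ^ (2 * k)) := by
    have h1 : x ^ (2 * (2 * k) + 3) ≤ (y0 : ℝ) ^ (2 ^ (2 * k)) := by
      calc x ^ (2 * (2 * k) + 3) = (x ^ a) ^ (2 ^ (2 * k)) := by
            rw [← Real.rpow_natCast, ← Real.rpow_natCast, ← Real.rpow_mul (by linarith), ha]
            congr 1
            push_cast
            field_simp
        _ ≤ (y0 : ℝ) ^ (2 ^ (2 * k)) := pow_le_pow_left₀ (by positivity) (Nat.le_ceil _) _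
    rw [hx] at h1
    exact_mod_cast h1
  -- `h`
  set h : ℕ := Nat.log 2 H + 1 with hh
  have hHh : H ≤ 2 ^ h := (Nat.lt_pow_succ_log_self (by norm_num) H).le
  have hlog2 := Real.log_two_gt_d9
  have hlogH : Real.log 2 ≤ Real.log H := Real.log_le_log (by norm_num) hHr
  have hhle : (h : ℝ) ≤ 3 * Real.log H := by
    have h1 : ((Nat.log 2 H : ℕ) : ℝ) ≤ Real.logb 2 H := Real.natLog_le_logb _ _
    have h2 : Real.logb 2 H ≤ (3 / 2) * Real.log H := by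
      rw [Real.logb, div_le_iff₀ (by linarith)]
      nlinarith
    rw [hh]
    push_cast
    linarith
  -- `L`
  set L : ℝ := 2 ^ k * Real.log H with hL
  have h2k : (2 : ℝ) ≤ 2 ^ k := by
    calc (2 : ℝ) = 2 ^ 1 := (pow_one _).symm
      _ ≤ 2 ^ k := pow_le_pow_right₀ (by norm_num) hk
  have hL1 : 1.38 ≤ L := by
    rw [hL]
    nlinarith
  have hlogL : Real.log H ≤ L := by
    rw [hL]
    nlinarith
  have h2L : (2 : ℝ) ≤ L ^ 3 := by
    have := pow_le_pow_left₀ (by norm_num) hL1 3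
    norm_num at this
    linarith
  have h2kL : (2 : ℝ) ^ k ≤ L ^ 3 := by
    have h1 : (2 : ℝ) ^ k ≤ (3 / 2) * L := by
      rw [hL]
      nlinarith
    have h3 : (3 / 2 : ℝ) ≤ L ^ 2 := by
      have := pow_le_pow_left₀ (by norm_num) hL1 2
      norm_num at this
      linarith
    calc (2 : ℝ) ^ k ≤ (3 / 2) * L := h1
      _ ≤ L ^ 2 * L := mul_le_mul_of_nonneg_right h3 (by linarith)
      _ = L ^ 3 := by ring
  have hL0 : 0 < L := by linarith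
  have hL1' : 1 ≤ L := by linarith
  have hpow : ∀ i j : ℕ, (2 : ℝ) ^ (i * k + j) ≤ L ^ (3 * i + 3 * j) := by
    intro i j
    have h1 : ((2 : ℝ) ^ k) ^ i ≤ (L ^ 3) ^ i := pow_le_pow_left₀ (by positivity) h2kL i
    have h2 : (2 : ℝ) ^ j ≤ (L ^ 3) ^ j := pow_le_pow_left₀ (by norm_num) h2L j
    have e1 : (2 : ℝ) ^ (i * k + j) = ((2 : ℝ) ^ k) ^ i * 2 ^ j := by
      rw [pow_add, mul_comm i k, pow_mul]
    have e2 : L ^ (3 * i + 3 * j) = (L ^ 3) ^ i * (L ^ 3) ^ j := by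
      rw [pow_add, pow_mul, pow_mul]
    rw [e1, e2]
    exact mul_le_mul h1 h2 (by positivity) (by positivity)
  -- `X`
  set X : ℕ := y0 + (80 * h) * (3 + 4 * cQ (2 * k)) + 1 with hX
  have hXle : (X : ℝ) ≤ Pw * L ^ 118 := by
    have h1 : (3 + 4 * cQ (2 * k) : ℕ) ≤ 2 ^ (10 * k + 20) := by
      have h2 := cQ_le k
      have h3 : 2 ^ (10 * k + 20) = 8 * 2 ^ (10 * k + 17) := by
        rw [show (10 * k + 20) = (10 * k + 17) + 3 by ring, pow_add]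
        ring
      have h4 : 1 ≤ 2 ^ (10 * k + 17) := Nat.one_le_two_pow
      omega
    have h2 : ((3 + 4 * cQ (2 * k) : ℕ) : ℝ) ≤ 2 ^ (10 * k + 20) := by exact_mod_cast h1
    have h3 : (X : ℝ) = (y0 : ℝ) + 80 * (h : ℝ) * ((3 + 4 * cQ (2 * k) : ℕ) : ℝ) + 1 := by
      rw [hX]
      push_cast
      ring
    have h4 : (1 : ℝ) ≤ 2 ^ (10 * k + 20) := one_le_pow₀ (by norm_num)
    have h5 := auxX hPw1 hy0le hhle (Nat.cast_nonneg h) h2 h4 hlogL hL1'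
    have h6 : (512 : ℝ) * 2 ^ (10 * k + 20) = 2 ^ (10 * k + 29) := by
      rw [show (10 * k + 29) = (10 * k + 20) + 9 by ring, pow_add _ _ 9]
      norm_num
      ring
    have h7 : (2 : ℝ) ^ (10 * k + 29) ≤ L ^ 117 := hpow 10 29
    rw [← h3, h6] at h5
    calc (X : ℝ) ≤ Pw * (2 ^ (10 * k + 29) * L) := h5
      _ ≤ Pw * (L ^ 117 * L) := by
        refine mul_le_mul_of_nonneg_left ?_ (by linarith)
        exact mul_le_mul_of_nonneg_right h7 hL0.le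
      _ = Pw * L ^ 118 := by rw [← pow_succ]
  -- `s`
  have hX2 : 2 ≤ X := by omega
  obtain ⟨s, hs1, hsX, hsX'⟩ := exists_log hX2
  have e12 : 3 * (2 * (2 * k) + 3) + 3 = 12 * k + 12 := by ring
  obtain ⟨hfin, hcount⟩ := plane_count hS hA hB hAB (m := 2 * k) hH hHh hABH hET
    (by rw [e12]; exact hEc) (fun Γ hΓ => by rw [e12]; exact hoff Γ hΓ) hy02 hy hs1 hsX
  refine ⟨hfin, ?_⟩
  have hc1 : ((ballH S A B H).ncard : ℝ) ≤ (cQ (2 * k) : ℝ) + 4 ^ (3 * s) * cK (2 * k) := by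
    exact_mod_cast hcount
  have hPw6 : Pw ^ 6 = (H : ℝ) ^ ((3402 : ℝ) / 2 ^ k) := by
    rw [hPw, ← Real.rpow_natCast, ← Real.rpow_mul hH0.le]
    congr 1
    push_cast
    ring
  have hcKr : (cK (2 * k) : ℝ) ≤ L ^ 150 := by
    have h1 : (cK (2 * k) : ℝ) ≤ 2 ^ (23 * k + 27) := by exact_mod_cast cK_le k
    exact h1.trans (hpow 23 27)
  have hcQr : (cQ (2 * k) : ℝ) ≤ L ^ 81 := by
    have h1 : (cQ (2 * k) : ℝ) ≤ 2 ^ (10 * k + 17) := by exact_mod_cast cQ_le k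
    exact h1.trans (hpow 10 17)
  have h4s : (4 : ℝ) ^ (3 * s) = ((2 : ℝ) ^ s) ^ 6 := by
    rw [show (4 : ℝ) = 2 ^ 2 by norm_num, ← pow_mul, ← pow_mul]
    congr 1
    ring
  rw [h4s] at hc1
  have h2s : (2 : ℝ) ^ s ≤ 2 * X := by exact_mod_cast hsX'
  have := tail_bound hL1' hPw1 h2L hXle (by positivity) h2s hcQr (Nat.cast_nonneg _) hcKr hc1
  rwa [hPw6] at this

/-- The counting theorem. -/
theorem count_final {S : Set Plane} (hS : RationalDistances S) {A B : Plane} (hA : A ∈ S)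
    (hB : B ∈ S) (hAB : A ≠ B) {k : ℕ} (hk : 1 ≤ k) :
    (∀ H : ℕ, 2 ≤ H → Ht (dist A B) H →
      (∀ Γ, LineOrCircle Γ → ((48 * (k + 1) : ℕ) : ℕ∞) ≤ (ballH S A B H \ Γ).encard) →
      (ballH S A B H).Finite ∧ ((ballH S A B H).ncard : ℝ) ≤
        (2 ^ k * Real.log H) ^ 879 * (H : ℝ) ^ ((3402 : ℝ) / 2 ^ k)) ∧
    ((∀ Γ, LineOrCircle Γ → ((48 * (k + 1) : ℕ) : ℕ∞) ≤ (S \ Γ).encard) →
      ∃ H0 : ℕ, ∀ H : ℕ, H0 ≤ H → (ballH S A B H).Finite ∧ ((ballH S A B H).ncard : ℝ) ≤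
        (2 ^ k * Real.log H) ^ 879 * (H : ℝ) ^ ((3402 : ℝ) / 2 ^ k)) := by
  have e : 48 * (k + 1) = 4 * (12 * k + 12) := by ring
  rw [e]
  constructor
  · intro H hH hABH hoff
    obtain ⟨E, hE, hEc, hEoff⟩ := plane_pool hoff
    exact count_aux hS hA hB hAB hk hH hABH hE hEc hEoff
  · intro hoff
    obtain ⟨E, hE, hEc, hEoff⟩ := plane_pool hoff
    have hEfin : E.Finite := Set.finite_of_encard_le_coe hEc
    -- the heights of the distances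
    have hht : ∀ P ∈ S, ∀ Q ∈ S, ∃ N : ℕ, ∀ H, N ≤ H → Ht (dist P Q) H := by
      intro P hP Q hQ
      obtain ⟨r, hr⟩ := hS P hP Q hQ
      refine ⟨HH r, fun H hH => ?_⟩
      rw [hr, Ht_iff]
      exact hH
    obtain ⟨N0, hN0⟩ := hht A hA B hB
    have hN : ∀ P ∈ E, ∃ N : ℕ, ∀ H, N ≤ H → P ∈ ballH S A B H := by
      intro P hP
      obtain ⟨N1, h1⟩ := hht P (hE hP) A hA
      obtain ⟨N2, h2⟩ := hht P (hE hP) B hB
      exact ⟨max N1 N2, fun H hH => ⟨hE hP, h1 H ((le_max_left _ _).trans hH),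
        h2 H ((le_max_right _ _).trans hH)⟩⟩
    obtain ⟨N, hN⟩ : ∃ N : ℕ, ∀ H, N ≤ H → E ⊆ ballH S A B H := by
      have hN' : ∀ P : Plane, ∃ N : ℕ, P ∈ E → ∀ H, N ≤ H → P ∈ ballH S A B H := by
        intro P
        by_cases hP : P ∈ E
        · obtain ⟨N, h⟩ := hN P hP
          exact ⟨N, fun _ => h⟩
        · exact ⟨0, fun h => absurd h hP⟩
      choose g hg using hN'
      refine ⟨hEfin.toFinset.sup g, fun H hH P hP => hg P hP H ?_⟩
      exact (Finset.le_sup (f := g) (hEfin.mem_toFinset.2 hP)).trans hH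
    refine ⟨max 2 (max N0 N), fun H hH => ?_⟩
    exact count_aux hS hA hB hAB hk ((le_max_left _ _).trans hH)
      (hN0 H (((le_max_left _ _).trans (le_max_right _ _)).trans hH))
      (hN H (((le_max_right _ _).trans (le_max_right _ _)).trans hH)) hEc hEoff

end Pool.Agent.Lib.MP_bc4313_co
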