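import Mathlib
import Pool.Agent.Lib.MP_bc4313_co.Count
import Pool.Agent.Lib.MP_bc4313_co.Far

/-!
Signs of the distances from the points of a line to points off the line, for distances in
`ℤ[1/N]`: different points have different signs, and the number of points off the line.
-/

namespace Pool.Agent.Lib.MP_bc4313_co

open Finset Filter

variable {N : ℕ}

/-- the places at which `d` is close to `t - q` -/
noncomputable def pat (N : ℕ) (U : Ultrafilter ℚ) (d : ℚ → ℚ) (q : ℚ) :
    Finset (Option N.primeFactors) := by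
  classical
  exact (unb N U).filter fun v => ∃ C : ℝ, ∀ᶠ t in (U : Filter ℚ),
    absV N v t * absV N v (d t - (t - q)) ≤ C

theorem mem_pat {U : Ultrafilter ℚ} {d : ℚ → ℚ} {q : ℚ} {v : Option N.primeFactors} :
    v ∈ pat N U d q ↔ v ∈ unb N U ∧ ∃ C : ℝ, ∀ᶠ t in (U : Filter ℚ),
      absV N v t * absV N v (d t - (t - q)) ≤ C := by
  classical
  simp [pat]

theorem pat_congr {U : Ultrafilter ℚ} {d d' : ℚ → ℚ} {q : ℚ}
    (h : ∀ᶠ t in (U : Filter ℚ), d t = d' t) : pat N U d q = pat N U d' q := by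
  ext v
  rw [mem_pat, mem_pat]
  refine and_congr_right fun _ => exists_congr fun C => eventually_congr ?_
  filter_upwards [h] with t ht
  rw [ht]

theorem dichotomy {U : Ultrafilter ℚ} {v : Option N.primeFactors} (hv : v ∈ unb N U)
    {d : ℚ → ℚ} {q k : ℚ} (hd : ∀ᶠ t in (U : Filter ℚ), d t ^ 2 = (t - q) ^ 2 + k) :
    (∃ C : ℝ, ∀ᶠ t in (U : Filter ℚ), absV N v t * absV N v (d t - (t - q)) ≤ C) ∨
      ∃ C : ℝ, ∀ᶠ t in (U : Filter ℚ), absV N v t * absV N v (d t + (t - q)) ≤ C := by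
  set w := absV N v with hw
  have hw2 : 0 < w 2 := w.pos two_ne_zero
  have hor : ∀ᶠ t in (U : Filter ℚ), (w t * w (d t - (t - q)) ≤ 4 * w k / w 2) ∨
      (w t * w (d t + (t - q)) ≤ 4 * w k / w 2) := by
    filter_upwards [hd, mem_unb.1 hv (2 * w q)] with t ht htq
    set x := t - q with hx
    have h1 : w t / 2 ≤ w x := by
      have h2 : w t ≤ w x + w q := by
        have := w.add_le x q
        rwa [hx, sub_add_cancel] at this
      linarith
    have hprod : w (d t - x) * w (d t + x) = w k := by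
      rw [← map_mul]
      congr 1
      linear_combination ht
    have hsum : w 2 * w x ≤ w (d t + x) + w (d t - x) := by
      rw [← map_mul]
      have e : 2 * x = (d t + x) - (d t - x) := by ring
      rw [e]
      exact w.sub_le_add _ _
    have aux : ∀ a b : ℝ, 0 ≤ a → w 2 * w t / 4 ≤ b → a * b = w k → w t * a ≤ 4 * w k / w 2 := by
      intro a b ha hb hab
      rw [le_div_iff₀ hw2]
      have h3 : a * (w 2 * w t / 4) ≤ w k := by
        rw [← hab]
        exact mul_le_mul_of_nonneg_left hb ha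
      linarith
    have h4 : w 2 * w t / 2 ≤ w 2 * w x := by
      have := mul_le_mul_of_nonneg_left h1 hw2.le
      linarith
    rcases le_total (w 2 * w t / 4) (w (d t + x)) with h | h
    · left
      exact aux _ _ (w.nonneg _) h hprod
    · right
      refine aux _ (w (d t - x)) (w.nonneg _) (by linarith) ((mul_comm _ _).trans hprod)
  rcases Ultrafilter.eventually_or.1 hor with h | h
  · exact Or.inl ⟨_, h⟩
  · exact Or.inr ⟨_, h⟩

/-- an upper bound for both factors -/
theorem upper (w : AbsoluteValue ℚ ℝ) {d t q k : ℚ} (hd : d ^ 2 = (t - q) ^ 2 + k) :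
    w d ≤ w t + w q + w k + 1 ∧ w (t - q) ≤ w t + w q ∧
    w (d - (t - q)) ≤ 2 * w t + 2 * w q + w k + 1 ∧
      w (d + (t - q)) ≤ 2 * w t + 2 * w q + w k + 1 := by
  have hx : w (t - q) ≤ w t + w q := w.sub_le_add _ _
  have hd1 : w d ≤ w (t - q) + w k + 1 := by
    have h1 : w d ^ 2 ≤ w (t - q) ^ 2 + w k := by
      rw [← map_pow, hd]
      have := w.add_le ((t - q) ^ 2) k
      rwa [map_pow] at this
    have h2 := w.nonneg (t - q)
    have h3 := w.nonneg k
    refine le_of_sq_le_sq (h1.trans ?_) (by positivity)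
    nlinarith [mul_nonneg h2 h3, mul_nonneg h3 h3]
  have h4 := w.sub_le_add d (t - q)
  have h5 := w.add_le d (t - q)
  refine ⟨by linarith, hx, by linarith, by linarith⟩

/-- the pattern is balanced -/
theorem bal_pat (hN : N ≠ 0) {U : Ultrafilter ℚ} {d : ℚ → ℚ} {q k : ℚ} (hk : k ≠ 0)
    (hd : ∀ᶠ t in (U : Filter ℚ), d t ^ 2 = (t - q) ^ 2 + k)
    (hO : ∀ᶠ t in (U : Filter ℚ), t ∈ OV N ∧ d t ∈ OV N) : Bal U (pat N U d q) := by
  classical
  set A := pat N U d q with hA
  have hAsub : A ⊆ unb N U := fun v hv => (mem_pat.1 hv).1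
  have hden : (q.den : ℚ) * q = q.num := Rat.den_mul_eq_num q
  have hmem : ∀ᶠ t in (U : Filter ℚ), (q.den : ℚ) * (t - q) ∈ OV N ∧ (q.den : ℚ) * d t ∈ OV N := by
    filter_upwards [hO] with t ht
    refine ⟨?_, mul_mem (natCast_mem _ _) ht.2⟩
    rw [mul_sub, hden]
    exact sub_mem (mul_mem (natCast_mem _ _) ht.1) (int_mem_OV _)
  have hne : ∀ᶠ t in (U : Filter ℚ), d t - (t - q) ≠ 0 ∧ d t + (t - q) ≠ 0 := by
    filter_upwards [hd] with t ht
    have hprod : (d t - (t - q)) * (d t + (t - q)) = k := by linear_combination ht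
    rw [← hprod] at hk
    exact ⟨left_ne_zero_of_mul hk, right_ne_zero_of_mul hk⟩
  have hbd : ∀ v, v ∉ unb N U → ∃ C : ℝ, ∀ᶠ t in (U : Filter ℚ),
      absV N v (d t - (t - q)) ≤ C ∧ absV N v (d t + (t - q)) ≤ C := by
    intro v hv
    obtain ⟨B, hB⟩ := notMem_unb hv
    refine ⟨2 * B + 2 * absV N v q + absV N v k + 1, ?_⟩
    filter_upwards [hB, hd] with t ht hdt
    obtain ⟨-, -, h1, h2⟩ := upper (absV N v) hdt
    exact ⟨by linarith, by linarith⟩
  have hub : ∀ v, v ∈ unb N U → ∃ C : ℝ, ∀ᶠ t in (U : Filter ℚ),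
      absV N v (d t - (t - q)) ≤ C * absV N v t ∧ absV N v (d t + (t - q)) ≤ C * absV N v t := by
    intro v hv
    refine ⟨2 + (2 * absV N v q + absV N v k + 1), ?_⟩
    filter_upwards [mem_unb.1 hv 1, hd] with t ht hdt
    obtain ⟨-, -, h1, h2⟩ := upper (absV N v) hdt
    have h3 : 0 ≤ 2 * absV N v q + absV N v k + 1 := by
      have := (absV N v).nonneg q
      have := (absV N v).nonneg k
      positivity
    have h4 : 2 * absV N v q + absV N v k + 1 ≤ (2 * absV N v q + absV N v k + 1) * absV N v t :=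
      le_mul_of_one_le_right h3 ht.le
    exact ⟨by linarith, by linarith⟩
  obtain ⟨C1, hC1⟩ := XX_le hN U (A := A) (B := unb N U \ A) (fun t => d t - (t - q))
    q.den_pos.ne' (by
      filter_upwards [hmem, hne] with t ht ht'
      exact ⟨by rw [mul_sub]; exact sub_mem ht.2 ht.1, ht'.1⟩) (by
      intro v
      by_cases hvA : v ∈ A
      · obtain ⟨-, C, hC⟩ := mem_pat.1 hvA
        have hvB : v ∉ unb N U \ A := fun h => (Finset.mem_sdiff.1 h).2 hvA
        refine ⟨C, ?_⟩
        filter_upwards [hC] with t ht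
        rw [if_pos hvA, if_neg hvB, mul_one, mul_comm]
        exact ht
      · by_cases hvu : v ∈ unb N U
        · have hvB : v ∈ unb N U \ A := Finset.mem_sdiff.2 ⟨hvu, hvA⟩
          obtain ⟨C, hC⟩ := hub v hvu
          refine ⟨C, ?_⟩
          filter_upwards [hC] with t ht
          rw [if_neg hvA, if_pos hvB, mul_one]
          exact ht.1
        · have hvB : v ∉ unb N U \ A := fun h => hvu (Finset.mem_sdiff.1 h).1
          obtain ⟨C, hC⟩ := hbd v hvu
          refine ⟨C, ?_⟩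
          filter_upwards [hC] with t ht
          rw [if_neg hvA, if_neg hvB, mul_one, mul_one]
          exact ht.1)
  obtain ⟨C2, hC2⟩ := XX_le hN U (A := unb N U \ A) (B := A) (fun t => d t + (t - q))
    q.den_pos.ne' (by
      filter_upwards [hmem, hne] with t ht ht'
      exact ⟨by rw [mul_add]; exact add_mem ht.2 ht.1, ht'.2⟩) (by
      intro v
      by_cases hvA : v ∈ A
      · have hvu := hAsub hvA
        have hvB : v ∉ unb N U \ A := fun h => (Finset.mem_sdiff.1 h).2 hvA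
        obtain ⟨C, hC⟩ := hub v hvu
        refine ⟨C, ?_⟩
        filter_upwards [hC] with t ht
        rw [if_pos hvA, if_neg hvB, mul_one]
        exact ht.2
      · by_cases hvu : v ∈ unb N U
        · have hvB : v ∈ unb N U \ A := Finset.mem_sdiff.2 ⟨hvu, hvA⟩
          rcases dichotomy hvu hd with h | h
          · exact absurd (mem_pat.2 ⟨hvu, h⟩) hvA
          · obtain ⟨C, hC⟩ := h
            refine ⟨C, ?_⟩
            filter_upwards [hC] with t ht
            rw [if_neg hvA, if_pos hvB, mul_one, mul_comm]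
            exact ht
        · have hvB : v ∉ unb N U \ A := fun h => hvu (Finset.mem_sdiff.1 h).1
          obtain ⟨C, hC⟩ := hbd v hvu
          refine ⟨C, ?_⟩
          filter_upwards [hC] with t ht
          rw [if_neg hvA, if_neg hvB, mul_one, mul_one]
          exact ht.2)
  refine ⟨hAsub, max 1 (max C1 C2), lt_max_of_lt_left one_pos, ?_⟩
  filter_upwards [hC1, hC2] with t h1 h2
  refine ⟨h1.trans (mul_le_mul_of_nonneg_right ?_ (XX_nonneg _ _)),
    h2.trans (mul_le_mul_of_nonneg_right ?_ (XX_nonneg _ _))⟩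
  · exact (le_max_left _ _).trans (le_max_right _ _)
  · exact (le_max_right _ _).trans (le_max_right _ _)

/-- a quadratic polynomial with infinitely many zeros -/
theorem quad_zero {U : Ultrafilter ℚ} (hcof : (U : Filter ℚ) ≤ cofinite) {a b c : ℚ}
    (h : ∀ᶠ t in (U : Filter ℚ), a * t ^ 2 + b * t + c = 0) : a = 0 ∧ b = 0 ∧ c = 0 := by
  have hinf : {t : ℚ | a * t ^ 2 + b * t + c = 0}.Infinite := by
    intro hfin
    exact (Ultrafilter.compl_mem_iff_notMem.1 (hcof hfin.compl_mem_cofinite)) h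
  set p : Polynomial ℚ := Polynomial.C a * Polynomial.X ^ 2 + Polynomial.C b * Polynomial.X +
    Polynomial.C c with hp
  have hp0 : p = 0 := by
    refine Polynomial.eq_zero_of_infinite_isRoot p (hinf.mono fun t ht => ?_)
    simpa [Polynomial.IsRoot, hp] using ht
  have h2 : p.coeff 2 = a := by simp [hp, Polynomial.coeff_X, Polynomial.coeff_C]
  have h1 : p.coeff 1 = b := by simp [hp, Polynomial.coeff_X_pow, Polynomial.coeff_C]
  have h0 : p.coeff 0 = c := by simp [hp]
  rw [hp0, Polynomial.coeff_zero] at h0 h1 h2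
  exact ⟨h2.symm, h1.symm, h0.symm⟩

/-- boundedness at all places gives a constant value -/
theorem exists_const_value (hN : N ≠ 0) {U : Ultrafilter ℚ} (D : ℚ → ℚ)
    (hO : ∀ᶠ t in (U : Filter ℚ), D t ∈ OV N)
    (hb : ∀ v : Option N.primeFactors, ∃ C : ℝ, ∀ᶠ t in (U : Filter ℚ), absV N v (D t) ≤ C) :
    ∃ c : ℚ, ∀ᶠ t in (U : Filter ℚ), D t = c := by
  choose C hC using hb
  have hfin := finite_bounded hN (∏ v, max 1 (C v))
  set F := {a : ℚ | a ∈ OV N ∧ ∏ v, max 1 (absV N v a) ≤ ∏ v, max 1 (C v)} with hF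
  have h1 : ∀ᶠ t in (U : Filter ℚ), ∃ c ∈ F, D t = c := by
    filter_upwards [hO, eventually_all.2 hC] with t ht hCt
    refine ⟨D t, ⟨ht, ?_⟩, rfl⟩
    exact prod_le_prod (fun v _ => zero_le_one.trans (le_max_left _ _)) fun v _ =>
      max_le_max le_rfl (hCt v)
  have h2 : (⋃ c ∈ F, {t : ℚ | D t = c}) ∈ U := by
    filter_upwards [h1] with t ht
    obtain ⟨c, hc, hct⟩ := ht
    simp only [Set.mem_iUnion]
    exact ⟨c, hc, hct⟩
  obtain ⟨c, -, hc⟩ := (Ultrafilter.finite_biUnion_mem_iff hfin).1 h2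
  exact ⟨c, hc⟩

/-- points with the same pattern up to the sign of the distance -/
theorem same_of_pat (hN : N ≠ 0) {U : Ultrafilter ℚ} (hcof : (U : Filter ℚ) ≤ cofinite)
    {d d' : ℚ → ℚ} {q q' k k' : ℚ} (hk' : k' ≠ 0)
    (hd : ∀ᶠ t in (U : Filter ℚ), d t ^ 2 = (t - q) ^ 2 + k)
    (hd' : ∀ᶠ t in (U : Filter ℚ), d' t ^ 2 = (t - q') ^ 2 + k')
    (hO : ∀ᶠ t in (U : Filter ℚ), d t ∈ OV N) (hO' : ∀ᶠ t in (U : Filter ℚ), d' t ∈ OV N)
    (h : pat N U d q = pat N U d' q' ∨ pat N U d q = unb N U \ pat N U d' q') :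
    q = q' ∧ k = k' := by
  classical
  -- the sign
  obtain ⟨σ, hσ, hσO, hσv⟩ : ∃ σ : ℚ, σ ^ 2 = 1 ∧ σ ∈ OV N ∧ ∀ v ∈ unb N U, ∃ C : ℝ,
      ∀ᶠ t in (U : Filter ℚ), absV N v (d t - σ * d' t) ≤ C := by
    have hsmall : ∀ v ∈ unb N U, ∀ g : ℚ → ℚ, (∃ C : ℝ, ∀ᶠ t in (U : Filter ℚ),
        absV N v t * absV N v (g t) ≤ C) → ∃ C : ℝ, ∀ᶠ t in (U : Filter ℚ), absV N v (g t) ≤ C := by
      rintro v hv g ⟨C, hC⟩
      refine ⟨C, ?_⟩
      filter_upwards [hC, mem_unb.1 hv 1] with t ht ht1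
      exact (le_mul_of_one_le_left ((absV N v).nonneg _) ht1.le).trans ht
    have hplus : ∀ v, v ∈ pat N U d q → ∃ C : ℝ, ∀ᶠ t in (U : Filter ℚ),
        absV N v (d t - (t - q)) ≤ C := fun v hv =>
      hsmall v (mem_pat.1 hv).1 (fun t => d t - (t - q)) (mem_pat.1 hv).2
    have hplus' : ∀ v, v ∈ pat N U d' q' → ∃ C : ℝ, ∀ᶠ t in (U : Filter ℚ),
        absV N v (d' t - (t - q')) ≤ C := fun v hv =>
      hsmall v (mem_pat.1 hv).1 (fun t => d' t - (t - q')) (mem_pat.1 hv).2
    have hminus : ∀ v ∈ unb N U, v ∉ pat N U d q → ∃ C : ℝ, ∀ᶠ t in (U : Filter ℚ),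
        absV N v (d t + (t - q)) ≤ C := by
      intro v hv hvp
      rcases dichotomy hv hd with h1 | h1
      · exact absurd (mem_pat.2 ⟨hv, h1⟩) hvp
      · exact hsmall v hv (fun t => d t + (t - q)) h1
    have hminus' : ∀ v ∈ unb N U, v ∉ pat N U d' q' → ∃ C : ℝ, ∀ᶠ t in (U : Filter ℚ),
        absV N v (d' t + (t - q')) ≤ C := by
      intro v hv hvp
      rcases dichotomy hv hd' with h1 | h1
      · exact absurd (mem_pat.2 ⟨hv, h1⟩) hvp
      · exact hsmall v hv (fun t => d' t + (t - q')) h1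
    have hcomb : ∀ v : Option N.primeFactors, ∀ (g g' f : ℚ → ℚ) (r : ℚ),
        (∃ C : ℝ, ∀ᶠ t in (U : Filter ℚ), absV N v (g t) ≤ C) →
        (∃ C : ℝ, ∀ᶠ t in (U : Filter ℚ), absV N v (g' t) ≤ C) →
        ((∀ t, f t = g t + g' t + r) ∨ (∀ t, f t = g t - g' t + r)) →
        ∃ C : ℝ, ∀ᶠ t in (U : Filter ℚ), absV N v (f t) ≤ C := by
      rintro v g g' f r ⟨C, hC⟩ ⟨C', hC'⟩ hf
      refine ⟨C + C' + absV N v r, ?_⟩
      filter_upwards [hC, hC'] with t h1 h2
      rcases hf with hf | hf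
      · rw [hf t]
        have e1 := (absV N v).add_le (g t + g' t) r
        have e2 := (absV N v).add_le (g t) (g' t)
        linarith
      · rw [hf t]
        have e1 := (absV N v).add_le (g t - g' t) r
        have e2 := (absV N v).sub_le_add (g t) (g' t)
        linarith
    rcases h with h | h
    · refine ⟨1, by norm_num, one_mem _, fun v hv => ?_⟩
      by_cases hvp : v ∈ pat N U d q
      · have hvp' : v ∈ pat N U d' q' := h ▸ hvp
        exact hcomb v _ _ _ (q' - q) (hplus v hvp) (hplus' v hvp') (Or.inr fun t => by ring)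
      · have hvp' : v ∉ pat N U d' q' := h ▸ hvp
        exact hcomb v _ _ _ (q - q') (hminus v hv hvp) (hminus' v hv hvp')
          (Or.inr fun t => by ring)
    · refine ⟨-1, by norm_num, neg_mem (one_mem _), fun v hv => ?_⟩
      by_cases hvp : v ∈ pat N U d q
      · have hvp' : v ∉ pat N U d' q' := by
          rw [h] at hvp
          exact (Finset.mem_sdiff.1 hvp).2
        exact hcomb v _ _ _ (q' - q) (hplus v hvp) (hminus' v hv hvp') (Or.inl fun t => by ring)
      · have hvp' : v ∈ pat N U d' q' := by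
          by_contra h1
          exact hvp (h ▸ Finset.mem_sdiff.2 ⟨hv, h1⟩)
        exact hcomb v _ _ _ (q - q') (hminus v hv hvp) (hplus' v hvp')
          (Or.inl fun t => by ring)
  have hall : ∀ v : Option N.primeFactors, ∃ C : ℝ, ∀ᶠ t in (U : Filter ℚ),
      absV N v (d t - σ * d' t) ≤ C := by
    intro v
    by_cases hv : v ∈ unb N U
    · exact hσv v hv
    · obtain ⟨B, hB⟩ := notMem_unb hv
      refine ⟨(B + absV N v q + absV N v k + 1) +
        absV N v σ * (B + absV N v q' + absV N v k' + 1), ?_⟩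
      filter_upwards [hB, hd, hd'] with t ht h1 h2
      have e1 := (upper (absV N v) h1).1
      have e2 := (upper (absV N v) h2).1
      have e3 := (absV N v).sub_le_add (d t) (σ * d' t)
      rw [map_mul] at e3
      have e4 : absV N v σ * absV N v (d' t) ≤
          absV N v σ * (B + absV N v q' + absV N v k' + 1) :=
        mul_le_mul_of_nonneg_left (by linarith) ((absV N v).nonneg _)
      linarith
  obtain ⟨c, hc⟩ := exists_const_value hN (fun t => d t - σ * d' t)
    (by filter_upwards [hO, hO'] with t h1 h2; exact sub_mem h1 (mul_mem hσO h2)) hall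
  by_cases hc0 : c = 0
  · have hq := quad_zero hcof (a := 0) (b := 2 * (q' - q)) (c := q ^ 2 - q' ^ 2 + k - k') (by
      filter_upwards [hc, hd, hd'] with t h1 h2 h3
      have e : d t = σ * d' t := by linear_combination h1 + hc0
      rw [e] at h2
      linear_combination -h2 + h3 * σ ^ 2 + ((t - q') ^ 2 + k') * hσ)
    have h1 : q = q' := by linarith [hq.2.1]
    refine ⟨h1, ?_⟩
    have h2 := hq.2.2
    rw [h1] at h2
    linarith
  · exfalso
    have hσ0 : σ ≠ 0 := by
      rintro rfl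
      norm_num at hσ
    -- `2 c σ d' = 2 (q' - q) t + (q² - q'² + k - k' - c²)`
    set α : ℚ := 2 * (q' - q) / (2 * c * σ) with hα
    set β : ℚ := (q ^ 2 - q' ^ 2 + k - k' - c ^ 2) / (2 * c * σ) with hβ
    have hlin : ∀ᶠ t in (U : Filter ℚ), d' t = α * t + β := by
      filter_upwards [hc, hd, hd'] with t h1 h2 h3
      have e : d t = σ * d' t + c := by linear_combination h1
      rw [e] at h2
      have e2 : 2 * c * σ * d' t = 2 * (q' - q) * t + (q ^ 2 - q' ^ 2 + k - k' - c ^ 2) := by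
        linear_combination h2 - h3 * σ ^ 2 - ((t - q') ^ 2 + k') * hσ
      rw [hα, hβ]
      field_simp
      linear_combination e2
    have hq := quad_zero hcof (a := α ^ 2 - 1) (b := 2 * α * β + 2 * q')
      (c := β ^ 2 - q' ^ 2 - k') (by
      filter_upwards [hlin, hd'] with t h1 h3
      rw [h1] at h3
      linear_combination h3)
    obtain ⟨h1, h2, h3⟩ := hq
    apply hk'
    have e1 : β = -(α * q') := by
      linear_combination (α / 2) * h2 - β * h1
    rw [e1] at h3
    linear_combination q' ^ 2 * h1 - h3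

/-- the number of points off a line, in coordinates -/
theorem count_coord {κ : ℚ} (hκ : 0 < κ) (hN : N ≠ 0) {S : Set (ℚ × ℚ)}
    {dd : ℚ × ℚ → ℚ × ℚ → ℚ} (h0 : 0 ∈ S) (hdd : ∀ P ∈ S, ∀ Q ∈ S, dd P Q ^ 2 = qf κ (P - Q))
    (hnn : ∀ P ∈ S, ∀ Q ∈ S, 0 ≤ dd P Q) (hO : ∀ P ∈ S, ∀ Q ∈ S, dd P Q ∈ OV N)
    (hinf : {t : ℚ | (t, 0) ∈ S}.Infinite) (F : Finset (ℚ × ℚ))
    (hF : ∀ p ∈ F, p ∈ S ∧ p.2 ≠ 0) :
    F.card ≤ 2 * ((N.primeFactors.card + 1).choose ((N.primeFactors.card + 1) / 2) / 2) := by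
  classical
  set T0 := {t : ℚ | (t, 0) ∈ S} with hT0
  have : NeBot (cofinite ⊓ 𝓟 T0) := hinf.cofinite_inf_principal_neBot
  set U : Ultrafilter ℚ := Ultrafilter.of (cofinite ⊓ 𝓟 T0) with hUdef
  have hUle : (U : Filter ℚ) ≤ cofinite ⊓ 𝓟 T0 := Ultrafilter.of_le _
  have hcof : (U : Filter ℚ) ≤ cofinite := hUle.trans inf_le_left
  have hU : ∀ᶠ t in (U : Filter ℚ), (t, 0) ∈ S := hUle (mem_inf_of_right (mem_principal_self T0))
  have hd : ∀ p ∈ S, ∀ᶠ t in (U : Filter ℚ), dd (t, 0) p ^ 2 = (t - p.1) ^ 2 + κ * p.2 ^ 2 := by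
    intro p hp
    filter_upwards [hU] with t ht
    rw [hdd _ ht _ hp]
    simp [qf]
  have hdO : ∀ p ∈ S, ∀ᶠ t in (U : Filter ℚ), dd (t, 0) p ∈ OV N := by
    intro p hp
    filter_upwards [hU] with t ht
    exact hO _ ht _ hp
  have htO : ∀ᶠ t in (U : Filter ℚ), t ∈ OV N := by
    filter_upwards [hU] with t ht
    have h1 := hdd _ ht _ h0
    have h2 := hO _ ht _ h0
    have h3 : dd (t, 0) 0 ^ 2 = t ^ 2 := by rw [h1]; simp [qf]
    rcases sq_eq_sq_iff_eq_or_eq_neg.1 h3 with h | h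
    · rwa [h] at h2
    · rw [h] at h2
      exact neg_mem_iff.1 h2
  have hne : (unb N U).Nonempty := by
    by_contra hemp
    rw [Finset.not_nonempty_iff_eq_empty] at hemp
    obtain ⟨c, hc⟩ := exists_const_value hN (U := U) (fun t => t) htO (fun v =>
      notMem_unb (by rw [hemp]; exact Finset.notMem_empty v))
    have h1 : {c}ᶜ ∈ (U : Filter ℚ) := hcof (Set.finite_singleton c).compl_mem_cofinite
    exact (Ultrafilter.compl_mem_iff_notMem.1 h1) hc
  -- the pattern of a point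
  let A : ℚ × ℚ → Finset (Option N.primeFactors) := fun p => pat N U (fun t => dd (t, 0) p) p.1
  have hbal : ∀ p ∈ F, Bal U (A p) := by
    intro p hp
    refine bal_pat hN (k := κ * p.2 ^ 2) (mul_ne_zero hκ.ne' (pow_ne_zero 2 (hF p hp).2))
      (hd p (hF p hp).1) ?_
    filter_upwards [htO, hdO p (hF p hp).1] with t h1 h2
    exact ⟨h1, h2⟩
  let Φ : ℚ × ℚ → Finset (Option N.primeFactors) := fun p =>
    if 0 < p.2 then A p else unb N U \ A p
  have hΦ : ∀ p ∈ F, Bal U (Φ p) := by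
    intro p hp
    simp only [Φ]
    split_ifs
    · exact hbal p hp
    · exact (hbal p hp).compl
  have hsame : ∀ p ∈ F, ∀ p' ∈ F, (A p = A p' ∨ A p = unb N U \ A p') →
      p.1 = p'.1 ∧ (p.2 = p'.2 ∨ p.2 = -p'.2) ∧ A p = A p' := by
    intro p hp p' hp' h
    obtain ⟨h1, h2⟩ := same_of_pat hN hcof (mul_ne_zero hκ.ne' (pow_ne_zero 2 (hF p' hp').2))
      (hd p (hF p hp).1) (hd p' (hF p' hp').1) (hdO p (hF p hp).1) (hdO p' (hF p' hp').1) h
    have h3 : p.2 ^ 2 = p'.2 ^ 2 := mul_left_cancel₀ hκ.ne' h2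
    refine ⟨h1, sq_eq_sq_iff_eq_or_eq_neg.1 h3, ?_⟩
    simp only [A]
    rw [h1]
    refine pat_congr ?_
    filter_upwards [hU, hd p (hF p hp).1, hd p' (hF p' hp').1] with t ht e1 e2
    have e3 : dd (t, 0) p ^ 2 = dd (t, 0) p' ^ 2 := by rw [e1, e2, h1, h3]
    exact (sq_eq_sq₀ (hnn _ ht _ (hF p hp).1) (hnn _ ht _ (hF p' hp').1)).1 e3
  have hself : ∀ s ⊆ unb N U, s ≠ unb N U \ s := by
    intro s hs heq
    obtain ⟨v, hv⟩ := hne
    by_cases hvs : v ∈ s
    · have h1 := hvs
      rw [heq] at h1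
      exact (Finset.mem_sdiff.1 h1).2 hvs
    · exact hvs (by rw [heq]; exact Finset.mem_sdiff.2 ⟨hv, hvs⟩)
  have hinj : Set.InjOn Φ (F : Set (ℚ × ℚ)) := by
    intro p hp p' hp' heq
    have hp2 := (hF p hp).2
    have hp2' := (hF p' hp').2
    by_cases h1 : 0 < p.2 <;> by_cases h2 : 0 < p'.2
    · simp only [Φ, if_pos h1, if_pos h2] at heq
      obtain ⟨e1, e2, -⟩ := hsame p hp p' hp' (Or.inl heq)
      rcases e2 with e2 | e2
      · exact Prod.ext e1 e2
      · exfalso
        linarith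
    · simp only [Φ, if_pos h1, if_neg h2] at heq
      obtain ⟨-, -, e3⟩ := hsame p hp p' hp' (Or.inr heq)
      exfalso
      rw [e3] at heq
      exact hself _ (hbal p' hp').1 heq
    · simp only [Φ, if_neg h1, if_pos h2] at heq
      obtain ⟨-, -, e3⟩ := hsame p' hp' p hp (Or.inr heq.symm)
      exfalso
      rw [e3] at heq
      exact hself _ (hbal p hp).1 heq.symm
    · simp only [Φ, if_neg h1, if_neg h2] at heq
      have heq' : A p = A p' := by
        have := congrArg (fun s => unb N U \ s) heq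
        simp only [Finset.sdiff_sdiff_eq_self (hbal p hp).1,
          Finset.sdiff_sdiff_eq_self (hbal p' hp').1] at this
        exact this
      obtain ⟨e1, e2, -⟩ := hsame p hp p' hp' (Or.inl heq')
      rcases e2 with e2 | e2
      · exact Prod.ext e1 e2
      · exfalso
        have h3 : p.2 < 0 := lt_of_le_of_ne (not_lt.1 h1) hp2
        have h4 : p'.2 < 0 := lt_of_le_of_ne (not_lt.1 h2) hp2'
        linarith
  rw [← Finset.card_image_of_injOn hinj]
  refine card_bal hne _ ?_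
  intro s hs
  obtain ⟨p, hp, rfl⟩ := Finset.mem_image.1 hs
  exact hΦ p hp

end Pool.Agent.Lib.MP_bc4313_co
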