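import Mathlib
import Pool.Agent.Lib.MP_bc4313_co.Main
import Pool.Agent.Lib.MP_bc4313_co.Pat

/-!
Infinite sets in the plane with all distances in `ℤ[1/N]`: the number of points off the line.
-/

namespace Pool.Agent.Lib.MP_bc4313_co

open Finset

/-- a set all of whose finite subsets have at most `n` elements -/
theorem finite_of_card_le {α : Type} {E : Set α} {n : ℕ}
    (h : ∀ F : Finset α, ↑F ⊆ E → F.card ≤ n) : E.Finite ∧ E.ncard ≤ n := by
  have hfin : E.Finite := by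
    by_contra hinf
    obtain ⟨F, hF, hcard⟩ := Set.Infinite.exists_subset_card_eq hinf (n + 1)
    have := h F hF
    omega
  refine ⟨hfin, ?_⟩
  rw [Set.ncard_eq_toFinset_card E hfin]
  exact h _ (by simp)

/-- the number of points off a line which contains infinitely many points -/
theorem count_plane {S : Set Plane} {N : ℕ} (hN : N ≠ 0)
    (hS : ∀ P ∈ S, ∀ Q ∈ S, ∃ r : ℚ, r ∈ OV N ∧ dist P Q = r) {α β γ : ℝ} (hαβ : α ≠ 0 ∨ β ≠ 0)
    (hinf : {P ∈ S | α * P 0 + β * P 1 + γ = 0}.Infinite) :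
    {P ∈ S | α * P 0 + β * P 1 + γ ≠ 0}.Finite ∧
      {P ∈ S | α * P 0 + β * P 1 + γ ≠ 0}.ncard ≤
        2 * ((N.primeFactors.card + 1).choose ((N.primeFactors.card + 1) / 2) / 2) := by
  classical
  by_cases hoff : {P ∈ S | α * P 0 + β * P 1 + γ ≠ 0} = ∅
  · rw [hoff]
    simp
  obtain ⟨C, hC, hCne⟩ := Set.nonempty_iff_ne_empty.2 hoff
  obtain ⟨A, hA, hA0⟩ := hinf.nonempty
  obtain ⟨B, ⟨hB, hB0⟩, hBA⟩ := hinf.exists_notMem_finite (Set.finite_singleton A)
  have hAB : A ≠ B := fun h => hBA h.symm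
  have hne : cross A B C ≠ 0 := by
    intro hcr
    have h1 : α * (B 0 - A 0) + β * (B 1 - A 1) = 0 := by linear_combination hB0 - hA0
    have h2 : α * (C 0 - A 0) + β * (C 1 - A 1) = α * C 0 + β * C 1 + γ := by
      linear_combination -hA0
    have h3 : (B 0 - A 0) * (C 1 - A 1) - (B 1 - A 1) * (C 0 - A 0) = 0 := hcr
    rw [← h2] at hCne
    apply hCne
    -- the vectors `B - A` and `C - A` are dependent and `B ≠ A`
    by_cases hx : B 0 - A 0 = 0
    · have hy : B 1 - A 1 ≠ 0 := by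
        intro hy
        exact hAB (plane_ext (by linarith) (by linarith))
      have h4 : β = 0 := by
        have : β * (B 1 - A 1) = 0 := by rw [hx] at h1; linear_combination h1
        exact (mul_eq_zero.1 this).resolve_right hy
      have h5 : C 0 - A 0 = 0 := by
        have : (B 1 - A 1) * (C 0 - A 0) = 0 := by rw [hx] at h3; linear_combination -h3
        exact (mul_eq_zero.1 this).resolve_left hy
      rw [h4, h5]
      ring
    · have h6 : (B 0 - A 0) * (α * (C 0 - A 0) + β * (C 1 - A 1)) = 0 := by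
        linear_combination (C 0 - A 0) * h1 + β * h3
      exact (mul_eq_zero.1 h6).resolve_left hx
  have hS' : RationalDistances S := fun P hP Q hQ => by
    obtain ⟨r, -, hr⟩ := hS P hP Q hQ
    exact ⟨r, hr⟩
  obtain ⟨u0, u1, s, κ, l, hu, hκ, hs, hsκ, hl, hpA, hpB, -, hex⟩ :=
    exists_coord hS' hA hB hC hne
  set T := pt A u0 u1 s with hT
  have hl' : (l : ℝ) ≠ 0 := by exact_mod_cast hl
  have hB0' : B 0 = A 0 + l * u0 := by
    have : (T (l, 0)) 0 = A 0 + l * u0 - s * ((0 : ℚ) : ℝ) * u1 := pt_zero _ _ _ _ _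
    rw [hpB] at this
    rw [this]
    push_cast
    ring
  have hB1' : B 1 = A 1 + l * u1 := by
    have : (T (l, 0)) 1 = A 1 + l * u1 + s * ((0 : ℚ) : ℝ) * u0 := pt_one _ _ _ _ _
    rw [hpB] at this
    rw [this]
    push_cast
    ring
  have hperp : α * u0 + β * u1 = 0 := by
    have h1 : (l : ℝ) * (α * u0 + β * u1) = 0 := by
      rw [hB0', hB1'] at hB0
      linear_combination hB0 - hA0
    exact (mul_eq_zero.1 h1).resolve_left hl'
  have hline : ∀ p : ℚ × ℚ, α * (T p) 0 + β * (T p) 1 + γ = s * p.2 * (β * u0 - α * u1) := by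
    intro p
    have e0 : (T p) 0 = A 0 + p.1 * u0 - s * p.2 * u1 := pt_zero _ _ _ _ _
    have e1 : (T p) 1 = A 1 + p.1 * u1 + s * p.2 * u0 := pt_one _ _ _ _ _
    rw [e0, e1]
    linear_combination hA0 + p.1 * hperp
  have hiff1 : ∀ p : ℚ × ℚ, p.2 = 0 → α * (T p) 0 + β * (T p) 1 + γ = 0 := by
    intro p hp
    rw [hline, hp, Rat.cast_zero, mul_zero, zero_mul]
  have hv : β * u0 - α * u1 ≠ 0 := by
    intro h
    rcases hαβ with h1 | h1
    · exact h1 (by linear_combination u0 * hperp - u1 * h - α * hu)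
    · exact h1 (by linear_combination u1 * hperp + u0 * h - β * hu)
  have hiff2 : ∀ p : ℚ × ℚ, α * (T p) 0 + β * (T p) 1 + γ = 0 → p.2 = 0 := by
    intro p hp
    rw [hline] at hp
    have h1 := (mul_eq_zero.1 hp).resolve_right hv
    exact_mod_cast (mul_eq_zero.1 h1).resolve_left hs
  have hspec : ∀ p q : ℚ × ℚ, T p ∈ S → T q ∈ S → dist (T p) (T q) = dpt T p q :=
    fun p q hp hq => dpt_spec (hS' _ hp _ hq)
  obtain ⟨hfin, hcard⟩ := finite_of_card_le (E := {p : ℚ × ℚ | T p ∈ S ∧ p.2 ≠ 0})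
    (n := 2 * ((N.primeFactors.card + 1).choose ((N.primeFactors.card + 1) / 2) / 2)) (by
    intro F hF
    refine count_coord hκ hN (S := {p | T p ∈ S}) (dd := dpt T) ?_ ?_ ?_ ?_ ?_ F
      (fun p hp => hF hp)
    · rw [Set.mem_ofPred_eq, hpA]
      exact hA
    · intro p hp q hq
      have h2 := dist_pt A (s := s) hu p q
      rw [← hT, hspec p q hp hq, hsκ] at h2
      simp only [qf, Prod.fst_sub, Prod.snd_sub]
      exact_mod_cast h2
    · intro p hp q hq
      have h1 := hspec p q hp hq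
      have h2 : (0 : ℝ) ≤ dpt T p q := by
        rw [← h1]
        exact dist_nonneg
      exact_mod_cast h2
    · intro p hp q hq
      obtain ⟨r, hr, hr'⟩ := hS _ hp _ hq
      rw [hspec p q hp hq] at hr'
      have : dpt T p q = r := by exact_mod_cast hr'
      rw [this]
      exact hr
    · intro hfin
      refine hinf ((hfin.image fun t : ℚ => T (t, 0)).subset ?_)
      rintro P ⟨hP, hP0⟩
      obtain ⟨p, rfl⟩ := hex P hP
      have h2 := hiff2 p hP0
      have h3 : p = (p.1, 0) := Prod.ext rfl h2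
      refine ⟨p.1, ?_, (congrArg T h3).symm⟩
      rw [h3] at hP
      exact hP)
  have hsub : {P ∈ S | α * P 0 + β * P 1 + γ ≠ 0} ⊆ T '' {p : ℚ × ℚ | T p ∈ S ∧ p.2 ≠ 0} := by
    rintro P ⟨hP, hPne⟩
    obtain ⟨p, rfl⟩ := hex P hP
    exact ⟨p, ⟨hP, fun h => hPne (hiff1 p h)⟩, rfl⟩
  exact ⟨(hfin.image T).subset hsub, (Set.ncard_le_ncard hsub (hfin.image T)).trans
    ((Set.ncard_image_le hfin).trans hcard)⟩

/-- infinite sets with all distances in `ℤ[1/N]` -/
theorem integral_count {S : Set Plane} (hinf : S.Infinite) {N : ℕ} (hN : N ≠ 0)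
    (hS : ∀ P ∈ S, ∀ Q ∈ S, ∃ (k : ℕ) (z : ℤ), (N : ℝ) ^ k * dist P Q = z)
    (h : NonSplit N S ∨ ∃ α β γ : ℝ, (α ≠ 0 ∨ β ≠ 0) ∧
      {P ∈ S | α * P 0 + β * P 1 + γ = 0}.Infinite) :
    ∃ α β γ : ℝ, (α ≠ 0 ∨ β ≠ 0) ∧ {P ∈ S | α * P 0 + β * P 1 + γ ≠ 0}.Finite ∧
      {P ∈ S | α * P 0 + β * P 1 + γ ≠ 0}.ncard ≤
        2 * ((N.primeFactors.card + 1).choose ((N.primeFactors.card + 1) / 2) / 2) := by
  have hS' : ∀ P ∈ S, ∀ Q ∈ S, ∃ r : ℚ, r ∈ OV N ∧ dist P Q = r := by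
    intro P hP Q hQ
    obtain ⟨k, z, hz⟩ := hS P hP Q hQ
    have hNk : (N : ℝ) ^ k ≠ 0 := pow_ne_zero k (Nat.cast_ne_zero.2 hN)
    have hNk' : (N : ℚ) ^ k ≠ 0 := pow_ne_zero k (Nat.cast_ne_zero.2 hN)
    refine ⟨z / (N : ℚ) ^ k, ⟨k, z, mul_div_cancel₀ _ hNk'⟩, ?_⟩
    push_cast
    rw [eq_div_iff hNk, mul_comm]
    exact hz
  rcases h with hns | ⟨α, β, γ, hαβ, hline⟩
  · obtain ⟨α, β, γ, hαβ, hfin⟩ := integral_line hN hS' hns hinf
    refine ⟨α, β, γ, hαβ, count_plane hN hS' hαβ ?_⟩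
    intro hfin2
    refine hinf ((hfin.union hfin2).subset fun P hP => ?_)
    by_cases h0 : α * P 0 + β * P 1 + γ = 0
    · exact Or.inr ⟨hP, h0⟩
    · exact Or.inl ⟨hP, h0⟩
  · exact ⟨α, β, γ, hαβ, count_plane hN hS' hαβ hline⟩

end Pool.Agent.Lib.MP_bc4313_co
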